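import Pool.Agent.Lib.MP_c027d2_an.SCV

/-!
Uniform estimates for the Caratheodory family.
-/

open MeasureTheory Metric Set Filter Topology

namespace Pool.Agent.Lib.MP_c027d2_an

variable {n : ℕ}

theorem ip_add_left (a b w : CE n) : ip (a + b) w = ip a w + ip b w := by
  simp [ip_eq]

theorem ip_add_right (a b w : CE n) : ip w (a + b) = ip w a + ip w b := by
  simp [ip_eq]

theorem ip_sub_left (a b w : CE n) : ip (a - b) w = ip a w - ip b w := by
  simp [ip_eq]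

theorem ip_sub_right (a b w : CE n) : ip w (a - b) = ip w a - ip w b := by
  simp [ip_eq]

theorem ip_neg_left (a w : CE n) : ip (-a) w = -ip a w := by
  simp [ip_eq]

theorem ip_neg_right (a w : CE n) : ip w (-a) = -ip w a := by
  simp [ip_eq]

theorem ip_smul_left (c : ℂ) (a w : CE n) : ip (c • a) w = c * ip a w := by
  simp [ip_eq]

theorem ip_smul_right (c : ℂ) (a w : CE n) :
    ip w (c • a) = (starRingEnd ℂ) c * ip w a := by
  rw [ip_eq, ip_eq, inner_smul_left]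

theorem ip_zero_left (w : CE n) : ip 0 w = 0 := by simp [ip_eq]

theorem ip_zero_right (w : CE n) : ip w 0 = 0 := by simp [ip_eq]

theorem ip_conj (a b : CE n) : (starRingEnd ℂ) (ip a b) = ip b a := by
  simp [ip_eq]

theorem ip_self (a : CE n) : ip a a = ((‖a‖ ^ 2 : ℝ) : ℂ) := by
  simp [ip_eq, inner_self_eq_norm_sq_to_K]

theorem norm_ip_le (a b : CE n) : ‖ip a b‖ ≤ ‖a‖ * ‖b‖ := by
  rw [ip_eq, mul_comm]; exact norm_inner_le_norm _ _

theorem norm_ip_comm (a b : CE n) : ‖ip a b‖ = ‖ip b a‖ := by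
  rw [← ip_conj, Complex.norm_conj]

/-- The functional `z ↦ ip z w`. -/
noncomputable def ipL (w : CE n) : CE n →L[ℂ] ℂ := innerSL ℂ w

theorem ipL_apply (w z : CE n) : ipL w z = ip z w := by simp [ipL, ip_eq]

theorem continuous_ip : Continuous fun p : CE n × CE n => ip p.1 p.2 := by
  simp only [ip_eq]; fun_prop

theorem diffOn_ip {X : Type*} [NormedAddCommGroup X] [NormedSpace ℂ X] {g : X → CE n}
    {U : Set X} (hg : DifferentiableOn ℂ g U) (w : CE n) :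
    DifferentiableOn ℂ (fun x => ip (g x) w) U := by
  simp only [← ipL_apply]
  exact (ipL w).differentiable.comp_differentiableOn hg

theorem norm_le_of_ip {a : CE n} {C : ℝ} (hC : 0 ≤ C) (h : ∀ y : CE n, ‖y‖ ≤ 1 → ‖ip a y‖ ≤ C) :
    ‖a‖ ≤ C := by
  rcases eq_or_ne a 0 with rfl | ha
  · simpa using hC
  have h0 : 0 < ‖a‖ := norm_pos_iff.2 ha
  have := h (((‖a‖⁻¹ : ℝ) : ℂ) • a) (by
    rw [norm_smul, Complex.norm_real, Real.norm_eq_abs, abs_of_pos (by positivity),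
      inv_mul_cancel₀ h0.ne'])
  rw [ip_smul_right, ip_self, Complex.conj_ofReal, ← Complex.ofReal_mul, Complex.norm_real,
    Real.norm_eq_abs, abs_of_pos (by positivity)] at this
  have e : ‖a‖⁻¹ * ‖a‖ ^ 2 = ‖a‖ := by field_simp
  rwa [e] at this

theorem InN.hasFDerivAt {A : CE n →L[ℂ] CE n} {h : CE n → CE n} (hh : InN A h) :
    HasFDerivAt h A 0 := by
  have := ((hh.1 0 (mem_ball_self one_pos)).differentiableAt (ball_mem_nhds _ one_pos)).hasFDerivAt
  rwa [hh.2.2.1] at this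

theorem InN.re_nonneg {A : CE n →L[ℂ] CE n} {h : CE n → CE n} (hh : InN A h) {z : CE n}
    (hz : ‖z‖ < 1) : 0 ≤ (ip (h z) z).re := by
  rcases eq_or_ne z 0 with rfl | h0
  · simp [ip_zero_right]
  · exact (hh.2.2.2 z (mem_ball_zero_iff.2 hz) h0).le

theorem norm_ip_self_le {A : CE n →L[ℂ] CE n} {h : CE n → CE n} (hh : InN A h) {z : CE n}
    (hz : ‖z‖ < 1) : ‖ip (h z) z‖ ≤ 4 * (‖A‖ + 1) / (1 - ‖z‖) := by
  rcases eq_or_ne z 0 with rfl | h0
  · simp only [ip_zero_right, norm_zero]; positivity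
  have hz0 : 0 < ‖z‖ := norm_pos_iff.2 h0
  set u : CE n := ((‖z‖⁻¹ : ℝ) : ℂ) • z with hu
  have hu1 : ‖u‖ = 1 := by
    rw [hu, norm_smul, Complex.norm_real, Real.norm_eq_abs, abs_of_pos (by positivity),
      inv_mul_cancel₀ hz0.ne']
  have hzu : z = ((‖z‖ : ℝ) : ℂ) • u := by
    rw [hu, smul_smul, ← Complex.ofReal_mul, mul_inv_cancel₀ hz0.ne']; simp
  have hin : ∀ ζ ∈ ball (0 : ℂ) 1, ζ • u ∈ ball (0 : CE n) 1 := by
    intro ζ hζ
    rw [mem_ball_zero_iff] at *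
    rwa [norm_smul, hu1, mul_one]
  let φ : ℂ → ℂ := fun ζ => ip (h (ζ • u)) u
  have hφ : DifferentiableOn ℂ φ (ball 0 1) := diffOn_ip (hh.1.comp (by fun_prop) hin) u
  have hφ0 : φ 0 = 0 := by simp [φ, hh.2.1, ip_zero_left]
  have hφ1 : deriv φ 0 = ip (A u) u := by
    have h2 : HasDerivAt (fun ζ : ℂ => ζ • u) u 0 := by
      simpa using (hasDerivAt_id (0 : ℂ)).smul_const u
    have h1 : HasFDerivAt h A ((0 : ℂ) • u) := by simpa using hh.hasFDerivAt
    have h3 : HasDerivAt (fun ζ : ℂ => h (ζ • u)) (A u) 0 :=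
      HasFDerivAt.comp_hasDerivAt (f := fun ζ : ℂ => ζ • u) (0 : ℂ) h1 h2
    have h4 := (ipL u).hasFDerivAt.comp_hasDerivAt (0 : ℂ) h3
    rw [← ipL_apply, ← h4.deriv]
    congr 1
  set p := dslope φ 0 with hp
  have hpd : DifferentiableOn ℂ p (ball 0 1) :=
    (Complex.differentiableOn_dslope (ball_mem_nhds _ one_pos)).2 hφ
  have hp0 : ‖p 0‖ ≤ ‖A‖ := by
    rw [hp, dslope_same, hφ1]
    refine (norm_ip_le _ _).trans ?_
    have := A.le_opNorm u
    rw [hu1] at *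
    linarith
  have hpe : ∀ ζ : ℂ, ζ ≠ 0 → ip (h (ζ • u)) (ζ • u) = ((‖ζ‖ ^ 2 : ℝ) : ℂ) * p ζ := by
    intro ζ hζ
    rw [hp, dslope_of_ne _ hζ, slope_def_field, hφ0, ip_smul_right, ← Complex.normSq_eq_norm_sq,
      Complex.normSq_eq_conj_mul_self]
    simp only [φ, sub_zero]
    field_simp
  have hmaps : MapsTo (fun ζ => -p ζ) (ball (0 : ℂ) 1) {z | z.re ≤ ‖A‖ + 1} := by
    intro ζ hζ
    rcases eq_or_ne ζ 0 with rfl | hζ0
    · have := Complex.abs_re_le_norm (p 0)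
      have := neg_abs_le (p 0).re
      simp only [mem_ofPred_eq, Complex.neg_re]
      linarith
    · have h1 := hh.re_nonneg (mem_ball_zero_iff.1 (hin ζ hζ))
      rw [hpe ζ hζ0, Complex.re_ofReal_mul] at h1
      have h2 : 0 < ‖ζ‖ ^ 2 := by positivity
      have h3 : 0 ≤ (p ζ).re := by
        by_contra hc
        push Not at hc
        nlinarith
      simp only [mem_ofPred_eq, Complex.neg_re]
      linarith [norm_nonneg A]
  have hzb : ((‖z‖ : ℝ) : ℂ) ∈ ball (0 : ℂ) 1 := by simpa using hz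
  have hB := Complex.borelCaratheodory (by positivity) hpd.neg hmaps one_pos hzb
  simp only [Pi.neg_apply, norm_neg, Complex.norm_real, norm_norm] at hB
  have h1 : ‖p (‖z‖ : ℝ)‖ ≤ 4 * (‖A‖ + 1) / (1 - ‖z‖) := by
    refine hB.trans ?_
    rw [← add_div]
    gcongr
    nlinarith [norm_nonneg A, norm_nonneg (p 0)]
  have h2 := hpe ((‖z‖ : ℝ) : ℂ) (by exact_mod_cast hz0.ne')
  rw [← hzu] at h2
  rw [h2, norm_mul, Complex.norm_real, Complex.norm_real, norm_norm, Real.norm_eq_abs,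
    abs_of_nonneg (by positivity)]
  have h3 : ‖z‖ ^ 2 ≤ 1 := by nlinarith
  calc ‖z‖ ^ 2 * ‖p (‖z‖ : ℝ)‖ ≤ 1 * ‖p (‖z‖ : ℝ)‖ := by gcongr
    _ ≤ _ := by rwa [one_mul]

theorem growth (A : CE n →L[ℂ] CE n) {r : ℝ} (hr : r < 1) :
    ∃ C, 0 ≤ C ∧ ∀ h, InN A h → ∀ z : CE n, ‖z‖ ≤ r → ‖h z‖ ≤ C := by
  set ρ : ℝ := (1 - r) / 2 with hρ
  have hρ0 : 0 < ρ := by rw [hρ]; linarith
  refine ⟨4 * (‖A‖ + 1) / ρ / ρ, by positivity, fun h hh z hz => ?_⟩
  refine norm_le_of_ip (by positivity) fun y hy => ?_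
  have hnorm : ∀ ζ : ℂ, ‖z + (ζ * ρ) • y‖ ≤ r + ‖ζ‖ * ρ := by
    intro ζ
    refine (norm_add_le _ _).trans ?_
    rw [norm_smul, norm_mul, Complex.norm_real, Real.norm_eq_abs, abs_of_pos hρ0]
    have : ‖ζ‖ * ρ * ‖y‖ ≤ ‖ζ‖ * ρ * 1 := by gcongr
    linarith
  have hin : ∀ ζ ∈ ball (0 : ℂ) 2, z + (ζ * ρ) • y ∈ ball (0 : CE n) 1 := by
    intro ζ hζ
    rw [mem_ball_zero_iff] at *
    refine (hnorm ζ).trans_lt ?_
    nlinarith
  have hg : DifferentiableOn ℂ (fun ζ : ℂ => h (z + (ζ * ρ) • y)) (ball 0 2) :=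
    hh.1.comp (by fun_prop) hin
  let Φ : ℂ → ℂ := fun ζ => ζ * ip (h (z + (ζ * ρ) • y)) z + ρ * ip (h (z + (ζ * ρ) • y)) y
  have hΦ : DifferentiableOn ℂ Φ (ball 0 2) :=
    (differentiableOn_id.mul (diffOn_ip hg z)).add ((diffOn_ip hg y).const_mul _)
  have hcl : closure (ball (0 : ℂ) 1) ⊆ ball 0 2 := by
    rw [closure_ball _ one_ne_zero]; exact closedBall_subset_ball (by norm_num)
  have key := Complex.norm_le_of_forall_mem_frontier_norm_le (f := Φ) (U := ball 0 1)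
    isBounded_ball (hΦ.mono hcl).diffContOnCl (C := 4 * (‖A‖ + 1) / ρ) (z := 0) ?_
    (subset_closure (mem_ball_self one_pos))
  · simp only [Φ, zero_mul, zero_smul, add_zero, zero_add, norm_mul, Complex.norm_real,
      Real.norm_eq_abs, abs_of_pos hρ0] at key
    rw [le_div_iff₀ hρ0]; linarith
  · intro ζ hζ
    rw [frontier_ball _ one_ne_zero, mem_sphere_zero_iff_norm] at hζ
    have h1 : Φ ζ = ζ * ip (h (z + (ζ * ρ) • y)) (z + (ζ * ρ) • y) := by
      have : ζ * (starRingEnd ℂ) ζ = 1 := by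
        rw [Complex.mul_conj, Complex.normSq_eq_norm_sq, hζ]; simp
      simp only [Φ, ip_add_right, ip_smul_right, map_mul, Complex.conj_ofReal]
      linear_combination (-(ρ : ℂ) * ip (h (z + (ζ * ρ) • y)) y) * this
    have h2 := hnorm ζ
    rw [hζ, one_mul] at h2
    have h3 : ‖z + (ζ * ρ) • y‖ < 1 := by linarith
    rw [h1, norm_mul, hζ, one_mul]
    refine (norm_ip_self_le hh h3).trans ?_
    gcongr
    linarith

theorem lip (A : CE n →L[ℂ] CE n) {r : ℝ} (hr : r < 1) :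
    ∃ L, 0 ≤ L ∧ ∀ h, InN A h → ∀ a b : CE n, ‖a‖ ≤ r → ‖b‖ ≤ r →
      ‖h a - h b‖ ≤ L * ‖a - b‖ := by
  set ρ : ℝ := (1 - r) / 2 with hρ
  have hρ0 : 0 < ρ := by rw [hρ]; linarith
  obtain ⟨C, hC, hb⟩ := growth A (r := r + ρ) (by linarith)
  refine ⟨2 * C / ρ, by positivity, fun h hh a b ha hb' => ?_⟩
  have hsub : ∀ y ∈ closedBall (0 : CE n) r, ∀ w ∈ ball y ρ, ‖w‖ ≤ r + ρ := by
    intro y hy w hw
    rw [mem_closedBall_zero_iff] at hy
    rw [mem_ball, dist_eq_norm] at hw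
    have := norm_add_le (w - y) y
    rw [sub_add_cancel] at this
    linarith
  refine Convex.norm_image_sub_le_of_norm_fderiv_le (𝕜 := ℂ) (s := closedBall 0 r) ?_ ?_
    (convex_closedBall _ _) (mem_closedBall_zero_iff.2 hb') (mem_closedBall_zero_iff.2 ha)
  · intro y hy
    have : y ∈ ball (0 : CE n) 1 := closedBall_subset_ball hr hy
    exact (hh.1 y this).differentiableAt (isOpen_ball.mem_nhds this)
  · intro y hy
    refine norm_fderiv_le_of_bound hρ0 (hh.1.mono fun w hw => ?_)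
      fun w hw => hb h hh w (hsub y hy w hw)
    rw [mem_ball_zero_iff]
    linarith [hsub y hy w hw]

theorem HasQuad.norm_le {N : CE n → CE n} {x q : CE n} {C : ℝ} (hq : HasQuad N x q)
    (hN : ∀ y : CE n, ‖y‖ < 1 / 2 → ‖N y‖ ≤ C * ‖y‖ ^ 2) : ‖q‖ ≤ C * ‖x‖ ^ 2 := by
  refine le_of_tendsto hq.norm ?_
  have h1 : Tendsto (fun ζ : ℂ => ‖ζ • x‖) (𝓝[≠] 0) (𝓝 0) := by
    have : Continuous fun ζ : ℂ => ‖ζ • x‖ := by fun_prop
    simpa using (this.tendsto 0).mono_left nhdsWithin_le_nhds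
  filter_upwards [h1.eventually (gt_mem_nhds (show (0 : ℝ) < 1 / 2 by norm_num)),
    self_mem_nhdsWithin] with ζ h2 h3
  have h3' : 0 < ‖ζ‖ := norm_pos_iff.2 h3
  have := hN _ h2
  rw [norm_smul, norm_inv, norm_pow, inv_mul_le_iff₀ (by positivity)]
  rw [norm_smul] at this
  nlinarith

theorem quadC (A : CE n →L[ℂ] CE n) : ∃ C, 0 ≤ C ∧ ∀ h, InN A h →
    (∀ y : CE n, ‖y‖ < 1 / 2 → ‖h y - A y‖ ≤ C * ‖y‖ ^ 2) ∧
    (∀ (ρ : ℝ) (a b : CE n), 0 < ρ → ρ ≤ 1 / 8 → ‖a‖ ≤ ρ → ‖b‖ ≤ ρ →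
      ‖(h a - A a) - (h b - A b)‖ ≤ 8 * C * ρ * ‖a - b‖) ∧
    (∀ (x q : CE n) (X : ℝ), HasQuad (fun y => h y - A y) x q → 0 < X → ‖x‖ ≤ X →
      ∀ ζ : ℂ, ‖ζ‖ * X < 1 / 2 →
        ‖(h (ζ • x) - A (ζ • x)) - ζ ^ 2 • q‖ ≤ 4 * C * (‖ζ‖ * X) ^ 3) := by
  obtain ⟨C₀, hC₀, hb⟩ := growth A (r := 1 / 2) (by norm_num)
  refine ⟨4 * (C₀ + ‖A‖), by positivity, fun h hh => ?_⟩
  have hd : DifferentiableOn ℂ (fun y => h y - A y) (ball 0 1) :=
    hh.1.sub A.differentiable.differentiableOn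
  have h1 : ∀ y : CE n, ‖y‖ < 1 / 2 → ‖h y - A y‖ ≤ 4 * (C₀ + ‖A‖) * ‖y‖ ^ 2 := by
    intro y hy
    have key := Complex.dist_le_mul_div_pow_of_mapsTo_ball_of_isLittleO
      (f := fun y => h y - A y) (c := 0) (z := y) (R₁ := 1 / 2) (R₂ := C₀ + ‖A‖) (n := 1)
      (hd.mono (ball_subset_ball (by norm_num))) ?_ ?_ (mem_ball_zero_iff.2 hy)
    · simp only [hh.2.1, map_zero, sub_zero, dist_zero_right] at key
      refine key.trans_eq ?_
      ring
    · intro w hw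
      rw [mem_ball_zero_iff] at hw
      simp only [hh.2.1, map_zero, sub_zero, mem_closedBall_zero_iff]
      refine (norm_sub_le _ _).trans ?_
      have := A.le_opNorm w
      have := hb h hh w hw.le
      nlinarith [norm_nonneg A]
    · have := hh.hasFDerivAt.isLittleO.norm_right
      simpa [hh.2.1] using this
  refine ⟨h1, ?_, ?_⟩
  · intro ρ a b hρ0 hρ ha hb'
    refine Convex.norm_image_sub_le_of_norm_fderiv_le (𝕜 := ℂ) (f := fun y => h y - A y)
      (s := closedBall 0 ρ) ?_ ?_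
      (convex_closedBall _ _) (mem_closedBall_zero_iff.2 hb') (mem_closedBall_zero_iff.2 ha)
    · intro y hy
      have : y ∈ ball (0 : CE n) 1 := closedBall_subset_ball (by linarith) hy
      exact (hd y this).differentiableAt (isOpen_ball.mem_nhds this)
    · intro y hy
      have hsub : ∀ w ∈ ball y ρ, ‖w‖ ≤ 2 * ρ := by
        intro w hw
        rw [mem_closedBall_zero_iff] at hy
        rw [mem_ball, dist_eq_norm] at hw
        have := norm_add_le (w - y) y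
        rw [sub_add_cancel] at this
        linarith
      refine (norm_fderiv_le_of_bound (B := 4 * (C₀ + ‖A‖) * (2 * ρ) ^ 2) hρ0
        (hd.mono fun w hw => ?_) fun w hw => ?_).trans_eq ?_
      · rw [mem_ball_zero_iff]
        linarith [hsub w hw]
      · refine (h1 w (by linarith [hsub w hw])).trans ?_
        gcongr
        exact hsub w hw
      · field_simp
        ring
  · intro x q X hq hX hx ζ hζ
    have hqn := hq.norm_le h1
    have hin : ∀ ξ ∈ ball (0 : ℂ) (1 / (2 * X)), ‖ξ‖ * X < 1 / 2 ∧ ‖ξ • x‖ ≤ ‖ξ‖ * X := by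
      intro ξ hξ
      rw [mem_ball_zero_iff, lt_div_iff₀ (by positivity)] at hξ
      refine ⟨by linarith, ?_⟩
      rw [norm_smul]; gcongr
    have key := Complex.dist_le_mul_div_pow_of_mapsTo_ball_of_isLittleO
      (f := fun ξ : ℂ => (h (ξ • x) - A (ξ • x)) - ξ ^ 2 • q) (c := 0) (z := ζ)
      (R₁ := 1 / (2 * X)) (R₂ := 2 * (C₀ + ‖A‖)) (n := 2) ?_ ?_ ?_ ?_
    · simp only [hh.2.1, map_zero, sub_zero, dist_zero_right, zero_smul, ne_eq,
        OfNat.ofNat_ne_zero, not_false_eq_true, zero_pow] at key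
      refine key.trans_eq ?_
      field_simp
      ring
    · refine DifferentiableOn.sub (hd.comp (by fun_prop) fun ξ hξ => ?_) (by fun_prop)
      rw [mem_ball_zero_iff]
      linarith [hin ξ hξ]
    · intro ξ hξ
      obtain ⟨h2, h3⟩ := hin ξ hξ
      simp only [hh.2.1, map_zero, sub_zero, zero_smul, ne_eq,
        OfNat.ofNat_ne_zero, not_false_eq_true, zero_pow, mem_closedBall_zero_iff]
      refine (norm_sub_le _ _).trans ?_
      have h4 := h1 _ (h3.trans_lt h2)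
      have h5 : ‖ξ ^ 2 • q‖ ≤ 4 * (C₀ + ‖A‖) * ‖ξ • x‖ ^ 2 := by
        rw [norm_smul, norm_smul, norm_pow, mul_pow]
        nlinarith [sq_nonneg ‖ξ‖]
      have h6 : ‖ξ • x‖ ^ 2 ≤ (1 / 2) ^ 2 := by gcongr; linarith
      nlinarith [norm_nonneg A]
    · simp only [hh.2.1, map_zero, sub_zero, zero_smul, ne_eq,
        OfNat.ofNat_ne_zero, not_false_eq_true, zero_pow]
      rw [Asymptotics.isLittleO_iff]
      intro c hc
      have h2 := (tendsto_iff_norm_sub_tendsto_zero.1 hq).eventually (ge_mem_nhds hc)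
      rw [eventually_nhdsWithin_iff] at h2
      filter_upwards [h2] with ξ hξ
      rcases eq_or_ne ξ 0 with rfl | h0
      · simp [hh.2.1]
      · have h3 := hξ h0
        have e : h (ξ • x) - A (ξ • x) - ξ ^ 2 • q =
            ξ ^ 2 • ((ξ ^ 2)⁻¹ • (h (ξ • x) - A (ξ • x)) - q) := by
          rw [smul_sub, smul_smul, mul_inv_cancel₀ (pow_ne_zero 2 h0), one_smul]
        rw [e, norm_smul, norm_pow, norm_pow, norm_norm, mul_comm]
        gcongr
    · rw [mem_ball_zero_iff, lt_div_iff₀ (by positivity)]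
      linarith

theorem InN.exists_hasQuad {A : CE n →L[ℂ] CE n} {h : CE n → CE n} (hh : InN A h) (x : CE n) :
    HasQuad (fun y => h y - A y) x (taylorTerm 2 h x) :=
  hasQuad_taylorTerm one_pos hh.1 hh.2.1 hh.2.2.1 x

end Pool.Agent.Lib.MP_c027d2_an
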