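import Mathlib

/-!
Definitions for Loewner reachable families in the Euclidean unit ball.
-/

open MeasureTheory Metric Set

namespace Pool.Agent.Lib.MP_c027d2_an

/-- Complex Euclidean `n`-space. -/
abbrev CE (n : ℕ) : Type := EuclideanSpace ℂ (Fin n)

/-- Complex linear maps of Euclidean `n`-space. -/
abbrev Op (n : ℕ) : Type := CE n →L[ℂ] CE n

/-- The operator exponential `e^{tA}`. -/
noncomputable def expm {n : ℕ} (t : ℝ) (A : Op n) : Op n := NormedSpace.exp (t • A)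

/-- The adjoint operator (Mathlib's `star` on operators of a Hilbert space is the adjoint). -/
noncomputable def adj {n : ℕ} (A : Op n) : Op n := star A

/-- The identity operator. -/
noncomputable def idOp (n : ℕ) : Op n := ContinuousLinearMap.id ℂ (CE n)

/-- The Euclidean inner product, the sum of `z j * conj (w j)`. -/
noncomputable def ip {n : ℕ} (z w : CE n) : ℂ := ∑ j, z j * (starRingEnd ℂ) (w j)

/-- The Caratheodory family `N_A`. -/
def InN {n : ℕ} (A : Op n) (h : CE n → CE n) : Prop :=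
  DifferentiableOn ℂ h (ball 0 1) ∧ h 0 = 0 ∧ fderiv ℂ h 0 = A ∧
    ∀ z ∈ ball (0 : CE n) 1, z ≠ 0 → 0 < (ip (h z) z).re

/-- The normalized time `T` reachable family `R_T(A)`. -/
def Reach {n : ℕ} (A : Op n) (T : ℝ) : Set (CE n → CE n) :=
  {f | ∃ h v : CE n → ℝ → CE n,
    (∀ t ∈ Icc (0 : ℝ) T, InN A (fun z => h z t)) ∧
    (∀ z ∈ ball (0 : CE n) 1, AEMeasurable (h z) (volume.restrict (Icc (0 : ℝ) T))) ∧
    (∀ z ∈ ball (0 : CE n) 1,
      (∃ K, LipschitzOnWith K (v z) (Icc (0 : ℝ) T)) ∧ v z 0 = z ∧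
      (∀ t ∈ Icc (0 : ℝ) T, v z t ∈ ball (0 : CE n) 1) ∧
      ∀ᵐ t ∂(volume.restrict (Icc (0 : ℝ) T)), HasDerivAt (v z) (-h (v z t) t) t) ∧
    ∀ z ∈ ball (0 : CE n) 1, f z = expm T A (v z T)}

/-- The homogeneous term `P_m(z) = D^m f(0)(z, ..., z) / m!`. -/
noncomputable def taylorTerm {n : ℕ} (m : ℕ) (f : CE n → CE n) (z : CE n) : CE n :=
  ((m.factorial : ℂ)⁻¹) • iteratedFDeriv ℂ m f 0 (fun _ => z)

/-- The explicit function of one real variable `s` whose infimum is `sigma A x y`. -/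
noncomputable def cost {n : ℕ} (A : Op n) (x y : CE n) (s : ℝ) : ℝ :=
  (ip (A x) x).re / s +
    s * (ip (A y) y).re * (‖x‖ ^ 2 - s ^ 2 * ‖ip x y‖ ^ 2) / (1 - s ^ 2 * ‖y‖ ^ 2)

/-- The infimum of `cost A x y s` over `s > 0` with `s * ‖y‖ < 1`. -/
noncomputable def sigma {n : ℕ} (A : Op n) (x y : CE n) : ℝ :=
  sInf (cost A x y '' {s : ℝ | 0 < s ∧ s * ‖y‖ < 1})

/-- The integral over `[0, T]` of `sigma A (e^{-tA} z) (e^{tA*} w)`. -/
noncomputable def secondBound {n : ℕ} (A : Op n) (T : ℝ) (z w : CE n) : ℝ :=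
  ∫ t in (0 : ℝ)..T, sigma A (expm (-t) A z) (expm t (adj A) w)

/-- The norm of a homogeneous map: the supremum of `‖P z‖` over the unit sphere. -/
noncomputable def sphereNorm {n : ℕ} (P : CE n → CE n) : ℝ :=
  sSup ((fun z => ‖P z‖) '' sphere 0 1)

end Pool.Agent.Lib.MP_c027d2_an
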