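import Pool.Agent.Lib.MP_c027d2_an.Cara

/-!
The upper bound for second order terms, from proper quadratic discs in the ball.
-/

open MeasureTheory Metric Set Filter Topology

namespace Pool.Agent.Lib.MP_c027d2_an

variable {n : ℕ}

theorem HasQuad.smul {N : CE n → CE n} {x q : CE n} (hq : HasQuad N x q) {c : ℂ} (hc : c ≠ 0) :
    HasQuad N (c • x) (c ^ 2 • q) := by
  have h1 : Tendsto (fun ζ : ℂ => ζ * c) (𝓝[≠] 0) (𝓝[≠] 0) := by
    refine tendsto_nhdsWithin_iff.2 ⟨?_, ?_⟩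
    · have : Continuous fun ζ : ℂ => ζ * c := by fun_prop
      simpa using (this.tendsto 0).mono_left nhdsWithin_le_nhds
    · filter_upwards [self_mem_nhdsWithin] with ζ hζ
      exact mul_ne_zero hζ hc
  have h2 := (hq.comp h1).const_smul (c ^ 2)
  refine h2.congr fun ζ => ?_
  simp only [Function.comp, smul_smul]
  congr 1
  field_simp

theorem norm_sq_add_smul (x d : CE n) (ζ : ℂ) :
    ‖x + ζ • d‖ ^ 2 = ‖x‖ ^ 2 + 2 * (ip d x * ζ).re + ‖ζ‖ ^ 2 * ‖d‖ ^ 2 := by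
  rw [@norm_add_sq ℂ, inner_smul_right, norm_smul, mul_pow, ip_eq, mul_comm ζ]
  rfl

theorem norm_sq_one_add (w : ℂ) : ‖1 + w‖ ^ 2 = 1 + 2 * w.re + ‖w‖ ^ 2 := by
  rw [Complex.sq_norm, Complex.sq_norm, Complex.normSq_apply, Complex.normSq_apply]
  simp; ring

theorem disc_bound {A : CE n →L[ℂ] CE n} {h : CE n → CE n} (hh : InN A h) {x d q : CE n}
    (hq : HasQuad (fun y => h y - A y) x q) (hd1 : ‖d‖ < 1)
    (hrel : ‖x‖ ^ 2 + ‖d‖ ^ 2 = 1 + ‖ip d x‖ ^ 2) :
    -(ip q d).re ≤ (ip (A x) x).re + (ip (A d) d).re := by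
  obtain ⟨C, hC, hCq⟩ := quadC A
  obtain ⟨-, hlip, -⟩ := hCq h hh
  set β := ip d x with hβ
  have hβ1 : ‖β‖ ≤ ‖d‖ * ‖x‖ := norm_ip_le d x
  have hx1 : ‖x‖ ≤ 1 := by
    by_contra hc
    push Not at hc
    have h1 : ‖β‖ ^ 2 ≤ (‖d‖ * ‖x‖) ^ 2 := by gcongr
    have h2 : ‖d‖ ^ 2 < 1 := by nlinarith [norm_nonneg d]
    have h3 : 1 < ‖x‖ ^ 2 := by nlinarith
    nlinarith
  have hβ2 : ‖β‖ ≤ ‖d‖ := by nlinarith [norm_nonneg d, norm_nonneg x]
  have hden : ∀ ζ : ℂ, ‖ζ‖ ≤ 1 → 1 + β * ζ ≠ 0 := by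
    intro ζ hζ h0
    have h1 : β * ζ = -1 := by linear_combination h0
    have h2 : ‖β * ζ‖ = 1 := by rw [h1]; simp
    rw [norm_mul] at h2
    nlinarith [norm_nonneg β, norm_nonneg ζ]
  let ψ : ℂ → CE n := fun ζ => (ζ / (1 + β * ζ)) • (x + ζ • d)
  have hψ : ∀ ζ : ℂ, ‖ζ‖ ≤ 1 → ‖ψ ζ‖ ≤ 1 := by
    intro ζ hζ
    have h0 : 0 < ‖1 + β * ζ‖ := norm_pos_iff.2 (hden ζ hζ)
    simp only [ψ]
    rw [norm_smul, norm_div, div_mul_eq_mul_div, div_le_one h0]
    refine (sq_le_sq₀ (by positivity) (by positivity)).1 ?_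
    have h1 := norm_sq_one_add (β * ζ)
    have h2 := norm_sq_add_smul x d ζ
    have h3 : 0 ≤ 1 + 2 * (β * ζ).re + ‖ζ‖ ^ 2 * ‖d‖ ^ 2 := by
      have : ‖β * ζ‖ ^ 2 ≤ ‖ζ‖ ^ 2 * ‖d‖ ^ 2 := by
        rw [norm_mul, mul_pow, mul_comm]; gcongr
      nlinarith [sq_nonneg ‖1 + β * ζ‖]
    have h4 : 0 ≤ 1 - ‖ζ‖ ^ 2 := by nlinarith [norm_nonneg ζ]
    rw [mul_pow, h1, h2, norm_mul, mul_pow, ← hβ]
    have h5 : ‖x‖ ^ 2 = 1 + ‖β‖ ^ 2 - ‖d‖ ^ 2 := by linarith
    rw [h5]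
    nlinarith [mul_nonneg h3 h4]
  have main : ∀ r : ℝ, 0 < r → r < 1 →
      -(r * (ip q d).re) ≤ (ip (A x) x).re + (ip (A d) d).re := by
    intro r hr0 hr1
    have hw : ∀ ζ : ℂ, ‖ζ‖ ≤ 1 → ‖(r : ℂ) • ψ ζ‖ < 1 := by
      intro ζ hζ
      rw [norm_smul, Complex.norm_real, Real.norm_eq_abs, abs_of_pos hr0]
      nlinarith [hψ ζ hζ, norm_nonneg (ψ ζ)]
    let Nw : ℂ → CE n := fun ζ => h ((r : ℂ) • ψ ζ) - A ((r : ℂ) • ψ ζ)
    have hNw : DifferentiableOn ℂ Nw (closedBall 0 1) := by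
      have hψd : DifferentiableOn ℂ (fun ζ => (r : ℂ) • ψ ζ) (closedBall 0 1) := by
        have a1 : DifferentiableOn ℂ (fun ζ : ℂ => ζ / (1 + β * ζ)) (closedBall 0 1) :=
          differentiableOn_id.div (by fun_prop)
            fun ζ hζ => hden ζ (mem_closedBall_zero_iff.1 hζ)
        have a2 : DifferentiableOn ℂ (fun ζ : ℂ => x + ζ • d) (closedBall 0 1) := by fun_prop
        exact (a1.smul a2).const_smul (r : ℂ)
      exact (hh.1.sub A.differentiable.differentiableOn).comp hψd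
        fun ζ hζ => mem_ball_zero_iff.2 (hw ζ (mem_closedBall_zero_iff.1 hζ))
    have hlim : Tendsto (fun ζ : ℂ => (ζ ^ 2)⁻¹ • Nw ζ) (𝓝[≠] 0) (𝓝 ((r : ℂ) ^ 2 • q)) := by
      have h1 := hq.smul (c := (r : ℂ)) (by exact_mod_cast hr0.ne')
      have h2 : Tendsto (fun ζ : ℂ => (ζ ^ 2)⁻¹ • Nw ζ -
          (ζ ^ 2)⁻¹ • (h (ζ • (r : ℂ) • x) - A (ζ • (r : ℂ) • x))) (𝓝[≠] 0) (𝓝 0) := by
        have h3 : Tendsto (fun ζ : ℂ => 64 * C * ‖ζ‖) (𝓝[≠] 0) (𝓝 0) := by
          have : Continuous fun ζ : ℂ => 64 * C * ‖ζ‖ := by fun_prop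
          simpa using (this.tendsto 0).mono_left nhdsWithin_le_nhds
        refine squeeze_zero_norm' ?_ h3
        have h4 : ∀ᶠ ζ : ℂ in 𝓝[≠] 0, ‖ζ‖ < 1 / 16 := by
          apply mem_nhdsWithin_of_mem_nhds
          simpa using ball_mem_nhds (0 : ℂ) (show (0 : ℝ) < 1 / 16 by norm_num) |>
            fun h => mem_of_superset h fun ζ hζ => by simpa using hζ
        filter_upwards [h4, self_mem_nhdsWithin] with ζ hζ hζ0
        have hζ0' : 0 < ‖ζ‖ := norm_pos_iff.2 hζ0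
        have hd0 := hden ζ (by linarith)
        have hden2 : 1 / 2 ≤ ‖1 + β * ζ‖ := by
          have := norm_sub_le (1 + β * ζ) (β * ζ)
          rw [add_sub_cancel_right, norm_one, norm_mul] at this
          nlinarith [norm_nonneg β]
        have e : (r : ℂ) • ψ ζ - ζ • (r : ℂ) • x =
            ((r : ℂ) * ζ ^ 2 / (1 + β * ζ)) • (d - β • x) := by
          simp only [ψ, smul_add, smul_sub, smul_smul]
          have : (r : ℂ) * (ζ / (1 + β * ζ)) - ζ * r = -(r * ζ ^ 2 / (1 + β * ζ) * β) := by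
            have h6 : (1 + β * ζ) * (1 + β * ζ)⁻¹ = 1 := mul_inv_cancel₀ hd0
            simp only [div_eq_mul_inv]
            linear_combination (r * ζ : ℂ) * h6
          have h5 : (r : ℂ) * (ζ / (1 + β * ζ) * ζ) = r * ζ ^ 2 / (1 + β * ζ) := by
            field_simp
          rw [h5, add_sub_right_comm, ← sub_smul, this, neg_smul]
          abel
        have h6 : ‖(r : ℂ) • ψ ζ - ζ • (r : ℂ) • x‖ ≤ 4 * ‖ζ‖ ^ 2 := by
          rw [e, norm_smul, norm_div, norm_mul, norm_pow, Complex.norm_real, Real.norm_eq_abs,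
            abs_of_pos hr0]
          have h7 : ‖d - β • x‖ ≤ 2 := by
            refine (norm_sub_le _ _).trans ?_
            rw [norm_smul]
            nlinarith [norm_nonneg β, norm_nonneg x]
          have h8 : r * ‖ζ‖ ^ 2 / ‖1 + β * ζ‖ ≤ 2 * ‖ζ‖ ^ 2 := by
            rw [div_le_iff₀ (by linarith)]
            nlinarith [sq_nonneg ‖ζ‖]
          calc _ ≤ 2 * ‖ζ‖ ^ 2 * 2 := by gcongr
            _ = _ := by ring
        have h9 : ‖ζ • (r : ℂ) • x‖ ≤ ‖ζ‖ := by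
          rw [norm_smul, norm_smul, Complex.norm_real, Real.norm_eq_abs, abs_of_pos hr0]
          have : r * ‖x‖ ≤ 1 := by nlinarith [norm_nonneg x]
          nlinarith
        have h10 : ‖(r : ℂ) • ψ ζ‖ ≤ 2 * ‖ζ‖ := by
          have := norm_add_le ((r : ℂ) • ψ ζ - ζ • (r : ℂ) • x) (ζ • (r : ℂ) • x)
          rw [sub_add_cancel] at this
          nlinarith
        have h11 := hlip (2 * ‖ζ‖) _ _ (by positivity) (by linarith) h10 (h9.trans (by linarith))
        rw [← smul_sub, norm_smul, norm_inv, norm_pow, inv_mul_le_iff₀ (by positivity)]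
        refine h11.trans ?_
        calc _ ≤ 8 * C * (2 * ‖ζ‖) * (4 * ‖ζ‖ ^ 2) := by gcongr
          _ = _ := by ring
      simpa using h2.add h1
    let k : ℂ → ℂ := fun ζ => (ζ ^ 2)⁻¹ * ((1 + β * ζ) * (ζ * ip (Nw ζ) x + ip (Nw ζ) d))
    have hk : Tendsto k (𝓝[≠] 0) (𝓝 ((r : ℂ) ^ 2 * ip q d)) := by
      have h0 : Tendsto (fun ζ : ℂ => ζ) (𝓝[≠] 0) (𝓝 0) := tendsto_id.mono_left nhdsWithin_le_nhds
      have h1 := ((ipL x).continuous.tendsto _).comp hlim
      have h2 := ((ipL d).continuous.tendsto _).comp hlim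
      have h3 := ((h0.const_mul β).const_add 1).mul ((h0.mul h1).add h2)
      simp only [mul_zero, add_zero, zero_mul, zero_add, one_mul, ipL_apply, ip_smul_left] at h3
      refine h3.congr fun ζ => ?_
      simp only [k, Function.comp, ipL_apply, ip_smul_left]
      ring
    let Φ : ℂ → ℂ := Function.update k 0 ((r : ℂ) ^ 2 * ip q d)
    have hΦ : DifferentiableOn ℂ Φ (closedBall 0 1) := by
      refine (Complex.differentiableOn_compl_singleton_and_continuousAt_iff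
        (closedBall_mem_nhds (0 : ℂ) one_pos)).1 ⟨?_, continuousAt_update_same.2 hk⟩
      have hkd : DifferentiableOn ℂ k (closedBall 0 1 \ {0}) := by
        refine DifferentiableOn.mul ?_ ?_
        · exact DifferentiableOn.inv (by fun_prop) fun ζ hζ => pow_ne_zero 2 hζ.2
        · refine DifferentiableOn.mul (by fun_prop) ?_
          exact (differentiableOn_id.mul (diffOn_ip (hNw.mono sdiff_subset) x)).add
            (diffOn_ip (hNw.mono sdiff_subset) d)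
      exact hkd.congr fun ζ hζ => Function.update_of_ne hζ.2 _ _
    let Ψ : ℂ → ℂ := fun ζ => Φ ζ + r * (ip (A x) x + ip (A d) d + ζ * ip (A d) x +
      ζ * (starRingEnd ℂ) (ip (A x) d))
    have hΨ : DifferentiableOn ℂ Ψ (closedBall 0 1) := hΦ.add (by fun_prop)
    have hbd : ∀ ζ : ℂ, ‖ζ‖ = 1 → 0 ≤ (Ψ ζ).re := by
      intro ζ hζ
      have hζ0 : ζ ≠ 0 := by rintro rfl; simp at hζ
      have hc : (starRingEnd ℂ) ζ = ζ⁻¹ := by
        rw [Complex.inv_def, Complex.normSq_eq_norm_sq, hζ]; simp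
      have hd0 := hden ζ hζ.le
      have hd0' : (starRingEnd ℂ) (1 + β * ζ) ≠ 0 := (map_ne_zero _).2 hd0
      have h1 := hh.re_nonneg (hw ζ hζ.le)
      set g := h ((r : ℂ) • ψ ζ) with hg
      have h2 : Φ ζ = k ζ := Function.update_of_ne hζ0 _ _
      have h3 : ((‖1 + β * ζ‖ ^ 2 / r : ℝ) : ℂ) * ip g ((r : ℂ) • ψ ζ) =
          k ζ + r * (ip (A x) x + ip (A d) d + ζ * ip (A d) x + ζ⁻¹ * (ip (A x) d)) := by
        have hr' : (r : ℂ) ≠ 0 := by exact_mod_cast hr0.ne'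
        rw [Complex.ofReal_div, ← Complex.normSq_eq_norm_sq, Complex.normSq_eq_conj_mul_self]
        simp only [k, Nw, ← hg, ip_sub_left]
        simp only [ψ, map_smul, map_add A, ip_smul_left, ip_add_left, ip_smul_right, ip_add_right,
          map_div₀, Complex.conj_ofReal, hc]
        field_simp
        ring
      have h4 : (ζ⁻¹ * ip (A x) d).re = (ζ * (starRingEnd ℂ) (ip (A x) d)).re := by
        rw [← hc, ← Complex.conj_re, map_mul, Complex.conj_conj]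
      have h5 : (Ψ ζ).re = ‖1 + β * ζ‖ ^ 2 / r * (ip g ((r : ℂ) • ψ ζ)).re := by
        rw [← Complex.re_ofReal_mul, h3]
        simp only [Ψ, h2, Complex.add_re, Complex.re_ofReal_mul, h4]
      rw [h5]
      positivity
    have key := Complex.norm_le_of_forall_mem_frontier_norm_le
      (f := fun ζ => Complex.exp (-Ψ ζ)) (U := ball 0 1) isBounded_ball
      (DifferentiableOn.diffContOnCl (by
        rw [closure_ball _ one_ne_zero]; exact hΨ.neg.cexp)) (C := 1) (z := 0) ?_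
      (subset_closure (mem_ball_self one_pos))
    · rw [Complex.norm_exp, Real.exp_le_one_iff] at key
      simp only [Ψ, Φ, Function.update_self, zero_mul, add_zero, Complex.neg_re, Complex.add_re,
        Complex.re_ofReal_mul, ← Complex.ofReal_pow] at key
      by_contra hc
      push Not at hc
      nlinarith
    · intro ζ hζ
      rw [frontier_ball _ one_ne_zero, mem_sphere_zero_iff_norm] at hζ
      rw [Complex.norm_exp, Real.exp_le_one_iff, Complex.neg_re]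
      linarith [hbd ζ hζ]
  have h1 : Tendsto (fun r : ℝ => -(r * (ip q d).re)) (𝓝[<] 1) (𝓝 (-(1 * (ip q d).re))) := by
    have : Continuous fun r : ℝ => -(r * (ip q d).re) := by fun_prop
    exact (this.tendsto 1).mono_left nhdsWithin_le_nhds
  rw [one_mul] at h1
  refine le_of_tendsto h1 ?_
  filter_upwards [Ioo_mem_nhdsLT (show (0 : ℝ) < 1 by norm_num)] with r hr
  exact main r hr.1 hr.2

theorem den_pos {y : CE n} {s : ℝ} (hs : 0 < s) (hsy : s * ‖y‖ < 1) : 0 < 1 - s ^ 2 * ‖y‖ ^ 2 := by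
  have : 0 ≤ s * ‖y‖ := by positivity
  nlinarith

theorem num_ge (x y : CE n) (s : ℝ) :
    ‖x‖ ^ 2 * (1 - s ^ 2 * ‖y‖ ^ 2) ≤ ‖x‖ ^ 2 - s ^ 2 * ‖ip x y‖ ^ 2 := by
  have h1 : ‖ip x y‖ ^ 2 ≤ (‖x‖ * ‖y‖) ^ 2 := by gcongr; exact norm_ip_le x y
  nlinarith [sq_nonneg s]

theorem neg_re_le_cost {A : CE n →L[ℂ] CE n} {h : CE n → CE n} (hh : InN A h) {x y q : CE n}
    (hq : HasQuad (fun y => h y - A y) x q) {s : ℝ} (hs : 0 < s) (hsy : s * ‖y‖ < 1) :
    -(ip q y).re ≤ cost A x y s := by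
  rcases eq_or_ne x 0 with rfl | hx
  · obtain ⟨C, -, hC⟩ := quadC A
    have h1 := hq.norm_le (hC h hh).1
    have h2 : q = 0 := by simpa using h1
    simp [h2, cost, ip_zero_left]
  have hP := den_pos hs hsy
  have hx0 : 0 < ‖x‖ := norm_pos_iff.2 hx
  have hD : 0 < ‖x‖ ^ 2 - s ^ 2 * ‖ip x y‖ ^ 2 := lt_of_lt_of_le (by positivity) (num_ge x y s)
  set P := 1 - s ^ 2 * ‖y‖ ^ 2 with hPdef
  set D := ‖x‖ ^ 2 - s ^ 2 * ‖ip x y‖ ^ 2 with hDdef
  set τ := Real.sqrt (P / D) with hτ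
  have hτ0 : 0 < τ := Real.sqrt_pos.2 (by positivity)
  have hτ2 : τ ^ 2 = P / D := Real.sq_sqrt (by positivity)
  have key := disc_bound hh (hq.smul (c := (τ : ℂ)) (by exact_mod_cast hτ0.ne'))
    (d := (s : ℂ) • y) (by
      rwa [norm_smul, Complex.norm_real, Real.norm_eq_abs, abs_of_pos hs]) (by
      rw [ip_smul_left, ip_smul_right, Complex.conj_ofReal, norm_ip_comm x y] at *
      simp only [norm_smul, norm_mul, Complex.norm_real, Real.norm_eq_abs, mul_pow, sq_abs]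
      have : τ ^ 2 * D = P := by rw [hτ2]; field_simp
      rw [hDdef, hPdef] at this
      linarith)
  simp only [map_smul, ip_smul_left, ip_smul_right, Complex.conj_ofReal, ← Complex.ofReal_pow,
    Complex.re_ofReal_mul] at key
  have e : cost A x y s = (τ * (τ * (ip (A x) x).re) + s * (s * (ip (A y) y).re)) /
      (τ ^ 2 * s) := by
    rw [cost, ← hPdef, ← hDdef, ← mul_assoc, ← pow_two τ, hτ2]
    field_simp
  rw [e, le_div_iff₀ (by positivity)]
  linarith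

theorem adm_nonempty (y : CE n) : ({s : ℝ | 0 < s ∧ s * ‖y‖ < 1}).Nonempty := by
  refine ⟨1 / (‖y‖ + 1), by positivity, ?_⟩
  rw [div_mul_eq_mul_div, div_lt_one (by positivity)]
  linarith

theorem neg_re_le_sigma {A : CE n →L[ℂ] CE n} {h : CE n → CE n} (hh : InN A h) {x y q : CE n}
    (hq : HasQuad (fun y => h y - A y) x q) : -(ip q y).re ≤ sigma A x y := by
  refine le_csInf ((adm_nonempty y).image _) ?_
  rintro _ ⟨s, hs, rfl⟩
  exact neg_re_le_cost hh hq hs.1 hs.2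

end Pool.Agent.Lib.MP_c027d2_an
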