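import Pool.Agent.Lib.MP_c027d2_an.Disc

/-!
Explicit extremal elements of the Caratheodory family.
-/

open MeasureTheory Metric Set Filter Topology

namespace Pool.Agent.Lib.MP_c027d2_an

variable {n : ℕ}

/-- The Hermitian part of `A`. -/
noncomputable def herm (A : CE n →L[ℂ] CE n) : CE n →L[ℂ] CE n :=
  (2 : ℂ)⁻¹ • (A + ContinuousLinearMap.adjoint A)

theorem ip_adjoint (A : CE n →L[ℂ] CE n) (u v : CE n) :
    ip u (ContinuousLinearMap.adjoint A v) = ip (A u) v := by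
  rw [ip_eq, ip_eq, ContinuousLinearMap.adjoint_inner_left]

theorem ip_herm (A : CE n →L[ℂ] CE n) (u v : CE n) :
    ip (herm A u) v = (ip (A u) v + (starRingEnd ℂ) (ip (A v) u)) / 2 := by
  have : ip (ContinuousLinearMap.adjoint A u) v = (starRingEnd ℂ) (ip (A v) u) := by
    rw [← ip_adjoint A v u, ip_conj]
  simp only [herm, smul_apply, add_apply, ip_smul_left, ip_add_left, this]
  ring

theorem ip_herm_conj (A : CE n →L[ℂ] CE n) (u v : CE n) :
    (starRingEnd ℂ) (ip (herm A u) v) = ip (herm A v) u := by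
  rw [ip_herm, ip_herm, map_div₀, map_add, Complex.conj_conj, add_comm]
  congr 1
  exact Complex.conj_ofNat 2

theorem ip_herm_self (A : CE n →L[ℂ] CE n) (u : CE n) :
    ip (herm A u) u = ((ip (A u) u).re : ℂ) := by
  rw [ip_herm, Complex.add_conj]; push_cast; ring

/-- Expansion of the quadratic form. -/
theorem re_form_sub (A : CE n →L[ℂ] CE n) (u v : CE n) (c : ℂ) :
    (ip (A (u - c • v)) (u - c • v)).re = (ip (A u) u).re - 2 * (c * ip (herm A v) u).re +
      ‖c‖ ^ 2 * (ip (A v) v).re := by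
  have h1 : ((ip (A (u - c • v)) (u - c • v)).re : ℂ) = (ip (A u) u).re -
      (c * ip (herm A v) u + (starRingEnd ℂ) (c * ip (herm A v) u)) +
      (starRingEnd ℂ) c * c * (ip (A v) v).re := by
    rw [← ip_herm_self, ← ip_herm_self, ← ip_herm_self, map_mul, ip_herm_conj]
    simp only [map_sub, map_smul, ip_sub_left, ip_sub_right, ip_smul_left, ip_smul_right]
    ring
  rw [Complex.add_conj, ← Complex.normSq_eq_conj_mul_self, Complex.normSq_eq_norm_sq] at h1
  exact_mod_cast h1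

theorem form_nonneg {A : CE n →L[ℂ] CE n} (hA : ∀ z : CE n, z ≠ 0 → 0 < (ip (A z) z).re)
    (z : CE n) : 0 ≤ (ip (A z) z).re := by
  rcases eq_or_ne z 0 with rfl | h
  · simp [ip_zero_right]
  · exact (hA z h).le

theorem form_cs {A : CE n →L[ℂ] CE n} (hA : ∀ z : CE n, z ≠ 0 → 0 < (ip (A z) z).re)
    (u : CE n) {x : CE n} (hx : x ≠ 0) :
    ‖ip (herm A u) x‖ ^ 2 ≤ (ip (A u) u).re * (ip (A x) x).re := by
  have ha := hA x hx
  set a := (ip (A x) x).re with hadef
  have h1 := form_nonneg hA (u - (ip (herm A u) x / a) • x)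
  rw [re_form_sub, ← ip_herm_conj A u x, div_mul_eq_mul_div, Complex.mul_conj, Complex.normSq_eq_norm_sq,
    ← Complex.ofReal_div, Complex.ofReal_re, norm_div, Complex.norm_real, Real.norm_eq_abs,
    abs_of_pos ha, ← hadef] at h1
  have e : (‖ip (herm A u) x‖ / a) ^ 2 * a = ‖ip (herm A u) x‖ ^ 2 / a := by field_simp
  rw [e] at h1
  have h2 : ‖ip (herm A u) x‖ ^ 2 / a ≤ (ip (A u) u).re := by linarith
  rwa [div_le_iff₀ ha] at h2

/-- The scalar factor of the extremal field. -/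
noncomputable def gExt (A : CE n →L[ℂ] CE n) (x d l z : CE n) : ℂ :=
  ip (herm A z) x / ((ip (A x) x).re + ip z l * ip (herm A d) x)

/-- The extremal field. -/
noncomputable def hExt (A : CE n →L[ℂ] CE n) (x d l e z : CE n) : CE n :=
  A z - (2 * ip z l * gExt A x d l z) • herm A d -
    (2 * (ip (A d) d).re * gExt A x d l z ^ 2 : ℂ) • e

/-- The second order term of the extremal field. -/
noncomputable def qExt (A : CE n →L[ℂ] CE n) (x d l e u : CE n) : CE n :=
  -((2 * ip u l * (ip (herm A u) x / (ip (A x) x).re)) • herm A d) -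
    (2 * (ip (A d) d).re * (ip (herm A u) x / (ip (A x) x).re) ^ 2 : ℂ) • e

theorem hasQuad_hExt {A : CE n →L[ℂ] CE n} {x : CE n} (ha : 0 < (ip (A x) x).re)
    (d l e u : CE n) : HasQuad (fun y => hExt A x d l e y - A y) u (qExt A x d l e u) := by
  let G : ℂ → ℂ := fun ζ => ip (herm A u) x / ((ip (A x) x).re + ζ * ip u l * ip (herm A d) x)
  have hG : Tendsto G (𝓝[≠] 0) (𝓝 (ip (herm A u) x / (ip (A x) x).re)) := by
    have : ContinuousAt G 0 := by
      refine ContinuousAt.div (by fun_prop) (by fun_prop) ?_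
      simpa using ha.ne'
    simpa [G] using this.tendsto.mono_left nhdsWithin_le_nhds
  have h1 := (((hG.const_mul (2 * ip u l)).smul_const (herm A d)).neg).sub
    (((hG.pow 2).const_mul (2 * ((ip (A d) d).re : ℂ))).smul_const e)
  refine h1.congr' ?_
  filter_upwards [self_mem_nhdsWithin] with ζ hζ
  have hζ' : ζ ≠ 0 := hζ
  have h2 : gExt A x d l (ζ • u) = ζ * G ζ := by
    simp only [gExt, G, map_smul, ip_smul_left]; ring
  simp only [hExt, h2, ip_smul_left]
  rw [sub_right_comm (A (ζ • u)), sub_right_comm (A (ζ • u) - _), sub_right_comm (A (ζ • u)),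
    sub_self, zero_sub, smul_sub, smul_neg, smul_smul, smul_smul, sub_eq_add_neg, sub_eq_add_neg,
    add_comm]
  congr 3 <;> field_simp

theorem inN_hExt {A : CE n →L[ℂ] CE n} (hA : ∀ z : CE n, z ≠ 0 → 0 < (ip (A z) z).re)
    {x d l e : CE n} (hx : x ≠ 0)
    (hc : ∀ z : CE n, ‖z‖ < 1 →
      (ip (A d) d).re * (‖ip z l‖ ^ 2 + 2 * ‖ip z e‖) < (ip (A x) x).re) :
    InN A (hExt A x d l e) := by
  have ha := hA x hx
  have hb := form_nonneg hA d
  set a := (ip (A x) x).re with hadef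
  set b := (ip (A d) d).re with hbdef
  have hden : ∀ z : CE n, ‖z‖ < 1 → (a : ℂ) + ip z l * ip (herm A d) x ≠ 0 := by
    intro z hz h0
    have h1 : ip z l * ip (herm A d) x = -a := by linear_combination h0
    have h2 : ‖ip z l‖ ^ 2 * ‖ip (herm A d) x‖ ^ 2 = a ^ 2 := by
      rw [← mul_pow, ← norm_mul, h1, norm_neg, Complex.norm_real, Real.norm_eq_abs, sq_abs]
    have h3 := form_cs hA d hx
    have h4 := hc z hz
    have h5 : b * ‖ip z l‖ ^ 2 < a := by nlinarith [norm_nonneg (ip z e)]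
    have h6 : ‖ip z l‖ ^ 2 * ‖ip (herm A d) x‖ ^ 2 ≤ ‖ip z l‖ ^ 2 * (b * a) := by gcongr
    nlinarith
  have hl : Differentiable ℂ (fun z : CE n => ip z l) := by
    simp only [← ipL_apply]; exact (ipL l).differentiable
  have hG : DifferentiableOn ℂ (gExt A x d l) (ball 0 1) := by
    have a1 : DifferentiableOn ℂ (fun z : CE n => ((a : ℂ) + ip z l * ip (herm A d) x)⁻¹)
        (ball 0 1) := ((hl.differentiableOn.mul_const _).const_add _).inv
          fun z hz => hden z (mem_ball_zero_iff.1 hz)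
    exact ((diffOn_ip (herm A).differentiable.differentiableOn x).mul a1).congr
      fun z _ => div_eq_mul_inv _ _
  have hG0 : gExt A x d l 0 = 0 := by simp [gExt, ip_zero_left]
  have hd : DifferentiableOn ℂ (hExt A x d l e) (ball 0 1) := by
    refine (A.differentiable.differentiableOn.sub ?_).sub ?_
    · exact ((hl.differentiableOn.const_mul 2).mul hG).smul_const _
    · exact ((hG.pow 2).const_mul _).smul_const _
  refine ⟨hd, by simp [hExt, hG0], ?_, ?_⟩
  · have g1 := ((hG 0 (mem_ball_self one_pos)).differentiableAt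
      (ball_mem_nhds _ one_pos)).hasFDerivAt
    have g2 := (hl 0).hasFDerivAt
    have g3 := ((g2.const_mul 2).mul g1).smul_const (herm A d)
    have g4 := ((g1.mul g1).const_mul (2 * (b : ℂ))).smul_const e
    have g5 := (A.hasFDerivAt.sub g3).sub g4
    refine HasFDerivAt.fderiv ((g5.congr_fderiv ?_).congr_of_eventuallyEq
      (Eventually.of_forall fun z => ?_))
    · ext1 v
      simp [hG0, ip_zero_left]
    · simp [hExt, pow_two, hbdef]
  · intro z hz hz0
    rw [mem_ball_zero_iff] at hz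
    set G := gExt A x d l z with hGdef
    set lam := ip z l with hlam
    have h1 : (ip (hExt A x d l e z) z).re = (ip (A z) z).re - 2 * (lam * G * ip (herm A d) z).re -
        2 * b * (G ^ 2 * ip e z).re := by
      simp only [hExt, ip_sub_left, ip_smul_left, Complex.sub_re, ← hGdef, ← hlam, ← hbdef]
      have e1 : 2 * lam * G * ip (herm A d) z = ((2 : ℝ) : ℂ) * (lam * G * ip (herm A d) z) := by
        push_cast; ring
      have e2 : 2 * (b : ℂ) * G ^ 2 * ip e z = ((2 * b : ℝ) : ℂ) * (G ^ 2 * ip e z) := by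
        push_cast; ring
      rw [e1, e2, Complex.re_ofReal_mul, Complex.re_ofReal_mul]
    have h2 := re_form_sub A z d (lam * G)
    have h3 := form_cs hA (z - (lam * G) • d) hx
    have h4 : ip (herm A (z - (lam * G) • d)) x = a * G := by
      have : G * ((a : ℂ) + lam * ip (herm A d) x) = ip (herm A z) x := by
        rw [hGdef, gExt, ← hadef, ← hlam, div_mul_cancel₀ _ (hden z hz)]
      simp only [map_sub, map_smul, ip_sub_left, ip_smul_left]
      linear_combination -this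
    rw [h4, norm_mul, Complex.norm_real, Real.norm_eq_abs, abs_of_pos ha, ← hadef] at h3
    have h5 : a * ‖G‖ ^ 2 ≤ (ip (A (z - (lam * G) • d)) (z - (lam * G) • d)).re := by
      by_contra hcon
      push Not at hcon
      nlinarith
    have h6 : (G ^ 2 * ip e z).re ≤ ‖G‖ ^ 2 * ‖ip z e‖ := by
      refine (Complex.re_le_norm _).trans_eq ?_
      rw [norm_mul, norm_pow, norm_ip_comm]
    rcases eq_or_ne G 0 with hG' | hG'
    · rw [h1, hG']
      simpa using hA z hz0
    · have h7 : 0 < ‖G‖ ^ 2 := by positivity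
      have h8 := hc z hz
      rw [← hlam] at h8
      rw [norm_mul, mul_pow, ← hbdef] at h2
      rw [h1]
      nlinarith [mul_le_mul_of_nonneg_left h6 hb, mul_pos h7 (sub_pos.2 h8)]

theorem value_qExt {A : CE n →L[ℂ] CE n} {x₀ y l e : CE n} {τ s k : ℝ}
    (ha : 0 < (ip (A x₀) x₀).re) (hτ : 0 < τ) (hs : 0 < s) (hl : ip ((τ : ℂ) • x₀) l = 1)
    (he : ip e ((s : ℂ) • y) = k) :
    -(ip (qExt A ((τ : ℂ) • x₀) ((s : ℂ) • y) l e x₀) y).re =
      2 * (1 + k) * s * (ip (A y) y).re / τ ^ 2 := by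
  have hτ' : (τ : ℂ) ≠ 0 := by exact_mod_cast hτ.ne'
  have hs' : (s : ℂ) ≠ 0 := by exact_mod_cast hs.ne'
  have ha' : (((ip (A x₀) x₀).re : ℝ) : ℂ) ≠ 0 := by exact_mod_cast ha.ne'
  have h1 : ip x₀ l = (τ : ℂ)⁻¹ := by
    rw [ip_smul_left] at hl
    field_simp; linear_combination hl
  have h2 : ip e y = k / s := by
    rw [ip_smul_right, Complex.conj_ofReal] at he
    field_simp; linear_combination he
  have h3 : -ip (qExt A ((τ : ℂ) • x₀) ((s : ℂ) • y) l e x₀) y =
      ((2 * (1 + k) * s * (ip (A y) y).re / τ ^ 2 : ℝ) : ℂ) := by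
    simp only [qExt, ip_sub_left, ip_neg_left, ip_smul_left, ip_smul_right, map_smul,
      Complex.conj_ofReal, Complex.re_ofReal_mul, ip_herm_self, h1, h2]
    push_cast
    field_simp
    ring
  rw [← Complex.neg_re, h3, Complex.ofReal_re]

theorem bessel2 {z l e : CE n} (hle : ip l e = 0) (hl : l ≠ 0) (he : e ≠ 0) :
    ‖ip z l‖ ^ 2 / ‖l‖ ^ 2 + ‖ip z e‖ ^ 2 / ‖e‖ ^ 2 ≤ ‖z‖ ^ 2 := by
  have hl0 : 0 < ‖l‖ := norm_pos_iff.2 hl
  have he0 : 0 < ‖e‖ := norm_pos_iff.2 he
  have key : ∀ (w v : CE n), 0 < ‖v‖ →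
      ‖w + (-(ip w v) / (‖v‖ ^ 2 : ℝ)) • v‖ ^ 2 = ‖w‖ ^ 2 - ‖ip w v‖ ^ 2 / ‖v‖ ^ 2 := by
    intro w v hv
    rw [norm_sq_add_smul, ← ip_conj w v, ← mul_div_assoc, mul_neg,
      ← Complex.normSq_eq_conj_mul_self, Complex.normSq_eq_norm_sq, ← Complex.ofReal_neg,
      ← Complex.ofReal_div, Complex.ofReal_re, norm_div, norm_neg, Complex.norm_real,
      Real.norm_eq_abs, abs_of_pos (by positivity)]
    field_simp
    ring
  have h1 := key z l hl0
  have h2 := key (z + (-(ip z l) / (‖l‖ ^ 2 : ℝ)) • l) e he0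
  rw [h1, ip_add_left, ip_smul_left, hle, mul_zero, add_zero] at h2
  nlinarith [sq_nonneg ‖z + (-(ip z l) / (‖l‖ ^ 2 : ℝ)) • l + (-(ip z e) / (‖e‖ ^ 2 : ℝ)) • e‖]

/-- First vector of the extremal frame. -/
noncomputable def lVec (x d : CE n) : CE n := (((1 - ‖d‖ ^ 2)⁻¹ : ℝ) : ℂ) • (x - ip x d • d)

/-- Second vector of the extremal frame. -/
noncomputable def eVec (x d : CE n) : CE n := (((1 - ‖d‖ ^ 2)⁻¹ : ℝ) : ℂ) • (d - ip d x • x)

theorem frame {x d : CE n} (hd1 : ‖d‖ < 1) (hrel : ‖x‖ ^ 2 + ‖d‖ ^ 2 = 1 + ‖ip d x‖ ^ 2) :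
    ip x (lVec x d) = 1 ∧ ip (eVec x d) d = (((1 - ‖x‖ ^ 2) / (1 - ‖d‖ ^ 2) : ℝ) : ℂ) ∧
    ∀ z : CE n, ‖z‖ < 1 → ‖ip z (lVec x d)‖ ^ 2 + 2 * ‖ip z (eVec x d)‖ <
      1 + 2 * ((1 - ‖x‖ ^ 2) / (1 - ‖d‖ ^ 2)) := by
  have hP : 0 < 1 - ‖d‖ ^ 2 := by nlinarith [norm_nonneg d]
  have hP' : (1 : ℂ) - (‖d‖ : ℂ) ^ 2 ≠ 0 := by exact_mod_cast hP.ne'
  have hx1 : 0 ≤ 1 - ‖x‖ ^ 2 := by
    by_contra hc
    push Not at hc
    have h1 : ‖ip d x‖ ^ 2 ≤ (‖d‖ * ‖x‖) ^ 2 := by gcongr; exact norm_ip_le d x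
    nlinarith
  have hb : ip d x * ip x d = (‖x‖ : ℂ) ^ 2 + (‖d‖ : ℂ) ^ 2 - 1 := by
    rw [← ip_conj d x, Complex.mul_conj, Complex.normSq_eq_norm_sq]
    have : ‖ip d x‖ ^ 2 = ‖x‖ ^ 2 + ‖d‖ ^ 2 - 1 := by linarith
    rw [this]; push_cast; ring
  set k := (1 - ‖x‖ ^ 2) / (1 - ‖d‖ ^ 2) with hk
  have hk0 : 0 ≤ k := by positivity
  have h1 : ip x (lVec x d) = 1 := by
    simp only [lVec, ip_smul_right, ip_sub_right, ip_self, ip_conj, Complex.conj_ofReal, hb]
    push_cast; field_simp; ring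
  have h2 : ip (eVec x d) d = (k : ℂ) := by
    simp only [eVec, ip_smul_left, ip_sub_left, ip_self, hb, hk]
    push_cast; field_simp; ring
  have h3 : ‖lVec x d‖ ^ 2 = 1 + k := by
    have : ((‖lVec x d‖ ^ 2 : ℝ) : ℂ) = ((1 + k : ℝ) : ℂ) := by
      rw [← ip_self]
      simp only [lVec, ip_smul_right, ip_sub_right, ip_smul_left, ip_sub_left, ip_conj,
        Complex.conj_ofReal, hk]
      simp only [ip_self]
      push_cast; field_simp
      linear_combination ((‖d‖ : ℂ) ^ 2 - 2) * hb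
    exact_mod_cast this
  have h4 : ‖eVec x d‖ ^ 2 = k * (1 + k) := by
    have : ((‖eVec x d‖ ^ 2 : ℝ) : ℂ) = ((k * (1 + k) : ℝ) : ℂ) := by
      rw [← ip_self]
      simp only [eVec, ip_smul_right, ip_sub_right, ip_smul_left, ip_sub_left, ip_conj,
        Complex.conj_ofReal, hk]
      simp only [ip_self]
      push_cast; field_simp
      linear_combination ((‖x‖ : ℂ) ^ 2 - 2) * hb
    exact_mod_cast this
  have h5 : ip (lVec x d) (eVec x d) = 0 := by
    simp only [lVec, eVec, ip_smul_right, ip_sub_right, ip_smul_left, ip_sub_left, ip_self, ip_conj,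
      Complex.conj_ofReal]
    push_cast; field_simp
    linear_combination (ip x d) * hb
  refine ⟨h1, h2, fun z hz => ?_⟩
  have hz2 : ‖z‖ ^ 2 < 1 := by nlinarith [norm_nonneg z]
  rcases hk0.eq_or_lt with hk1 | hk1
  · have he : eVec x d = 0 := by
      rw [← hk1] at h4
      simpa using h4
    have : ‖ip z (lVec x d)‖ ^ 2 ≤ (‖z‖ * ‖lVec x d‖) ^ 2 := by gcongr; exact norm_ip_le _ _
    rw [mul_pow, h3, ← hk1] at this
    rw [he, ip_zero_right, ← hk1]
    simp only [norm_zero]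
    linarith
  · have hl : lVec x d ≠ 0 := by
      intro h0; rw [h0, norm_zero] at h3; nlinarith
    have he : eVec x d ≠ 0 := by
      intro h0; rw [h0, norm_zero] at h4; nlinarith
    have h6 := bessel2 (z := z) h5 hl he
    rw [h3, h4] at h6
    set L := ‖ip z (lVec x d)‖
    set E := ‖ip z (eVec x d)‖
    have h7 : L ^ 2 + E ^ 2 / k ≤ (1 + k) * ‖z‖ ^ 2 := by
      have : L ^ 2 + E ^ 2 / k = (1 + k) * (L ^ 2 / (1 + k) + E ^ 2 / (k * (1 + k))) := by
        field_simp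
      rw [this]; gcongr
    have h8 : 2 * E ≤ k + E ^ 2 / k := by
      have : k + E ^ 2 / k - 2 * E = (E - k) ^ 2 / k := by field_simp; ring
      have : 0 ≤ (E - k) ^ 2 / k := by positivity
      linarith
    nlinarith

end Pool.Agent.Lib.MP_c027d2_an
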