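import Pool.Agent.Lib.MP_c027d2_an.Picard

/-!
Existence, boundedness and holomorphy of the Loewner flow.
-/

open MeasureTheory Metric Set Filter Topology

namespace Pool.Agent.Lib.MP_c027d2_an

variable {n : ℕ}

/-- Radial retraction onto the closed ball of radius `r`. -/
noncomputable def trunc (r : ℝ) (y : CE n) : CE n := ((r / max r ‖y‖ : ℝ) : ℂ) • y

theorem trunc_norm_le {r : ℝ} (hr : 0 < r) (y : CE n) : ‖trunc r y‖ ≤ r := by
  have h1 : 0 < max r ‖y‖ := lt_max_of_lt_left hr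
  rw [trunc, norm_smul, Complex.norm_real, Real.norm_eq_abs, abs_of_pos (by positivity),
    div_mul_eq_mul_div, div_le_iff₀ h1]
  gcongr
  exact le_max_right _ _

theorem trunc_eq {r : ℝ} (hr : 0 < r) {y : CE n} (hy : ‖y‖ ≤ r) : trunc r y = y := by
  rw [trunc, max_eq_left hy, div_self hr.ne']; simp

theorem trunc_lip {r : ℝ} (hr : 0 < r) (a b : CE n) : ‖trunc r a - trunc r b‖ ≤ 2 * ‖a - b‖ := by
  have ha : 0 < max r ‖a‖ := lt_max_of_lt_left hr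
  have hb : 0 < max r ‖b‖ := lt_max_of_lt_left hr
  have e : trunc r a - trunc r b = ((r / max r ‖a‖ : ℝ) : ℂ) • (a - b) +
      ((r / max r ‖a‖ - r / max r ‖b‖ : ℝ) : ℂ) • b := by
    simp only [trunc, smul_sub, Complex.ofReal_sub, sub_smul]; abel
  have h1 : r / max r ‖a‖ ≤ 1 := (div_le_one ha).2 (le_max_left _ _)
  have h2 : ‖b‖ / max r ‖b‖ ≤ 1 := (div_le_one hb).2 (le_max_right _ _)
  have h3 : |max r ‖b‖ - max r ‖a‖| ≤ ‖a - b‖ := by
    rw [max_comm r, max_comm r]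
    refine (abs_max_sub_max_le_abs _ _ _).trans ?_
    rw [abs_sub_comm]
    exact abs_norm_sub_norm_le a b
  have h4 : |r / max r ‖a‖ - r / max r ‖b‖| * ‖b‖ ≤ ‖a - b‖ := by
    have : r / max r ‖a‖ - r / max r ‖b‖ =
        r / max r ‖a‖ / max r ‖b‖ * (max r ‖b‖ - max r ‖a‖) := by field_simp
    rw [this, abs_mul, abs_of_pos (by positivity)]
    calc r / max r ‖a‖ / max r ‖b‖ * |max r ‖b‖ - max r ‖a‖| * ‖b‖
        = (r / max r ‖a‖) * (‖b‖ / max r ‖b‖) * |max r ‖b‖ - max r ‖a‖| := by ring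
      _ ≤ 1 * 1 * ‖a - b‖ := by gcongr
      _ = _ := by ring
  rw [e]
  refine (norm_add_le _ _).trans ?_
  rw [norm_smul, norm_smul, Complex.norm_real, Complex.norm_real, Real.norm_eq_abs,
    Real.norm_eq_abs, abs_of_pos (show 0 < r / max r ‖a‖ by positivity)]
  nlinarith [norm_nonneg (a - b)]

theorem fld_trunc (A : CE n →L[ℂ] CE n) {r : ℝ} (hr0 : 0 < r) (hr : r < 1) :
    ∃ L, ∀ (T : ℝ) (h : CE n → ℝ → CE n), (∀ t ∈ Icc (0 : ℝ) T, InN A (fun z => h z t)) →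
      (∀ z ∈ ball (0 : CE n) 1, AEMeasurable (h z) (volume.restrict (Icc (0 : ℝ) T))) →
      Fld (fun y t => -h (trunc r y) t) T L := by
  obtain ⟨L, hL, hlip⟩ := lip A hr
  refine ⟨2 * L + 1, fun T h hN hm => ⟨by positivity, fun t ht a b => ?_, fun t ht => ?_,
    fun y => (hm _ (mem_ball_zero_iff.2 ((trunc_norm_le hr0 y).trans_lt hr))).neg⟩⟩
  · have h1 := hlip _ (hN t ht) _ _ (trunc_norm_le hr0 a) (trunc_norm_le hr0 b)
    have h2 := trunc_lip hr0 a b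
    rw [neg_sub_neg, norm_sub_rev]
    nlinarith [norm_nonneg (a - b)]
  · have := (hN t ht).2.1
    simp only at this
    simp [trunc, this]

theorem lip_ip {v y : ℝ → CE n} {T : ℝ} {K₁ K₂ : NNReal} (hv : LipschitzOnWith K₁ v (Icc 0 T))
    (hy : LipschitzOnWith K₂ y (Icc 0 T)) :
    ∃ K, LipschitzOnWith K (fun t => (ip (v t) (y t)).re) (Icc 0 T) := by
  obtain ⟨B₁, h₁⟩ := isCompact_Icc.exists_bound_of_continuousOn hv.continuousOn
  obtain ⟨B₂, h₂⟩ := isCompact_Icc.exists_bound_of_continuousOn hy.continuousOn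
  refine ⟨(K₁ * B₂ + B₁ * K₂).toNNReal, LipschitzOnWith.of_dist_le_mul fun a ha b hb => ?_⟩
  have e : ip (v a) (y a) - ip (v b) (y b) = ip (v a - v b) (y a) + ip (v b) (y a - y b) := by
    rw [ip_sub_left, ip_sub_right]; ring
  have d₁ := hv.dist_le_mul a ha b hb
  have d₂ := hy.dist_le_mul a ha b hb
  rw [dist_eq_norm] at d₁ d₂
  rw [Real.dist_eq, ← Complex.sub_re, e]
  refine (Complex.abs_re_le_norm _).trans ((norm_add_le _ _).trans ?_)
  have n₁ := norm_ip_le (v a - v b) (y a)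
  have n₂ := norm_ip_le (v b) (y a - y b)
  have hB₁ : 0 ≤ B₁ := (norm_nonneg _).trans (h₁ a ha)
  calc _ ≤ ‖v a - v b‖ * ‖y a‖ + ‖v b‖ * ‖y a - y b‖ := by linarith
    _ ≤ (K₁ * dist a b) * B₂ + B₁ * (K₂ * dist a b) := by
      gcongr
      exacts [h₂ a ha, h₁ b hb]
    _ = (K₁ * B₂ + B₁ * K₂) * dist a b := by ring
    _ ≤ _ := by gcongr; exact Real.le_coe_toNNReal _

theorem deriv_ip {v y : ℝ → CE n} {v' y' : CE n} {s : ℝ} (hv : HasDerivAt v v' s)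
    (hy : HasDerivAt y y' s) : HasDerivAt (fun t => (ip (v t) (y t)).re)
      ((ip v' (y s)).re + (ip (v s) y').re) s := by
  have := Complex.reCLM.hasFDerivAt.comp_hasDerivAt s (hy.inner ℂ hv)
  simpa [ip_eq, Function.comp_def] using this

theorem ae_restrict_sub {p : ℝ → Prop} {t T : ℝ} (ht : t ≤ T)
    (h : ∀ᵐ s ∂(volume.restrict (Icc (0 : ℝ) T)), p s) :
    ∀ᵐ s ∂(volume.restrict (Icc (0 : ℝ) t)), p s :=
  ae_restrict_of_ae_restrict_of_subset (Icc_subset_Icc_right ht) h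

theorem norm_le_of_ode {γ : ℝ → CE n} {T : ℝ} {K : NNReal} (hγ : LipschitzOnWith K γ (Icc 0 T))
    (hd : ∀ᵐ s ∂(volume.restrict (Icc (0 : ℝ) T)), ∃ g, HasDerivAt γ g s ∧ (ip g (γ s)).re ≤ 0) :
    ∀ t ∈ Icc (0 : ℝ) T, ‖γ t‖ ≤ ‖γ 0‖ := by
  intro t ht
  obtain ⟨K', hK'⟩ := lip_ip hγ hγ
  have key := ac_le (g := fun _ => 0) ht.1 (hK'.mono (Icc_subset_Icc_right ht.2))
    intervalIntegrable_const (ae_restrict_sub ht.2 (hd.mono fun s ⟨g, h1, h2⟩ =>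
      ⟨_, deriv_ip h1 h1, by
        have : (ip (γ s) g).re = (ip g (γ s)).re := by rw [← ip_conj, Complex.conj_re]
        linarith⟩))
  simp only [ip_self, Complex.ofReal_re, intervalIntegral.integral_zero, sub_nonpos] at key
  exact (sq_le_sq₀ (norm_nonneg _) (norm_nonneg _)).1 key

theorem exists_flow {A : CE n →L[ℂ] CE n} {T : ℝ} (hT : 0 ≤ T) {h : CE n → ℝ → CE n}
    (hN : ∀ t ∈ Icc (0 : ℝ) T, InN A (fun z => h z t))
    (hm : ∀ z ∈ ball (0 : CE n) 1, AEMeasurable (h z) (volume.restrict (Icc (0 : ℝ) T)))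
    {z : CE n} (hz : z ∈ ball (0 : CE n) 1) :
    ∃ γ : ℝ → CE n, (∃ K, LipschitzOnWith K γ (Icc (0 : ℝ) T)) ∧ γ 0 = z ∧
      (∀ t ∈ Icc (0 : ℝ) T, γ t ∈ ball (0 : CE n) 1) ∧
      ∀ᵐ t ∂(volume.restrict (Icc (0 : ℝ) T)), HasDerivAt γ (-h (γ t) t) t := by
  rw [mem_ball_zero_iff] at hz
  set r := (1 + ‖z‖) / 2 with hr
  have hr0 : 0 < r := by positivity
  have hr1 : r < 1 := by rw [hr]; linarith
  have hzr : ‖z‖ ≤ r := by rw [hr]; linarith
  obtain ⟨L, hL⟩ := fld_trunc A hr0 hr1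
  have hF := hL T h hN hm
  obtain ⟨γ₀, B, m, b, hsol⟩ := hF.exists_sol hT z
  set γ : ℝ → CE n := fun t => z + ∫ s in (0 : ℝ)..t, -h (trunc r (γ₀ s)) s with hγ
  have hlip : LipschitzOnWith (L * B).toNNReal γ (Icc 0 T) :=
    lip_integral hT (hF.aesm m) (hF.bound b) z
  have hder : ∀ᵐ t ∂(volume.restrict (Icc (0 : ℝ) T)),
      t ∈ Icc (0 : ℝ) T ∧ HasDerivAt γ (-h (trunc r (γ t)) t) t := by
    filter_upwards [ae_deriv_integral hT (hF.aesm m) (hF.bound b) z,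
      ae_restrict_mem measurableSet_Icc] with t h1 h2
    refine ⟨h2, ?_⟩
    have : γ t = γ₀ t := (hsol t h2).symm
    rw [this]
    exact h1
  have h0 : γ 0 = z := by simp [hγ]
  have hn : ∀ t ∈ Icc (0 : ℝ) T, ‖γ t‖ ≤ ‖z‖ := by
    rw [← h0]
    refine norm_le_of_ode hlip (hder.mono fun t ⟨h1, h2⟩ => ⟨_, h2, ?_⟩)
    have h3 := (hN t h1).re_nonneg ((trunc_norm_le hr0 (γ t)).trans_lt hr1)
    have h4 : 0 < r / max r ‖γ t‖ := div_pos hr0 (lt_max_of_lt_left hr0)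
    rw [show ip (h (trunc r (γ t)) t) (trunc r (γ t)) =
        ((r / max r ‖γ t‖ : ℝ) : ℂ) * ip (h (trunc r (γ t)) t) (γ t) by
      conv_lhs => rw [show ip (h (trunc r (γ t)) t) (trunc r (γ t)) =
        ip (h (trunc r (γ t)) t) (((r / max r ‖γ t‖ : ℝ) : ℂ) • γ t) from rfl]
      rw [ip_smul_right, Complex.conj_ofReal], Complex.re_ofReal_mul] at h3
    rw [ip_neg_left, Complex.neg_re, neg_nonpos]
    exact (mul_nonneg_iff_of_pos_left h4).1 h3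
  refine ⟨γ, ⟨_, hlip⟩, h0, fun t ht => mem_ball_zero_iff.2 ((hn t ht).trans_lt hz), ?_⟩
  filter_upwards [hder] with t ⟨h1, h2⟩
  rwa [trunc_eq hr0 ((hn t h1).trans hzr)] at h2

theorem flow_norm_le {A : CE n →L[ℂ] CE n} {T : ℝ} {h : CE n → ℝ → CE n}
    (hN : ∀ t ∈ Icc (0 : ℝ) T, InN A (fun z => h z t)) {γ : ℝ → CE n} {K : NNReal}
    (hγ : LipschitzOnWith K γ (Icc (0 : ℝ) T)) (hb : ∀ t ∈ Icc (0 : ℝ) T, γ t ∈ ball (0 : CE n) 1)
    (hd : ∀ᵐ t ∂(volume.restrict (Icc (0 : ℝ) T)), HasDerivAt γ (-h (γ t) t) t) :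
    ∀ t ∈ Icc (0 : ℝ) T, ‖γ t‖ ≤ ‖γ 0‖ := by
  refine norm_le_of_ode hγ ?_
  filter_upwards [hd, ae_restrict_mem measurableSet_Icc] with t h1 h2
  refine ⟨_, h1, ?_⟩
  rw [ip_neg_left, Complex.neg_re, neg_nonpos]
  exact (hN t h2).re_nonneg (mem_ball_zero_iff.1 (hb t h2))

theorem flow_diffOn {A : CE n →L[ℂ] CE n} {T : ℝ} (hT : 0 ≤ T) {h v : CE n → ℝ → CE n}
    (hN : ∀ t ∈ Icc (0 : ℝ) T, InN A (fun z => h z t))
    (hm : ∀ z ∈ ball (0 : CE n) 1, AEMeasurable (h z) (volume.restrict (Icc (0 : ℝ) T)))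
    (hv : ∀ z ∈ ball (0 : CE n) 1,
      (∃ K, LipschitzOnWith K (v z) (Icc (0 : ℝ) T)) ∧ v z 0 = z ∧
      (∀ t ∈ Icc (0 : ℝ) T, v z t ∈ ball (0 : CE n) 1) ∧
      ∀ᵐ t ∂(volume.restrict (Icc (0 : ℝ) T)), HasDerivAt (v z) (-h (v z t) t) t) :
    ∃ δ, 0 < δ ∧ δ ≤ 1 ∧ DifferentiableOn ℂ (fun z => v z T) (ball 0 δ) := by
  obtain ⟨L, hL⟩ := fld_trunc A (r := 1 / 2) (by norm_num) (by norm_num)
  have hF := hL T h hN hm
  set δ := 1 / (4 * Real.exp (2 * L * T)) with hδ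
  have he : 1 ≤ Real.exp (2 * L * T) := one_le_exp' hF.1 ⟨hT, le_rfl⟩
  have hδ0 : 0 < δ := by positivity
  have hδ1 : δ ≤ 1 / 4 := by
    rw [hδ]; gcongr; linarith
  have hδ2 : 2 * δ * Real.exp (2 * L * T) ≤ 1 / 2 := by
    rw [hδ]; field_simp; norm_num
  have hpd := hF.pic_diffOn hT (r := 1 / 2) (δ := δ) (fun t ht => by
    refine ((hN t ht).1.mono (ball_subset_ball (by norm_num))).neg.congr fun y hy => ?_
    rw [trunc_eq (by norm_num) (mem_ball_zero_iff.1 hy).le]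
    rfl) hδ2
  refine ⟨δ, hδ0, by linarith, diffOn_of_geometric
    (u := fun k z => pic (fun y t => -h (trunc (1 / 2) y) t) z k T)
    (C := 2 * Real.exp (2 * L * T)) isOpen_ball (fun k => hpd k T ⟨hT, le_rfl⟩) fun k z hz => ?_⟩
  rw [mem_ball_zero_iff] at hz
  obtain ⟨⟨K, hK⟩, h0, hb, hd⟩ := hv z (mem_ball_zero_iff.2 (by linarith))
  have hn := flow_norm_le hN hK hb hd
  rw [h0] at hn
  have m : AEMeasurable (v z) (volume.restrict (Icc (0 : ℝ) T)) :=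
    hK.continuousOn.aemeasurable measurableSet_Icc
  have hsol := ftc_vec hK (hF.aesm m) (hF.bound hn) (by
    filter_upwards [hd, ae_restrict_mem measurableSet_Icc] with t h1 h2
    rwa [trunc_eq (by norm_num) (by linarith [hn t h2])])
  rw [h0] at hsol
  refine (hF.pic_close hT m hn hsol k T ⟨hT, le_rfl⟩).trans ?_
  have : ‖z‖ + ‖z‖ ≤ 2 := by linarith
  calc _ ≤ 2 * (1 / 2) ^ k * Real.exp (2 * L * T) := by gcongr
    _ = _ := by ring

end Pool.Agent.Lib.MP_c027d2_an
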