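import Pool.Agent.Lib.MP_c027d2_an.H35Coef

/-! The bound fails in every degree. -/

open Set Metric Filter Topology Complex

namespace Pool.Agent.Lib.MP_c027d2_an.H35

variable {n : ℕ}

theorem slice_eq {f : E n → E n} (hf : DifferentiableOn ℂ f (ball 0 1)) (u : E n) (l : Fin n)
    (m : ℕ) : iteratedFDeriv ℂ m f 0 (fun _ => u) l = iteratedDeriv m (fun ζ : ℂ => f (ζ • u) l) 0 := by
  let p : E n →L[ℂ] ℂ := ContinuousLinearMap.proj l
  let L : ℂ →L[ℂ] E n := ContinuousLinearMap.toSpanSingleton ℂ u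
  have hc := contDiffOn_of_diffOn m f hf
  have ho' : IsOpen (L ⁻¹' ball 0 1) := isOpen_ball.preimage L.continuous
  have h0 : L 0 ∈ ball (0 : E n) 1 := by rw [map_zero]; exact mem_ball_self one_pos
  have hF : ContDiffOn ℂ m (p ∘ f) (ball 0 1) := p.contDiff.comp_contDiffOn hc
  have key := L.iteratedFDerivWithin_comp_right hF isOpen_ball.uniqueDiffOn
    ho'.uniqueDiffOn h0 (i := m) le_rfl
  rw [iteratedFDerivWithin_of_isOpen m ho' h0, iteratedFDerivWithin_of_isOpen m isOpen_ball h0,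
    map_zero, p.iteratedFDeriv_comp_left (hc.contDiffAt (ball_mem_nhds 0 one_pos)) (i := m)
      le_rfl] at key
  rw [show (fun ζ : ℂ => f (ζ • u) l) = (p ∘ f) ∘ L from rfl, iteratedDeriv_eq_iteratedFDeriv, key]
  simp [L, p]

theorem gain {F W : ℂ → ℂ} (hF : AnalyticAt ℂ F 0) (hW : AnalyticAt ℂ W 0) {R C : ℝ} (hR : 0 < R)
    {m : ℕ} {η : ℝ} (hη : |η| = 1) (h1 : η * co F m = m) (h2 : η * (co W m).re < 0) :
    ∃ σ : ℝ, 0 < σ ^ 2 ∧ σ ^ 2 ≤ 1 / 4 ∧ ∀ φ : ℂ → ℂ, DifferentiableOn ℂ φ (ball 0 1) →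
      (∀ ζ, ζ ≠ 0 → ‖ζ‖ ≤ R → ‖φ ζ - (F ζ + σ * W ζ)‖ ≤ C * σ ^ 2) → (m : ℝ) < ‖co φ m‖ := by
  have hb : ∀ᶠ ζ in 𝓝 (0 : ℂ), ‖ζ‖ < min R 1 :=
    (continuous_norm.tendsto' 0 0 norm_zero).eventually_lt_const (by positivity)
  obtain ⟨r, r0, hr⟩ := nhds_basis_closedBall.eventually_iff.1
    (hF.eventually_analyticAt.and (hW.eventually_analyticAt.and hb))
  set w := -(η * (co W m).re) with hw
  have w0 : 0 < w := neg_pos.2 h2
  set D := |C| / r ^ m + 1 with hD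
  have D0 : 0 < D := by positivity
  obtain ⟨s, s0, s1, s2⟩ : ∃ s : ℝ, 0 < s ∧ s ≤ 1 / 2 ∧ D * s < w :=
    ⟨min (1 / 2) (w / (2 * D)), by positivity, min_le_left _ _,
      (mul_le_mul_of_nonneg_left (min_le_right _ _) D0.le).trans_lt (by
        rw [show D * (w / (2 * D)) = w / 2 by field_simp]; linarith)⟩
  refine ⟨-s, by rw [neg_sq]; positivity, by nlinarith, fun φ hφ h => ?_⟩
  have hφ0 : AnalyticAt ℂ φ 0 := hφ.analyticAt (ball_mem_nhds 0 one_pos)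
  have hd : DifferentiableOn ℂ (fun ζ => φ ζ + -1 * (F ζ + (-s : ℝ) * W ζ)) (closedBall 0 r) :=
    fun ζ hζ => DifferentiableAt.differentiableWithinAt (by
      have a := (hr hζ).1.differentiableAt
      have b := (hr hζ).2.1.differentiableAt
      have c := hφ.differentiableAt (isOpen_ball.mem_nhds
        (mem_ball_zero_iff.2 ((hr hζ).2.2.trans_le (min_le_right _ _))))
      fun_prop)
  have key := norm_iteratedDeriv_le_of_forall_mem_sphere_norm_le m r0 (C := |C| * s ^ 2)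
    (hd.diffContOnCl_ball subset_rfl) fun ζ hζ => by
      have a := mem_sphere_zero_iff_norm.1 hζ
      have := h ζ (norm_pos_iff.1 (a ▸ r0))
        ((hr (sphere_subset_closedBall hζ)).2.2.trans_le (min_le_left _ _)).le
      rw [neg_one_mul, ← sub_eq_add_neg]
      refine this.trans ?_
      rw [neg_sq]; gcongr; exact le_abs_self C
  have k2 : ‖co (fun ζ => φ ζ + -1 * (F ζ + (-s : ℝ) * W ζ)) m‖ ≤ D * s ^ 2 := by
    have p : (0 : ℝ) < m.factorial := by exact_mod_cast m.factorial_pos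
    rw [co, norm_div, Complex.norm_natCast, div_le_iff₀ p]
    refine key.trans ?_
    calc _ = |C| / r ^ m * s ^ 2 * m.factorial := by ring
      _ ≤ _ := by gcongr; linarith
  rw [co_add hφ0 (by fun_prop), co_cmul, co_add hF (by fun_prop), co_cmul] at k2
  have n1 : ∀ c : ℂ, η * c.re ≤ ‖c‖ := fun c =>
    (le_abs_self _).trans (by rw [abs_mul, hη, one_mul]; exact abs_re_le_norm c)
  have a := n1 (co φ m)
  have b := n1 (-(co φ m + -1 * (co F m + (-s : ℝ) * co W m)))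
  have c := congrArg re h1
  rw [norm_neg] at b
  simp only [neg_re, add_re, neg_one_mul, re_ofReal_mul, natCast_re] at b c
  rw [neg_one_mul] at k2
  nlinarith [mul_lt_mul_of_pos_left s2 s0]

theorem exists_fam {σ : ℝ} (h0 : 0 < σ ^ 2) (hσ : σ ^ 2 ≤ 1 / 4) {i j : Fin n}
    (hij : j ≠ i) : ∃ (H f : E n → E n) (v : ℝ → E n → E n) (M : ℝ) (K : NNReal),
      Koe H f v M ∧ LipschitzWith K H ∧ (∀ y : E n, ‖y‖ ≤ 1 / 2 → ‖y + H y‖ ≤ 8 * ‖y‖ ^ 2) ∧
      (∀ y : E n, ‖y‖ ≤ 1 / 2 → ‖H y i + (y i * cay (y j) +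
        σ * ((y i ^ 2 - y j ^ 2) / (1 + y j) ^ 2))‖ ≤ 56 * σ ^ 2 * ‖y‖ ^ 2) ∧
      (∀ y : E n, ‖y‖ ≤ 1 / 2 → ‖H y j + (y j * cay (y i) +
        σ * ((y j ^ 2 - y i ^ 2) / (1 + y i) ^ 2))‖ ≤ 56 * σ ^ 2 * ‖y‖ ^ 2) ∧
      ∀ k, k ≠ i → k ≠ j → ∀ y : E n, ‖y‖ ≤ 1 / 2 →
        ‖H y k + y k * ((cay (y i) + cay (y j)) / 2)‖ ≤ 56 * σ ^ 2 * ‖y‖ ^ 2 := by
  have t0 : (0 : ℝ) ^ 2 ≤ σ ^ 2 := by simpa using h0.le
  have ok : ∀ k : Fin n, (if k = i ∨ k = j then Pt σ σ else Pt 0 σ).Ok (1 - σ ^ 2 / 4) (σ ^ 2) :=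
    fun k => by split_ifs; exacts [Pt_ok le_rfl hσ, Pt_ok t0 hσ]
  obtain ⟨H, f, v, M, K, h1, h2, h3⟩ := exists_star2 (fun k => if k = i then j else i)
    (fun k => if k = j then i else j) ok ok (by linarith) h0 i
  have c := norm_le_pi_norm (G := fun _ : Fin n => ℂ)
  refine ⟨H, f, v, M, K, h1, h2, fun y hy => ?_, fun y hy => ?_, fun y hy => ?_,
    fun k ki kj y hy => ?_⟩ <;> rw [h3 y (by linarith), ← norm_neg]
  · refine (pi_norm_le_iff_of_nonneg (by positivity)).2 fun k => ?_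
    refine (le_of_eq (congrArg norm ?_)).trans (avg_le
      ((ok k).quad_half (by linarith) h0.le (c y k) (c y (if k = i then j else i)) hy)
      ((ok k).quad_half (by linarith) h0.le (c y k) (c y (if k = j then i else j)) hy))
    simp only [fld2, Pi.add_apply, Pi.neg_apply]; ring
  · refine (le_of_eq (congrArg norm ?_)).trans (Pt_err (τ := σ) le_rfl hσ (c y i) (c y j) hy)
    simp only [fld2, Pi.neg_apply, cay, true_or, if_true, hij.symm, if_false]; ring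
  · refine (le_of_eq (congrArg norm ?_)).trans (Pt_err (τ := σ) le_rfl hσ (c y j) (c y i) hy)
    simp only [fld2, Pi.neg_apply, cay, or_true, if_true, hij, if_false]; ring
  · refine (le_of_eq (congrArg norm ?_)).trans
      (avg_le (Pt_err t0 hσ (c y k) (c y i) hy) (Pt_err t0 hσ (c y k) (c y j) hy))
    simp only [fld2, Pi.neg_apply, cay, ki, kj, or_self, if_false, ofReal_zero]; ring

/-- The statement in dimension `n` and degree `m`. -/
def Fails (n m : ℕ) : Prop :=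
  ∃ f : E n → E n, DifferentiableOn ℂ f (ball 0 1) ∧ InjOn f (ball 0 1) ∧ f 0 = 0 ∧
    fderiv ℂ f 0 = ContinuousLinearMap.id ℂ (E n) ∧ StarConvex ℝ 0 (f '' ball 0 1) ∧
    ∃ u : E n, ‖u‖ = 1 ∧
      (m : ℝ) < ‖((m.factorial : ℂ)⁻¹) • iteratedFDeriv ℂ m f 0 (fun _ => u)‖

theorem fails_of {κ : ℂ} {Fh Wh g : P3 → ℂ} (hF : ContDiffAt ℂ 1 Fh p0)
    (hW : ContDiffAt ℂ 1 Wh p0) (hg : ContDiffAt ℂ 1 g p0) (F0 : ∀ a, Fh (0, a) = g (0, a))
    (W0 : ∀ a, Wh (0, a) = 0)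
    (idF : ∀ᶠ p in 𝓝 p0, fderiv ℂ (fun p => p.1 * Fh p) p (X0 κ p) = p.1 * Fh p)
    (idW : ∀ᶠ p in 𝓝 p0, p.1 * Wh p - fderiv ℂ (fun p => p.1 * Wh p) p (X0 κ p) =
      fderiv ℂ (fun p => p.1 * Fh p) p (dl κ p)) {i j k l : Fin n} (hij : j ≠ i)
    (hκ : κ = 0 ∨ κ = 1 ∧ k ≠ i ∧ k ≠ j) (hl : ∀ y : E n, y j ≠ 0 → y j * g (bl κ i j k y) = y l)
    {m : ℕ} {η : ℝ} (hη : |η| = 1) (h1 : η * co (sl Fh) m = m) (h2 : η * (co (sl Wh) m).re < 0) :
    Fails n m := by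
  obtain ⟨R, hR, C, hC⟩ := approx hF hW hg F0 W0 idF idW
  obtain ⟨σ, s0, s1, hs⟩ := gain (C := C) (sl_an hF) (sl_an hW) hR hη h1 h2
  obtain ⟨H, f, v, M, K, hk, hK, e0, e1, e2, e3⟩ := exists_fam s0 s1 hij
  let u : E n := fun a => if a = i then -1 else 1
  have uj : u j = 1 := if_neg hij
  have hu : ‖u‖ = 1 := le_antisymm ((pi_norm_le_iff_of_nonneg zero_le_one).2 fun a => by
    simp only [u]; split_ifs <;> simp) (by simpa [uj] using norm_le_pi_norm u j)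
  refine ⟨f, hk.hol, hk.inj hK, hk.map_zero, hk.fderiv_zero, hk.star hK, u, hu, ?_⟩
  refine (hs (fun ζ => f (ζ • u) l) ?_ (hC n H f v M σ i j k l u hk (by linarith) hu (if_pos rfl) uj
    e0 e1 e2 (hκ.imp_right fun h => ⟨h.1, if_neg h.2.1, e3 k h.2.1 h.2.2⟩) hl)).trans_le ?_
  · exact differentiableOn_pi.1 (hk.hol.comp (f := fun ζ : ℂ => ζ • u) (by fun_prop)
      fun ζ hζ => by simpa [norm_smul, hu] using hζ) l
  · have := norm_le_pi_norm ((m.factorial : ℂ)⁻¹ • iteratedFDeriv ℂ m f 0 fun _ => u) l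
    rwa [Pi.smul_apply, slice_eq hk.hol, smul_eq_mul, ← div_eq_inv_mul] at this

theorem LL0 (a : ℂ × ℂ) : LL (0, a) = 0 := by simp [LL, al0, be0]

theorem signs {F W : ℂ → ℂ} {ε m : ℕ} (hF : ∀ i : ℕ, co F (4 * i + ε) = 4 * i + ε ∧
      co F (4 * i + ε + 2) = -(4 * i + ε + 2))
    (hW : ∀ i, (co W (4 * i + ε + 4)).re < 0 ∧ 0 < (co W (4 * i + ε + 4 + 2)).re) {a : ℕ}
    (hm : m = 2 * a + ε + 4) : ∃ η : ℝ, |η| = 1 ∧ η * co F m = m ∧ η * (co W m).re < 0 := by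
  obtain ⟨i, rfl | rfl⟩ := Nat.even_or_odd' a
  · refine ⟨1, abs_one, ?_, ?_⟩
    · rw [show m = 4 * (i + 1) + ε by omega, (hF _).1]; push_cast; ring
    · rw [show m = 4 * i + ε + 4 by omega, one_mul]; exact (hW i).1
  · refine ⟨-1, by simp, ?_, ?_⟩
    · rw [show m = 4 * (i + 1) + ε + 2 by omega, (hF _).2]; push_cast; ring
    · rw [show m = 4 * i + ε + 4 + 2 by omega]; linarith [(hW i).2]

theorem fails_even (hn : 2 ≤ n) (a : ℕ) : Fails n (2 * a + 0 + 4) := by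
  obtain ⟨η, h0, h1, h2⟩ := signs co_F1 co_W1 (a := a) rfl
  exact fails_of (κ := 0) (g := fun p => p.2.1) cd_F1 cd_W1 (by fun_prop)
    (fun a => by simp [F1h, iD]) (fun a => by simp [W1h, LL0])
    (ev_good.mono fun p h => (h.x_F1 0).eq) (ev_good.mono fun p h => h.id_W1 0)
    (i := ⟨0, by omega⟩) (j := ⟨1, by omega⟩) (k := ⟨0, by omega⟩) (l := ⟨0, by omega⟩) (by simp)
    (.inl rfl) (fun y hy => mul_div_cancel₀ _ hy) h0 h1 h2

theorem fails_odd (hn : 3 ≤ n) (a : ℕ) : Fails n (2 * a + 1 + 4) := by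
  obtain ⟨η, h0, h1, h2⟩ := signs co_F3 co_W3 (a := a) rfl
  exact fails_of (κ := 1) (g := fun p => p.2.2) cd_F3 cd_W3 (by fun_prop)
    (fun a => by simp [F3h, La, iD]) (fun a => by simp [W3h, LL0, La, iD])
    (ev_good.mono fun p h => h.x_F3.eq) (ev_good.mono fun p h => h.id_W3)
    (i := ⟨0, by omega⟩) (j := ⟨1, by omega⟩) (k := ⟨2, by omega⟩) (l := ⟨2, by omega⟩) (by simp)
    (.inr ⟨rfl, by simp, by simp⟩) (fun y hy => by simp only [bl]; field_simp; ring) h0 h1 h2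

theorem fails (hn : 2 ≤ n) {m : ℕ} (hm : 3 ≤ m) (h : 3 ≤ n ∨ m = 3 ∨ Even m) : Fails n m := by
  obtain ⟨a, rfl | rfl⟩ := Nat.even_or_odd' m
  · rw [show 2 * a = 2 * (a - 2) + 0 + 4 by omega]; exact fails_even hn _
  · by_cases h3 : a = 1
    · subst h3; exact three hn
    · rw [show 2 * a + 1 = 2 * (a - 2) + 1 + 4 by omega]
      refine fails_odd ?_ _
      rcases h with h | h | ⟨b, h⟩ <;> omega

end Pool.Agent.Lib.MP_c027d2_an.H35
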