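import Pool.Agent.Lib.MP_c027d2_an.H35Ex

/-! Averaged fields, and a family of fields close to a model field. -/

open Set Metric Filter Topology Complex

namespace Pool.Agent.Lib.MP_c027d2_an.H35

variable {n : ℕ} {r δ : ℝ}

/-- The average of two fields. -/
noncomputable def fld2 (P P' : Fin n → Par) (s s' : Fin n → Fin n) (z : E n) : E n :=
  fun i => ((P i).cp (z i) (z (s i)) + (P' i).cp (z i) (z (s' i))) / 2

theorem avg_le {a b : ℂ} {c : ℝ} (ha : ‖a‖ ≤ c) (hb : ‖b‖ ≤ c) : ‖(a + b) / 2‖ ≤ c := by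
  rw [norm_div, Complex.norm_two]
  linarith [norm_add_le a b]

theorem exists_star2 {P P' : Fin n → Par} (s s' : Fin n → Fin n) (h : ∀ i, (P i).Ok r δ)
    (h' : ∀ i, (P' i).Ok r δ) (hr : r < 1) (hδ : 0 < δ) (j : Fin n) :
    ∃ (H f : E n → E n) (v : ℝ → E n → E n) (M : ℝ) (K : NNReal),
      Koe H f v M ∧ LipschitzWith K H ∧ ∀ z, ‖z‖ < 1 → H z = -fld2 P P' s s' z := by
  have h0 : 0 < 4 / (1 - r) := div_pos four_pos (sub_pos.2 hr)
  have aux : ∀ (Q : Par) (a b : Fin n), Q.Ok r δ →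
      ContDiffOn ℂ 1 (fun z : E n => Q.cp (z a) (z b)) (closedBall 0 1) := fun Q a b hQ =>
    hQ.smooth hr (contDiff_apply ℂ ℂ a).contDiffOn (contDiff_apply ℂ ℂ b).contDiffOn
      fun z hz => ⟨(norm_le_pi_norm z _).trans (mem_closedBall_zero_iff.1 hz),
        (norm_le_pi_norm z _).trans (mem_closedBall_zero_iff.1 hz)⟩
  have hc : ContDiffOn ℂ 1 (fld2 P P' s s') (closedBall 0 1) := contDiffOn_pi.2 fun i =>
    ((aux _ _ _ (h i)).add (aux _ _ _ (h' i))).div_const 2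
  obtain ⟨K, hK⟩ := (hc.restrict_scalars ℝ).exists_lipschitzOnWith one_ne_zero (convex_closedBall _ _)
    (isCompact_closedBall _ _)
  obtain ⟨B, hB⟩ := (isCompact_closedBall (0 : E n) 1).exists_bound_of_continuousOn hc.continuousOn
  have ht : ∀ y : E n, trunc y ∈ closedBall (0 : E n) 1 := fun y =>
    mem_closedBall_zero_iff.2 (trunc_norm_le y)
  have he : ∀ z : E n, ‖z‖ < 1 → -fld2 P P' s s' (trunc z) = -fld2 P P' s s' z := fun z hz => by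
    rw [trunc_eq hz.le]
  have hF : Fld (fun y => -fld2 P P' s s' (trunc y)) (K * 2) B (δ / (1 + 4 / (1 - r)) ^ 2)
      (δ / 2) := by
    refine ⟨LipschitzWith.of_dist_le_mul fun a b => ?_, fun y => ?_, ?_, by positivity,
      fun y hy ε h1 h2 => ?_, by positivity⟩
    · rw [dist_neg_neg]
      refine (hK.dist_le_mul _ (ht a) _ (ht b)).trans ?_
      rw [dist_eq_norm, dist_eq_norm, NNReal.coe_mul, mul_assoc]
      exact mul_le_mul_of_nonneg_left (trunc_lip a b) K.2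
    · rw [norm_neg]; exact hB _ (ht y)
    · exact ((hc.differentiableOn one_ne_zero).mono ball_subset_closedBall).neg.congr
        fun z hz => he z (mem_ball_zero_iff.1 hz)
    · have h3 := fun i => avg_le
        ((h i).step hr hδ (norm_le_pi_norm y i) (norm_le_pi_norm y (s i)) hy.le h1 h2)
        ((h' i).step hr hδ (norm_le_pi_norm y i) (norm_le_pi_norm y (s' i)) hy.le h1 h2)
      rw [he y hy]
      refine (pi_norm_le_iff_of_nonneg ((norm_nonneg _).trans (h3 j))).2 fun i => ?_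
      refine (le_of_eq (congrArg norm ?_)).trans (h3 i)
      simp only [fld2, Pi.add_apply, Pi.smul_apply, Pi.neg_apply, Complex.real_smul]; ring
  obtain ⟨f, v, M, hk⟩ := hF.exists_koe h0 fun y hy => by
    rw [he y hy]
    refine (pi_norm_le_iff_of_nonneg (by positivity)).2 fun i => ?_
    rw [← norm_neg]
    refine (le_of_eq (congrArg norm ?_)).trans (avg_le
      ((h i).quad hr hδ (norm_le_pi_norm y i) (norm_le_pi_norm y (s i)) hy.le)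
      ((h' i).quad hr hδ (norm_le_pi_norm y i) (norm_le_pi_norm y (s' i)) hy.le))
    simp only [fld2, Pi.add_apply, Pi.neg_apply]; ring
  exact ⟨_, f, v, M, _, hk, hF.lip, he⟩

theorem den_half {ρ t : ℂ} (hρ : ‖ρ‖ ≤ 1) (ht : ‖t‖ ≤ 1 / 2) : 1 / 2 ≤ ‖1 - ρ * t‖ := by
  have := den_ge (ρ := t) (t := ρ) ht hρ
  rw [mul_comm] at this; linarith

theorem Nl_half {ρ x t : ℂ} {s : ℝ} (hρ : ‖ρ‖ ≤ 1) (hx : ‖x‖ ≤ s) (ht : ‖t‖ ≤ s)
    (hs : s ≤ 1 / 2) : ‖Nl ρ x t‖ ≤ 8 * s ^ 2 := by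
  have h1 := den_half hρ (ht.trans hs)
  have h2 : ‖x + t‖ ≤ 2 * s := by linarith [norm_add_le x t]
  rw [Nl, norm_div, norm_mul, norm_pow]
  calc _ ≤ 1 * (2 * s) ^ 2 / (1 / 2) := by gcongr
    _ = _ := by ring

theorem Nl_err {ρ ρ₀ x t τ : ℂ} {s σ : ℝ} (hρ : ‖ρ‖ ≤ 1) (hρ₀ : ‖ρ₀‖ ≤ 1) (hx : ‖x‖ ≤ s)
    (ht : ‖t‖ ≤ s) (hs : s ≤ 1 / 2) (h1 : ‖ρ - ρ₀‖ ^ 2 ≤ 2 * σ ^ 2) (h2 : ‖ρ - ρ₀ - τ‖ ≤ σ ^ 2) :
    ‖Nl ρ x t - Nl ρ₀ x t - τ * (x + t) ^ 2 / (1 - ρ₀ * t) ^ 2‖ ≤ 48 * σ ^ 2 * s ^ 2 := by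
  have d1 := den_half hρ (ht.trans hs)
  have d2 := den_half hρ₀ (ht.trans hs)
  have n1 : 1 - ρ * t ≠ 0 := norm_pos_iff.1 (by linarith)
  have n2 : 1 - ρ₀ * t ≠ 0 := norm_pos_iff.1 (by linarith)
  have h3 : ‖x + t‖ ≤ 2 * s := by linarith [norm_add_le x t]
  have h4 := ht.trans hs
  have e : Nl ρ x t - Nl ρ₀ x t - τ * (x + t) ^ 2 / (1 - ρ₀ * t) ^ 2 =
      (ρ - ρ₀) ^ 2 * t * (x + t) ^ 2 / ((1 - ρ * t) * (1 - ρ₀ * t) ^ 2) +
      (ρ - ρ₀ - τ) * (x + t) ^ 2 / (1 - ρ₀ * t) ^ 2 := by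
    unfold Nl; generalize hA : 1 - ρ * t = A at n1; generalize hB : 1 - ρ₀ * t = B at n2
    field_simp; rw [← hA, ← hB]; ring
  rw [e]
  refine (norm_add_le _ _).trans ?_
  simp only [norm_div, norm_mul, norm_pow]
  calc _ ≤ 2 * σ ^ 2 * (1 / 2) * (2 * s) ^ 2 / (1 / 2 * (1 / 2) ^ 2) +
        σ ^ 2 * (2 * s) ^ 2 / (1 / 2) ^ 2 := by gcongr
    _ = _ := by ring

/-- The perturbed component. -/
noncomputable def Pt (τ σ : ℝ) : Par :=
  ⟨0, (1 - σ ^ 2) / 2, 0, ⟨τ, 1 - σ ^ 2⟩, ⟨τ, -(1 - σ ^ 2)⟩, I⟩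

theorem Pt_ok {τ σ : ℝ} (h : τ ^ 2 ≤ σ ^ 2) (hσ : σ ^ 2 ≤ 1 / 4) :
    (Pt τ σ).Ok (1 - σ ^ 2 / 4) (σ ^ 2) :=
  ⟨le_rfl, by simp only [Pt]; linarith, by simp only [Pt]; linarith,
    by simp only [Pt, norm_zero]; linarith,
    nrm (by linarith) (by nlinarith [sq_nonneg σ]), nrm (by linarith) (by nlinarith [sq_nonneg σ]),
    by simp [Pt]⟩

theorem Par.Ok.quad_half {P : Par} (h : P.Ok r δ) (hr : r ≤ 1) (hδ : 0 ≤ δ) {x y : ℂ} {s : ℝ}
    (hx : ‖x‖ ≤ s) (hy : ‖y‖ ≤ s) (hs : s ≤ 1 / 2) : ‖P.cp x y - x‖ ≤ 8 * s ^ 2 := by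
  have h1 := Nl_half (h.σ.trans hr) hx hx hs
  have h2 := Nl_half (h.p.trans hr) hx ((h.ly y).trans hy) hs
  have h3 := Nl_half (t := -(P.l * y)) (h.q.trans hr) hx
    (by rw [norm_neg]; exact (h.ly y).trans hy) hs
  rw [Par.cp, add_sub_cancel_left]
  refine (norm_add₃_le).trans ?_
  simp only [norm_mul, Complex.norm_real, Real.norm_of_nonneg h.a, Real.norm_of_nonneg h.k]
  have := h.s
  nlinarith [mul_le_mul_of_nonneg_left h1 h.a, mul_le_mul_of_nonneg_left h2 h.k,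
    mul_le_mul_of_nonneg_left h3 h.k, h.a, h.k, sq_nonneg s]

theorem Pt_err {τ σ : ℝ} (h : τ ^ 2 ≤ σ ^ 2) (hσ : σ ^ 2 ≤ 1 / 4) {x y : ℂ} {s : ℝ}
    (hx : ‖x‖ ≤ s) (hy : ‖y‖ ≤ s) (hs : s ≤ 1 / 2) :
    ‖(Pt τ σ).cp x y - (x * ((1 - y) / (1 + y)) + τ * ((x ^ 2 - y ^ 2) / (1 + y) ^ 2))‖ ≤
      56 * σ ^ 2 * s ^ 2 := by
  have ok := Pt_ok h hσ
  have s2 := sq_nonneg σ
  have p1 : ‖(Pt τ σ).p‖ ≤ 1 := ok.p.trans (by linarith)
  have q1 : ‖(Pt τ σ).q‖ ≤ 1 := ok.q.trans (by linarith)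
  have t1 : ‖I * y‖ ≤ s := by simpa using hy
  have t2 : ‖-(I * y)‖ ≤ s := by simpa using hy
  have a1 := Nl_err (ρ₀ := I) (τ := τ) (σ := σ) p1 (by simp) hx t1 hs
    (by rw [Complex.sq_norm, Complex.normSq_apply]; simp [Pt]; nlinarith)
    (by rw [show (Pt τ σ).p - I - τ = ⟨0, -σ ^ 2⟩ from by simp [Pt, Complex.ext_iff]]
        exact nrm s2 (by simp))
  have a2 := Nl_err (ρ₀ := -I) (τ := τ) (σ := σ) q1 (by simp) hx t2 hs
    (by rw [Complex.sq_norm, Complex.normSq_apply]; simp [Pt]; nlinarith)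
    (by rw [show (Pt τ σ).q - -I - τ = ⟨0, σ ^ 2⟩ from by simp [Pt, Complex.ext_iff]]
        exact nrm s2 (by simp))
  have b1 := Nl_half p1 hx t1 hs
  have b2 := Nl_half q1 hx t2 hs
  have e1 : 1 - I * (I * y) = 1 + y := by linear_combination (-y) * I_mul_I
  have e2 : 1 - -I * -(I * y) = 1 + y := by linear_combination (-y) * I_mul_I
  have n1 : 1 + y ≠ 0 := by
    have := den_half (ρ := -1) (by simp) (hy.trans hs)
    rw [neg_one_mul, sub_neg_eq_add] at this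
    exact norm_pos_iff.1 (by linarith)
  have e : (Pt τ σ).cp x y - (x * ((1 - y) / (1 + y)) + τ * ((x ^ 2 - y ^ 2) / (1 + y) ^ 2)) =
      ((Nl (Pt τ σ).p x (I * y) - Nl I x (I * y) - τ * (x + I * y) ^ 2 / (1 - I * (I * y)) ^ 2) +
      (Nl (Pt τ σ).q x (-(I * y)) - Nl (-I) x (-(I * y)) -
        τ * (x + -(I * y)) ^ 2 / (1 - -I * -(I * y)) ^ 2)) / 2 -
      (σ ^ 2 : ℝ) * ((Nl (Pt τ σ).p x (I * y) + Nl (Pt τ σ).q x (-(I * y))) / 2) := by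
    have c1 : Nl I x (I * y) + Nl (-I) x (-(I * y)) = -4 * x * y / (1 + y) := by
      unfold Nl; rw [e1, e2]; field_simp; linear_combination (4 * x * y) * I_mul_I
    have c2 : (x + I * y) ^ 2 + (x + -(I * y)) ^ 2 = 2 * (x ^ 2 - y ^ 2) := by
      linear_combination (2 * y ^ 2) * I_mul_I
    have c3 : x * ((1 - y) / (1 + y)) = x + -4 * x * y / (1 + y) / 2 := by field_simp; ring
    rw [e1, e2, c3, ← c1, Par.cp]
    simp only [show (Pt τ σ).l = I from rfl, show (Pt τ σ).a = 0 from rfl,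
      show (Pt τ σ).k = (1 - σ ^ 2) / 2 from rfl]
    push_cast
    linear_combination (τ / (1 + y) ^ 2 / 2) * c2
  rw [e]
  refine (norm_sub_le _ _).trans ?_
  rw [norm_mul, Complex.norm_real, Real.norm_of_nonneg s2]
  nlinarith [avg_le a1 a2, mul_le_mul_of_nonneg_left (avg_le b1 b2) s2]

end Pool.Agent.Lib.MP_c027d2_an.H35
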