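import Pool.Agent.Lib.MP_c027d2_an.H35Loc

/-! The model map and its first variation in closed form. -/

open Set Metric Filter Topology Complex

namespace Pool.Agent.Lib.MP_c027d2_an.H35

/-- `U` has derivative `c` at `p` in the direction `w`. -/
def Dir (U : P3 → ℂ) (p w : P3) (c : ℂ) : Prop := ∃ L : P3 →L[ℂ] ℂ, HasFDerivAt U L p ∧ L w = c

section dir

variable {U V : P3 → ℂ} {p w : P3} {c d : ℂ}

theorem Dir.eq (h : Dir U p w c) : fderiv ℂ U p w = c := by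
  obtain ⟨L, h, e⟩ := h; rw [h.fderiv, e]

theorem Dir.val (h : Dir U p w c) (e : c = d) : Dir U p w d := e ▸ h

theorem Dir.const (a : ℂ) : Dir (fun _ => a) p w 0 := ⟨0, hasFDerivAt_const a p, rfl⟩

theorem Dir.add (h : Dir U p w c) (h' : Dir V p w d) : Dir (fun p => U p + V p) p w (c + d) := by
  obtain ⟨L, h, rfl⟩ := h; obtain ⟨L', h', rfl⟩ := h'
  exact ⟨_, h.add h', rfl⟩

theorem Dir.sub (h : Dir U p w c) (h' : Dir V p w d) : Dir (fun p => U p - V p) p w (c - d) := by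
  obtain ⟨L, h, rfl⟩ := h; obtain ⟨L', h', rfl⟩ := h'
  exact ⟨_, h.sub h', rfl⟩

theorem Dir.mul (h : Dir U p w c) (h' : Dir V p w d) :
    Dir (fun p => U p * V p) p w (U p * d + V p * c) := by
  obtain ⟨L, h, rfl⟩ := h; obtain ⟨L', h', rfl⟩ := h'
  exact ⟨_, h.mul h', rfl⟩

theorem Dir.comp {g : ℂ → ℂ} {g' : ℂ} (h : Dir U p w c) (hg : HasDerivAt g g' (U p)) :
    Dir (fun p => g (U p)) p w (g' * c) := by
  obtain ⟨L, h, rfl⟩ := h
  exact ⟨_, hg.comp_hasFDerivAt p h, rfl⟩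

theorem Dir.inv (h : Dir U p w c) (h0 : U p ≠ 0) :
    Dir (fun p => (U p)⁻¹) p w (-(U p ^ 2)⁻¹ * c) := h.comp (hasDerivAt_inv h0)

theorem dir1 : Dir (fun p => p.1) p w w.1 := ⟨_, hasFDerivAt_fst, rfl⟩

theorem dir2 : Dir (fun p => p.2.1) p w w.2.1 :=
  ⟨_, (hasFDerivAt_snd (𝕜 := ℂ) (p := p)).fst, rfl⟩

theorem dir3 : Dir (fun p => p.2.2) p w w.2.2 :=
  ⟨_, (hasFDerivAt_snd (𝕜 := ℂ) (p := p)).snd, rfl⟩

end dir

/-- `log (1 + u) / u`. -/
noncomputable def ell : ℂ → ℂ := dslope (fun u => log (1 + u)) 0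

theorem mul_ell (u : ℂ) : u * ell u = log (1 + u) := by
  simpa [ell] using sub_smul_dslope (fun u => log (1 + u)) 0 u

theorem der_log {u : ℂ} (hu : ‖u‖ < 1) : HasDerivAt (fun u => log (1 + u)) (1 + u)⁻¹ u := by
  simpa using ((hasDerivAt_id u).const_add 1).clog (mem_slitPlane_of_norm_lt_one hu)

theorem ell_diff : DifferentiableOn ℂ ell (ball 0 1) :=
  (differentiableOn_dslope (ball_mem_nhds 0 one_pos)).2 fun _ hu =>
    (der_log (mem_ball_zero_iff.1 hu)).differentiableAt.differentiableWithinAt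

theorem ell_an : AnalyticAt ℂ ell 0 := ell_diff.analyticAt (ball_mem_nhds 0 one_pos)

theorem ell_der {u : ℂ} (hu : ‖u‖ < 1) :
    HasDerivAt ell (deriv ell u) u ∧ deriv ell u * u = (1 + u)⁻¹ - ell u := by
  have h := (ell_diff.differentiableAt (isOpen_ball.mem_nhds (mem_ball_zero_iff.2 hu))).hasDerivAt
  refine ⟨h, ?_⟩
  have h1 := (hasDerivAt_id u).fun_mul h
  simp only [id, mul_ell] at h1
  linear_combination h1.unique (der_log hu)

/-- A square root of `-a` near `a = -1`. -/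
noncomputable def sq1 (a : ℂ) : ℂ := exp (log (-a) / 2)

noncomputable def iD (p : P3) : ℂ := (1 - p.2.1 * p.1 * p.1)⁻¹
noncomputable def La (p : P3) : ℂ := (1 + p.2.1 * p.1) * (1 + p.1) * iD p
noncomputable def F1h (p : P3) : ℂ := p.2.1 * ((1 + p.1) * iD p) * ((1 + p.1) * iD p)
noncomputable def F2h (p : P3) : ℂ := (1 + p.2.1 * p.1) * iD p * ((1 + p.2.1 * p.1) * iD p)
noncomputable def F3h (p : P3) : ℂ := p.2.2 * (La p * iD p)
noncomputable def Sh (p : P3) : ℂ := F1h p + F2h p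
noncomputable def Jh (p : P3) : ℂ := (p.2.1 - 1) * iD p
noncomputable def th (p : P3) : ℂ := I * (La p * iD p) * sq1 p.2.1
noncomputable def al (p : P3) : ℂ := p.1 * (Sh p + 2 * th p)
noncomputable def be (p : P3) : ℂ := p.1 * (Sh p - 2 * th p)
noncomputable def LL (p : P3) : ℂ := al p * ell (al p) + be p * ell (be p)
noncomputable def om (p : P3) : ℂ := 2 - ell (al p) - ell (be p)
noncomputable def W1h (p : P3) : ℂ := -1 / 2 * Jh p * (LL p - p.1 * Jh p * om p)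
noncomputable def Gh (p : P3) : ℂ :=
  p.2.2 * ((p.2.1 - 1) * (p.2.1 - 1)) * (4 * p.2.1 * ((1 + p.1) * (1 + p.2.1 * p.1)))⁻¹
noncomputable def W3h (p : P3) : ℂ := Gh p * (LL p + p.1 * Sh p * om p - 2 * (La p - 1))

structure Good (p : P3) : Prop where
  n1 : 1 + p.1 ≠ 0
  n2 : 1 + p.2.1 * p.1 ≠ 0
  n3 : p.2.1 ≠ 0
  n4 : 1 - p.2.1 * p.1 * p.1 ≠ 0
  sl : -p.2.1 ∈ slitPlane
  a : ‖al p‖ < 1
  b : ‖be p‖ < 1

theorem cd_iD : ContDiffAt ℂ 1 iD p0 := by unfold iD; fun_prop (disch := simp [p0])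
theorem cd_La : ContDiffAt ℂ 1 La p0 := by have := cd_iD; unfold La; fun_prop
theorem cd_F1 : ContDiffAt ℂ 1 F1h p0 := by have := cd_iD; unfold F1h; fun_prop
theorem cd_F2 : ContDiffAt ℂ 1 F2h p0 := by have := cd_iD; unfold F2h; fun_prop
theorem cd_F3 : ContDiffAt ℂ 1 F3h p0 := by have := cd_iD; have := cd_La; unfold F3h; fun_prop
theorem cd_S : ContDiffAt ℂ 1 Sh p0 := cd_F1.add cd_F2
theorem cd_J : ContDiffAt ℂ 1 Jh p0 := by have := cd_iD; unfold Jh; fun_prop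

theorem cd_th : ContDiffAt ℂ 1 th p0 := by
  have h : ContDiffAt ℂ 1 (fun p : P3 => log (-p.2.1)) p0 :=
    (contDiffAt_log (by simp [p0])).comp p0 (f := fun p : P3 => -p.2.1) (by fun_prop)
  have := cd_iD; have := cd_La
  unfold th sq1; fun_prop

theorem cd_al : ContDiffAt ℂ 1 al p0 := by have := cd_S; have := cd_th; unfold al; fun_prop
theorem cd_be : ContDiffAt ℂ 1 be p0 := by have := cd_S; have := cd_th; unfold be; fun_prop

theorem cd_ell {U : P3 → ℂ} (h : ContDiffAt ℂ 1 U p0) (h0 : U p0 = 0) :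
    ContDiffAt ℂ 1 (fun p => ell (U p)) p0 :=
  ContDiffAt.comp p0 (g := ell) (h0 ▸ ell_an.contDiffAt) h

theorem al0 (a : ℂ × ℂ) : al (0, a) = 0 := zero_mul _
theorem be0 (a : ℂ × ℂ) : be (0, a) = 0 := zero_mul _

theorem cd_LL : ContDiffAt ℂ 1 LL p0 :=
  (cd_al.mul (cd_ell cd_al (al0 _))).add (cd_be.mul (cd_ell cd_be (be0 _)))

theorem cd_om : ContDiffAt ℂ 1 om p0 :=
  (contDiffAt_const.sub (cd_ell cd_al (al0 _))).sub (cd_ell cd_be (be0 _))

theorem cd_W1 : ContDiffAt ℂ 1 W1h p0 := by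
  have := cd_J; have := cd_LL; have := cd_om; unfold W1h; fun_prop

theorem cd_W3 : ContDiffAt ℂ 1 W3h p0 := by
  have : ContDiffAt ℂ 1 Gh p0 := by unfold Gh; fun_prop (disch := simp [p0])
  have := cd_S; have := cd_LL; have := cd_om; have := cd_La; unfold W3h; fun_prop

theorem ev_good : ∀ᶠ p in 𝓝 p0, Good p := by
  have h1 : ∀ᶠ p : P3 in 𝓝 p0, 1 + p.1 ≠ 0 := ContinuousAt.eventually_ne (by fun_prop) (by simp [p0])
  have h2 : ∀ᶠ p : P3 in 𝓝 p0, 1 + p.2.1 * p.1 ≠ 0 :=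
    ContinuousAt.eventually_ne (by fun_prop) (by simp [p0])
  have h3 : ∀ᶠ p : P3 in 𝓝 p0, p.2.1 ≠ 0 := ContinuousAt.eventually_ne (by fun_prop) (by simp [p0])
  have h4 : ∀ᶠ p : P3 in 𝓝 p0, 1 - p.2.1 * p.1 * p.1 ≠ 0 :=
    ContinuousAt.eventually_ne (by fun_prop) (by simp [p0])
  have h5 : ∀ᶠ p : P3 in 𝓝 p0, -p.2.1 ∈ slitPlane :=
    ContinuousAt.eventually_mem (by fun_prop) (isOpen_slitPlane.mem_nhds (by simp [p0]))
  have h6 := cd_al.continuousAt.norm.eventually_lt_const (u := 1) (by simp [p0, al0])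
  have h7 := cd_be.continuousAt.norm.eventually_lt_const (u := 1) (by simp [p0, be0])
  filter_upwards [h1, h2, h3, h4, h5, h6, h7] with p a b c d e f g using ⟨a, b, c, d, e, f, g⟩

namespace Good

variable {p : P3} (h : Good p) (w : P3)
include h

theorem d_iD : Dir iD p w (iD p ^ 2 * (2 * p.2.1 * p.1 * w.1 + p.1 ^ 2 * w.2.1)) :=
  (((Dir.const 1).sub ((dir2.mul dir1).mul dir1)).inv h.n4).val (by rw [iD, inv_pow]; ring)

theorem d_La : Dir La p w (iD p * ((1 + p.2.1 * p.1) * w.1 + (1 + p.1) * (p.2.1 * w.1 + p.1 * w.2.1)) +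
    La p * iD p * (2 * p.2.1 * p.1 * w.1 + p.1 ^ 2 * w.2.1)) :=
  ((((Dir.const 1).add (dir2.mul dir1)).mul ((Dir.const 1).add dir1)).mul (h.d_iD w)).val
    (by rw [La]; ring)

theorem d_F1 : Dir (fun p => p.1 * F1h p) p w (iD p ^ 2 * (1 + p.1) *
    ((1 + p.1) * (p.2.1 * w.1 + p.1 * w.2.1) + 2 * p.2.1 * p.1 * w.1 +
      2 * p.2.1 * p.1 * (1 + p.1) * iD p * (2 * p.2.1 * p.1 * w.1 + p.1 ^ 2 * w.2.1))) :=
  (dir1.mul ((dir2.mul (((Dir.const 1).add dir1).mul (h.d_iD w))).mul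
    (((Dir.const 1).add dir1).mul (h.d_iD w)))).val (by ring)

theorem d_F3 : Dir (fun p => p.1 * F3h p) p w (La p * iD p * (p.2.2 * w.1 + p.1 * w.2.2) +
    p.1 * p.2.2 * iD p ^ 2 * ((1 + p.2.1 * p.1) * w.1 + (1 + p.1) * (p.2.1 * w.1 + p.1 * w.2.1) +
      2 * La p * (2 * p.2.1 * p.1 * w.1 + p.1 ^ 2 * w.2.1))) :=
  (dir1.mul (dir3.mul ((h.d_La w).mul (h.d_iD w)))).val (by ring)

variable (κ : ℂ)

theorem x_F1 : Dir (fun p => p.1 * F1h p) p (X0 κ p) (p.1 * F1h p) :=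
  (h.d_F1 _).val (by
    have n1 := h.n1; have n2 := h.n2; have n4 := h.n4
    simp only [X0, rate, cay, F1h, iD]
    generalize hD : 1 - p.2.1 * p.1 * p.1 = D at n4 ⊢
    generalize hA : 1 + p.2.1 * p.1 = A at n2 ⊢
    field_simp; subst hA hD; ring)

theorem x_F3 : Dir (fun p => p.1 * F3h p) p (X0 1 p) (p.1 * F3h p) :=
  (h.d_F3 _).val (by
    have n1 := h.n1; have n2 := h.n2; have n4 := h.n4
    simp only [X0, rate, cay, F3h, La, iD]
    generalize hD : 1 - p.2.1 * p.1 * p.1 = D at n4 ⊢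
    generalize hA : 1 + p.2.1 * p.1 = A at n2 ⊢
    field_simp; subst hA hD; ring)

theorem x_S : Dir (fun p => p.1 * Sh p) p (X0 κ p) (p.1 * Sh p) :=
  (dir1.mul (((dir2.mul (((Dir.const 1).add dir1).mul (h.d_iD _))).mul
    (((Dir.const 1).add dir1).mul (h.d_iD _))).add
    ((((Dir.const 1).add (dir2.mul dir1)).mul (h.d_iD _)).mul
      (((Dir.const 1).add (dir2.mul dir1)).mul (h.d_iD _))))).val (by
    have n1 := h.n1; have n2 := h.n2; have n4 := h.n4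
    simp only [X0, rate, cay, Sh, F1h, F2h, iD]
    generalize hD : 1 - p.2.1 * p.1 * p.1 = D at n4 ⊢
    generalize hA : 1 + p.2.1 * p.1 = A at n2 ⊢
    field_simp; subst hA hD; ring)

theorem x_J : Dir (fun p => p.1 * Jh p) p (X0 κ p) (p.1 * Jh p) :=
  (dir1.mul ((dir2.sub (Dir.const 1)).mul (h.d_iD _))).val (by
    have n1 := h.n1; have n2 := h.n2; have n4 := h.n4
    simp only [X0, rate, cay, Jh, iD]
    generalize hD : 1 - p.2.1 * p.1 * p.1 = D at n4 ⊢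
    generalize hA : 1 + p.2.1 * p.1 = A at n2 ⊢
    field_simp; subst hA hD; ring)

theorem x_th : Dir (fun p => p.1 * th p) p (X0 κ p) (p.1 * th p) := by
  have h1 : HasDerivAt sq1 (sq1 p.2.1 * (p.2.1⁻¹ / 2)) p.2.1 := by
    refine HasDerivAt.congr_deriv (f := sq1) (((hasDerivAt_neg p.2.1).clog h.sl).div_const 2).cexp ?_
    rw [sq1]; field_simp
  exact (dir1.mul (((Dir.const I).mul ((h.d_La _).mul (h.d_iD _))).mul (dir2.comp h1))).val (by
    have n1 := h.n1; have n2 := h.n2; have n3 := h.n3; have n4 := h.n4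
    simp only [X0, rate, cay, th, La, iD]
    generalize hD : 1 - p.2.1 * p.1 * p.1 = D at n4 ⊢
    generalize hA : 1 + p.2.1 * p.1 = A at n2 ⊢
    field_simp; subst hA hD; ring)

theorem x_al : Dir al p (X0 κ p) (al p) := by
  have := (h.x_S κ).add ((Dir.const 2).mul (h.x_th κ))
  rw [show al = fun p => p.1 * Sh p + 2 * (p.1 * th p) from funext fun p => by rw [al]; ring]
  exact this.val (by ring)

theorem x_be : Dir be p (X0 κ p) (be p) := by
  have := (h.x_S κ).sub ((Dir.const 2).mul (h.x_th κ))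
  rw [show be = fun p => p.1 * Sh p - 2 * (p.1 * th p) from funext fun p => by rw [be]; ring]
  exact this.val (by ring)

theorem ab : al p * be p = (p.1 * Jh p) ^ 2 := by
  have h1 : sq1 p.2.1 ^ 2 = -p.2.1 := by
    rw [sq1, ← exp_nat_mul, Nat.cast_ofNat, mul_div_cancel₀ _ two_ne_zero,
      exp_log (neg_ne_zero.2 h.n3)]
  have h2 : th p ^ 2 = p.2.1 * (La p * iD p) ^ 2 := by
    rw [th, mul_pow, mul_pow, h1, I_sq]; ring
  have h3 : Sh p ^ 2 - 4 * (p.2.1 * (La p * iD p) ^ 2) = Jh p ^ 2 := by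
    have n2 := h.n2; have n4 := h.n4
    simp only [Sh, F1h, F2h, La, Jh, iD]
    generalize hD : 1 - p.2.1 * p.1 * p.1 = D at n4 ⊢
    generalize hA : 1 + p.2.1 * p.1 = A at n2 ⊢
    field_simp; subst hA hD; ring
  rw [al, be]
  linear_combination p.1 ^ 2 * h3 - 4 * p.1 ^ 2 * h2

theorem gam : 2 - (1 + al p)⁻¹ - (1 + be p)⁻¹ = 2 * (p.1 * Sh p + (p.1 * Jh p) ^ 2) / La p ^ 2 := by
  have a : 1 + al p ≠ 0 := slitPlane_ne_zero (mem_slitPlane_of_norm_lt_one h.a)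
  have b : 1 + be p ≠ 0 := slitPlane_ne_zero (mem_slitPlane_of_norm_lt_one h.b)
  have s : al p + be p = 2 * (p.1 * Sh p) := by rw [al, be]; ring
  have l : La p ^ 2 = 1 + 2 * (p.1 * Sh p) + (p.1 * Jh p) ^ 2 := by
    have n2 := h.n2; have n4 := h.n4
    simp only [Sh, F1h, F2h, La, Jh, iD]
    generalize hD : 1 - p.2.1 * p.1 * p.1 = D at n4 ⊢
    generalize hA : 1 + p.2.1 * p.1 = A at n2 ⊢
    field_simp; subst hA hD; ring
  rw [show La p ^ 2 = (1 + al p) * (1 + be p) by linear_combination l - s - h.ab, mul_add 2, ← s,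
    ← h.ab]
  field_simp; ring

theorem x_om : Dir om p (X0 κ p) (2 * (p.1 * Sh p + (p.1 * Jh p) ^ 2) / La p ^ 2 - om p) :=
  (((Dir.const 2).sub ((h.x_al κ).comp (ell_der h.a).1)).sub ((h.x_be κ).comp (ell_der h.b).1)).val
    (by rw [(ell_der h.a).2, (ell_der h.b).2, ← h.gam, om]; ring)

theorem x_LL : Dir LL p (X0 κ p) (2 * (p.1 * Sh p + (p.1 * Jh p) ^ 2) / La p ^ 2) :=
  (((h.x_al κ).mul ((h.x_al κ).comp (ell_der h.a).1)).add
    ((h.x_be κ).mul ((h.x_be κ).comp (ell_der h.b).1))).val (by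
    have a : 1 + al p ≠ 0 := slitPlane_ne_zero (mem_slitPlane_of_norm_lt_one h.a)
    have b : 1 + be p ≠ 0 := slitPlane_ne_zero (mem_slitPlane_of_norm_lt_one h.b)
    rw [(ell_der h.a).2, (ell_der h.b).2, ← h.gam]; field_simp; ring)

theorem id_W1 : p.1 * W1h p - fderiv ℂ (fun p => p.1 * W1h p) p (X0 κ p) =
    fderiv ℂ (fun p => p.1 * F1h p) p (dl κ p) := by
  have h1 := ((Dir.const (-1 / 2)).mul (h.x_J κ)).mul ((h.x_LL κ).sub ((h.x_J κ).mul (h.x_om κ)))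
  rw [show (fun p => p.1 * W1h p) = fun p => -1 / 2 * (p.1 * Jh p) * (LL p - p.1 * Jh p * om p) from
    funext fun p => by rw [W1h]; ring, h1.eq, (h.d_F1 _).eq, W1h]
  have n1 := h.n1; have n2 := h.n2; have n3 := h.n3; have n4 := h.n4
  simp only [dl, rate, q1, q2, Sh, F1h, F2h, La, Jh, iD]
  generalize hD : 1 - p.2.1 * p.1 * p.1 = D at n4 ⊢
  generalize hA : 1 + p.2.1 * p.1 = A at n2 ⊢
  field_simp; subst hA hD; ring

theorem id_W3 : p.1 * W3h p - fderiv ℂ (fun p => p.1 * W3h p) p (X0 1 p) =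
    fderiv ℂ (fun p => p.1 * F3h p) p (dl 1 p) := by
  have n1 := h.n1; have n2 := h.n2; have n3 := h.n3; have n4 := h.n4
  have g : Dir (fun p => p.1 * Gh p) p (X0 1 p) (p.1 * Gh p) :=
    (dir1.mul ((dir3.mul ((dir2.sub (Dir.const 1)).mul (dir2.sub (Dir.const 1)))).mul
      ((((Dir.const 4).mul dir2).mul (((Dir.const 1).add dir1).mul
        ((Dir.const 1).add (dir2.mul dir1)))).inv (by simp [n1, n2, n3])))).val (by
      simp only [X0, rate, cay, Gh]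
      generalize hA : 1 + p.2.1 * p.1 = A at n2 ⊢
      field_simp; subst hA; ring)
  have h1 := g.mul (((h.x_LL 1).add ((h.x_S 1).mul (h.x_om 1))).sub
    ((Dir.const 2).mul ((h.d_La _).sub (Dir.const 1))))
  rw [show (fun p => p.1 * W3h p) = fun p => p.1 * Gh p * (LL p + p.1 * Sh p * om p - 2 * (La p - 1))
    from funext fun p => by rw [W3h]; ring, h1.eq, (h.d_F3 _).eq, W3h]
  simp only [dl, X0, cay, rate, q1, q2, Sh, F1h, F2h, La, Gh, Jh, iD]
  generalize hD : 1 - p.2.1 * p.1 * p.1 = D at n4 ⊢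
  generalize hA : 1 + p.2.1 * p.1 = A at n2 ⊢
  field_simp; subst hA hD; ring

end Good

end Pool.Agent.Lib.MP_c027d2_an.H35
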