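import Pool.Agent.Lib.MP_c027d2_an.H35Cal

/-! Taylor coefficients of the model map and of its first variation on the slice. -/

open Set Metric Filter Topology Complex

namespace Pool.Agent.Lib.MP_c027d2_an.H35

/-- Taylor coefficients at the origin. -/
noncomputable def co (g : ℂ → ℂ) (k : ℕ) : ℂ := iteratedDeriv k g 0 / k.factorial

/-- Shift of a sequence. -/
def sh (s : ℕ → ℂ) : ℕ → ℂ
  | 0 => 0
  | k + 1 => s k

section co

variable {g g' : ℂ → ℂ}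

theorem co_congr (h : g =ᶠ[𝓝 0] g') (k : ℕ) : co g k = co g' k := by
  rw [co, co, h.iteratedDeriv_eq]

theorem co_add (h : AnalyticAt ℂ g 0) (h' : AnalyticAt ℂ g' 0) (k : ℕ) :
    co (fun ζ => g ζ + g' ζ) k = co g k + co g' k := by
  rw [co, iteratedDeriv_fun_add h.contDiffAt h'.contDiffAt, add_div]; rfl

theorem co_cmul (c : ℂ) (k : ℕ) : co (fun ζ => c * g ζ) k = c * co g k := by
  rw [co, iteratedDeriv_const_mul_field, mul_div_assoc]; rfl

theorem co_X (h : AnalyticAt ℂ g 0) : co (fun ζ => ζ * g ζ) = sh (co g) := by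
  funext k
  cases k with
  | zero => simp [co, sh]
  | succ k =>
    rw [co, iteratedDeriv_fun_mul (f := fun a => a) contDiffAt_id h.contDiffAt,
      Finset.sum_eq_single 1 (fun i _ hi => by simp [iteratedDeriv_fun_id_zero, hi]) (by simp)]
    have : (k + 1 : ℂ) ≠ 0 := by exact_mod_cast k.succ_ne_zero
    simp [iteratedDeriv_fun_id_zero, sh, co, Nat.factorial_succ]
    field_simp

theorem co_deriv (k : ℕ) : co (deriv g) k = (k + 1) * co g (k + 1) := by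
  have : (k + 1 : ℂ) ≠ 0 := by exact_mod_cast k.succ_ne_zero
  rw [co, co, iteratedDeriv_succ', Nat.factorial_succ]
  push_cast; field_simp

theorem co_pol (h : AnalyticAt ℂ g 0) (a b c d e : ℂ) (k : ℕ) :
    co (fun ζ => pol a b c d e ζ * g ζ) k = a * co g k + b * sh (co g) k + c * sh (sh (co g)) k +
      d * sh (sh (sh (co g))) k + e * sh (sh (sh (sh (co g)))) k := by
  have h1 : AnalyticAt ℂ (fun ζ => ζ * g ζ) 0 := by fun_prop
  have h2 : AnalyticAt ℂ (fun ζ => ζ * (ζ * g ζ)) 0 := by fun_prop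
  have h3 : AnalyticAt ℂ (fun ζ => ζ * (ζ * (ζ * g ζ))) 0 := by fun_prop
  rw [← co_X h, ← co_X h1, ← co_X h2, ← co_X h3, ← co_cmul, ← co_cmul, ← co_cmul, ← co_cmul,
    ← co_cmul, ← co_add (by fun_prop) (by fun_prop), ← co_add (by fun_prop) (by fun_prop),
    ← co_add (by fun_prop) (by fun_prop), ← co_add (by fun_prop) (by fun_prop)]
  congr 1; funext ζ; rw [pol]; ring

theorem co_one (k : ℕ) : co (fun _ => 1) k = if k = 0 then 1 else 0 := by
  rw [co, iteratedDeriv_const]; split_ifs with h <;> simp [h]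

theorem co_geo (c : ℂ) (k : ℕ) : co (fun ζ => (1 - c * ζ)⁻¹) k = c ^ k := by
  have h : AnalyticAt ℂ (fun ζ => (1 - c * ζ)⁻¹) 0 := by fun_prop (disch := simp)
  induction k with
  | zero => simp [co]
  | succ k ih =>
    have e : (fun ζ => pol 1 (-c) 0 0 0 ζ * (1 - c * ζ)⁻¹) =ᶠ[𝓝 0] fun _ => 1 := by
      have hn : ∀ᶠ ζ in 𝓝 (0 : ℂ), 1 - c * ζ ≠ 0 :=
        ContinuousAt.eventually_ne (by fun_prop) (by simp)
      filter_upwards [hn] with ζ hζ
      rw [pol]; linear_combination mul_inv_cancel₀ hζ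
    have := co_congr e (k + 1)
    rw [co_pol h, co_one, sh, ih] at this
    simp only [zero_mul, add_zero, Nat.succ_ne_zero, if_false] at this
    linear_combination this

end co

noncomputable def AA (c ζ : ℂ) : ℂ := log (1 + 2 * c * ζ * (1 - c * ζ)⁻¹ ^ 2)

theorem AA_an (c : ℂ) : AnalyticAt ℂ (AA c) 0 :=
  AnalyticAt.clog (by fun_prop (disch := simp)) (by simp)

theorem co_AA {c : ℂ} (hc : c ^ 2 = -1) (k : ℕ) :
    co (AA c) (k + 1) = ((-1) ^ k - 1 + 2 * c ^ (k + 1)) / (k + 1) := by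
  have n : ∀ d : ℂ, ∀ᶠ ζ in 𝓝 (0 : ℂ), 1 - d * ζ ≠ 0 := fun d =>
    ContinuousAt.eventually_ne (by fun_prop) (by simp)
  have a : ∀ d : ℂ, AnalyticAt ℂ (fun ζ => (1 - d * ζ)⁻¹) 0 := fun d => by fun_prop (disch := simp)
  have hu : ∀ᶠ ζ in 𝓝 (0 : ℂ), ‖2 * c * ζ * (1 - c * ζ)⁻¹ ^ 2‖ < 1 :=
    (ContinuousAt.norm (by fun_prop (disch := simp))).eventually_lt_const (by simp)
  have e : deriv (AA c) =ᶠ[𝓝 0] fun ζ =>
      (1 - -1 * ζ)⁻¹ + -1 * (1 - 1 * ζ)⁻¹ + 2 * c * (1 - c * ζ)⁻¹ := by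
    filter_upwards [n (-1), n 1, n c, hu] with ζ h1 h2 h3 h4
    have h5 := (der_log h4).comp ζ (((hasDerivAt_id ζ).const_mul (2 * c)).mul
      ((((hasDerivAt_id ζ).const_mul c).const_sub 1).inv h3 |>.pow 2))
    have h6 : 1 + 2 * c * ζ * (1 - c * ζ)⁻¹ ^ 2 = (1 - -1 * ζ) * (1 - 1 * ζ) / (1 - c * ζ) ^ 2 := by
      field_simp; linear_combination ζ ^ 2 * hc
    refine (HasDerivAt.deriv (f := AA c) h5).trans ?_
    simp only [id, Pi.inv_apply, Pi.pow_apply, h6, Nat.add_one_sub_one, pow_one]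
    generalize hA : 1 - -1 * ζ = A at h1 ⊢
    generalize hB : 1 - 1 * ζ = B at h2 ⊢
    generalize hC : 1 - c * ζ = C at h3 ⊢
    linear_combination (norm := (field_simp; subst hA hB hC; ring1)) (2 * ζ / (A * B * C)) * hc
  have := co_congr e k
  rw [co_deriv, co_add ((a _).fun_add (analyticAt_const.fun_mul (a _)))
    (analyticAt_const.fun_mul (a _)), co_add (a _) (analyticAt_const.fun_mul (a _)),
    co_cmul, co_cmul, co_geo, co_geo, co_geo] at this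
  have k0 : (k + 1 : ℂ) ≠ 0 := by exact_mod_cast k.succ_ne_zero
  rw [eq_div_iff k0]
  rw [one_pow] at this
  linear_combination this

theorem co_AA4 {c : ℂ} (hc : c ^ 2 = -1) (i : ℕ) :
    co (AA c) (4 * i) = 0 ∧ co (AA c) (4 * i + 1) = 2 * c / (4 * i + 1) ∧
      co (AA c) (4 * i + 2) = -4 / (4 * i + 2) ∧ co (AA c) (4 * i + 3) = -2 * c / (4 * i + 3) := by
  have c4 : ∀ i : ℕ, c ^ (4 * i) = 1 := fun i => by
    rw [pow_mul, show c ^ 4 = 1 by linear_combination (c ^ 2 - 1) * hc, one_pow]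
  have m4 : ∀ i : ℕ, (-1 : ℂ) ^ (4 * i) = 1 := fun i => by rw [pow_mul]; norm_num
  refine ⟨?_, ?_, ?_, ?_⟩
  · cases i with
    | zero => simp [co, AA]
    | succ i =>
      rw [show 4 * (i + 1) = 4 * i + 3 + 1 by ring, co_AA hc, show 4 * i + 3 + 1 = 4 * (i + 1) by ring,
        c4, pow_add, m4]
      norm_num
  · rw [co_AA hc, pow_add, c4, m4]; push_cast; ring
  · rw [co_AA hc, add_assoc, pow_add, pow_add, c4, m4, hc]; push_cast; ring_nf
  · rw [co_AA hc, add_assoc, pow_add, pow_add, c4, m4]; push_cast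
    rw [show c ^ 3 = -c by linear_combination c * hc]; ring_nf

theorem slice_ab {ζ : ℂ} (h : 1 + ζ ^ 2 ≠ 0) :
    iD (ζ, -1, 1) = (1 + ζ ^ 2)⁻¹ ∧
    al (ζ, -1, 1) = 2 * ζ * (1 + ζ ^ 2)⁻¹ ^ 2 * (-2 * ζ + I * (1 - ζ ^ 2)) ∧
    be (ζ, -1, 1) = 2 * ζ * (1 + ζ ^ 2)⁻¹ ^ 2 * (-2 * ζ + -I * (1 - ζ ^ 2)) ∧
    AA I ζ = al (ζ, -1, 1) * ell (al (ζ, -1, 1)) ∧
    AA (-I) ζ = be (ζ, -1, 1) * ell (be (ζ, -1, 1)) := by
  have e0 : iD (ζ, -1, 1) = (1 + ζ ^ 2)⁻¹ := by rw [iD]; congr 1; ring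
  have s1 : sq1 (-1) = 1 := by simp [sq1]
  have e1 : al (ζ, -1, 1) = 2 * ζ * (1 + ζ ^ 2)⁻¹ ^ 2 * (-2 * ζ + I * (1 - ζ ^ 2)) := by
    simp only [al, Sh, F1h, F2h, th, La, e0, s1]; ring
  have e2 : be (ζ, -1, 1) = 2 * ζ * (1 + ζ ^ 2)⁻¹ ^ 2 * (-2 * ζ + -I * (1 - ζ ^ 2)) := by
    simp only [be, Sh, F1h, F2h, th, La, e0, s1]; ring
  have aux : ∀ c : ℂ, c ^ 2 = -1 → AA c ζ =
      log (1 + 2 * ζ * (1 + ζ ^ 2)⁻¹ ^ 2 * (-2 * ζ + c * (1 - ζ ^ 2))) := fun c hc => by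
    have a : 1 + ζ ^ 2 = (1 - c * ζ) * (1 + c * ζ) := by linear_combination ζ ^ 2 * hc
    have b : -2 * ζ + c * (1 - ζ ^ 2) = c * (1 + c * ζ) ^ 2 := by
      linear_combination (-2 * ζ - c * ζ ^ 2) * hc
    rw [a, mul_ne_zero_iff] at h
    have := h.1; have := h.2
    rw [AA, a, b]; congr 2; field_simp
  exact ⟨e0, e1, e2, by rw [mul_ell, e1, aux I I_sq], by rw [mul_ell, e2, aux (-I) (by simp)]⟩

theorem ev_sl : ∀ᶠ ζ in 𝓝 (0 : ℂ), 1 + ζ ^ 2 ≠ 0 ∧ 1 + ζ ≠ 0 ∧ 1 + -1 * ζ ≠ 0 :=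
  (ContinuousAt.eventually_ne (by fun_prop) (by simp)).and
    ((ContinuousAt.eventually_ne (by fun_prop) (by simp)).and
      (ContinuousAt.eventually_ne (by fun_prop) (by simp)))

/-- Restriction to the slice. -/
noncomputable def sl (U : P3 → ℂ) (ζ : ℂ) : ℂ := ζ * U (ζ, -1, 1)

theorem sl_an {U : P3 → ℂ} (h : ContDiffAt ℂ 1 U p0) : AnalyticAt ℂ (sl U) 0 := by
  have h1 : ContDiffAt ℂ 1 (sl U) 0 :=
    contDiffAt_id.mul (h.comp 0 (f := fun ζ : ℂ => ((ζ, -1, 1) : P3)) (by fun_prop))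
  exact analyticAt_iff_eventually_differentiableAt.2
    ((h1.eventually (by simp)).mono fun _ h => h.differentiableAt one_ne_zero)

theorem rel {W : ℂ → ℂ} (hW : AnalyticAt ℂ W 0) {b c d b' c' d' x y z : ℂ}
    (h : ∀ᶠ ζ in 𝓝 (0 : ℂ), pol 1 0 2 0 1 ζ * W ζ = pol 0 b c d 0 ζ * AA I ζ +
      pol 0 b' c' d' 0 ζ * AA (-I) ζ + pol 0 x y z 0 ζ * 1) :
    co W 0 = 0 ∧ co W 1 = x ∧ co W 2 = b * (2 * I) + b' * (2 * -I) + y ∧
    co W 3 + 2 * x = b * -2 + c * (2 * I) + b' * -2 + c' * (2 * -I) + z ∧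
    ∀ k, co W (k + 4) + 2 * co W (k + 2) + co W k =
      b * co (AA I) (k + 3) + c * co (AA I) (k + 2) + d * co (AA I) (k + 1) +
      (b' * co (AA (-I)) (k + 3) + c' * co (AA (-I)) (k + 2) + d' * co (AA (-I)) (k + 1)) := by
  have p : ∀ a b c d e, AnalyticAt ℂ (pol a b c d e) 0 := fun a b c d e => by unfold pol; fun_prop
  have key := fun k => co_congr h k
  simp only [co_add (((p 0 b c d 0).fun_mul (AA_an I)).fun_add ((p 0 b' c' d' 0).fun_mul (AA_an (-I))))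
    ((p 0 x y z 0).fun_mul (analyticAt_const (v := 1))),
    co_add ((p 0 b c d 0).fun_mul (AA_an I)) ((p 0 b' c' d' 0).fun_mul (AA_an (-I))), co_pol hW,
    co_pol (AA_an _), co_pol (analyticAt_const (v := 1))] at key
  obtain ⟨a0, a1, a2, -⟩ := co_AA4 I_sq 0
  obtain ⟨b0, b1, b2, -⟩ := co_AA4 (c := -I) (by simp) 0
  have k0 := key 0
  have k1 := key 1
  have k2 := key 2
  have k3 := key 3
  simp only [sh, co_one, mul_zero, zero_add, Nat.cast_zero] at k0 k1 k2 k3 a0 a1 a2 b0 b1 b2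
  simp only [a0, a1, a2, b0, b1, b2] at k1 k2 k3
  norm_num at k0 k1 k2 k3
  refine ⟨k0, k1, by linear_combination k2 - 2 * k0, by linear_combination k3 - 2 * k1, fun k => ?_⟩
  have := key (k + 4)
  simp only [sh, co_one, Nat.succ_ne_zero, if_false] at this
  linear_combination this

theorem lin {y : ℕ → ℂ} {ε : ℕ} (h0 : y ε = ε) (h1 : y (ε + 2) = -(ε + 2))
    (h : ∀ k, y (k + 4) + 2 * y (k + 2) + y k = 0) (i : ℕ) :
    y (4 * i + ε) = 4 * i + ε ∧ y (4 * i + ε + 2) = -(4 * i + ε + 2) := by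
  induction i with
  | zero => simp [h0, h1]
  | succ i ih =>
    have a := h (4 * i + ε)
    have b := h (4 * i + ε + 2)
    rw [show 4 * (i + 1) + ε = 4 * i + ε + 4 by ring]
    push_cast
    exact ⟨by linear_combination a - 2 * ih.2 - ih.1,
      by linear_combination b - 2 * a + 3 * ih.2 + 2 * ih.1⟩

theorem alt {x d d' : ℕ → ℝ} {ε : ℕ} (h0 : x ε = 0) (h1 : x (ε + 2) = 0)
    (ha : ∀ i, x (4 * i + ε + 4) + 2 * x (4 * i + ε + 2) + x (4 * i + ε) = d i)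
    (hb : ∀ i, x (4 * i + ε + 2 + 4) + 2 * x (4 * i + ε + 2 + 2) + x (4 * i + ε + 2) = d' i)
    (hd : ∀ i, d i < 0 ∧ d i ≤ d' i) (i : ℕ) :
    x (4 * i + ε + 4) < 0 ∧ 0 < x (4 * i + ε + 4 + 2) := by
  have key : ∀ i, x (4 * i + ε) ≤ 0 ∧ 0 ≤ x (4 * i + ε + 2) + x (4 * i + ε) := by
    intro i
    induction i with
    | zero => simp [h0, h1]
    | succ i ih =>
      rw [show 4 * (i + 1) + ε = 4 * i + ε + 4 by ring]
      constructor <;> linarith [ha i, hb i, (hd i).1, (hd i).2, ih.1, ih.2]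
  constructor <;> linarith [ha i, hb i, (hd i).1, (hd i).2, (key i).1, (key i).2]

theorem co_F1 (i : ℕ) : co (sl F1h) (4 * i + 0) = 4 * i + (0 : ℕ) ∧
    co (sl F1h) (4 * i + 0 + 2) = -(4 * i + (0 : ℕ) + 2) := by
  obtain ⟨h0, -, h2, -, h⟩ := rel (sl_an cd_F1) (b := 0) (c := 0) (d := 0) (b' := 0) (c' := 0)
    (d' := 0) (x := -1) (y := -2) (z := -1) (ev_sl.mono fun ζ h => by
      have := h.1
      simp only [sl, F1h, (slice_ab h.1).1, pol]
      rw [show 1 + 0 * ζ + 2 * ζ ^ 2 + 0 * ζ ^ 3 + 1 * ζ ^ 4 = (1 + ζ ^ 2) ^ 2 by ring]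
      field_simp; ring)
  exact lin (by simpa using h0) (by simpa using h2) (fun k => by simpa using h k) i

theorem co_F3 (i : ℕ) : co (sl F3h) (4 * i + 1) = 4 * i + (1 : ℕ) ∧
    co (sl F3h) (4 * i + 1 + 2) = -(4 * i + (1 : ℕ) + 2) := by
  obtain ⟨-, h1, -, h3, h⟩ := rel (sl_an cd_F3) (b := 0) (c := 0) (d := 0) (b' := 0) (c' := 0)
    (d' := 0) (x := 1) (y := 0) (z := -1) (ev_sl.mono fun ζ h => by
      have := h.1
      simp only [sl, F3h, La, (slice_ab h.1).1, pol]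
      rw [show 1 + 0 * ζ + 2 * ζ ^ 2 + 0 * ζ ^ 3 + 1 * ζ ^ 4 = (1 + ζ ^ 2) ^ 2 by ring]
      field_simp; ring)
  exact lin (by simpa using h1) (by push_cast; linear_combination h3)
    (fun k => by simpa using h k) i

theorem co_W1 (i : ℕ) : (co (sl W1h) (4 * i + 0 + 4)).re < 0 ∧
    0 < (co (sl W1h) (4 * i + 0 + 4 + 2)).re := by
  obtain ⟨h0, -, h2, -, h⟩ := rel (sl_an cd_W1) (b := 1 + I) (c := 2) (d := 1 - I) (b' := 1 - I)
    (c' := 2) (d' := 1 + I) (x := 0) (y := 4) (z := 0) (ev_sl.mono fun ζ h => by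
      have := h.1
      obtain ⟨e0, e1, e2, e3, e4⟩ := slice_ab h.1
      simp only [sl, W1h, LL, om, Jh, e0, e3, e4, pol]
      generalize ell (al (ζ, -1, 1)) = x
      generalize ell (be (ζ, -1, 1)) = y
      rw [e1, e2]
      linear_combination (norm := (field_simp; ring1))
        (-2 * ζ ^ 2 * (1 - ζ ^ 2) ^ 2 * (1 + ζ ^ 2)⁻¹ ^ 2 * (x + y)) * I_sq)
  refine alt (ε := 0) (x := fun k => (co (sl W1h) k).re)
    (d := fun i => 4 / (4 * i + 3) - 16 / (4 * i + 2) + 4 / (4 * i + 1))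
    (d' := fun i => -4 / (4 * i + 5) - 4 / (4 * i + 3)) (by simp [h0])
    (by show (co (sl W1h) 2).re = 0; rw [h2]; simp; norm_num) (fun i => ?_) (fun i => ?_) (fun i => ?_) i
  · obtain ⟨-, a1, a2, a3⟩ := co_AA4 I_sq i
    obtain ⟨-, b1, b2, b3⟩ := co_AA4 (c := -I) (by simp) i
    have := h (4 * i)
    simp only [a1, a2, a3, b1, b2, b3] at this
    have e : co (sl W1h) (4 * i + 4) + 2 * co (sl W1h) (4 * i + 2) + co (sl W1h) (4 * i) =
        ((4 / (4 * i + 3) - 16 / (4 * i + 2) + 4 / (4 * i + 1) : ℝ) : ℂ) := by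
      push_cast
      linear_combination this + (-4 / (4 * i + 3) - 4 / (4 * i + 1)) * I_sq
    simpa only [add_re, ofReal_re, re_ofNat, mul_re, im_ofNat, zero_mul, sub_zero, add_zero]
      using congrArg re e
  · obtain ⟨-, -, -, a3⟩ := co_AA4 I_sq i
    obtain ⟨-, -, -, b3⟩ := co_AA4 (c := -I) (by simp) i
    obtain ⟨a4, a5, -⟩ := co_AA4 I_sq (i + 1)
    obtain ⟨b4, b5, -⟩ := co_AA4 (c := -I) (by simp) (i + 1)
    have := h (4 * i + 2)
    rw [show 4 * i + 2 + 3 = 4 * (i + 1) + 1 by ring, a5, b5, show 4 * i + 2 + 1 = 4 * i + 3 by ring,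
      a3, b3, show co (AA I) (4 * i + 2 + 2) = 0 from a4,
      show co (AA (-I)) (4 * i + 2 + 2) = 0 from b4] at this
    have e : co (sl W1h) (4 * i + 2 + 4) + 2 * co (sl W1h) (4 * i + 2 + 2) +
        co (sl W1h) (4 * i + 2) = ((-4 / (4 * i + 5) - 4 / (4 * i + 3) : ℝ) : ℂ) := by
      push_cast at this ⊢
      rw [show (4 * (i + 1) + 1 : ℂ) = 4 * i + 5 by ring] at this
      linear_combination this + (4 / (4 * i + 5) + 4 / (4 * i + 3)) * I_sq
    simpa only [add_re, ofReal_re, re_ofNat, mul_re, im_ofNat, zero_mul, sub_zero, add_zero]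
      using congrArg re e
  · have hi : (0 : ℝ) ≤ i := i.cast_nonneg
    have e : -4 / (4 * i + 5) - 4 / (4 * i + 3) -
        (4 / (4 * i + 3) - 16 / (4 * i + 2) + 4 / (4 * i + 1) : ℝ) =
        (256 * i ^ 2 + 256 * i + 16) / ((4 * i + 1) * (4 * i + 2) * (4 * i + 3) * (4 * i + 5)) := by
      field_simp; ring
    have p : (0 : ℝ) < (256 * i ^ 2 + 256 * i + 16) /
      ((4 * i + 1) * (4 * i + 2) * (4 * i + 3) * (4 * i + 5)) := by positivity
    have p1 : (0 : ℝ) < 4 / (4 * i + 5) := by positivity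
    have p2 : (0 : ℝ) < 4 / (4 * i + 3) := by positivity
    rw [neg_div] at e ⊢
    constructor <;> linarith

theorem co_W3 (i : ℕ) : (co (sl W3h) (4 * i + 1 + 4)).re < 0 ∧
    0 < (co (sl W3h) (4 * i + 1 + 4 + 2)).re := by
  obtain ⟨-, h1, -, h3, h⟩ := rel (sl_an cd_W3) (b := -1) (c := 2 * I) (d := 1) (b' := -1)
    (c' := -2 * I) (d' := 1) (x := 0) (y := 0) (z := 4) (ev_sl.mono fun ζ h => by
      have := h.1; have := h.2.1; have n := h.2.2
      obtain ⟨e0, e1, e2, e3, e4⟩ := slice_ab h.1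
      simp only [sl, W3h, Gh, LL, om, Sh, F1h, F2h, La, e0, e3, e4, pol]
      generalize ell (al (ζ, -1, 1)) = x
      generalize ell (be (ζ, -1, 1)) = y
      rw [e1, e2]
      generalize hA : 1 + -1 * ζ = A at n ⊢
      linear_combination (norm := (field_simp; subst hA; ring1))
        (-4 * ζ ^ 3 * (1 - ζ ^ 2) * (1 + ζ ^ 2)⁻¹ ^ 2 * (x + y)) * I_sq)
  refine alt (x := fun k => (co (sl W3h) k).re) (d := fun i => 8 / (4 * i + 3) - 8 / (4 * i + 2))
    (d' := fun i => 8 / (4 * i + 6) - 8 / (4 * i + 5)) (by simp [h1])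
    (by rw [show co (sl W3h) (1 + 2) = 0 by linear_combination h3 + 8 * I_sq]; rfl)
    (fun i => ?_) (fun i => ?_) (fun i => ?_) i
  · obtain ⟨-, -, a2, a3⟩ := co_AA4 I_sq i
    obtain ⟨-, -, b2, b3⟩ := co_AA4 (c := -I) (by simp) i
    have := h (4 * i + 1)
    rw [show co (AA I) (4 * i + 1 + 3) = 0 from (co_AA4 I_sq (i + 1)).1,
      show co (AA (-I)) (4 * i + 1 + 3) = 0 from (co_AA4 (by simp) (i + 1)).1,
      show co (AA I) (4 * i + 1 + 2) = _ from a3, show co (AA (-I)) (4 * i + 1 + 2) = _ from b3,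
      a2, b2] at this
    have e : co (sl W3h) (4 * i + 1 + 4) + 2 * co (sl W3h) (4 * i + 1 + 2) +
        co (sl W3h) (4 * i + 1) = ((8 / (4 * i + 3) - 8 / (4 * i + 2) : ℝ) : ℂ) := by
      push_cast
      linear_combination this + (-8 / (4 * i + 3)) * I_sq
    simpa only [add_re, ofReal_re, re_ofNat, mul_re, im_ofNat, zero_mul, sub_zero]
      using congrArg re e
  · obtain ⟨a4, a5, a6, -⟩ := co_AA4 I_sq (i + 1)
    obtain ⟨b4, b5, b6, -⟩ := co_AA4 (c := -I) (by simp) (i + 1)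
    have := h (4 * i + 1 + 2)
    rw [show co (AA I) (4 * i + 1 + 2 + 3) = _ from a6, show co (AA (-I)) (4 * i + 1 + 2 + 3) = _
      from b6, show co (AA I) (4 * i + 1 + 2 + 2) = _ from a5,
      show co (AA (-I)) (4 * i + 1 + 2 + 2) = _ from b5, show co (AA I) (4 * i + 1 + 2 + 1) = _
      from a4, show co (AA (-I)) (4 * i + 1 + 2 + 1) = _ from b4] at this
    have e : co (sl W3h) (4 * i + 1 + 2 + 4) + 2 * co (sl W3h) (4 * i + 1 + 2 + 2) +
        co (sl W3h) (4 * i + 1 + 2) = ((8 / (4 * i + 6) - 8 / (4 * i + 5) : ℝ) : ℂ) := by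
      push_cast at this ⊢
      rw [show (4 * (i + 1) + 1 : ℂ) = 4 * i + 5 by ring,
        show (4 * (i + 1) + 2 : ℂ) = 4 * i + 6 by ring] at this
      linear_combination this + (8 / (4 * i + 5)) * I_sq
    simpa only [add_re, ofReal_re, re_ofNat, mul_re, im_ofNat, zero_mul, sub_zero]
      using congrArg re e
  · have hi : (0 : ℝ) ≤ i := i.cast_nonneg
    have e1 : (8 / (4 * i + 3) - 8 / (4 * i + 2) : ℝ) = -(8 / ((4 * i + 2) * (4 * i + 3))) := by
      field_simp; ring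
    have e2 : (8 / (4 * i + 6) - 8 / (4 * i + 5) : ℝ) = -(8 / ((4 * i + 5) * (4 * i + 6))) := by
      field_simp; ring
    rw [e1, e2]
    exact ⟨neg_neg_of_pos (by positivity), neg_le_neg (by gcongr <;> norm_num)⟩

end Pool.Agent.Lib.MP_c027d2_an.H35
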