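import Pool.Agent.Lib.MP_c027d2_an.H35Jet

/-! Two explicit fields on the polydisc. -/

open Set Metric Complex

namespace Pool.Agent.Lib.MP_c027d2_an.H35

variable {n : ℕ}

theorem nrm {a b r : ℝ} (hr : 0 ≤ r) (h : a ^ 2 + b ^ 2 ≤ r ^ 2) : ‖(⟨a, b⟩ : ℂ)‖ ≤ r := by
  refine (pow_le_pow_iff_left₀ (norm_nonneg _) hr two_ne_zero).1 ?_
  rw [Complex.sq_norm, Complex.normSq_mk]; linarith

/-- The starlike map of the field with components `P`, `Q` and identity components elsewhere. -/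
theorem exists_pair (hn : 2 ≤ n) {P Q : Par} {r δ : ℝ} (hP : P.Ok r δ) (hQ : Q.Ok r δ) (hr0 : 0 ≤ r)
    (hr : r < 1) (hδ : 0 < δ) : ∃ (H f h : E n → E n) (v : ℝ → E n → E n) (M : ℝ) (K : NNReal)
      (i j : Fin n), Koe H f v M ∧ LipschitzWith K H ∧ (∀ z, ‖z‖ < 1 → H z = -h z) ∧
      (∀ z, h z i = P.cp (z i) (z j)) ∧ ∀ z, h z j = Q.cp (z j) (z i) := by
  let i : Fin n := ⟨0, by omega⟩
  let j : Fin n := ⟨1, by omega⟩
  have hij : j ≠ i := by simp [i, j]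
  have h0 : Par.Ok ⟨0, 0, 0, 0, 0, 0⟩ r δ :=
    ⟨le_rfl, le_rfl, by linarith [hP.s, hP.a, hP.k], by simpa, by simpa, by simpa, by simp⟩
  obtain ⟨H, f, v, M, K, h1, h2, h3⟩ := exists_star
    (P := fun k => if k = i then P else if k = j then Q else ⟨0, 0, 0, 0, 0, 0⟩)
    (fun k => if k = i then j else i) (fun k => by split_ifs <;> assumption) hr hδ
  exact ⟨H, f, _, v, M, K, i, j, h1, h2, h3, fun z => by simp [fld], fun z => by simp [fld, hij]⟩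

theorem finish {H f : E n → E n} {v : ℝ → E n → E n} {M : ℝ} {K : NNReal} (hk : Koe H f v M)
    (hK : LipschitzWith K H) {m : ℕ} {i : Fin n} {w : ℂ}
    (h : iteratedFDeriv ℂ m f 0 (fun _ _ => 1) i = m.factorial * w) (hw : m < w.re) :
    ∃ f : E n → E n, DifferentiableOn ℂ f (ball 0 1) ∧ InjOn f (ball 0 1) ∧ f 0 = 0 ∧
      fderiv ℂ f 0 = ContinuousLinearMap.id ℂ (E n) ∧ StarConvex ℝ 0 (f '' ball 0 1) ∧
      ∃ u : E n, ‖u‖ = 1 ∧
        (m : ℝ) < ‖((m.factorial : ℂ)⁻¹) • iteratedFDeriv ℂ m f 0 (fun _ => u)‖ := by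
  have : Nonempty (Fin n) := ⟨i⟩
  refine ⟨f, hk.hol, hk.inj hK, hk.map_zero, hk.fderiv_zero, hk.star hK, fun _ => 1,
    by rw [pi_norm_const, norm_one], hw.trans_le ((re_le_norm w).trans ?_)⟩
  have := norm_le_pi_norm ((m.factorial : ℂ)⁻¹ • iteratedFDeriv ℂ m f 0 fun _ _ => 1) i
  rwa [Pi.smul_apply, h, smul_eq_mul,
    inv_mul_cancel_left₀ (by exact_mod_cast m.factorial_ne_zero)] at this

theorem three (hn : 2 ≤ n) :
    ∃ f : E n → E n, DifferentiableOn ℂ f (ball 0 1) ∧ InjOn f (ball 0 1) ∧ f 0 = 0 ∧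
      fderiv ℂ f 0 = ContinuousLinearMap.id ℂ (E n) ∧ StarConvex ℝ 0 (f '' ball 0 1) ∧
      ∃ u : E n, ‖u‖ = 1 ∧
        ((3 : ℕ) : ℝ) < ‖(((3 : ℕ).factorial : ℂ)⁻¹) • iteratedFDeriv ℂ 3 f 0 (fun _ => u)‖ := by
  have hP : Par.Ok ⟨53 / 1000, 893 / 2000, ⟨744 / 1000, -667 / 1000⟩, ⟨993 / 1000, 112 / 1000⟩,
      ⟨998 / 1000, -42 / 1000⟩, ⟨45 / 53, 28 / 53⟩⟩ (1999 / 2000) (1 / 1000) :=
    ⟨by norm_num, by norm_num, by norm_num, nrm (by norm_num) (by norm_num),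
      nrm (by norm_num) (by norm_num), nrm (by norm_num) (by norm_num),
      nrm (by norm_num) (by norm_num)⟩
  have hQ : Par.Ok ⟨999 / 2000, 0, ⟨350 / 1000, -936 / 1000⟩, 0, 0, 0⟩ (1999 / 2000) (1 / 1000) :=
    ⟨by norm_num, by norm_num, by norm_num, nrm (by norm_num) (by norm_num),
      by norm_num, by norm_num, by norm_num⟩
  obtain ⟨H, f, h, v, M, K, i, j, hk, hK, hH, h1, h2⟩ :=
    exists_pair hn hP hQ (by norm_num) (by norm_num) (by norm_num)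
  have key := (hk.jet34 hH ((hP.expand (by norm_num) i j).congr fun z _ => by rw [h1])
    ((hQ.expand (by norm_num) j i).congr fun z _ => by rw [h2])
    rfl rfl rfl rfl rfl rfl rfl rfl rfl).1
  refine finish hk hK
    (key.trans (by rw [show ((3 : ℕ).factorial : ℂ) = 6 by norm_num [Nat.factorial]])) ?_
  simp [pow_succ]
  norm_num

theorem four (hn : 2 ≤ n) :
    ∃ f : E n → E n, DifferentiableOn ℂ f (ball 0 1) ∧ InjOn f (ball 0 1) ∧ f 0 = 0 ∧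
      fderiv ℂ f 0 = ContinuousLinearMap.id ℂ (E n) ∧ StarConvex ℝ 0 (f '' ball 0 1) ∧
      ∃ u : E n, ‖u‖ = 1 ∧
        ((4 : ℕ) : ℝ) < ‖(((4 : ℕ).factorial : ℂ)⁻¹) • iteratedFDeriv ℂ 4 f 0 (fun _ => u)‖ := by
  have hP : Par.Ok ⟨0, 99 / 200, 0, ⟨99 / 100, 0⟩, ⟨-99 / 100, 0⟩, ⟨1, 0⟩⟩ (995 / 1000) (1 / 100) :=
    ⟨by norm_num, by norm_num, by norm_num, by norm_num,
      nrm (by norm_num) (by norm_num), nrm (by norm_num) (by norm_num),
      nrm (by norm_num) (by norm_num)⟩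
  have hQ : Par.Ok ⟨0, 99 / 200, 0, ⟨34 / 100, 93 / 100⟩, ⟨34 / 100, -93 / 100⟩, ⟨0, 1⟩⟩
      (995 / 1000) (1 / 100) :=
    ⟨by norm_num, by norm_num, by norm_num, by norm_num,
      nrm (by norm_num) (by norm_num), nrm (by norm_num) (by norm_num),
      nrm (by norm_num) (by norm_num)⟩
  obtain ⟨H, f, h, v, M, K, i, j, hk, hK, hH, h1, h2⟩ :=
    exists_pair hn hP hQ (by norm_num) (by norm_num) (by norm_num)
  have key := (hk.jet34 hH ((hP.expand (by norm_num) i j).congr fun z _ => by rw [h1])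
    ((hQ.expand (by norm_num) j i).congr fun z _ => by rw [h2])
    rfl rfl rfl rfl rfl rfl rfl rfl rfl).2
  refine finish hk hK
    (key.trans (by rw [show ((4 : ℕ).factorial : ℂ) = 24 by norm_num [Nat.factorial]])) ?_
  simp [pow_succ]
  norm_num

end Pool.Agent.Lib.MP_c027d2_an.H35
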