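import Pool.Agent.Lib.MP_c027d2_an.H35Star

/-! An explicit family of contracting rational fields on the polydisc. -/

open Set Metric Filter Topology ComplexConjugate

namespace Pool.Agent.Lib.MP_c027d2_an.H35

variable {n : ℕ}

theorem step_one {a b : ℂ} {δ M ε : ℝ} (hδ : 0 < δ) (hδ1 : δ ≤ 1) (hM : 1 ≤ M)
    (h1 : δ * ‖a‖ ^ 2 ≤ (b * conj a).re) (h2 : ‖b‖ ≤ M * ‖a‖) (hε : 0 < ε) (hε' : ε ≤ δ / M ^ 2) :
    ‖a - ε * b‖ ≤ (1 + -(δ / 2) * ε) * ‖a‖ := by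
  have hM2 : 1 ≤ M ^ 2 := one_le_pow₀ hM
  have h3 : ε * M ^ 2 ≤ δ := (le_div_iff₀ (by positivity)).1 hε'
  have h4 : ε ≤ 1 := by nlinarith
  have h5 : 0 ≤ 1 + -(δ / 2) * ε := by nlinarith
  refine (pow_le_pow_iff_left₀ (norm_nonneg _) (by positivity) two_ne_zero).1 ?_
  have e : ‖a - ε * b‖ ^ 2 = ‖a‖ ^ 2 - 2 * ε * (b * conj a).re + ε ^ 2 * ‖b‖ ^ 2 := by
    simp only [Complex.sq_norm, Complex.normSq_apply]; simp; ring
  have h6 : ‖b‖ ^ 2 ≤ (M * ‖a‖) ^ 2 := by gcongr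
  have h7 : ε ^ 2 * ‖b‖ ^ 2 ≤ ε * δ * ‖a‖ ^ 2 :=
    calc _ ≤ ε ^ 2 * (M * ‖a‖) ^ 2 := by gcongr
      _ = ε * (ε * M ^ 2) * ‖a‖ ^ 2 := by ring
      _ ≤ _ := by gcongr
  rw [e]
  nlinarith [mul_le_mul_of_nonneg_left h1 hε.le, sq_nonneg (δ * ε * ‖a‖)]

/-- The nonlinear part of the term (1 + ρ x) (x + t) / (1 - ρ t). -/
noncomputable def Nl (ρ x t : ℂ) : ℂ := ρ * (x + t) ^ 2 / (1 - ρ * t)

theorem den_ge {ρ t : ℂ} {r : ℝ} (hρ : ‖ρ‖ ≤ r) (ht : ‖t‖ ≤ 1) : 1 - r ≤ ‖1 - ρ * t‖ := by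
  have h1 := norm_sub_norm_le (1 : ℂ) (ρ * t)
  rw [norm_one, norm_mul] at h1
  nlinarith [norm_nonneg ρ, norm_nonneg t]

theorem den_ne {ρ t : ℂ} {r : ℝ} (hr : r < 1) (hρ : ‖ρ‖ ≤ r) (ht : ‖t‖ ≤ 1) : 1 - ρ * t ≠ 0 :=
  norm_pos_iff.1 ((sub_pos.2 hr).trans_le (den_ge hρ ht))

theorem Nl_le {ρ x t : ℂ} {r s : ℝ} (hr : r < 1) (hρ : ‖ρ‖ ≤ r) (hx : ‖x‖ ≤ s) (ht : ‖t‖ ≤ s)
    (hs : s ≤ 1) : ‖Nl ρ x t‖ ≤ 4 / (1 - r) * s ^ 2 := by
  have h1 := den_ge hρ (ht.trans hs)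
  have h2 : ‖x + t‖ ≤ 2 * s := by linarith [norm_add_le x t]
  have h3 : 0 < 1 - r := sub_pos.2 hr
  have h4 : ‖ρ‖ ≤ 1 := hρ.trans hr.le
  rw [Nl, norm_div, norm_mul, norm_pow]
  calc _ ≤ 1 * (2 * s) ^ 2 / (1 - r) := by gcongr
    _ = _ := by ring

theorem Nl_pos {ρ x t : ℂ} {r : ℝ} (hr : r < 1) (hρ : ‖ρ‖ ≤ r) (hx : ‖x‖ ≤ 1) (ht : ‖t‖ ≤ ‖x‖) :
    0 ≤ ((x + t + Nl ρ x t) * conj x).re := by
  have h0 := den_ne hr hρ (ht.trans hx)
  have e : (x + t + Nl ρ x t) * conj x =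
      (1 + ρ * x) * (x + t) * conj x * conj (1 - ρ * t) * ((Complex.normSq (1 - ρ * t))⁻¹ : ℝ) := by
    rw [mul_assoc _ (conj (1 - ρ * t)), ← Complex.inv_def, Nl, div_eq_mul_inv]
    linear_combination (-(x + t) * conj x) * mul_inv_cancel₀ h0
  have e2 : ((1 + ρ * x) * (x + t) * conj x * conj (1 - ρ * t)).re =
      ((1 - ‖ρ * x‖ ^ 2) * ‖x + t‖ ^ 2 + (‖x‖ ^ 2 - ‖t‖ ^ 2) * ‖1 + ρ * x‖ ^ 2) / 2 := by
    simp only [Complex.sq_norm, Complex.normSq_apply]; simp; ring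
  have h1 : ‖ρ * x‖ ≤ 1 := by
    rw [norm_mul]; exact mul_le_one₀ (hρ.trans hr.le) (norm_nonneg _) hx
  have h2 : ‖ρ * x‖ ^ 2 ≤ 1 := pow_le_one₀ (norm_nonneg _) h1
  have h3 : ‖t‖ ^ 2 ≤ ‖x‖ ^ 2 := by gcongr
  rw [e, Complex.re_mul_ofReal, e2]
  have := sub_nonneg.2 h2
  have := sub_nonneg.2 h3
  have := Complex.normSq_nonneg (1 - ρ * t)
  positivity

/-- Parameters of one component of the field. -/
structure Par where
  (a k : ℝ)
  (σ p q l : ℂ)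

/-- One component of the field. -/
noncomputable def Par.cp (P : Par) (x y : ℂ) : ℂ :=
  x + (P.a * Nl P.σ x x + P.k * Nl P.p x (P.l * y) + P.k * Nl P.q x (-(P.l * y)))

structure Par.Ok (P : Par) (r δ : ℝ) : Prop where
  a : 0 ≤ P.a
  k : 0 ≤ P.k
  s : δ + 2 * P.a + 2 * P.k ≤ 1
  σ : ‖P.σ‖ ≤ r
  p : ‖P.p‖ ≤ r
  q : ‖P.q‖ ≤ r
  l : ‖P.l‖ ≤ 1

variable {P : Par} {r δ : ℝ}

theorem Par.Ok.ly (h : P.Ok r δ) (y : ℂ) : ‖P.l * y‖ ≤ ‖y‖ := by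
  rw [norm_mul]; exact mul_le_of_le_one_left (norm_nonneg _) h.l

theorem Par.Ok.quad (h : P.Ok r δ) (hr : r < 1) (hδ : 0 < δ) {x y : ℂ} {s : ℝ} (hx : ‖x‖ ≤ s)
    (hy : ‖y‖ ≤ s) (hs : s ≤ 1) : ‖P.cp x y - x‖ ≤ 4 / (1 - r) * s ^ 2 := by
  have h1 := Nl_le hr h.σ hx hx hs
  have h2 := Nl_le hr h.p hx ((h.ly y).trans hy) hs
  have h3 := Nl_le (t := -(P.l * y)) hr h.q hx (by rw [norm_neg]; exact (h.ly y).trans hy) hs
  have h4 : 0 ≤ 4 / (1 - r) * s ^ 2 := (norm_nonneg _).trans h1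
  rw [Par.cp, add_sub_cancel_left]
  refine (norm_add₃_le).trans ?_
  simp only [norm_mul, Complex.norm_real, Real.norm_of_nonneg h.a, Real.norm_of_nonneg h.k]
  have := h.s
  nlinarith [mul_le_mul_of_nonneg_left h1 h.a, mul_le_mul_of_nonneg_left h2 h.k,
    mul_le_mul_of_nonneg_left h3 h.k, h.a, h.k]

theorem Par.Ok.pos (h : P.Ok r δ) (hr : r < 1) {x y : ℂ} (hx : ‖x‖ ≤ 1) (hy : ‖y‖ ≤ ‖x‖) :
    δ * ‖x‖ ^ 2 ≤ (P.cp x y * conj x).re := by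
  have h1 := Nl_pos hr h.σ hx le_rfl
  have h2 := Nl_pos hr h.p hx ((h.ly y).trans hy)
  have h3 := Nl_pos (t := -(P.l * y)) hr h.q hx (by rw [norm_neg]; exact (h.ly y).trans hy)
  have e : P.cp x y * conj x = ((1 - 2 * P.a - 2 * P.k : ℝ) : ℂ) * (x * conj x) +
      P.a * ((x + x + Nl P.σ x x) * conj x) + P.k * ((x + P.l * y + Nl P.p x (P.l * y)) * conj x) +
      P.k * ((x + -(P.l * y) + Nl P.q x (-(P.l * y))) * conj x) := by
    rw [Par.cp]; push_cast; ring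
  rw [e, Complex.mul_conj, Complex.normSq_eq_norm_sq]
  simp only [Complex.add_re, Complex.re_ofReal_mul, Complex.ofReal_re]
  have := h.s
  nlinarith [mul_nonneg h.a h1, mul_nonneg h.k h2, mul_nonneg h.k h3, sq_nonneg ‖x‖]

theorem Par.Ok.smooth (h : P.Ok r δ) (hr : r < 1) {X : Type*} [NormedAddCommGroup X]
    [NormedSpace ℂ X] {u w : X → ℂ} {S : Set X} (hu : ContDiffOn ℂ 1 u S) (hw : ContDiffOn ℂ 1 w S)
    (hb : ∀ z ∈ S, ‖u z‖ ≤ 1 ∧ ‖w z‖ ≤ 1) : ContDiffOn ℂ 1 (fun z => P.cp (u z) (w z)) S := by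
  have aux : ∀ (ρ : ℂ) (t : X → ℂ), ‖ρ‖ ≤ r → ContDiffOn ℂ 1 t S → (∀ z ∈ S, ‖t z‖ ≤ 1) →
      ContDiffOn ℂ 1 (fun z => Nl ρ (u z) (t z)) S := fun ρ t h1 h2 h3 =>
    (contDiffOn_const.mul ((hu.add h2).pow 2)).div (contDiffOn_const.sub (contDiffOn_const.mul h2))
      fun z hz => den_ne hr h1 (h3 z hz)
  exact hu.add (((contDiffOn_const.mul (aux _ _ h.σ hu fun z hz => (hb z hz).1)).add
    (contDiffOn_const.mul (aux _ _ h.p (contDiffOn_const.mul hw)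
      fun z hz => (h.ly _).trans (hb z hz).2))).add
    (contDiffOn_const.mul (aux _ _ h.q (contDiffOn_const.mul hw).neg
      fun z hz => by rw [norm_neg]; exact (h.ly _).trans (hb z hz).2)))

theorem Par.Ok.step (h : P.Ok r δ) (hr : r < 1) (hδ : 0 < δ) {x y : ℂ} {s ε : ℝ} (hx : ‖x‖ ≤ s)
    (hy : ‖y‖ ≤ s) (hs : s ≤ 1) (hε : 0 < ε) (hε' : ε ≤ δ / (1 + 4 / (1 - r)) ^ 2) :
    ‖x - ε * P.cp x y‖ ≤ (1 + -(δ / 2) * ε) * s := by
  have h0 : 0 < 4 / (1 - r) := div_pos four_pos (sub_pos.2 hr)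
  have hδ1 : δ ≤ 1 := by linarith [h.s, h.a, h.k]
  rcases ((norm_nonneg x).trans hx).eq_or_lt with rfl | hs0
  · rw [norm_le_zero_iff.1 hx, norm_le_zero_iff.1 hy]; simp [Par.cp, Nl]
  have hc : ContDiffOn ℂ 1 (fun ξ => ξ - ε * P.cp ξ y) (closedBall 0 s) :=
    contDiffOn_id.sub (contDiffOn_const.mul (h.smooth hr contDiffOn_id contDiffOn_const
      fun z hz => ⟨(mem_closedBall_zero_iff.1 hz).trans hs, hy.trans hs⟩))
  refine Complex.norm_le_of_forall_mem_frontier_norm_le (f := fun ξ => ξ - ε * P.cp ξ y)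
    (U := ball 0 s) isBounded_ball (DifferentiableOn.diffContOnCl ?_) (fun ξ hξ => ?_) ?_
  · rw [closure_ball _ hs0.ne']; exact hc.differentiableOn one_ne_zero
  · rw [frontier_ball _ hs0.ne', mem_sphere_zero_iff_norm] at hξ
    rw [← hξ] at hy hs ⊢
    refine step_one hδ hδ1 (by linarith) (h.pos hr hs hy) ?_ hε hε'
    have h1 := h.quad hr hδ le_rfl hy hs
    have h2 := norm_sub_norm_le (P.cp ξ y) ξ
    have h3 : ‖ξ‖ ^ 2 ≤ ‖ξ‖ := by nlinarith [norm_nonneg ξ]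
    nlinarith
  · rw [closure_ball _ hs0.ne']; exact mem_closedBall_zero_iff.2 hx

/-- The field with components `P i` and partner coordinates `s i`. -/
noncomputable def fld (P : Fin n → Par) (s : Fin n → Fin n) (z : E n) : E n :=
  fun i => (P i).cp (z i) (z (s i))

theorem exists_star {P : Fin n → Par} (s : Fin n → Fin n) (h : ∀ i, (P i).Ok r δ) (hr : r < 1)
    (hδ : 0 < δ) : ∃ (H f : E n → E n) (v : ℝ → E n → E n) (M : ℝ) (K : NNReal),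
      Koe H f v M ∧ LipschitzWith K H ∧ ∀ z, ‖z‖ < 1 → H z = -fld P s z := by
  have h0 : 0 < 4 / (1 - r) := div_pos four_pos (sub_pos.2 hr)
  have hc : ContDiffOn ℂ 1 (fld P s) (closedBall 0 1) := contDiffOn_pi.2 fun i =>
    (h i).smooth hr (contDiff_apply ℂ ℂ i).contDiffOn (contDiff_apply ℂ ℂ (s i)).contDiffOn
      fun z hz => ⟨(norm_le_pi_norm z _).trans (mem_closedBall_zero_iff.1 hz),
        (norm_le_pi_norm z _).trans (mem_closedBall_zero_iff.1 hz)⟩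
  obtain ⟨K, hK⟩ := (hc.restrict_scalars ℝ).exists_lipschitzOnWith one_ne_zero (convex_closedBall _ _)
    (isCompact_closedBall _ _)
  obtain ⟨B, hB⟩ := (isCompact_closedBall (0 : E n) 1).exists_bound_of_continuousOn hc.continuousOn
  have ht : ∀ y : E n, trunc y ∈ closedBall (0 : E n) 1 := fun y =>
    mem_closedBall_zero_iff.2 (trunc_norm_le y)
  have he : ∀ z : E n, ‖z‖ < 1 → -fld P s (trunc z) = -fld P s z := fun z hz => by
    rw [trunc_eq hz.le]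
  have hF : Fld (fun y => -fld P s (trunc y)) (K * 2) B (δ / (1 + 4 / (1 - r)) ^ 2) (δ / 2) := by
    refine ⟨LipschitzWith.of_dist_le_mul fun a b => ?_, fun y => ?_, ?_, by positivity,
      fun y hy ε h1 h2 => ?_, by positivity⟩
    · rw [dist_neg_neg]
      refine (hK.dist_le_mul _ (ht a) _ (ht b)).trans ?_
      rw [dist_eq_norm, dist_eq_norm, NNReal.coe_mul, mul_assoc]
      exact mul_le_mul_of_nonneg_left (trunc_lip a b) K.2
    · rw [norm_neg]; exact hB _ (ht y)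
    · exact ((hc.differentiableOn one_ne_zero).mono ball_subset_closedBall).neg.congr
        fun z hz => he z (mem_ball_zero_iff.1 hz)
    · have h3 := fun i => (h i).step hr hδ (norm_le_pi_norm y i) (norm_le_pi_norm y (s i)) hy.le h1 h2
      rw [he y hy]
      rcases isEmpty_or_nonempty (Fin n) with hn | ⟨⟨j⟩⟩
      · simp [Subsingleton.elim y 0, Subsingleton.elim (fld P s 0) 0]
      refine (pi_norm_le_iff_of_nonneg ((norm_nonneg _).trans (h3 j))).2 fun i => ?_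
      simpa [fld, sub_eq_add_neg] using h3 i
  obtain ⟨f, v, M, hk⟩ := hF.exists_koe h0 fun y hy => by
    rw [he y hy]
    refine (pi_norm_le_iff_of_nonneg (by positivity)).2 fun i => ?_
    rw [← norm_neg]
    simpa [fld, sub_eq_neg_add, add_comm] using
      (h i).quad hr hδ (norm_le_pi_norm y i) (norm_le_pi_norm y (s i)) hy.le
  exact ⟨_, f, v, M, _, hk, hF.lip, he⟩

end Pool.Agent.Lib.MP_c027d2_an.H35
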