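import Pool.Agent.Lib.MP_c027d2_an.H35Fld

/-! Taylor coefficients of order three and four of the starlike map of an explicit field. -/

open Set Metric Filter Topology

namespace Pool.Agent.Lib.MP_c027d2_an.H35

variable {n : ℕ}

/-- `g` vanishes to order `k`, uniformly on the unit ball. -/
def O (k : ℕ) (g : E n → ℂ) : Prop := ∃ C, 0 ≤ C ∧ ∀ z : E n, ‖z‖ < 1 → ‖g z‖ ≤ C * ‖z‖ ^ k

section O

variable {j k : ℕ} {g g' X Y : E n → ℂ}

theorem O.add (h : O k g) (h' : O k g') : O k fun z => g z + g' z := by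
  obtain ⟨C, c, h⟩ := h
  obtain ⟨C', c', h'⟩ := h'
  exact ⟨C + C', by positivity, fun z hz => (norm_add_le _ _).trans (by linarith [h z hz, h' z hz])⟩

theorem O.mul (h : O j g) (h' : O k g') : O (j + k) fun z => g z * g' z := by
  obtain ⟨C, c, h⟩ := h
  obtain ⟨C', c', h'⟩ := h'
  refine ⟨C * C', by positivity, fun z hz => ?_⟩
  rw [norm_mul]
  calc _ ≤ C * ‖z‖ ^ j * (C' * ‖z‖ ^ k) := by gcongr; exacts [h z hz, h' z hz]
    _ = _ := by ring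

theorem O.cmul (c : ℂ) (h : O k g) : O k fun z => c * g z := by
  obtain ⟨C, c', h⟩ := h
  refine ⟨‖c‖ * C, by positivity, fun z hz => ?_⟩
  rw [norm_mul, mul_assoc]
  gcongr; exact h z hz

theorem O.down (h : O (k + 1) g) : O k g := by
  obtain ⟨C, c, h⟩ := h
  refine ⟨C, c, fun z hz => (h z hz).trans ?_⟩
  rw [pow_succ]
  gcongr
  exact mul_le_of_le_one_right (by positivity) hz.le

theorem O.congr (h : O k g) (e : ∀ z, ‖z‖ < 1 → g' z = g z) : O k g' := by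
  obtain ⟨C, c, h⟩ := h
  exact ⟨C, c, fun z hz => e z hz ▸ h z hz⟩

theorem O.proj (i : Fin n) : O 1 fun z : E n => z i :=
  ⟨1, zero_le_one, fun z _ => by simpa using norm_le_pi_norm z i⟩

/-- Binary forms of degree one to four. -/
def F1 (a b x y : ℂ) : ℂ := a * x + b * y
def F2 (a b c x y : ℂ) : ℂ := x * F1 a b x y + y * F1 0 c x y
def F3 (a b c d x y : ℂ) : ℂ := x * F2 a b c x y + y * F2 0 0 d x y
def F4 (a b c d e x y : ℂ) : ℂ := x * F3 a b c d x y + y * F3 0 0 0 e x y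

theorem O.f1 (hX : O 1 X) (hY : O 1 Y) (a b : ℂ) : O 1 fun z => F1 a b (X z) (Y z) :=
  (hX.cmul a).add (hY.cmul b)

theorem O.f2 (hX : O 1 X) (hY : O 1 Y) (a b c : ℂ) : O 2 fun z => F2 a b c (X z) (Y z) :=
  (hX.mul (hX.f1 hY a b)).add (hY.mul (hX.f1 hY 0 c))

theorem O.f3 (hX : O 1 X) (hY : O 1 Y) (a b c d : ℂ) : O 3 fun z => F3 a b c d (X z) (Y z) :=
  (hX.mul (hX.f2 hY a b c)).add (hY.mul (hX.f2 hY 0 0 d))

theorem O.f4 (hX : O 1 X) (hY : O 1 Y) (a b c d e : ℂ) : O 4 fun z => F4 a b c d e (X z) (Y z) :=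
  (hX.mul (hX.f3 hY a b c d)).add (hY.mul (hX.f3 hY 0 0 0 e))

theorem O.nl (hX : O 1 X) (hY : O 1 Y) (hb : ∀ z : E n, ‖z‖ < 1 → ‖Y z‖ ≤ 1) {ρ : ℂ} {r : ℝ}
    (hr : r < 1) (hρ : ‖ρ‖ ≤ r) : O 5 fun z => Nl ρ (X z) (Y z) -
      ρ * (X z + Y z) ^ 2 * (1 + ρ * Y z + ρ ^ 2 * Y z ^ 2) := by
  have h0 : O 0 fun z => (1 - ρ * Y z)⁻¹ := ⟨(1 - r)⁻¹, (inv_pos.2 (sub_pos.2 hr)).le, fun z hz => by
    rw [norm_inv, pow_zero, mul_one]
    exact inv_anti₀ (sub_pos.2 hr) (den_ge hρ (hb z hz))⟩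
  refine ((h0.mul ((hX.f2 hY 1 2 1).mul (hX.f3 hY 0 0 0 1))).cmul (ρ ^ 4)).congr fun z hz => ?_
  simp only [Nl, F1, F2, F3, div_eq_mul_inv]
  linear_combination (ρ * (X z + Y z) ^ 2 * (1 + ρ * Y z + ρ ^ 2 * Y z ^ 2)) *
    mul_inv_cancel₀ (den_ne hr hρ (hb z hz))

theorem Par.Ok.expand {P : Par} {r δ : ℝ} (h : P.Ok r δ) (hr : r < 1) (i j : Fin n) :
    O 5 fun z : E n => P.cp (z i) (z j) - (z i +
      F2 (4 * P.a * P.σ + P.k * (P.p + P.q)) (2 * P.k * P.l * (P.p - P.q))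
        (P.k * P.l ^ 2 * (P.p + P.q)) (z i) (z j) +
      F3 (4 * P.a * P.σ ^ 2) (P.k * P.l * (P.p ^ 2 - P.q ^ 2))
        (2 * P.k * P.l ^ 2 * (P.p ^ 2 + P.q ^ 2)) (P.k * P.l ^ 3 * (P.p ^ 2 - P.q ^ 2)) (z i) (z j) +
      F4 (4 * P.a * P.σ ^ 3) 0 (P.k * P.l ^ 2 * (P.p ^ 3 + P.q ^ 3))
        (2 * P.k * P.l ^ 3 * (P.p ^ 3 - P.q ^ 3)) (P.k * P.l ^ 4 * (P.p ^ 3 + P.q ^ 3))
        (z i) (z j)) := by
  have b : ∀ (i : Fin n) (z : E n), ‖z‖ < 1 → ‖z i‖ ≤ 1 := fun i z hz =>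
    (norm_le_pi_norm z i).trans hz.le
  have h1 := (O.proj i).nl (O.proj i) (b i) hr h.σ
  have h2 := (O.proj i).nl ((O.proj j).cmul P.l) (fun z hz => (h.ly _).trans (b j z hz)) hr h.p
  have h3 := (O.proj i).nl (Y := fun z => -(P.l * z j)) (((O.proj j).cmul (-P.l)).congr
    fun z _ => by ring) (fun z hz => by rw [norm_neg]; exact (h.ly _).trans (b j z hz)) hr h.q
  refine (((h1.cmul P.a).add (h2.cmul P.k)).add (h3.cmul P.k)).congr fun z _ => ?_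
  simp only [Par.cp, F1, F2, F3, F4]
  ring

end O

/-- Polynomials of degree at most four. -/
def pol (a b c d e ζ : ℂ) : ℂ := a + b * ζ + c * ζ ^ 2 + d * ζ ^ 3 + e * ζ ^ 4

theorem pol_der (a b c d e : ℂ) :
    deriv (pol a b c d e) = pol b (2 * c) (3 * d) (4 * e) 0 := by
  funext ζ
  unfold pol
  simp (disch := fun_prop) only [deriv_fun_add, deriv_fun_mul, deriv_fun_pow, deriv_const,
    deriv_id'', deriv_const_mul_id]
  push_cast; ring

theorem contDiffOn_of_diffOn (m : ℕ) : ∀ f : E n → E n, DifferentiableOn ℂ f (ball 0 1) →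
    ContDiffOn ℂ m f (ball 0 1) := by
  induction m with
  | zero => exact fun f hf => contDiffOn_zero.2 hf.continuousOn
  | succ n ih =>
    intro f hf
    rw [Nat.cast_succ]
    refine contDiffOn_succ_of_fderiv_apply hf (by simp) fun y => ?_
    exact (ih _ (MP_53f9be_gt.differentiableOn_fderiv_apply isOpen_ball hf y)).congr fun x hx => by
      rw [fderivWithin_of_isOpen isOpen_ball hx]

theorem coeff {f : E n → E n} (hf : DifferentiableOn ℂ f (ball 0 1)) {u : E n} (hu : ‖u‖ = 1)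
    (i : Fin n) {b c d e : ℂ} {C : ℝ} (hC : 0 ≤ C)
    (h : ∀ ζ : ℂ, ‖ζ‖ < 1 → ‖f (ζ • u) i - pol 0 b c d e ζ‖ ≤ C * ‖ζ‖ ^ 5) {m : ℕ} (hm : m ≤ 4) :
    iteratedFDeriv ℂ m f 0 (fun _ => u) i = iteratedDeriv m (pol 0 b c d e) 0 := by
  let p : E n →L[ℂ] ℂ := ContinuousLinearMap.proj i
  let L : ℂ →L[ℂ] E n := ContinuousLinearMap.toSpanSingleton ℂ u
  have hc := contDiffOn_of_diffOn m f hf
  have ho' : IsOpen (L ⁻¹' ball 0 1) := isOpen_ball.preimage L.continuous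
  have h0 : L 0 ∈ ball (0 : E n) 1 := by rw [map_zero]; exact mem_ball_self one_pos
  have hF : ContDiffOn ℂ m (p ∘ f) (ball 0 1) := p.contDiff.comp_contDiffOn hc
  have key := L.iteratedFDerivWithin_comp_right hF isOpen_ball.uniqueDiffOn
    ho'.uniqueDiffOn h0 (i := m) le_rfl
  rw [iteratedFDerivWithin_of_isOpen m ho' h0, iteratedFDerivWithin_of_isOpen m isOpen_ball h0,
    map_zero, p.iteratedFDeriv_comp_left (hc.contDiffAt (ball_mem_nhds 0 one_pos)) (i := m)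
      le_rfl] at key
  have e1 : iteratedFDeriv ℂ m f 0 (fun _ => u) i = iteratedDeriv m ((p ∘ f) ∘ L) 0 := by
    rw [iteratedDeriv_eq_iteratedFDeriv, key]; simp [L, p]
  have hL : MapsTo L (ball 0 1) (ball 0 1) := fun ζ hζ => by
    simpa [L, norm_smul, hu] using hζ
  have hg : ContDiffOn ℂ m ((p ∘ f) ∘ L) (ball 0 1) := hF.comp L.contDiff.contDiffOn hL
  have hp : ∀ k : ℕ, ContDiff ℂ k (pol 0 b c d e) := fun k => by unfold pol; fun_prop
  have hd : DifferentiableOn ℂ ((p ∘ f) ∘ L - pol 0 b c d e) (ball 0 1) :=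
    ((p.differentiable.comp_differentiableOn hf).comp L.differentiableOn hL).sub
      ((hp 1).differentiable (by simp)).differentiableOn
  rw [e1, ← sub_eq_zero, ← iteratedDeriv_sub (hg.contDiffAt (ball_mem_nhds 0 one_pos))
    (hp m).contDiffAt, ← norm_le_zero_iff]
  refine eq_of_exp (A := m.factorial * C) fun t ht => ?_
  have h3 : Real.exp (-t) ≤ 1 := Real.exp_le_one_iff.2 (by linarith)
  have h4 := Real.exp_pos (-t)
  set R := Real.exp (-t) / 2 with hR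
  have R0 : 0 < R := by positivity
  have R1 : R < 1 := by linarith
  refine (Complex.norm_iteratedDeriv_le_of_forall_mem_sphere_norm_le m R0 (C := C * R ^ 5)
    (hd.diffContOnCl_ball (closedBall_subset_ball R1)) fun ζ hζ => ?_).trans ?_
  · rw [mem_sphere_zero_iff_norm] at hζ
    exact hζ ▸ h ζ (hζ ▸ R1)
  · have h5 : R ^ 5 ≤ R ^ (m + 1) := pow_le_pow_of_le_one R0.le R1.le (by omega)
    rw [zero_add, div_le_iff₀ (by positivity)]
    calc _ ≤ m.factorial * (C * R ^ (m + 1)) := by gcongr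
      _ = m.factorial * C * R * R ^ m := by ring
      _ ≤ _ := by gcongr; linarith

section chain

variable {X Y : ℝ → ℂ} {X' Y' : ℂ} {S : Set ℝ} {t : ℝ} (hX : HasDerivWithinAt X X' S t)
  (hY : HasDerivWithinAt Y Y' S t)
include hX hY

theorem dF1 (a b : ℂ) : HasDerivWithinAt (fun s => F1 a b (X s) (Y s)) (a * X' + b * Y') S t :=
  (hX.const_mul a).add (hY.const_mul b)

theorem dF2 (a b c : ℂ) : HasDerivWithinAt (fun s => F2 a b c (X s) (Y s))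
    (F1 (2 * a) b (X t) (Y t) * X' + F1 b (2 * c) (X t) (Y t) * Y') S t :=
  ((hX.mul (dF1 hX hY a b)).add (hY.mul (dF1 hX hY 0 c))).congr_deriv (by simp only [F1]; ring)

theorem dF3 (a b c d : ℂ) : HasDerivWithinAt (fun s => F3 a b c d (X s) (Y s))
    (F2 (3 * a) (2 * b) c (X t) (Y t) * X' + F2 b (2 * c) (3 * d) (X t) (Y t) * Y') S t :=
  ((hX.mul (dF2 hX hY a b c)).add (hY.mul (dF2 hX hY 0 0 d))).congr_deriv
    (by simp only [F1, F2]; ring)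

theorem dF4 (a b c d e : ℂ) : HasDerivWithinAt (fun s => F4 a b c d e (X s) (Y s))
    (F3 (4 * a) (3 * b) (2 * c) d (X t) (Y t) * X' +
      F3 b (2 * c) (3 * d) (4 * e) (X t) (Y t) * Y') S t :=
  ((hX.mul (dF3 hX hY a b c d)).add (hY.mul (dF3 hX hY 0 0 0 e))).congr_deriv
    (by simp only [F1, F2, F3]; ring)

end chain

theorem Koe.jet34 {H f h : E n → E n} {v : ℝ → E n → E n} {M : ℝ} (hk : Koe H f v M)
    (hH : ∀ z, ‖z‖ < 1 → H z = -h z) {i j : Fin n}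
    {a0 a1 a2 b0 b1 b2 b3 c0 c1 c2 c3 c4 d0 d1 d2 e0 e1 e2 e3 g0 g1 g2 g3 g4 p0 p1 p2 p3 q0 q1 q2 q3
      q4 : ℂ}
    (h1 : O 5 fun z : E n => h z i - (z i + F2 a0 a1 a2 (z i) (z j) + F3 b0 b1 b2 b3 (z i) (z j) +
      F4 c0 c1 c2 c3 c4 (z i) (z j)))
    (h2 : O 5 fun z : E n => h z j - (z j + F2 d2 d1 d0 (z j) (z i) + F3 e3 e2 e1 e0 (z j) (z i) +
      F4 g0 g1 g2 g3 g4 (z j) (z i)))
    (hp0 : p0 = (-b0 + 2 * a0 * a0 + a1 * d0) / 2)
    (hp1 : p1 = (-b1 + 3 * a0 * a1 + a1 * d1 + 2 * a2 * d0) / 2)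
    (hp2 : p2 = (-b2 + 2 * a0 * a2 + a1 * a1 + a1 * d2 + 2 * a2 * d1) / 2)
    (hp3 : p3 = (-b3 + a1 * a2 + 2 * a2 * d2) / 2)
    (hq0 : q0 = (-c0 + 2 * a0 * b0 + a1 * e0 - 3 * p0 * a0 - p1 * d0) / 3)
    (hq1 : q1 = (-c1 + 2 * a0 * b1 + a1 * b0 + a1 * e1 + 2 * a2 * e0 - 3 * p0 * a1 - 2 * p1 * a0 -
      p1 * d1 - 2 * p2 * d0) / 3)
    (hq2 : q2 = (-c2 + 2 * a0 * b2 + a1 * b1 + a1 * e2 + 2 * a2 * e1 - 3 * p0 * a2 - 2 * p1 * a1 -
      p2 * a0 - p1 * d2 - 2 * p2 * d1 - 3 * p3 * d0) / 3)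
    (hq3 : q3 = (-c3 + 2 * a0 * b3 + a1 * b2 + a1 * e3 + 2 * a2 * e2 - 2 * p1 * a2 - p2 * a1 -
      2 * p2 * d2 - 3 * p3 * d1) / 3)
    (hq4 : q4 = (-c4 + a1 * b3 + 2 * a2 * e3 - p2 * a2 - 3 * p3 * d2) / 3) :
    iteratedFDeriv ℂ 3 f 0 (fun _ _ => 1) i = 6 * (p0 + p1 + p2 + p3) ∧
      iteratedFDeriv ℂ 4 f 0 (fun _ _ => 1) i = 24 * (q0 + q1 + q2 + q3 + q4) := by
  have hX := O.proj i
  have hY := O.proj j
  have U4 := h1.down.add (hX.f4 hY c0 c1 c2 c3 c4)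
  have U3 := U4.down.add (hX.f3 hY b0 b1 b2 b3)
  have U2 := U3.down.add (hX.f2 hY a0 a1 a2)
  have V4 := h2.down.add (hY.f4 hX g0 g1 g2 g3 g4)
  have V3 := V4.down.add (hY.f3 hX e3 e2 e1 e0)
  have V2 := V3.down.add (hY.f2 hX d2 d1 d0)
  obtain ⟨C1, k1, w1⟩ := ((hX.f2 hY (-a0) (-a1) (-a2)).add (hX.f3 hY p0 p1 p2 p3).down).add
    (hX.f4 hY q0 q1 q2 q3 q4).down.down
  obtain ⟨C2, k2, w2⟩ : O 5 _ := ((((((h1.add ((hX.f1 hY (2 * -a0) (-a1)).mul U4)).add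
    ((hX.f2 hY (3 * p0) (2 * p1) p2).mul U3)).add
    ((hX.f3 hY (4 * q0) (3 * q1) (2 * q2) q3).mul U2)).add
    ((hX.f1 hY (-a1) (2 * -a2)).mul V4)).add ((hX.f2 hY p1 (2 * p2) (3 * p3)).mul V3)).add
    ((hX.f3 hY q1 (2 * q2) (3 * q3) (4 * q4)).mul V2)).cmul (-1)
  have key := fun z hz => hk.jet (i := i) (m := 3) (C := C1 + C2) (z := z)
    (T := fun z => z i + F2 (-a0) (-a1) (-a2) (z i) (z j) + F3 p0 p1 p2 p3 (z i) (z j) +
      F4 q0 q1 q2 q3 q4 (z i) (z j))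
    (dT := fun z w => w i + (F1 (2 * -a0) (-a1) (z i) (z j) * w i + F1 (-a1) (2 * -a2) (z i) (z j) * w j) +
      (F2 (3 * p0) (2 * p1) p2 (z i) (z j) * w i + F2 p1 (2 * p2) (3 * p3) (z i) (z j) * w j) +
      (F3 (4 * q0) (3 * q1) (2 * q2) q3 (z i) (z j) * w i +
        F3 q1 (2 * q2) (3 * q3) (4 * q4) (z i) (z j) * w j))
    (fun γ γ' t hγ => by
      have a := hasDerivWithinAt_pi.1 hγ i
      have b := hasDerivWithinAt_pi.1 hγ j
      exact ((a.add (dF2 a b _ _ _)).add (dF3 a b _ _ _ _)).add (dF4 a b _ _ _ _ _))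
    (fun z hz => by
      refine (le_of_eq (congrArg norm ?_)).trans ((w1 z hz).trans ?_)
      · ring
      · gcongr; linarith)
    (fun z hz => by
      refine (le_of_eq (congrArg norm ?_)).trans ((w2 z hz).trans ?_)
      · rw [hH z hz]
        simp only [Pi.neg_apply, F1, F2, F3, F4]
        generalize z i = x, z j = y, h z i = A, h z j = B
        linear_combination (-2 * x ^ 3) * hp0 + (-2 * x ^ 2 * y) * hp1 + (-2 * x * y ^ 2) * hp2 +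
          (-2 * y ^ 3) * hp3 + (-3 * x ^ 4) * hq0 + (-3 * x ^ 3 * y) * hq1 +
          (-3 * x ^ 2 * y ^ 2) * hq2 + (-3 * x * y ^ 3) * hq3 + (-3 * y ^ 4) * hq4
      · gcongr; linarith)
    (by positivity) hz
  have : Nonempty (Fin n) := ⟨i⟩
  have hu : ‖(fun _ => 1 : E n)‖ = 1 := by rw [pi_norm_const, norm_one]
  have hM := hk.pos
  have cf := fun m hm => coeff hk.hol hu i (b := 1) (c := -a0 - a1 - a2) (d := p0 + p1 + p2 + p3)
    (e := q0 + q1 + q2 + q3 + q4) (C := (C1 + C2) * M ^ 5) (m := m) (by positivity) (fun ζ hζ => by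
      have e : ‖ζ • (fun _ => 1 : E n)‖ = ‖ζ‖ := by rw [norm_smul, hu, mul_one]
      have := key (ζ • fun _ => 1) (mem_ball_zero_iff.2 (e ▸ hζ))
      rw [e] at this
      refine (le_of_eq (congrArg norm ?_)).trans this
      simp only [pol, F1, F2, F3, F4, Pi.smul_apply, smul_eq_mul]; ring) hm
  refine ⟨(cf 3 (by norm_num)).trans ?_, (cf 4 le_rfl).trans ?_⟩ <;>
  · simp only [iteratedDeriv_succ, iteratedDeriv_zero, pol_der]
    simp only [pol]; ring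

end Pool.Agent.Lib.MP_c027d2_an.H35
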