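import Pool.Agent.Lib.MP_c027d2_an.H35Avg

/-! First order approximation of the starlike map of a perturbed field along one slice. -/

open Set Metric Filter Topology

namespace Pool.Agent.Lib.MP_c027d2_an.H35

variable {n : ℕ}

theorem Koe.loc {H f : E n → E n} {v : ℝ → E n → E n} {M : ℝ} (h : Koe H f v M)
    (hq : ∀ y : E n, ‖y‖ ≤ 1 / 2 → ‖y + H y‖ ≤ 8 * ‖y‖ ^ 2) {z : E n} (h0 : 0 < ‖z‖)
    (hz : ‖z‖ ≤ 1 / 40) {t : ℝ} (ht : 0 ≤ t) : ‖Real.exp t • v t z - z‖ ≤ 40 * ‖z‖ ^ 2 := by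
  have hb : z ∈ ball (0 : E n) 1 := mem_ball_zero_iff.2 (by linarith)
  have hB : ∀ s, HasDerivAt (fun s => 40 * ‖z‖ ^ 2 * (1 - Real.exp (-s)))
      (40 * ‖z‖ ^ 2 * Real.exp (-s)) s := fun s => by
    simpa using (((hasDerivAt_neg s).exp).const_sub 1).const_mul (40 * ‖z‖ ^ 2)
  have hd := fun s hs => (hasDeriv_w (h.der z hb s hs)).sub_const z
  have key := image_norm_le_of_norm_deriv_right_lt_deriv_boundary
    (f := fun s => Real.exp s • v s z - z) (a := 0) (b := t)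
    (fun s hs => (hd s hs.1).continuousWithinAt.mono Icc_subset_Ici_self)
    (fun s hs => (hd s hs.1).mono (Ici_subset_Ici.2 hs.1)) (by simp [h.zero z hb]) hB
    (fun s hs e => ?_) (right_mem_Icc.2 ht)
  · exact key.trans (mul_le_of_le_one_right (by positivity) (by linarith [Real.exp_pos (-t)]))
  · have p := Real.exp_pos s
    have p' := Real.exp_pos (-s)
    have h1 := hq _ ((h.le z hb s hs.1).trans (by linarith))
    have h2 := norm_sub_norm_le (Real.exp s • v s z) z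
    rw [e, norm_smul, Real.norm_of_nonneg p.le] at h2
    have h3 : Real.exp s * ‖v s z‖ ≤ 2 * ‖z‖ := by nlinarith [mul_pos (mul_pos h0 h0) p']
    rw [norm_smul, Real.norm_of_nonneg p.le]
    calc _ ≤ Real.exp s * (8 * ‖v s z‖ ^ 2) := by gcongr
      _ = 8 * (Real.exp s * ‖v s z‖) ^ 2 * Real.exp (-s) := by rw [Real.exp_neg]; field_simp
      _ ≤ 8 * (2 * ‖z‖) ^ 2 * Real.exp (-s) := by gcongr
      _ < _ := by nlinarith [mul_pos (mul_pos h0 h0) p']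

theorem Koe.jet' {H f : E n → E n} {v : ℝ → E n → E n} {M : ℝ} (h : Koe H f v M) {z : E n}
    (hz : z ∈ ball (0 : E n) 1) {l : Fin n} {τ τ' : ℝ → ℂ} {A B : ℝ}
    (hτ : ∀ t, 0 ≤ t → HasDerivWithinAt τ (τ' t) (Ici 0) t ∧
      ‖τ t + τ' t‖ ≤ A * Real.exp (-t) ^ 2 ∧ ‖τ t - v t z l‖ ≤ B * Real.exp (-t) ^ 2) :
    ‖f z l - τ 0‖ ≤ A := by
  have aux : ∀ (c : ℂ) (D t : ℝ), ‖c‖ ≤ D * Real.exp (-t) ^ 2 →
      ‖Real.exp t • c‖ ≤ D * Real.exp (-t) := fun c D t hc => by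
    rw [norm_smul, Real.norm_of_nonneg (Real.exp_pos _).le]
    calc _ ≤ Real.exp t * (D * Real.exp (-t) ^ 2) := by gcongr
      _ = _ := by rw [Real.exp_neg]; field_simp
  refine eq_of_exp (A := M * ‖z‖ ^ 2 + B) fun t ht => ?_
  have a1 := tail (g := fun s => Real.exp s • τ s) (A := A)
    (fun s hs => hasDeriv_w (hτ s hs).1) (fun s hs => aux _ _ _ (hτ s hs).2.1) le_rfl ht
  simp only [Real.exp_zero, one_smul, neg_zero, mul_one] at a1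
  have a2 := (norm_le_pi_norm _ l).trans (h.lim z hz t ht)
  have a3 := aux _ _ _ (hτ t ht).2.2
  have e : f z l - τ 0 = (f z - Real.exp t • v t z) l - Real.exp t • (τ t - v t z l) +
      (Real.exp t • τ t - τ 0) := by
    simp only [Pi.sub_apply, Pi.smul_apply, smul_sub]; ring
  rw [e]
  refine (norm_add_le _ _).trans ((add_le_add_left (norm_sub_le _ _) _).trans ?_)
  linarith

abbrev P3 : Type := ℂ × ℂ × ℂ

/-- The base point in the coordinates `y`, `x / y`, `z / y`. -/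
def p0 : P3 := (0, -1, 1)

/-- A direction given by logarithmic rates. -/
def rate (p : P3) (a b c : ℂ) : P3 := (p.1 * a, p.2.1 * b, p.2.2 * c)

noncomputable def cay (x : ℂ) : ℂ := (1 - x) / (1 + x)

/-- The model field. -/
noncomputable def X0 (κ : ℂ) (p : P3) : P3 :=
  rate p (cay (p.2.1 * p.1)) (cay p.1 - cay (p.2.1 * p.1)) (κ * ((cay p.1 - cay (p.2.1 * p.1)) / 2))

noncomputable def q1 (p : P3) : ℂ := (1 - p.2.1 ^ 2) / (1 + p.2.1 * p.1) ^ 2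

noncomputable def q2 (p : P3) : ℂ := (p.2.1 ^ 2 - 1) / (p.2.1 * (1 + p.1) ^ 2) - q1 p

/-- The direction of the perturbation. -/
noncomputable def dl (κ : ℂ) (p : P3) : P3 := rate p (p.1 * q1 p) (p.1 * q2 p) (-κ * (p.1 * q1 p))

theorem ev_bd {X : Type*} [NormedAddCommGroup X] {g : P3 → X} (hg : ContinuousAt g p0) :
    ∃ c, 0 ≤ c ∧ ∀ᶠ p in 𝓝 p0, ‖g p‖ ≤ c :=
  ⟨‖g p0‖ + 1, by positivity, hg.norm.eventually_le_const (by linarith)⟩

theorem lin_bd {U : P3 → ℂ} (hU : ContDiffAt ℂ 1 U p0) : ∃ C, 0 ≤ C ∧ ∀ᶠ p in 𝓝 p0,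
    DifferentiableAt ℂ (fun p => p.1 * U p) p ∧ ∀ (e : P3) (c : ℝ), ‖e‖ ≤ c * ‖p.1‖ →
      ‖e.1‖ ≤ c * ‖p.1‖ ^ 2 → ‖fderiv ℂ (fun p => p.1 * U p) p e‖ ≤ C * c * ‖p.1‖ ^ 2 := by
  obtain ⟨K, t, ht, hK⟩ := hU.exists_lipschitzOnWith
  obtain ⟨B, hB0, hB⟩ := ev_bd hU.continuousAt
  refine ⟨K + B, by positivity, ?_⟩
  filter_upwards [hB, eventually_mem_nhds_iff.2 ht, hU.eventually (by simp)] with p h1 h2 h3
  have h4 := (h3.differentiableAt one_ne_zero).hasFDerivAt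
  have h5 := (hasFDerivAt_fst (𝕜 := ℂ) (p := p)).fun_mul h4
  refine ⟨h5.differentiableAt, fun e c e1 e2 => ?_⟩
  have h6 := ((fderiv ℂ U p).le_opNorm e).trans
    (mul_le_mul (norm_fderiv_le_of_lipschitzOn ℂ h2 hK) e1 (norm_nonneg _) K.2)
  rw [show fderiv ℂ (fun p => p.1 * U p) p e = p.1 * fderiv ℂ U p e + U p * e.1 by
    rw [h5.fderiv]; simp]
  refine (norm_add_le _ _).trans ?_
  rw [norm_mul, norm_mul]
  calc _ ≤ ‖p.1‖ * (K * (c * ‖p.1‖)) + B * (c * ‖p.1‖ ^ 2) := by gcongr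
    _ = _ := by ring

theorem van {U : P3 → ℂ} (hU : ContDiffAt ℂ 1 U p0) (h0 : ∀ a, U (0, a) = 0) :
    ∃ C, 0 ≤ C ∧ ∀ᶠ p in 𝓝 p0, ‖U p‖ ≤ C * ‖p.1‖ := by
  obtain ⟨K, t, ht, hK⟩ := hU.exists_lipschitzOnWith
  have hc : ContinuousAt (fun p : P3 => ((0 : ℂ), p.2)) p0 := by fun_prop
  refine ⟨K, K.2, ?_⟩
  filter_upwards [ht, hc.eventually_mem (s := t) ht] with p h1 h2
  have := hK.norm_sub_le h1 h2
  rwa [h0, sub_zero, show p - (0, p.2) = (p.1, 0) by ext <;> simp, Prod.norm_mk, norm_zero,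
    max_eq_left (norm_nonneg _)] at this

theorem dl_bd (κ : ℂ) : ∃ c, 0 ≤ c ∧ ∀ᶠ p in 𝓝 p0,
    ‖dl κ p‖ ≤ c * ‖p.1‖ ∧ ‖(dl κ p).1‖ ≤ c * ‖p.1‖ ^ 2 := by
  have h1 : ContinuousAt q1 p0 := by unfold q1; fun_prop (disch := simp [p0])
  have h2 : ContinuousAt q2 p0 := by unfold q2; fun_prop (disch := simp [p0])
  obtain ⟨c, c0, hc⟩ := ev_bd (g := fun p => (q1 p, rate p (q1 p) (q2 p) (-κ * q1 p)))
    (by unfold rate; fun_prop)
  refine ⟨c, c0, hc.mono fun p hp => ⟨?_, ?_⟩⟩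
  · rw [show dl κ p = p.1 • rate p (q1 p) (q2 p) (-κ * q1 p) by
      ext <;> simp only [dl, rate, Prod.smul_fst, Prod.smul_snd, smul_eq_mul] <;> ring,
      norm_smul, mul_comm]
    gcongr
    exact (norm_snd_le _).trans' le_rfl |>.trans hp
  · have : ‖q1 p‖ ≤ c := (norm_fst_le _).trans' le_rfl |>.trans hp
    simp only [dl, rate, norm_mul]
    calc _ ≤ ‖p.1‖ * (‖p.1‖ * c) := by gcongr
      _ = _ := by ring

/-- The coordinates `y`, `x / y`, `z / y`. -/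
noncomputable def bl (κ : ℂ) (i j k : Fin n) (y : E n) : P3 :=
  (y j, y i / y j, 1 - κ + κ * (y k / y j))

theorem quot_le {a b c : ℂ} {A s : ℝ} (ha : ‖a‖ ≤ A * ‖c‖ ^ 2) (hb : ‖b‖ ≤ A * ‖c‖ ^ 2) {w : ℂ}
    (hw : ‖w‖ ≤ 2) (hc : c ≠ 0) (hs : 3 * A ≤ s) : ‖(a - w * b) / c‖ ≤ s * ‖c‖ := by
  have h0 := norm_pos_iff.2 hc
  rw [norm_div, div_le_iff₀ h0]
  refine (norm_sub_le _ _).trans ?_
  rw [norm_mul]
  calc _ ≤ A * ‖c‖ ^ 2 + 2 * (A * ‖c‖ ^ 2) := by gcongr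
    _ = 3 * A * ‖c‖ * ‖c‖ := by ring
    _ ≤ _ := by gcongr

theorem approx {κ : ℂ} {Fh Wh g : P3 → ℂ} (hF : ContDiffAt ℂ 1 Fh p0) (hW : ContDiffAt ℂ 1 Wh p0)
    (hg : ContDiffAt ℂ 1 g p0) (F0 : ∀ a, Fh (0, a) = g (0, a)) (W0 : ∀ a, Wh (0, a) = 0)
    (idF : ∀ᶠ p in 𝓝 p0, fderiv ℂ (fun p => p.1 * Fh p) p (X0 κ p) = p.1 * Fh p)
    (idW : ∀ᶠ p in 𝓝 p0, p.1 * Wh p - fderiv ℂ (fun p => p.1 * Wh p) p (X0 κ p) =
      fderiv ℂ (fun p => p.1 * Fh p) p (dl κ p)) :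
    ∃ R > 0, ∃ C : ℝ, ∀ (n : ℕ) (H f : E n → E n) (v : ℝ → E n → E n) (M σ : ℝ) (i j k l : Fin n)
      (u : E n), Koe H f v M → σ ^ 2 ≤ 1 → ‖u‖ = 1 → u i = -1 → u j = 1 →
      (∀ y : E n, ‖y‖ ≤ 1 / 2 → ‖y + H y‖ ≤ 8 * ‖y‖ ^ 2) →
      (∀ y : E n, ‖y‖ ≤ 1 / 2 → ‖H y i + (y i * cay (y j) +
        σ * ((y i ^ 2 - y j ^ 2) / (1 + y j) ^ 2))‖ ≤ 56 * σ ^ 2 * ‖y‖ ^ 2) →
      (∀ y : E n, ‖y‖ ≤ 1 / 2 → ‖H y j + (y j * cay (y i) +
        σ * ((y j ^ 2 - y i ^ 2) / (1 + y i) ^ 2))‖ ≤ 56 * σ ^ 2 * ‖y‖ ^ 2) →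
      (κ = 0 ∨ κ = 1 ∧ u k = 1 ∧ ∀ y : E n, ‖y‖ ≤ 1 / 2 →
        ‖H y k + y k * ((cay (y i) + cay (y j)) / 2)‖ ≤ 56 * σ ^ 2 * ‖y‖ ^ 2) →
      (∀ y : E n, y j ≠ 0 → y j * g (bl κ i j k y) = y l) → ∀ ζ : ℂ, ζ ≠ 0 → ‖ζ‖ ≤ R →
      ‖f (ζ • u) l - (ζ * Fh (ζ, -1, 1) + σ * (ζ * Wh (ζ, -1, 1)))‖ ≤ C * σ ^ 2 := by
  obtain ⟨C1, c1, e1⟩ := lin_bd hF
  obtain ⟨C2, c2, e2⟩ := lin_bd hW
  obtain ⟨C3, c3, e3⟩ := van (hF.sub hg) fun a => by rw [F0, sub_self]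
  obtain ⟨C4, c4, e4⟩ := van hW W0
  obtain ⟨C5, c5, e5⟩ := dl_bd κ
  have e6 : ∀ᶠ p : P3 in 𝓝 p0, 1 + p.1 ≠ 0 ∧ 1 + p.2.1 * p.1 ≠ 0 ∧ p.2.1 ≠ 0 :=
    (ContinuousAt.eventually_ne (by fun_prop) (by simp [p0])).and
      ((ContinuousAt.eventually_ne (by fun_prop) (by simp [p0])).and
        (ContinuousAt.eventually_ne (by fun_prop) (by simp [p0])))
  obtain ⟨ρ, hρ, hb⟩ := Metric.eventually_nhds_iff.1
    (e1.and (e2.and (e3.and (e4.and (e5.and (e6.and (idF.and idW)))))))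
  refine ⟨min (ρ / 200) (1 / 160), by positivity, 4 * (C1 * 2688 + C2 * C5 + C2 * 2688),
    fun n H f v M σ i j k l u hk hσ hu ui uj hq hi hj hκ hl ζ hζ hR => ?_⟩
  have r1 := hR.trans (min_le_left _ _)
  have r2 := hR.trans (min_le_right _ _)
  have r0 := norm_pos_iff.2 hζ
  have nz : ‖ζ • u‖ = ‖ζ‖ := by rw [norm_smul, hu, mul_one]
  have hz : ζ • u ∈ ball (0 : E n) 1 := mem_ball_zero_iff.2 (by linarith)
  have s1 : ‖(σ : ℂ)‖ ≤ 1 := by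
    rw [Complex.norm_real, Real.norm_eq_abs]; exact (sq_le_one_iff_abs_le_one σ).1 hσ
  have b0 : bl κ i j k (v 0 (ζ • u)) = (ζ, -1, 1) := by
    rw [hk.zero _ hz]
    rcases hκ with rfl | ⟨rfl, uk, -⟩ <;> simp [bl, *]
  have key := fun τ' => hk.jet' hz (l := l) (τ' := τ') (B := 4 * (C3 + C4))
    (A := 4 * (C1 * 2688 + C2 * C5 + C2 * 2688) * σ ^ 2)
    (τ := fun t => (bl κ i j k (v t (ζ • u))).1 * Fh (bl κ i j k (v t (ζ • u))) +
      σ * ((bl κ i j k (v t (ζ • u))).1 * Wh (bl κ i j k (v t (ζ • u)))))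
  rw [b0] at key
  refine key (fun t => derivWithin (fun t => (bl κ i j k (v t (ζ • u))).1 *
    Fh (bl κ i j k (v t (ζ • u))) + σ * ((bl κ i j k (v t (ζ • u))).1 *
      Wh (bl κ i j k (v t (ζ • u))))) (Ici 0) t) fun t ht => ?_
  have der := hasDerivWithinAt_pi.1 (hk.der _ hz t ht)
  have lo := hk.loc hq (z := ζ • u) (by rwa [nz]) (by linarith) ht
  have le := hk.le _ hz t ht
  rw [nz] at lo le
  set y := v t (ζ • u) with hy
  have p := Real.exp_pos t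
  have co : ∀ m, ‖Real.exp t * y m - ζ * u m‖ ≤ 40 * ‖ζ‖ ^ 2 := fun m => by
    simpa using (norm_le_pi_norm _ m).trans lo
  have g1 : ‖ζ‖ / 2 ≤ Real.exp t * ‖y j‖ := by
    have a := norm_sub_norm_le ζ (Real.exp t * y j)
    have b := co j
    rw [uj, mul_one, norm_sub_rev] at b
    rw [norm_mul, Complex.norm_real, Real.norm_of_nonneg p.le] at a
    nlinarith
  have g2 : Real.exp t * ‖y‖ ≤ 2 * ‖ζ‖ := by
    have a := norm_sub_norm_le (Real.exp t • y) (ζ • u)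
    rw [nz, norm_smul, Real.norm_of_nonneg p.le] at a
    nlinarith
  have yj : y j ≠ 0 := fun h => by rw [h, norm_zero, mul_zero] at g1; linarith
  have g3 : ‖y‖ ≤ 4 * ‖y j‖ := le_of_mul_le_mul_left (by linarith) p
  have g4 : ‖y j‖ ^ 2 ≤ 4 * Real.exp (-t) ^ 2 := by
    have a : Real.exp t * ‖y j‖ ≤ 2 := by nlinarith [norm_le_pi_norm y j]
    calc _ = (Real.exp t * ‖y j‖) ^ 2 * Real.exp (-t) ^ 2 := by rw [Real.exp_neg]; field_simp
      _ ≤ 2 ^ 2 * Real.exp (-t) ^ 2 := by gcongr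
      _ = _ := by norm_num
  have ra : ∀ m, ‖y m / y j - u m‖ * 1 ≤ 160 * ‖ζ‖ := fun m => by
    have um : ‖u m‖ ≤ 1 := hu ▸ norm_le_pi_norm u m
    have e : y m / y j - u m = ((Real.exp t * y m - ζ * u m) - u m * (Real.exp t * y j - ζ * u j)) /
        (Real.exp t * y j) := by
      have : (Real.exp t : ℂ) ≠ 0 := by exact_mod_cast p.ne'
      rw [uj]; field_simp; ring
    have a := (norm_sub_le _ _).trans (add_le_add (co m) ((norm_mul_le (u m) _).trans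
      (mul_le_mul um (co j) (norm_nonneg _) zero_le_one)))
    rw [e, mul_one, norm_div, norm_mul, Complex.norm_real, Real.norm_of_nonneg p.le,
      div_le_iff₀ (by linarith)]
    nlinarith
  have ra2 : ∀ m, ‖y m / y j‖ ≤ 2 := fun m => by
    have um : ‖u m‖ ≤ 1 := hu ▸ norm_le_pi_norm u m
    linarith [ra m, norm_sub_norm_le (y m / y j) (u m)]
  have near : dist (bl κ i j k y) p0 < ρ := by
    have a1 := (norm_le_pi_norm y j).trans le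
    have a2 := ra i
    have a3 := ra k
    rw [ui] at a2
    rw [dist_eq_norm, Prod.norm_def, Prod.norm_def]
    refine max_lt ?_ (max_lt ?_ ?_)
    · simp only [bl, p0, Prod.fst_sub, sub_zero]; linarith
    · simp only [bl, p0, Prod.fst_sub, Prod.snd_sub]; linarith
    · rcases hκ with rfl | ⟨rfl, uk, -⟩
      · simpa [bl, p0] using hρ
      · rw [uk] at a3
        simp only [bl, p0, Prod.snd_sub, sub_self, zero_add, one_mul]; linarith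
  obtain ⟨⟨d1, l1⟩, ⟨d2, l2⟩, l3, l4, l5, ⟨n1, n2, n3⟩, i1, i2⟩ := hb near
  have hπ := (der j).prodMk (((der i).fun_div (der j) yj).prodMk
    ((((der k).fun_div (der j) yj).const_mul κ).const_add (1 - κ)))
  set w : P3 := (H y j, (H y i * y j - y i * H y j) / y j ^ 2,
    κ * ((H y k * y j - y k * H y j) / y j ^ 2)) with hw
  have hT := ((d1.hasFDerivAt.restrictScalars ℝ).comp_hasDerivWithinAt t hπ).add
    (((d2.hasFDerivAt.restrictScalars ℝ).comp_hasDerivWithinAt t hπ).const_mul (σ : ℂ))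
  have sm : ∀ c : ℂ, ‖c‖ ≤ 56 * σ ^ 2 * ‖y‖ ^ 2 → ‖c‖ ≤ 896 * σ ^ 2 * ‖y j‖ ^ 2 := fun c hc =>
    calc _ ≤ 56 * σ ^ 2 * (4 * ‖y j‖) ^ 2 := hc.trans (by gcongr)
      _ = _ := by ring
  have y2 : ‖y‖ ≤ 1 / 2 := by linarith
  have ri := sm _ (hi y y2)
  have rj := sm _ (hj y y2)
  set P := bl κ i j k y with hP
  have P1 : P.1 = y j := rfl
  have xe : P.2.1 * P.1 = y i := div_mul_cancel₀ _ yj
  set e : P3 := w + X0 κ P + (σ : ℂ) • dl κ P with he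
  have n2' : 1 + y i ≠ 0 := xe ▸ n2
  have n3' : y i ≠ 0 := xe ▸ mul_ne_zero n3 yj
  have n1' : 1 + y j ≠ 0 := n1
  have k1 : e.1 = H y j + (y j * cay (y i) + σ * ((y j ^ 2 - y i ^ 2) / (1 + y i) ^ 2)) := by
    simp only [he, hw, X0, dl, rate, q1, Prod.fst_add, Prod.smul_fst, smul_eq_mul, xe]
    simp only [hP, bl]; field_simp; ring
  have k2 : e.2.1 = (H y i + (y i * cay (y j) + σ * ((y i ^ 2 - y j ^ 2) / (1 + y j) ^ 2)) -
      y i / y j * (H y j + (y j * cay (y i) + σ * ((y j ^ 2 - y i ^ 2) / (1 + y i) ^ 2)))) / y j := by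
    simp only [he, hw, X0, dl, rate, q1, q2, Prod.fst_add, Prod.snd_add, Prod.smul_fst,
      Prod.smul_snd, smul_eq_mul, xe]
    simp only [hP, bl]; field_simp; ring
  have s2 := sq_nonneg σ
  have k3 : ‖e.2.2‖ ≤ 2688 * σ ^ 2 * ‖y j‖ := by
    rcases hκ with rfl | ⟨rfl, -, h3⟩
    · simp only [he, hw, X0, dl, rate, Prod.snd_add, Prod.smul_snd, smul_eq_mul]
      simp; positivity
    · refine (le_of_eq (congrArg norm ?_)).trans
        (quot_le (sm _ (h3 y y2)) rj (ra2 k) yj (by linarith))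
      simp only [he, hw, X0, dl, rate, q1, Prod.snd_add, Prod.smul_snd, smul_eq_mul, xe]
      simp only [hP, bl]; field_simp; ring
  have yj1 : ‖y j‖ ≤ 1 := (norm_le_pi_norm y j).trans (by linarith)
  have m1 : ‖e.1‖ ≤ 2688 * σ ^ 2 * ‖y j‖ ^ 2 := by
    rw [k1]; exact rj.trans (by gcongr; norm_num)
  have m2 : ‖e‖ ≤ 2688 * σ ^ 2 * ‖y j‖ := by
    rw [Prod.norm_def, Prod.norm_def]
    refine max_le (m1.trans ?_) (max_le ?_ k3)
    · gcongr; nlinarith [norm_nonneg (y j)]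
    · rw [k2]; exact quot_le ri rj (ra2 i) yj (by linarith)
  have t1 := l1 e _ m2 m1
  have t2 := l2 e _ m2 m1
  have t3 := l2 _ _ l5.1 l5.2
  have hd := hT.derivWithin (uniqueDiffOn_Ici 0 t ht)
  refine ⟨hT.differentiableWithinAt.hasDerivWithinAt, ?_, ?_⟩
  · refine (le_of_eq (congrArg norm (a₂ := fderiv ℂ (fun p => p.1 * Fh p) P e -
      σ * (σ * fderiv ℂ (fun p => p.1 * Wh p) P (dl κ P)) +
      σ * fderiv ℂ (fun p => p.1 * Wh p) P e) ?_)).trans ?_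
    · refine (congrArg (_ + ·) hd).trans ?_
      simp only [he, map_add, map_smul, smul_eq_mul, ContinuousLinearMap.coe_restrictScalars']
      linear_combination -i1 + σ * i2
    · refine (norm_add_le _ _).trans ((add_le_add_left (norm_sub_le _ _) _).trans ?_)
      rw [norm_mul, norm_mul, norm_mul, ← mul_assoc, ← sq, Complex.norm_real, Real.norm_eq_abs,
        sq_abs]
      rw [Complex.norm_real, Real.norm_eq_abs] at s1
      rw [P1] at t1 t2 t3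
      calc _ ≤ C1 * (2688 * σ ^ 2) * ‖y j‖ ^ 2 + σ ^ 2 * (C2 * C5 * ‖y j‖ ^ 2) +
            1 * (C2 * (2688 * σ ^ 2) * ‖y j‖ ^ 2) := by gcongr
        _ = (C1 * 2688 + C2 * C5 + C2 * 2688) * σ ^ 2 * ‖y j‖ ^ 2 := by ring
        _ ≤ (C1 * 2688 + C2 * C5 + C2 * 2688) * σ ^ 2 * (4 * Real.exp (-t) ^ 2) := by gcongr
        _ = _ := by ring
  · rw [← hl y yj, show P.1 * Fh P + σ * (P.1 * Wh P) - y j * g P =
      y j * ((Fh P - g P) + σ * Wh P) by rw [P1]; ring, norm_mul]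
    have a := (norm_add_le _ _).trans (add_le_add l3 ((norm_mul_le (σ : ℂ) _).trans
      (mul_le_mul s1 l4 (norm_nonneg _) zero_le_one)))
    rw [P1] at a
    calc _ ≤ ‖y j‖ * (C3 * ‖y j‖ + 1 * (C4 * ‖y j‖)) := by gcongr
      _ = (C3 + C4) * ‖y j‖ ^ 2 := by ring
      _ ≤ (C3 + C4) * (4 * Real.exp (-t) ^ 2) := by gcongr
      _ = _ := by ring

end Pool.Agent.Lib.MP_c027d2_an.H35
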