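import Pool.Agent.Lib.MP_53f9be_gt.Holo

/-! Holomorphic flows of a contracting vector field on the unit ball. -/

open Set Metric Filter Topology BoundedContinuousFunction

namespace Pool.Agent.Lib.MP_c027d2_an.H35

section dini

variable {X : Type*} [NormedAddCommGroup X] [NormedSpace ℝ X]

theorem dini {γ γ' : ℝ → X} {φ : ℝ → ℝ} {T κ ε₀ : ℝ} (hε : 0 < ε₀) (hφ : ContinuousOn φ (Icc 0 T))
    (hγ : ∀ t ∈ Ico 0 T, HasDerivWithinAt γ (γ' t) (Ici t) t)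
    (h : ∀ t ∈ Ico 0 T, ∀ s, t < s → s - t ≤ ε₀ →
      φ s ≤ ‖γ s - γ t - (s - t) • γ' t‖ + (1 + κ * (s - t)) * φ t) :
    ∀ t ∈ Icc 0 T, φ t ≤ φ 0 * Real.exp (κ * t) := by
  intro t ht
  have key := le_gronwallBound_of_liminf_deriv_right_le (f' := fun x => κ * φ x) (δ := φ 0) (K := κ)
    (ε := 0) hφ (fun x hx r hr => ?_) le_rfl (fun x _ => by simp) t ht
  · simpa [gronwallBound_ε0] using key
  · have h1 := (hasDerivWithinAt_iff_isLittleO.1 (hγ x hx)).def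
      (c := (r - κ * φ x) / 2) (by linarith)
    have h2 : ∀ᶠ s in 𝓝[>] x, s - x ≤ ε₀ := by
      have : Ioc x (x + ε₀) ∈ 𝓝[>] x := Ioc_mem_nhdsGT (by linarith)
      filter_upwards [this] with s hs using by linarith [hs.2]
    refine Eventually.frequently ?_
    filter_upwards [nhdsWithin_mono x Ioi_subset_Ici_self h1, h2, self_mem_nhdsWithin]
      with s s1 s2 s3
    have s4 : 0 < s - x := sub_pos.2 s3
    have s5 := h x hx s s3 s2
    rw [Real.norm_of_nonneg s4.le] at s1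
    rw [inv_mul_lt_iff₀ s4]
    nlinarith

theorem tail {g g' : ℝ → X} {A : ℝ} (hg : ∀ t, 0 ≤ t → HasDerivWithinAt g (g' t) (Ici 0) t)
    (hb : ∀ t, 0 ≤ t → ‖g' t‖ ≤ A * Real.exp (-t)) {a b : ℝ} (ha : 0 ≤ a) (hab : a ≤ b) :
    ‖g b - g a‖ ≤ A * Real.exp (-a) := by
  have hA : 0 ≤ A := by simpa using (norm_nonneg _).trans (hb 0 le_rfl)
  have hB : ∀ t, HasDerivAt (fun t => A * Real.exp (-a) - A * Real.exp (-t)) (A * Real.exp (-t)) t :=
    fun t => by simpa using (((hasDerivAt_neg t).exp).const_mul A).const_sub (A * Real.exp (-a))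
  have := image_norm_le_of_norm_deriv_right_le_deriv_boundary (f := fun t => g t - g a) (f' := g')
    (a := a) (b := b) (B := fun t => A * Real.exp (-a) - A * Real.exp (-t))
    (B' := fun t => A * Real.exp (-t))
    (fun t ht => (((hg t (ha.trans ht.1)).continuousWithinAt.mono
      fun s hs => ha.trans hs.1)).sub continuousWithinAt_const)
    (fun t ht => ((hg t (ha.trans ht.1)).mono (Ici_subset_Ici.2 (ha.trans ht.1))).sub_const _)
    (by simp) hB (fun t ht => hb t (ha.trans ht.1)) (right_mem_Icc.2 hab)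
  have h2 : 0 ≤ A * Real.exp (-b) := by positivity
  linarith

theorem invariant {F : X → X} {K : NNReal} (hF : LipschitzWith K F) {S : Set X} {γ : ℝ → X}
    {T ε₀ : ℝ} (hε : 0 < ε₀) (h0 : γ 0 ∈ S) (hc : ContinuousOn γ (Icc 0 T))
    (hγ : ∀ t ∈ Ico 0 T, HasDerivWithinAt γ (F (γ t)) (Ici t) t)
    (hS : ∀ u ∈ S, ∀ ε, 0 < ε → ε ≤ ε₀ → u + ε • F u ∈ S) :
    ∀ t ∈ Icc 0 T, ∀ δ > 0, ∃ u ∈ S, ‖u - γ t‖ ≤ δ := by
  intro t ht δ hδ
  have key := dini (φ := fun t => infDist (γ t) S) (κ := K) hε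
    ((continuous_infDist_pt S).comp_continuousOn hc) hγ (fun t _ s hts hs => ?_) t ht
  · rw [infDist_zero_of_mem h0, zero_mul] at key
    obtain ⟨u, hu, h⟩ := (infDist_lt_iff ⟨_, h0⟩).1 (key.trans_lt hδ)
    exact ⟨u, hu, by rw [← dist_eq_norm, dist_comm]; exact h.le⟩
  · have s4 : 0 < s - t := sub_pos.2 hts
    have hp : 0 < 1 + K * (s - t) := by positivity
    refine le_of_forall_pos_le_add fun η hη => ?_
    obtain ⟨u, hu, h⟩ := (infDist_lt_iff ⟨_, h0⟩).1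
      (lt_add_of_pos_right (infDist (γ t) S) (div_pos hη hp))
    refine (infDist_le_dist_of_mem (hS u hu _ s4 hs)).trans ?_
    have e : γ s - (u + (s - t) • F u) = (γ s - γ t - (s - t) • F (γ t)) +
        ((γ t - u) + (s - t) • (F (γ t) - F u)) := by
      rw [smul_sub (s - t) (F (γ t))]; abel
    have h1 := hF.dist_le_mul (γ t) u
    rw [dist_eq_norm, e]
    refine (norm_add_le _ _).trans ?_
    have h2 : ‖(γ t - u) + (s - t) • (F (γ t) - F u)‖ ≤ (1 + K * (s - t)) * dist (γ t) u := by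
      refine (norm_add_le _ _).trans ?_
      rw [norm_smul, Real.norm_of_nonneg s4.le, ← dist_eq_norm, ← dist_eq_norm]
      nlinarith
    have h3 := mul_le_mul_of_nonneg_left h.le hp.le
    rw [mul_add _ (infDist _ _), mul_div_cancel₀ _ hp.ne'] at h3
    linarith

/-- Radial retraction onto the closed unit ball. -/
noncomputable def trunc (y : X) : X := (max 1 ‖y‖)⁻¹ • y

theorem trunc_norm_le (y : X) : ‖trunc y‖ ≤ 1 := by
  have h1 : 0 < max 1 ‖y‖ := lt_max_of_lt_left one_pos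
  rw [trunc, norm_smul, Real.norm_of_nonneg (by positivity), inv_mul_le_iff₀ h1, mul_one]
  exact le_max_right _ _

theorem trunc_eq {y : X} (hy : ‖y‖ ≤ 1) : trunc y = y := by
  rw [trunc, max_eq_left hy]; simp

theorem trunc_lip (a b : X) : ‖trunc a - trunc b‖ ≤ 2 * ‖a - b‖ := by
  have ha : 0 < max 1 ‖a‖ := lt_max_of_lt_left one_pos
  have hb : 0 < max 1 ‖b‖ := lt_max_of_lt_left one_pos
  have e : trunc a - trunc b = (max 1 ‖a‖)⁻¹ • (a - b) +
      ((max 1 ‖a‖)⁻¹ - (max 1 ‖b‖)⁻¹) • b := by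
    simp only [trunc, smul_sub, sub_smul]; abel
  have h1 : (max 1 ‖a‖)⁻¹ ≤ 1 := inv_le_one_of_one_le₀ (le_max_left _ _)
  have h2 : ‖b‖ / max 1 ‖b‖ ≤ 1 := (div_le_one hb).2 (le_max_right _ _)
  have h3 : |max 1 ‖b‖ - max 1 ‖a‖| ≤ ‖a - b‖ := by
    rw [max_comm 1, max_comm 1]
    refine (abs_max_sub_max_le_abs _ _ _).trans ?_
    rw [abs_sub_comm]
    exact abs_norm_sub_norm_le a b
  have h4 : |(max 1 ‖a‖)⁻¹ - (max 1 ‖b‖)⁻¹| * ‖b‖ ≤ ‖a - b‖ := by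
    have : (max 1 ‖a‖)⁻¹ - (max 1 ‖b‖)⁻¹ =
        (max 1 ‖a‖)⁻¹ / max 1 ‖b‖ * (max 1 ‖b‖ - max 1 ‖a‖) := by field_simp
    rw [this, abs_mul, abs_of_pos (by positivity)]
    calc (max 1 ‖a‖)⁻¹ / max 1 ‖b‖ * |max 1 ‖b‖ - max 1 ‖a‖| * ‖b‖
        = (max 1 ‖a‖)⁻¹ * (‖b‖ / max 1 ‖b‖) * |max 1 ‖b‖ - max 1 ‖a‖| := by ring
      _ ≤ 1 * 1 * ‖a - b‖ := by gcongr
      _ = _ := by ring
  rw [e]
  refine (norm_add_le _ _).trans ?_
  rw [norm_smul, norm_smul, Real.norm_eq_abs, Real.norm_eq_abs, abs_of_pos (by positivity)]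
  nlinarith [norm_nonneg (a - b)]

end dini

abbrev E (n : ℕ) : Type := Fin n → ℂ

variable {n : ℕ}

/-- The hypotheses on the truncated field `H = -h`. -/
structure Fld (H : E n → E n) (K : NNReal) (B ε₀ c : ℝ) : Prop where
  lip : LipschitzWith K H
  bd : ∀ y, ‖H y‖ ≤ B
  hol : DifferentiableOn ℂ H (ball 0 1)
  pos : 0 < ε₀
  step : ∀ y, ‖y‖ < 1 → ∀ ε, 0 < ε → ε ≤ ε₀ → ‖y + ε • H y‖ ≤ (1 + -c * ε) * ‖y‖
  cpos : 0 < c

theorem Fld.exists_flow_fin {H : E n → E n} {K : NNReal} {B ε₀ c : ℝ} (hH : Fld H K B ε₀ c)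
    (T : ℕ) : ∃ V : ℝ → E n → E n, (∀ z ∈ ball (0 : E n) 1, V 0 z = z ∧ ∀ t ∈ Icc (0 : ℝ) T,
      HasDerivWithinAt (fun s => V s z) (H (V t z)) (Icc 0 T) t ∧ ‖V t z‖ ≤ ‖z‖) ∧
      ∀ t ∈ Icc (0 : ℝ) T, DifferentiableOn ℂ (V t) (ball 0 1) := by
  classical
  have hB : 0 ≤ B := (norm_nonneg _).trans (hH.bd 0)
  let F : (ball (0 : E n) 1 →ᵇ E n) → (ball (0 : E n) 1 →ᵇ E n) := comp H hH.lip
  have hF : LipschitzWith K F := lipschitz_comp hH.lip
  let u₀ : ball (0 : E n) 1 →ᵇ E n := ofNormedAddCommGroup Subtype.val continuous_subtype_val 1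
    fun z => (mem_ball_zero_iff.1 z.2).le
  have hT : (0 : ℝ) ≤ T := Nat.cast_nonneg T
  have hpl := IsPicardLindelof.of_time_independent (f := F) (tmin := 0) (tmax := T)
    (t₀ := ⟨0, le_rfl, hT⟩) (x₀ := u₀) (a := ⟨B * T, by positivity⟩) (r := 0) (L := ⟨B, hB⟩) (K := K)
    (fun u _ => (norm_le hB).2 fun z => hH.bd _) hF.lipschitzOnWith (by simp; rfl)
  obtain ⟨α, h0, hα⟩ := hpl.exists_eq_forall_mem_Icc_hasDerivWithinAt₀
  let ex : (ball (0 : E n) 1 →ᵇ E n) → E n → E n := fun u z =>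
    if h : z ∈ ball (0 : E n) 1 then u ⟨z, h⟩ else 0
  have hex : ∀ u z (h : z ∈ ball (0 : E n) 1), ex u z = u ⟨z, h⟩ := fun u z h => dif_pos h
  have inv := invariant hF (S := {u | (∀ z, ‖u z‖ ≤ ‖(z : E n)‖) ∧
      DifferentiableOn ℂ (ex u) (ball 0 1)}) (γ := α) (T := T) hH.pos ?_
    (fun t ht => (hα t ht).continuousWithinAt)
    (fun t ht => (hα t (Ico_subset_Icc_self ht)).mono_of_mem_nhdsWithin
      (Icc_mem_nhdsGE_of_mem ht)) ?_
  · have hle : ∀ t ∈ Icc (0 : ℝ) T, ∀ z, ‖α t z‖ ≤ ‖(z : E n)‖ := by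
      intro t ht z
      refine le_of_forall_pos_le_add fun δ hδ => ?_
      obtain ⟨u, hu, h⟩ := inv t ht δ hδ
      have h1 := (norm_coe_le_norm (u - α t) z).trans h
      have h2 := norm_sub_norm_le (α t z) (u z)
      rw [norm_sub_rev] at h2
      have h3 := hu.1 z
      simp only [coe_sub, Pi.sub_apply] at h1
      linarith
    refine ⟨fun t => ex (α t), fun z hz => ⟨?_, fun t ht => ⟨?_, ?_⟩⟩, fun t ht c hc => ?_⟩
    · simp only [hex _ _ hz, show α 0 = u₀ from h0]; rfl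
    · simp only [hex _ _ hz]
      exact (evalCLM ℝ (⟨z, hz⟩ : ball (0 : E n) 1)).hasFDerivAt.comp_hasDerivWithinAt t (hα t ht)
    · simp only [hex _ _ hz]; exact hle t ht _
    · obtain ⟨R, hR, hRU⟩ := Metric.isOpen_iff.1 isOpen_ball c hc
      refine (MP_53f9be_gt.differentiableAt_of_approx hR (M := 1) (fun y hy => ?_)
        fun δ hδ => ?_).differentiableWithinAt
      · simp only [hex _ _ (hRU hy)]
        exact (hle t ht _).trans (mem_ball_zero_iff.1 (hRU hy)).le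
      · obtain ⟨u, hu, h⟩ := inv t ht δ hδ
        refine ⟨ex u, hu.2.mono hRU, fun y hy => ?_⟩
        simp only [hex _ _ (hRU hy)]
        exact (norm_coe_le_norm (u - α t) _).trans h
  · rw [show α 0 = u₀ from h0]
    exact ⟨fun z => le_rfl, differentiableOn_id.congr fun z hz => hex _ _ hz⟩
  · intro u hu ε h1 h2
    have hlt : ∀ z, ‖u z‖ < 1 := fun z => (hu.1 z).trans_lt (mem_ball_zero_iff.1 z.2)
    refine ⟨fun z => ?_, ?_⟩
    · refine (hH.step (u z) (hlt z) ε h1 h2).trans ?_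
      have := hu.1 z
      nlinarith [norm_nonneg (u z), mul_pos hH.cpos h1]
    · refine (hu.2.add ((hH.hol.comp hu.2 fun z hz => ?_).const_smul (ε : ℂ))).congr fun z hz => ?_
      · rw [hex _ _ hz]; exact mem_ball_zero_iff.2 (hlt _)
      · simp only [Pi.add_apply, Pi.smul_apply, Function.comp, hex _ _ hz, Complex.coe_smul]
        rfl

theorem Fld.exists_flow {H : E n → E n} {K : NNReal} {B ε₀ c : ℝ} (hH : Fld H K B ε₀ c) :
    ∃ v : ℝ → E n → E n, (∀ z ∈ ball (0 : E n) 1, v 0 z = z ∧ ∀ t, 0 ≤ t →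
      HasDerivWithinAt (fun s => v s z) (H (v t z)) (Ici 0) t ∧ ‖v t z‖ ≤ ‖z‖) ∧
      ∀ t, 0 ≤ t → DifferentiableOn ℂ (v t) (ball 0 1) := by
  choose V hV hV' using hH.exists_flow_fin
  have uniq : ∀ (N N' : ℕ) z, z ∈ ball (0 : E n) 1 → ∀ s : ℝ, 0 ≤ s → s ≤ N → s ≤ N' →
      V N s z = V N' s z := by
    intro N N' z hz s h0 h1 h2
    have aux : ∀ M : ℕ, s ≤ M → ContinuousOn (fun t => V M t z) (Icc 0 s) ∧ ∀ t ∈ Ico 0 s,
        HasDerivWithinAt (fun t => V M t z) (H (V M t z)) (Ici t) t := fun M hM =>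
      ⟨fun t ht => (((hV M z hz).2 t ⟨ht.1, ht.2.trans hM⟩).1.continuousWithinAt).mono
        (Icc_subset_Icc_right hM), fun t ht => ((hV M z hz).2 t ⟨ht.1, ht.2.le.trans hM⟩).1
          |>.mono_of_mem_nhdsWithin (Icc_mem_nhdsGE_of_mem ⟨ht.1, ht.2.trans_le hM⟩)⟩
    exact ODE_solution_unique (v := fun _ => H) (fun _ => hH.lip) (aux N h1).1 (aux N h1).2
      (aux N' h2).1 (aux N' h2).2 (by simp only [(hV _ z hz).1]) (right_mem_Icc.2 h0)
  have hlt : ∀ t : ℝ, t < ((⌈t⌉₊ + 1 : ℕ) : ℝ) := fun t => by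
    push_cast; linarith [Nat.le_ceil t]
  refine ⟨fun t => V (⌈t⌉₊ + 1) t, fun z hz => ⟨(hV _ z hz).1, fun t ht => ⟨?_, ?_⟩⟩,
    fun t ht => hV' _ t ⟨ht, (hlt t).le⟩⟩
  · have hm : Icc (0 : ℝ) ((⌈t⌉₊ + 1 : ℕ) : ℝ) ∈ 𝓝[Ici 0] t := by
      rw [← Ici_inter_Iic]
      exact inter_mem_nhdsWithin _ (Iic_mem_nhds (hlt t))
    refine (((hV _ z hz).2 t ⟨ht, (hlt t).le⟩).1.mono_of_mem_nhdsWithin hm).congr_of_eventuallyEq
      ?_ rfl
    filter_upwards [hm] with s hs using uniq _ _ z hz s hs.1 (hlt s).le hs.2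
  · exact ((hV _ z hz).2 t ⟨ht, (hlt t).le⟩).2

end Pool.Agent.Lib.MP_c027d2_an.H35
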