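import Pool.Agent.Lib.MP_c027d2_an.H35Ode

/-! The starlike map attached to a contracting field, and its Taylor coefficients. -/

open Set Metric Filter Topology

namespace Pool.Agent.Lib.MP_c027d2_an.H35

variable {n : ℕ}

theorem eq_of_exp {X : Type*} [NormedAddCommGroup X] {a : X} {A D : ℝ}
    (h : ∀ t : ℝ, 0 ≤ t → ‖a‖ ≤ D + A * Real.exp (-t)) : ‖a‖ ≤ D := by
  have h1 : Tendsto (fun t : ℝ => D + A * Real.exp (-t)) atTop (𝓝 (D + A * 0)) :=
    (Real.tendsto_exp_neg_atTop_nhds_zero.const_mul A).const_add D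
  simpa using ge_of_tendsto h1 ((eventually_ge_atTop 0).mono h)

section curve

variable {H : E n → E n} {K : NNReal} {B ε₀ c C r : ℝ} {γ : ℝ → E n}

theorem Fld.decay (hH : Fld H K B ε₀ c) (hr : r < 1)
    (hγ : ∀ t, 0 ≤ t → HasDerivWithinAt γ (H (γ t)) (Ici 0) t ∧ ‖γ t‖ ≤ r) {t : ℝ} (ht : 0 ≤ t) :
    ‖γ t‖ ≤ ‖γ 0‖ * Real.exp (-c * t) := by
  refine dini (γ := γ) (γ' := fun t => H (γ t)) (φ := fun t => ‖γ t‖) (T := t) hH.pos
    (fun s hs => ((hγ s hs.1).1.continuousWithinAt.mono Icc_subset_Ici_self).norm)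
    (fun s hs => (hγ s hs.1).1.mono (Ici_subset_Ici.2 hs.1)) (fun s hs u hu hu' => ?_) t
    (right_mem_Icc.2 ht)
  have h1 := hH.step (γ s) ((hγ s hs.1).2.trans_lt hr) _ (sub_pos.2 hu) hu'
  have e : γ u = (γ u - γ s - (u - s) • H (γ s)) + (γ s + (u - s) • H (γ s)) := by abel
  have h2 := norm_add_le (γ u - γ s - (u - s) • H (γ s)) (γ s + (u - s) • H (γ s))
  rw [← e] at h2
  linarith

theorem hasDeriv_w {X : Type*} [NormedAddCommGroup X] [NormedSpace ℝ X] {g : ℝ → X} {g' : X} {t : ℝ}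
    (h : HasDerivWithinAt g g' (Ici 0) t) :
    HasDerivWithinAt (fun s => Real.exp s • g s) (Real.exp t • (g t + g')) (Ici 0) t := by
  have := (Real.hasDerivAt_exp t).hasDerivWithinAt.smul h
  rwa [add_comm, ← smul_add] at this

theorem Fld.sharp (hH : Fld H K B ε₀ c) (hC : 0 < C)
    (hq : ∀ y, ‖y‖ < 1 → ‖y + H y‖ ≤ C * ‖y‖ ^ 2) (hr : r < 1)
    (hγ : ∀ t, 0 ≤ t → HasDerivWithinAt γ (H (γ t)) (Ici 0) t ∧ ‖γ t‖ ≤ r) {t : ℝ} (ht : 0 ≤ t) :
    ‖γ t‖ ≤ Real.exp (2 * C / c) * Real.exp (-t) * ‖γ 0‖ := by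
  have hc := hH.cpos
  rcases (norm_nonneg (γ 0)).eq_or_lt with h0 | h0
  · simpa [← h0] using hH.decay hr hγ ht
  have hB : ∀ s, HasDerivAt (fun s => ‖γ 0‖ * Real.exp (2 * C / c * (1 - Real.exp (-c * s))))
      (‖γ 0‖ * Real.exp (2 * C / c * (1 - Real.exp (-c * s))) * (2 * C * Real.exp (-c * s))) s := by
    intro s
    have := ((((((hasDerivAt_id s).const_mul (-c)).exp).const_sub 1).const_mul
      (2 * C / c)).exp).const_mul ‖γ 0‖
    refine this.congr_deriv ?_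
    simp only [id_eq]
    field_simp
  have key := image_norm_le_of_norm_deriv_right_lt_deriv_boundary
    (f := fun s => Real.exp s • γ s) (f' := fun s => Real.exp s • (γ s + H (γ s))) (a := 0) (b := t)
    (fun s hs => (hasDeriv_w (hγ s hs.1).1).continuousWithinAt.mono Icc_subset_Ici_self)
    (fun s hs => (hasDeriv_w (hγ s hs.1).1).mono (Ici_subset_Ici.2 hs.1)) (by simp) hB
    (fun s hs h => ?_) (right_mem_Icc.2 ht)
  · rw [norm_smul, Real.norm_of_nonneg (Real.exp_pos _).le] at key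
    have h1 : Real.exp (2 * C / c * (1 - Real.exp (-c * t))) ≤ Real.exp (2 * C / c) := by
      refine Real.exp_le_exp.2 (mul_le_of_le_one_right (by positivity) ?_)
      linarith [Real.exp_pos (-c * t)]
    rw [Real.exp_neg, mul_assoc, mul_left_comm, le_inv_mul_iff₀ (Real.exp_pos _), mul_comm _ ‖γ 0‖]
    exact key.trans (by gcongr)
  · have hp : 0 < ‖Real.exp s • γ s‖ := by rw [h]; positivity
    rw [← h]
    rw [norm_smul, Real.norm_of_nonneg (Real.exp_pos _).le] at hp ⊢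
    rw [norm_smul, Real.norm_of_nonneg (Real.exp_pos _).le]
    have h1 := hq _ ((hγ s hs.1).2.trans_lt hr)
    have h2 := hH.decay hr hγ hs.1
    have h3 : ‖γ 0‖ ≤ 1 := (hγ 0 le_rfl).2.trans hr.le
    have h4 := Real.exp_pos (-c * s)
    have h5 : ‖γ s‖ ≤ Real.exp (-c * s) := h2.trans (by nlinarith)
    calc _ ≤ Real.exp s * (C * ‖γ s‖ ^ 2) := by gcongr
      _ = Real.exp s * ‖γ s‖ * (C * ‖γ s‖) := by ring
      _ ≤ Real.exp s * ‖γ s‖ * (C * Real.exp (-c * s)) := by gcongr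
      _ < _ := by gcongr; linarith

end curve

/-- The map `f`, the flow `v` and the estimates that link them. -/
structure Koe (H f : E n → E n) (v : ℝ → E n → E n) (M : ℝ) : Prop where
  pos : 0 < M
  hol : DifferentiableOn ℂ f (ball 0 1)
  zero : ∀ z ∈ ball (0 : E n) 1, v 0 z = z
  der : ∀ z ∈ ball (0 : E n) 1, ∀ t, 0 ≤ t → HasDerivWithinAt (fun s => v s z) (H (v t z)) (Ici 0) t
  le : ∀ z ∈ ball (0 : E n) 1, ∀ t, 0 ≤ t → ‖v t z‖ ≤ ‖z‖
  dec : ∀ z ∈ ball (0 : E n) 1, ∀ t, 0 ≤ t → ‖v t z‖ ≤ M * Real.exp (-t) * ‖z‖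
  lim : ∀ z ∈ ball (0 : E n) 1, ∀ t, 0 ≤ t →
    ‖f z - Real.exp t • v t z‖ ≤ M * ‖z‖ ^ 2 * Real.exp (-t)

theorem Fld.exists_koe {H : E n → E n} {K : NNReal} {B ε₀ c C : ℝ} (hH : Fld H K B ε₀ c)
    (hC : 0 < C) (hq : ∀ y, ‖y‖ < 1 → ‖y + H y‖ ≤ C * ‖y‖ ^ 2) : ∃ f v M, Koe H f v M := by
  obtain ⟨v, hv, hv'⟩ := hH.exists_flow
  set M := Real.exp (2 * C / c) with hM
  have hM0 : 0 < M := Real.exp_pos _
  have dec : ∀ z ∈ ball (0 : E n) 1, ∀ t, 0 ≤ t → ‖v t z‖ ≤ M * Real.exp (-t) * ‖z‖ := by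
    intro z hz t ht
    simpa only [(hv z hz).1] using hH.sharp hC hq (mem_ball_zero_iff.1 hz) (hv z hz).2 ht
  have cau : ∀ z ∈ ball (0 : E n) 1, ∀ a b : ℝ, 0 ≤ a → a ≤ b →
      ‖Real.exp b • v b z - Real.exp a • v a z‖ ≤ C * M ^ 2 * ‖z‖ ^ 2 * Real.exp (-a) := by
    intro z hz a b ha hab
    refine tail (g := fun s => Real.exp s • v s z) (fun t ht => hasDeriv_w ((hv z hz).2 t ht).1)
      (fun t ht => ?_) ha hab
    rw [norm_smul, Real.norm_of_nonneg (Real.exp_pos _).le]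
    have h1 := hq _ (((hv z hz).2 t ht).2.trans_lt (mem_ball_zero_iff.1 hz))
    have h2 := dec z hz t ht
    calc _ ≤ Real.exp t * (C * (M * Real.exp (-t) * ‖z‖) ^ 2) := by
          gcongr; exact h1.trans (by gcongr)
      _ = _ := by rw [Real.exp_neg]; field_simp
  have ex : ∀ z ∈ ball (0 : E n) 1, ∃ w,
      Tendsto (fun N : ℕ => Real.exp N • v N z) atTop (𝓝 w) := by
    intro z hz
    refine cauchySeq_tendsto_of_complete (cauchySeq_of_le_tendsto_0'
      (fun N : ℕ => C * M ^ 2 * ‖z‖ ^ 2 * Real.exp (-(N : ℝ))) (fun a b hab => ?_) ?_)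
    · rw [dist_comm, dist_eq_norm]
      exact cau z hz a b (Nat.cast_nonneg a) (Nat.cast_le.2 hab)
    · simpa using (Real.tendsto_exp_neg_atTop_nhds_zero.comp
        tendsto_natCast_atTop_atTop).const_mul (C * M ^ 2 * ‖z‖ ^ 2)
  choose! f hf using ex
  have lim : ∀ z ∈ ball (0 : E n) 1, ∀ t, 0 ≤ t →
      ‖f z - Real.exp t • v t z‖ ≤ C * M ^ 2 * ‖z‖ ^ 2 * Real.exp (-t) := by
    intro z hz t ht
    refine le_of_tendsto ((hf z hz).sub_const _).norm ?_
    filter_upwards [tendsto_natCast_atTop_atTop.eventually_ge_atTop t] with N hN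
      using cau z hz t N ht hN
  refine ⟨f, v, M + C * M ^ 2, by positivity, fun x hx => ?_, fun z hz => (hv z hz).1,
    fun z hz t ht => ((hv z hz).2 t ht).1, fun z hz t ht => ((hv z hz).2 t ht).2,
    fun z hz t ht => (dec z hz t ht).trans ?_, fun z hz t ht => (lim z hz t ht).trans ?_⟩
  · obtain ⟨R, hR, hRU⟩ := Metric.isOpen_iff.1 isOpen_ball x hx
    have hb : ∀ y ∈ ball x R, ∀ t, 0 ≤ t →
        ‖f y - Real.exp t • v t y‖ ≤ C * M ^ 2 * Real.exp (-t) := by
      intro y hy t ht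
      have h1 := (mem_ball_zero_iff.1 (hRU hy)).le
      refine (lim y (hRU hy) t ht).trans ?_
      calc _ ≤ C * M ^ 2 * 1 ^ 2 * Real.exp (-t) := by gcongr
        _ = _ := by ring
    refine (MP_53f9be_gt.differentiableAt_of_approx hR (M := C * M ^ 2 + 1) (fun y hy => ?_)
      fun δ hδ => ?_).differentiableWithinAt
    · have h1 := hb y hy 0 le_rfl
      have h2 := (mem_ball_zero_iff.1 (hRU hy)).le
      simp only [Real.exp_zero, one_smul, neg_zero, mul_one, (hv y (hRU hy)).1] at h1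
      linarith [norm_sub_norm_le (f y) y]
    · have h1 := Real.tendsto_exp_neg_atTop_nhds_zero.const_mul (C * M ^ 2)
      rw [mul_zero] at h1
      obtain ⟨t, h2, h3⟩ := ((h1.eventually (gt_mem_nhds hδ)).and (eventually_ge_atTop 0)).exists
      refine ⟨fun y => (Real.exp t : ℂ) • v t y, ((hv' t h3).mono hRU).const_smul (Real.exp t : ℂ),
        fun y hy => ?_⟩
      rw [norm_sub_rev]
      simp only [Complex.coe_smul]
      exact (hb y hy t h3).trans h2.le
  · gcongr; nlinarith [mul_pos hC (pow_pos hM0 2)]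
  · gcongr; linarith

section koe

variable {H f : E n → E n} {v : ℝ → E n → E n} {M : ℝ} {K : NNReal}

theorem Koe.mem (h : Koe H f v M) {z : E n} (hz : z ∈ ball (0 : E n) 1) {t : ℝ} (ht : 0 ≤ t) :
    v t z ∈ ball (0 : E n) 1 :=
  mem_ball_zero_iff.2 ((h.le z hz t ht).trans_lt (mem_ball_zero_iff.1 hz))

theorem Koe.semi (h : Koe H f v M) (hK : LipschitzWith K H) {z : E n} (hz : z ∈ ball (0 : E n) 1)
    {s t : ℝ} (hs : 0 ≤ s) (ht : 0 ≤ t) : v t (v s z) = v (t + s) z := by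
  have h1 : ∀ u, 0 ≤ u → HasDerivWithinAt (fun u => v (u + s) z) (H (v (u + s) z)) (Ici 0) u := by
    intro u hu
    simpa [Function.comp_def] using (h.der z hz (u + s) (by linarith)).scomp u
      ((hasDerivAt_id u).add_const s).hasDerivWithinAt fun a ha => by
        simp only [mem_Ici, id] at ha ⊢; linarith
  exact ODE_solution_unique (v := fun _ => H) (fun _ => hK) (a := 0) (b := t)
    (f := fun u => v u (v s z)) (g := fun u => v (u + s) z)
    (fun u hu => (h.der _ (h.mem hz hs) u hu.1).continuousWithinAt.mono Icc_subset_Ici_self)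
    (fun u hu => (h.der _ (h.mem hz hs) u hu.1).mono (Ici_subset_Ici.2 hu.1))
    (fun u hu => (h1 u hu.1).continuousWithinAt.mono Icc_subset_Ici_self)
    (fun u hu => (h1 u hu.1).mono (Ici_subset_Ici.2 hu.1))
    (by simp only [zero_add, h.zero _ (h.mem hz hs)]) (right_mem_Icc.2 ht)

theorem Koe.eig (h : Koe H f v M) (hK : LipschitzWith K H) {z : E n} (hz : z ∈ ball (0 : E n) 1)
    {s : ℝ} (hs : 0 ≤ s) : f (v s z) = Real.exp (-s) • f z := by
  rw [← sub_eq_zero, ← norm_le_zero_iff]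
  refine eq_of_exp (A := M * ‖v s z‖ ^ 2 + M * ‖z‖ ^ 2) fun t ht => ?_
  have h1 := h.lim _ (h.mem hz hs) t ht
  have h2 := h.lim z hz (t + s) (by linarith)
  rw [h.semi hK hz hs ht] at h1
  have e : f (v s z) - Real.exp (-s) • f z = (f (v s z) - Real.exp t • v (t + s) z) -
      Real.exp (-s) • (f z - Real.exp (t + s) • v (t + s) z) := by
    rw [smul_sub, smul_smul, ← Real.exp_add, show -s + (t + s) = t by ring]; abel
  have h3 : Real.exp (-s) ≤ 1 := Real.exp_le_one_iff.2 (by linarith)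
  have h4 : Real.exp (-(t + s)) ≤ Real.exp (-t) := Real.exp_le_exp.2 (by linarith)
  have hM := h.pos
  rw [e]
  refine (norm_sub_le _ _).trans ?_
  rw [norm_smul, Real.norm_of_nonneg (Real.exp_pos _).le]
  calc _ ≤ M * ‖v s z‖ ^ 2 * Real.exp (-t) + 1 * (M * ‖z‖ ^ 2 * Real.exp (-t)) := by
        gcongr; exact h2.trans (by gcongr)
    _ = _ := by ring

theorem Koe.near (h : Koe H f v M) {z : E n} (hz : z ∈ ball (0 : E n) 1) :
    ‖f z - z‖ ≤ M * ‖z‖ ^ 2 := by
  simpa [h.zero z hz] using h.lim z hz 0 le_rfl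

theorem Koe.map_zero (h : Koe H f v M) : f 0 = 0 := by
  simpa using h.near (mem_ball_self one_pos)

theorem Koe.star (h : Koe H f v M) (hK : LipschitzWith K H) :
    StarConvex ℝ 0 (f '' ball 0 1) := by
  rintro _ ⟨z, hz, rfl⟩ a b ha hb hab
  rw [smul_zero, zero_add]
  rcases hb.eq_or_lt with h0 | h0
  · exact ⟨0, mem_ball_self one_pos, by rw [← h0, zero_smul, h.map_zero]⟩
  · have hs : 0 ≤ -Real.log b := neg_nonneg.2 (Real.log_nonpos hb (by linarith))
    exact ⟨_, h.mem hz hs, by rw [h.eig hK hz hs, neg_neg, Real.exp_log h0]⟩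

theorem Koe.fderiv_le (h : Koe H f v M) {ρ : ℝ} (h0 : 0 < ρ) (h1 : 2 * ρ ≤ 1) {x : E n}
    (hx : x ∈ ball (0 : E n) ρ) : ‖fderiv ℂ (fun z => f z - z) x‖ ≤ 8 * M * ρ := by
  have hs : ∀ y ∈ ball x ρ, ‖y‖ < 2 * ρ := fun y hy => by
    have := norm_sub_norm_le y x
    rw [mem_ball_iff_norm] at hy
    linarith [mem_ball_zero_iff.1 hx]
  have hs' : ball x ρ ⊆ ball 0 1 := fun y hy => mem_ball_zero_iff.2 ((hs y hy).trans_le h1)
  have hM := h.pos
  refine (MP_53f9be_gt.norm_fderiv_le_of_bound h0 (M := M * (2 * ρ) ^ 2)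
    ((h.hol.mono hs').sub differentiableOn_id) fun y hy => (h.near (hs' hy)).trans ?_).trans_eq ?_
  · have := (hs y hy).le
    gcongr
  · field_simp; ring

theorem Koe.fderiv_zero (h : Koe H f v M) : fderiv ℂ f 0 = ContinuousLinearMap.id ℂ (E n) := by
  have hd : DifferentiableAt ℂ f 0 := h.hol.differentiableAt (ball_mem_nhds 0 one_pos)
  have e : fderiv ℂ (fun z => f z - z) 0 = fderiv ℂ f 0 - ContinuousLinearMap.id ℂ (E n) :=
    (hd.hasFDerivAt.sub (hasFDerivAt_id 0)).fderiv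
  rw [← sub_eq_zero, ← e, ← norm_le_zero_iff]
  refine eq_of_exp (A := 4 * M) fun t ht => ?_
  have h3 : Real.exp (-t) ≤ 1 := Real.exp_le_one_iff.2 (by linarith)
  have h4 := Real.exp_pos (-t)
  have := h.fderiv_le (ρ := Real.exp (-t) / 2) (by positivity) (by linarith)
    (mem_ball_self (by positivity))
  linarith

theorem Koe.inj (h : Koe H f v M) (hK : LipschitzWith K H) : InjOn f (ball 0 1) := by
  intro z hz w hw hzw
  have hM := h.pos
  obtain ⟨ρ, r0, r1, r2⟩ : ∃ ρ : ℝ, 0 < ρ ∧ 2 * ρ ≤ 1 ∧ 8 * M * ρ ≤ 1 / 2 := by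
    refine ⟨1 / (16 * M + 2), by positivity, ?_, ?_⟩
    · rw [mul_one_div, div_le_one (by positivity)]; linarith
    · rw [mul_one_div, div_le_iff₀ (by positivity)]; linarith
  have h1 := Real.tendsto_exp_neg_atTop_nhds_zero.const_mul M
  rw [mul_zero] at h1
  obtain ⟨t, h2, ht⟩ := ((h1.eventually (gt_mem_nhds r0)).and (eventually_ge_atTop 0)).exists
  have sm : ∀ y ∈ ball (0 : E n) 1, v t y ∈ ball (0 : E n) ρ := fun y hy => by
    have a := (mem_ball_zero_iff.1 hy).le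
    exact mem_ball_zero_iff.2 (((h.dec y hy t ht).trans
      (mul_le_of_le_one_right (by positivity) a)).trans_lt h2)
  have mv := (convex_ball (0 : E n) ρ).norm_image_sub_le_of_norm_fderiv_le (𝕜 := ℂ)
    (f := fun z => f z - z) (C := 1 / 2)
    (fun x hx => (h.hol.differentiableAt (isOpen_ball.mem_nhds
      (ball_subset_ball (by linarith) hx))).sub differentiableAt_id)
    (fun x hx => (h.fderiv_le r0 r1 hx).trans r2) (sm z hz) (sm w hw)
  rw [h.eig hK hz ht, h.eig hK hw ht, hzw, sub_sub_sub_cancel_left, norm_sub_rev] at mv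
  have e : v t w = v t z := by
    rw [← sub_eq_zero, ← norm_le_zero_iff]; linarith
  have aux : ∀ y ∈ ball (0 : E n) 1, ∀ u ∈ Ioc 0 t,
      HasDerivWithinAt (fun s => v s y) (H (v u y)) (Iic u) u := fun y hy u hu =>
    ((h.der y hy u hu.1.le).hasDerivAt (Ici_mem_nhds hu.1)).hasDerivWithinAt
  have := ODE_solution_unique_of_mem_Icc_left (v := fun _ => H) (s := fun _ => univ) (K := K)
    (a := 0) (b := t) (f := fun s => v s z) (g := fun s => v s w) (fun _ _ => hK.lipschitzOnWith)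
    (fun u hu => (h.der z hz u hu.1).continuousWithinAt.mono Icc_subset_Ici_self) (aux z hz)
    (fun _ _ => trivial)
    (fun u hu => (h.der w hw u hu.1).continuousWithinAt.mono Icc_subset_Ici_self) (aux w hw)
    (fun _ _ => trivial) e.symm (left_mem_Icc.2 ht)
  simpa only [h.zero z hz, h.zero w hw] using this

/-- An approximate solution of the equation approximates the map. -/
theorem Koe.jet (h : Koe H f v M) {T : E n → ℂ} {dT : E n → E n → ℂ} {i : Fin n} {m : ℕ} {C : ℝ}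
    (hT : ∀ (γ : ℝ → E n) (γ' : E n) t, HasDerivWithinAt γ γ' (Ici 0) t →
      HasDerivWithinAt (fun s => T (γ s)) (dT (γ t) γ') (Ici 0) t)
    (h1 : ∀ z : E n, ‖z‖ < 1 → ‖T z - z i‖ ≤ C * ‖z‖ ^ 2)
    (h2 : ∀ z : E n, ‖z‖ < 1 → ‖T z + dT z (H z)‖ ≤ C * ‖z‖ ^ (m + 2)) (hC : 0 ≤ C)
    {z : E n} (hz : z ∈ ball (0 : E n) 1) :
    ‖f z i - T z‖ ≤ C * M ^ (m + 2) * ‖z‖ ^ (m + 2) := by
  have hM := h.pos
  refine eq_of_exp (A := M * ‖z‖ ^ 2 + C * M ^ 2 * ‖z‖ ^ 2) fun t ht => ?_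
  have a1 := tail (g := fun s => Real.exp s • T (v s z)) (A := C * M ^ (m + 2) * ‖z‖ ^ (m + 2))
    (fun s hs => hasDeriv_w (hT _ _ s (h.der z hz s hs))) (fun s hs => ?_) le_rfl ht
  · simp only [Real.exp_zero, one_smul, neg_zero, mul_one, h.zero z hz] at a1
    have a2 := (norm_le_pi_norm _ i).trans (h.lim z hz t ht)
    have a3 : ‖Real.exp t • (T (v t z) - v t z i)‖ ≤ C * M ^ 2 * ‖z‖ ^ 2 * Real.exp (-t) := by
      rw [norm_smul, Real.norm_of_nonneg (Real.exp_pos _).le]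
      have b1 := h1 _ (mem_ball_zero_iff.1 (h.mem hz ht))
      have b2 := h.dec z hz t ht
      calc _ ≤ Real.exp t * (C * (M * Real.exp (-t) * ‖z‖) ^ 2) := by
            gcongr; exact b1.trans (by gcongr)
        _ = _ := by rw [Real.exp_neg]; field_simp
    have e : f z i - T z = (f z - Real.exp t • v t z) i - Real.exp t • (T (v t z) - v t z i) +
        (Real.exp t • T (v t z) - T z) := by
      simp only [Pi.sub_apply, Pi.smul_apply, smul_sub]; ring
    rw [e]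
    refine (norm_add_le _ _).trans ((add_le_add_left (norm_sub_le _ _) _).trans ?_)
    linarith
  · rw [norm_smul, Real.norm_of_nonneg (Real.exp_pos _).le]
    have b1 := h2 _ (mem_ball_zero_iff.1 (h.mem hz hs))
    have b2 := h.dec z hz s hs
    have b3 : Real.exp (-s) ^ m ≤ 1 :=
      pow_le_one₀ (Real.exp_pos _).le (Real.exp_le_one_iff.2 (by linarith))
    calc _ ≤ Real.exp s * (C * (M * Real.exp (-s) * ‖z‖) ^ (m + 2)) := by
          gcongr; exact b1.trans (by gcongr)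
      _ = C * M ^ (m + 2) * ‖z‖ ^ (m + 2) * Real.exp (-s) * Real.exp (-s) ^ m := by
          rw [mul_pow, mul_pow, pow_add (Real.exp (-s)), Real.exp_neg]; field_simp
      _ ≤ _ := mul_le_of_le_one_right (by positivity) b3

end koe

end Pool.Agent.Lib.MP_c027d2_an.H35
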