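import Pool.Agent.Lib.MP_c027d2_an.H4Main

/-!
For `p = m = 2` the objects of the all-order statement are those of the second order statement.
-/

open MeasureTheory Metric Set

namespace Pool.Agent.Lib.MP_c027d2_an.H4

variable {n : ℕ}

theorem reachOrd_two (A : Op n) (T : ℝ) : ReachOrd 2 A T = Reach A T := by
  ext f
  constructor
  · rintro ⟨h, v, h1, -, h2⟩
    exact ⟨h, v, h1, h2⟩
  · rintro ⟨h, v, h1, h2⟩
    exact ⟨h, v, h1, fun _ _ j a b => absurd b (by omega), h2⟩

theorem sigmaOrd_two (A : Op n) (x y : CE n) : sigmaOrd 2 A x y = sigma A x y := by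
  rw [sigmaOrd, sigma]
  congr 1
  refine image_congr fun s hs => ?_
  have hP := den_pos hs.1 hs.2
  have hD : 0 ≤ ‖x‖ ^ 2 - s ^ 2 * ‖ip x y‖ ^ 2 := le_trans (by positivity) (num_ge x y s)
  rw [costOrd, cost, stretch, Real.sq_sqrt (by positivity)]
  simp only [Nat.sub_self, pow_zero, one_mul]
  ring

theorem ordBound_two (A : Op n) (T : ℝ) (z w : CE n) : ordBound 2 A T z w = secondBound A T z w := by
  simp only [ordBound, secondBound, sigmaOrd_two]

end Pool.Agent.Lib.MP_c027d2_an.H4
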