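import Pool.Agent.Lib.MP_c027d2_an.Cara
import Pool.Agent.Lib.MP_53f9be_gt.Holo

/-!
Taylor coefficients of functions of one complex variable and of slices.
-/

open MeasureTheory Metric Set Filter Topology Asymptotics

namespace Pool.Agent.Lib.MP_c027d2_an.H4

variable {n : ℕ}

section general

variable {E : Type*} [NormedAddCommGroup E] [NormedSpace ℂ E] [CompleteSpace E]

/-- The Taylor coefficient at the origin. -/
noncomputable def co (j : ℕ) (g : ℂ → E) : E := ((j.factorial : ℂ)⁻¹) • iteratedDeriv j g 0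

theorem co_le {g : ℂ → E} {R B : ℝ} (hR : 0 < R) (hd : DifferentiableOn ℂ g (ball 0 R))
    (hB : ∀ ζ ∈ ball (0 : ℂ) R, ‖g ζ‖ ≤ B) (j : ℕ) : ‖co j g‖ ≤ B / (R / 2) ^ j := by
  have h := Complex.norm_iteratedDeriv_le_of_forall_mem_sphere_norm_le j (half_pos hR) (C := B)
    (hd.diffContOnCl_ball (closedBall_subset_ball (half_lt_self hR))) fun ζ hζ =>
      hB ζ (closedBall_subset_ball (half_lt_self hR) (sphere_subset_closedBall hζ))
  have h0 : (0 : ℝ) < j.factorial := by exact_mod_cast j.factorial_pos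
  rw [co, norm_smul, norm_inv, Complex.norm_natCast, inv_mul_le_iff₀ h0, ← mul_div_assoc]
  exact h

theorem tay {g : ℂ → E} {R B : ℝ} (hR : 0 < R) (hd : DifferentiableOn ℂ g (ball 0 R))
    (hB : ∀ ζ ∈ ball (0 : ℂ) R, ‖g ζ‖ ≤ B) (M : ℕ) {ζ : ℂ} (hζ : ‖ζ‖ ≤ R / 4) :
    ‖g ζ - ∑ j ∈ Finset.range M, ζ ^ j • co j g‖ ≤ 2 * B * (2 / R) ^ M * ‖ζ‖ ^ M := by
  have hB0 : 0 ≤ B := (norm_nonneg _).trans (hB 0 (mem_ball_self hR))
  have h1 : HasSum (fun j : ℕ => ζ ^ j • co j g) (g ζ) := by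
    have := Complex.hasSum_taylorSeries_on_ball hd
      (mem_ball_zero_iff.2 (show ‖ζ‖ < R by linarith))
    simpa only [co, sub_zero, smul_comm (ζ ^ _)] using this
  have h2 := (hasSum_nat_add_iff' M).2 h1
  have h3 := hasSum_geometric_two.mul_left (B * (2 / R) ^ M * ‖ζ‖ ^ M)
  refine (h2.norm_le_of_bounded h3 fun i => ?_).trans_eq (by ring)
  have h4 : 2 / R * ‖ζ‖ ≤ 1 / 2 := by
    rw [div_mul_eq_mul_div, div_le_iff₀ hR]; linarith
  rw [norm_smul, norm_pow]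
  calc _ ≤ ‖ζ‖ ^ (i + M) * (B / (R / 2) ^ (i + M)) := by gcongr; exact co_le hR hd hB _
    _ = B * (2 / R) ^ M * ‖ζ‖ ^ M * (2 / R * ‖ζ‖) ^ i := by
      rw [mul_pow, pow_add, pow_add, div_pow, div_pow, div_pow, div_pow]; field_simp
    _ ≤ _ := by gcongr

end general

theorem poly_zero : ∀ (m : ℕ) (a : ℕ → ℂ),
    (fun ζ : ℂ => ∑ j ∈ Finset.range (m + 1), a j * ζ ^ j) =O[𝓝[≠] 0] (fun ζ => ζ ^ (m + 1)) →
      a m = 0 := by
  have h0 : ∀ (m : ℕ) (a : ℕ → ℂ),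
      (fun ζ : ℂ => ∑ j ∈ Finset.range (m + 1), a j * ζ ^ j) =O[𝓝[≠] 0] (fun ζ => ζ ^ (m + 1)) →
        a 0 = 0 := by
    intro m a h
    have c1 : Continuous fun ζ : ℂ => ζ ^ (m + 1) := by fun_prop
    have c2 : Continuous fun ζ : ℂ => ∑ j ∈ Finset.range (m + 1), a j * ζ ^ j := by fun_prop
    have t1 := h.trans_tendsto (by
      simpa using (c1.tendsto 0).mono_left (nhdsWithin_le_nhds (s := {0}ᶜ)))
    have t2 := (c2.tendsto 0).mono_left (nhdsWithin_le_nhds (s := {0}ᶜ))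
    have := tendsto_nhds_unique t2 t1
    simpa [Finset.sum_range_succ'] using this
  intro m
  induction m with
  | zero => exact h0 0
  | succ m ih =>
    intro a h
    refine ih (fun j => a (j + 1)) (((isBigO_refl (fun ζ : ℂ => ζ⁻¹) _).mul h).congr' ?_ ?_)
    · filter_upwards [self_mem_nhdsWithin] with ζ hζ
      have hζ' : ζ ≠ 0 := hζ
      rw [Finset.sum_range_succ', h0 _ a h, zero_mul, add_zero, Finset.mul_sum]
      refine Finset.sum_congr rfl fun j _ => ?_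
      field_simp
      ring
    · filter_upwards [self_mem_nhdsWithin] with ζ hζ
      have hζ' : ζ ≠ 0 := hζ
      field_simp
      ring

/-- `g` has an expansion to order `m` with top coefficient `c`. -/
def Co (m : ℕ) (g : ℂ → ℂ) (c : ℂ) : Prop :=
  ∃ a : ℕ → ℂ, a m = c ∧
    (fun ζ : ℂ => g ζ - ∑ j ∈ Finset.range (m + 1), a j * ζ ^ j) =O[𝓝[≠] 0] fun ζ => ζ ^ (m + 1)

theorem Co.uniq {m : ℕ} {g : ℂ → ℂ} {c c' : ℂ} (h : Co m g c) (h' : Co m g c') : c = c' := by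
  obtain ⟨a, rfl, h⟩ := h
  obtain ⟨a', rfl, h'⟩ := h'
  refine sub_eq_zero.1 (poly_zero m (fun j => a j - a' j) ((h'.sub h).congr_left fun ζ => ?_))
  simp only [sub_mul, Finset.sum_sub_distrib]
  ring

theorem Co.add {m : ℕ} {g g' : ℂ → ℂ} {c c' : ℂ} (h : Co m g c) (h' : Co m g' c') :
    Co m (fun ζ => g ζ + g' ζ) (c + c') := by
  obtain ⟨a, rfl, h⟩ := h
  obtain ⟨a', rfl, h'⟩ := h'
  refine ⟨fun j => a j + a' j, rfl, (h.add h').congr_left fun ζ => ?_⟩
  simp only [add_mul, Finset.sum_add_distrib]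
  ring

theorem Co.congr {m : ℕ} {g g' : ℂ → ℂ} {c : ℂ} (h : Co m g c) (e : g =ᶠ[𝓝[≠] 0] g') :
    Co m g' c := by
  obtain ⟨a, rfl, h⟩ := h
  exact ⟨a, rfl, h.congr' (e.mono fun ζ hζ => by simp only [hζ]) EventuallyEq.rfl⟩

theorem co_small {m : ℕ} {g : ℂ → ℂ} (h : g =O[𝓝[≠] 0] fun ζ => ζ ^ (m + 1)) : Co m g 0 :=
  ⟨fun _ => 0, rfl, by simpa using h⟩

theorem co_mono {m i : ℕ} (hi : i ≤ m) (c : ℂ) :
    Co m (fun ζ => c * ζ ^ i) (if m = i then c else 0) := by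
  refine ⟨fun j => if j = i then c else 0, rfl, (isBigO_zero _ _).congr_left fun ζ => ?_⟩
  simp [hi]

theorem co_holo (m : ℕ) {g : ℂ → ℂ} {R : ℝ} (hR : 0 < R) (hd : DifferentiableOn ℂ g (ball 0 R)) :
    Co m g (co m g) := by
  obtain ⟨B, hB⟩ := (isCompact_closedBall (0 : ℂ) (R / 2)).exists_bound_of_continuousOn
    (hd.continuousOn.mono (closedBall_subset_ball (half_lt_self hR)))
  refine ⟨fun j => co j g, rfl, IsBigO.of_bound (2 * B * (2 / (R / 2)) ^ (m + 1)) ?_⟩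
  filter_upwards [mem_nhdsWithin_of_mem_nhds (closedBall_mem_nhds (0 : ℂ)
    (show 0 < R / 2 / 4 by positivity))] with ζ hζ
  have := tay (half_pos hR) (hd.mono (ball_subset_ball (half_le_self hR.le)))
    (fun ξ hξ => hB ξ (ball_subset_closedBall hξ)) (m + 1) (mem_closedBall_zero_iff.1 hζ)
  simpa only [smul_eq_mul, mul_comm (ζ ^ _), norm_pow] using this

theorem co_pos (m : ℕ) {W : ℂ → ℂ} (hd : DifferentiableOn ℂ W (closedBall 0 1))
    (h : ∀ ζ : ℂ, ‖ζ‖ = 1 → 0 ≤ ((ζ ^ m)⁻¹ * W ζ).re) : 0 ≤ (co m W).re := by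
  have hdc : DiffContOnCl ℂ W (ball 0 1) := hd.diffContOnCl_ball Subset.rfl
  have key := DiffContOnCl.circleIntegral_one_div_sub_center_pow_smul one_pos m hdc
  have hn : ∀ θ : ℝ, ‖circleMap 0 1 θ‖ = 1 := fun θ => by simp
  have hn0 : ∀ θ : ℝ, circleMap 0 1 θ ≠ 0 := fun θ h0 => by simpa [h0] using hn θ
  have e : (∮ z in C(0, 1), (1 / (z - 0) ^ (m + 1)) • W z) = Complex.I *
      ∫ θ in (0 : ℝ)..2 * Real.pi, (circleMap 0 1 θ ^ m)⁻¹ * W (circleMap 0 1 θ) := by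
    rw [circleIntegral, ← intervalIntegral.integral_const_mul]
    refine intervalIntegral.integral_congr fun θ _ => ?_
    have := hn0 θ
    simp only [deriv_circleMap, sub_zero, smul_eq_mul]
    field_simp
    ring
  have hc : Continuous fun θ : ℝ => (circleMap 0 1 θ ^ m)⁻¹ * W (circleMap 0 1 θ) := by
    refine Continuous.mul (Continuous.inv₀ (by fun_prop) fun θ => pow_ne_zero _ (hn0 θ)) ?_
    exact hd.continuousOn.comp_continuous (by fun_prop)
      fun θ => mem_closedBall_zero_iff.2 (hn θ).le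
  have e2 : (∫ θ in (0 : ℝ)..2 * Real.pi, (circleMap 0 1 θ ^ m)⁻¹ * W (circleMap 0 1 θ)) =
      ((2 * Real.pi : ℝ) : ℂ) * co m W := by
    refine mul_left_cancel₀ Complex.I_ne_zero ?_
    rw [← e, key, co, smul_eq_mul, smul_eq_mul]
    push_cast
    ring
  have e3 := Complex.reCLM.intervalIntegral_comp_comm 
    (hc.intervalIntegrable (μ := volume) 0 (2 * Real.pi))
  rw [e2, Complex.reCLM_apply, Complex.re_ofReal_mul] at e3
  have h4 : 0 ≤ ∫ θ in (0 : ℝ)..2 * Real.pi,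
      Complex.reCLM ((circleMap 0 1 θ ^ m)⁻¹ * W (circleMap 0 1 θ)) :=
    intervalIntegral.integral_nonneg (by positivity) fun θ _ => h _ (hn θ)
  rw [e3] at h4
  exact (mul_nonneg_iff_of_pos_left (by positivity)).1 h4

theorem contDiffOn_ball (m : ℕ) {R : ℝ} : ∀ f : CE n → CE n, DifferentiableOn ℂ f (ball 0 R) →
    ContDiffOn ℂ m f (ball 0 R) := by
  induction m with
  | zero => exact fun f hf => contDiffOn_zero.2 hf.continuousOn
  | succ k ih =>
    intro f hf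
    rw [Nat.cast_succ]
    refine contDiffOn_succ_of_fderiv_apply hf (by simp) fun y => ?_
    exact (ih _ (MP_53f9be_gt.differentiableOn_fderiv_apply isOpen_ball hf y)).congr fun x hx => by
      rw [fderivWithin_of_isOpen isOpen_ball hx]

theorem taylor_co (m : ℕ) {f : CE n → CE n} {R : ℝ} (hR : 0 < R)
    (hf : DifferentiableOn ℂ f (ball 0 R)) (u : CE n) :
    taylorTerm m f u = co m fun ζ : ℂ => f (ζ • u) := by
  have h2 := contDiffOn_ball m f hf
  let L := ContinuousLinearMap.toSpanSingleton ℂ u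
  have h0 : L 0 ∈ ball (0 : CE n) R := by simpa using hR
  have ho : IsOpen (L ⁻¹' ball 0 R) := isOpen_ball.preimage L.continuous
  have h3 := L.iteratedFDerivWithin_comp_right h2 isOpen_ball.uniqueDiffOn ho.uniqueDiffOn h0
    (i := m) le_rfl
  rw [iteratedFDerivWithin_of_isOpen _ ho h0, iteratedFDerivWithin_of_isOpen _ isOpen_ball h0,
    map_zero] at h3
  have h4 : (fun ζ : ℂ => f (ζ • u)) = f ∘ L := by
    ext1 ζ
    simp [L]
  rw [h4, co, iteratedDeriv_eq_iteratedFDeriv, h3, taylorTerm]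
  simp [L]

theorem slice_mem {u : CE n} {R X : ℝ} (hX : 0 < X) (hu : ‖u‖ ≤ X) {ζ : ℂ}
    (hζ : ζ ∈ ball (0 : ℂ) (R / X)) : ζ • u ∈ ball (0 : CE n) R := by
  rw [mem_ball_zero_iff] at *
  rw [lt_div_iff₀ hX] at hζ
  rw [norm_smul]
  exact lt_of_le_of_lt (by gcongr) hζ

theorem slice_diff {f : CE n → CE n} {R X : ℝ} (hf : DifferentiableOn ℂ f (ball 0 R)) {u : CE n}
    (hX : 0 < X) (hu : ‖u‖ ≤ X) :
    DifferentiableOn ℂ (fun ζ : ℂ => f (ζ • u)) (ball 0 (R / X)) :=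
  hf.comp (by fun_prop) fun _ hζ => slice_mem hX hu hζ

theorem taylor_ip (m : ℕ) {f : CE n → CE n} {R : ℝ} (hR : 0 < R)
    (hf : DifferentiableOn ℂ f (ball 0 R)) (u w : CE n) :
    ip (taylorTerm m f u) w = co m fun ζ : ℂ => ip (f (ζ • u)) w := by
  have hX : 0 < ‖u‖ + 1 := by positivity
  have h1 := (slice_diff hf hX (le_add_of_nonneg_right zero_le_one)).contDiffOn (n := m) isOpen_ball
  have h2 := (ipL w).iteratedFDeriv_comp_left
    (h1.contDiffAt (ball_mem_nhds _ (div_pos hR hX))) (i := m) le_rfl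
  have h4 : (fun ζ : ℂ => ip (f (ζ • u)) w) = ipL w ∘ fun ζ : ℂ => f (ζ • u) := by
    ext1 ζ
    simp [ipL_apply]
  rw [taylor_co m hR hf, h4, co, co, iteratedDeriv_eq_iteratedFDeriv,
    iteratedDeriv_eq_iteratedFDeriv, h2, ip_smul_left]
  simp [ipL_apply]

theorem co_slice (m : ℕ) {f : CE n → CE n} {R : ℝ} (hR : 0 < R)
    (hf : DifferentiableOn ℂ f (ball 0 R)) (u w : CE n) :
    Co m (fun ζ : ℂ => ip (f (ζ • u)) w) (ip (taylorTerm m f u) w) := by
  have hX : 0 < ‖u‖ + 1 := by positivity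
  rw [taylor_ip m hR hf]
  exact co_holo m (div_pos hR hX)
    (diffOn_ip (slice_diff hf hX (le_add_of_nonneg_right zero_le_one)) w)

theorem taylor_smul (m : ℕ) (f : CE n → CE n) (c : ℂ) (u : CE n) :
    taylorTerm m f (c • u) = c ^ m • taylorTerm m f u := by
  rw [taylorTerm, taylorTerm, (iteratedFDeriv ℂ m f 0).map_smul_univ (fun _ => c) fun _ => u,
    smul_comm]
  simp

end Pool.Agent.Lib.MP_c027d2_an.H4
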