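import Pool.Agent.Lib.MP_c027d2_an.Defs

/-!
Definitions for the part of the reachable family whose generators vanish to a given order.
-/

open MeasureTheory Metric Set

namespace Pool.Agent.Lib.MP_c027d2_an

/-- The maps of `R_T(A)` generated by a field with `h(z,t) = A z + O(|z|^p)`, that is, whose
homogeneous terms of degree `2, ..., p - 1` vanish.  For `p = 2` there is no condition. -/
def ReachOrd {n : ℕ} (p : ℕ) (A : Op n) (T : ℝ) : Set (CE n → CE n) :=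
  {f | ∃ h v : CE n → ℝ → CE n,
    (∀ t ∈ Icc (0 : ℝ) T, InN A (fun z => h z t)) ∧
    (∀ t ∈ Icc (0 : ℝ) T, ∀ j : ℕ, 2 ≤ j → j < p → ∀ z, taylorTerm j (fun y => h y t) z = 0) ∧
    (∀ z ∈ ball (0 : CE n) 1, AEMeasurable (h z) (volume.restrict (Icc (0 : ℝ) T))) ∧
    (∀ z ∈ ball (0 : CE n) 1,
      (∃ K, LipschitzOnWith K (v z) (Icc (0 : ℝ) T)) ∧ v z 0 = z ∧
      (∀ t ∈ Icc (0 : ℝ) T, v z t ∈ ball (0 : CE n) 1) ∧
      ∀ᵐ t ∂(volume.restrict (Icc (0 : ℝ) T)), HasDerivAt (v z) (-h (v z t) t) t) ∧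
    ∀ z ∈ ball (0 : CE n) 1, f z = expm T A (v z T)}

/-- The square root of `(|x|^2 - s^2 |<x,y>|^2) / (1 - s^2 |y|^2)`. -/
noncomputable def stretch {n : ℕ} (x y : CE n) (s : ℝ) : ℝ :=
  Real.sqrt ((‖x‖ ^ 2 - s ^ 2 * ‖ip x y‖ ^ 2) / (1 - s ^ 2 * ‖y‖ ^ 2))

/-- The explicit function of one real variable `s` whose infimum is `sigmaOrd m A x y`. -/
noncomputable def costOrd {n : ℕ} (m : ℕ) (A : Op n) (x y : CE n) (s : ℝ) : ℝ :=
  stretch x y s ^ (m - 2) * (ip (A x) x).re / s + s * stretch x y s ^ m * (ip (A y) y).re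

/-- The infimum of `costOrd m A x y s` over `s > 0` with `s * ‖y‖ < 1`. -/
noncomputable def sigmaOrd {n : ℕ} (m : ℕ) (A : Op n) (x y : CE n) : ℝ :=
  sInf (costOrd m A x y '' {s : ℝ | 0 < s ∧ s * ‖y‖ < 1})

/-- The integral over `[0, T]` of `sigmaOrd m A (e^{-tA} z) (e^{tA*} w)`. -/
noncomputable def ordBound {n : ℕ} (m : ℕ) (A : Op n) (T : ℝ) (z w : CE n) : ℝ :=
  ∫ t in (0 : ℝ)..T, sigmaOrd m A (expm (-t) A z) (expm t (adj A) w)

end Pool.Agent.Lib.MP_c027d2_an
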