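import Pool.Agent.Lib.MP_c027d2_an.Select
import Pool.Agent.Lib.MP_c027d2_an.H4Defs
import Pool.Agent.Lib.MP_c027d2_an.H4Co

/-!
The upper bound for homogeneous terms of every degree, from proper rational discs in the ball.
-/

open MeasureTheory Metric Set Filter Topology Asymptotics

namespace Pool.Agent.Lib.MP_c027d2_an.H4

variable {n : ℕ}

theorem pow_O {i k : ℕ} (h : k ≤ i) :
    (fun ζ : ℂ => ζ ^ i) =O[𝓝[≠] 0] fun ζ : ℂ => ζ ^ k := by
  refine IsBigO.of_bound 1 ?_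
  filter_upwards [mem_nhdsWithin_of_mem_nhds (closedBall_mem_nhds (0 : ℂ) one_pos)] with ζ hζ
  rw [norm_pow, norm_pow, one_mul]
  exact pow_le_pow_of_le_one (norm_nonneg _) (mem_closedBall_zero_iff.1 hζ) h

theorem disc_boundM (j : ℕ) {A : CE n →L[ℂ] CE n} {h : CE n → CE n} (hh : InN A h) {x d : CE n}
    (hd1 : ‖d‖ < 1) (hrel : ‖x‖ ^ 2 + ‖d‖ ^ 2 = 1 + ‖ip d x‖ ^ 2) :
    -(ip (taylorTerm (j + 2) h x) d).re ≤ (ip (A x) x).re + (ip (A d) d).re := by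
  obtain ⟨C, hC, hCq⟩ := quadC A
  obtain ⟨hquad, hlip, -⟩ := hCq h hh
  set β := ip d x with hβ
  set q := taylorTerm (j + 2) h x with hq
  have hβ1 : ‖β‖ ≤ ‖d‖ * ‖x‖ := norm_ip_le d x
  have hx1 : ‖x‖ ≤ 1 := by
    by_contra hc
    push Not at hc
    have h1 : ‖β‖ ^ 2 ≤ (‖d‖ * ‖x‖) ^ 2 := by gcongr
    have h2 : ‖d‖ ^ 2 < 1 := by nlinarith [norm_nonneg d]
    have h3 : 1 < ‖x‖ ^ 2 := by nlinarith
    nlinarith
  have hβ2 : ‖β‖ ≤ ‖d‖ := by nlinarith [norm_nonneg d, norm_nonneg x]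
  have hξ : ∀ ζ : ℂ, ‖ζ‖ ≤ 1 → ‖ζ ^ (j + 1)‖ ≤ ‖ζ‖ := fun ζ hζ => by
    rw [norm_pow]; exact pow_le_of_le_one (norm_nonneg _) hζ (by omega)
  have hden : ∀ ζ : ℂ, ‖ζ‖ ≤ 1 → 1 + β * ζ ^ (j + 1) ≠ 0 := by
    intro ζ hζ h0
    have h1 : β * ζ ^ (j + 1) = -1 := by linear_combination h0
    have h2 : ‖β * ζ ^ (j + 1)‖ = 1 := by rw [h1]; simp
    rw [norm_mul] at h2
    nlinarith [norm_nonneg β, norm_nonneg (ζ ^ (j + 1)), hξ ζ hζ]
  let ψ : ℂ → CE n := fun ζ => (ζ / (1 + β * ζ ^ (j + 1))) • (x + ζ ^ (j + 1) • d)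
  have hψ : ∀ ζ : ℂ, ‖ζ‖ ≤ 1 → ‖ψ ζ‖ ≤ ‖ζ‖ := by
    intro ζ hζ
    have h0 : 0 < ‖1 + β * ζ ^ (j + 1)‖ := norm_pos_iff.2 (hden ζ hζ)
    have h6 := (hξ ζ hζ).trans hζ
    simp only [ψ]
    generalize ζ ^ (j + 1) = ξ at h0 h6
    rw [norm_smul, norm_div, div_mul_eq_mul_div, div_le_iff₀ h0]
    refine mul_le_mul_of_nonneg_left ((sq_le_sq₀ (by positivity) (by positivity)).1 ?_)
      (norm_nonneg _)
    have h4 : 0 ≤ 1 - ‖ξ‖ ^ 2 := by nlinarith [norm_nonneg ξ]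
    have h5 : 0 ≤ 1 - ‖x‖ ^ 2 := by nlinarith [norm_nonneg x]
    have h7 : ‖d‖ ^ 2 = 1 + ‖β‖ ^ 2 - ‖x‖ ^ 2 := by linarith
    rw [norm_sq_one_add, norm_sq_add_smul, norm_mul, mul_pow, ← hβ, h7]
    nlinarith [mul_nonneg h4 h5]
  have main : ∀ r : ℝ, 0 < r → r < 1 →
      -(r ^ (j + 1) * (ip q d).re) ≤ (ip (A x) x).re + (ip (A d) d).re := by
    intro r hr0 hr1
    have hw' : ∀ ζ : ℂ, ‖ζ‖ ≤ 1 → ‖(r : ℂ) • ψ ζ‖ ≤ r * ‖ζ‖ := by
      intro ζ hζ
      rw [norm_smul, Complex.norm_real, Real.norm_eq_abs, abs_of_pos hr0]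
      gcongr
      exact hψ ζ hζ
    have hw : ∀ ζ : ℂ, ‖ζ‖ ≤ 1 → ‖(r : ℂ) • ψ ζ‖ < 1 := fun ζ hζ => by nlinarith [hw' ζ hζ]
    let H : ℂ → CE n := fun ζ => h ((r : ℂ) • ψ ζ)
    have hH : DifferentiableOn ℂ H (closedBall 0 1) := by
      have hψd : DifferentiableOn ℂ (fun ζ => (r : ℂ) • ψ ζ) (closedBall 0 1) := by
        have a1 : DifferentiableOn ℂ (fun ζ : ℂ => ζ / (1 + β * ζ ^ (j + 1))) (closedBall 0 1) :=
          differentiableOn_id.div (by fun_prop)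
            fun ζ hζ => hden ζ (mem_closedBall_zero_iff.1 hζ)
        have a2 : DifferentiableOn ℂ (fun ζ : ℂ => x + ζ ^ (j + 1) • d) (closedBall 0 1) := by
          fun_prop
        exact (a1.smul a2).const_smul (r : ℂ)
      exact hh.1.comp hψd fun ζ hζ => mem_ball_zero_iff.2 (hw ζ (mem_closedBall_zero_iff.1 hζ))
    let W : ℂ → ℂ := fun ζ => (1 + β * ζ ^ (j + 1)) * (ζ ^ (j + 1) * ip (H ζ) x + ip (H ζ) d)
    have hW : DifferentiableOn ℂ W (closedBall 0 1) :=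
      DifferentiableOn.mul (by fun_prop)
        ((DifferentiableOn.mul (by fun_prop) (diffOn_ip hH x)).add (diffOn_ip hH d))
    have hpos := co_pos (j + 2) hW fun ζ hζ => by
      have hζ0 : ζ ≠ 0 := by rintro rfl; simp at hζ
      have hc : (starRingEnd ℂ) ζ = ζ⁻¹ := by
        rw [Complex.inv_def, Complex.normSq_eq_norm_sq, hζ]; simp
      have hd0 := hden ζ hζ.le
      have hd0' : (starRingEnd ℂ) (1 + β * ζ ^ (j + 1)) ≠ 0 := (map_ne_zero _).2 hd0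
      have h1 := hh.re_nonneg (hw ζ hζ.le)
      have h3 : (ζ ^ (j + 2))⁻¹ * W ζ =
          ((‖1 + β * ζ ^ (j + 1)‖ ^ 2 / r : ℝ) : ℂ) * ip (H ζ) ((r : ℂ) • ψ ζ) := by
        have hr' : (r : ℂ) ≠ 0 := by exact_mod_cast hr0.ne'
        rw [Complex.ofReal_div, ← Complex.normSq_eq_norm_sq, Complex.normSq_eq_conj_mul_self]
        simp only [W]
        generalize H ζ = g
        simp only [ψ, ip_smul_right, ip_add_right, map_div₀, Complex.conj_ofReal, map_pow, hc,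
          inv_pow]
        field_simp
        ring
      rw [h3, Complex.re_ofReal_mul]
      positivity
    let N : CE n → CE n := fun y => h y - A y
    have hsm : ∀ᶠ ζ : ℂ in 𝓝[≠] 0, ‖ζ‖ ≤ 1 / 8 := by
      filter_upwards [mem_nhdsWithin_of_mem_nhds (closedBall_mem_nhds (0 : ℂ)
        (show (0 : ℝ) < 1 / 8 by norm_num))] with ζ hζ using mem_closedBall_zero_iff.1 hζ
    have o1 : (fun ζ => N ((r : ℂ) • ψ ζ)) =O[𝓝[≠] 0] fun ζ : ℂ => ζ ^ 2 := by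
      refine IsBigO.of_bound C (hsm.mono fun ζ hζ => ?_)
      have h1 : ‖(r : ℂ) • ψ ζ‖ ≤ ‖ζ‖ := by nlinarith [hw' ζ (by linarith), norm_nonneg ζ]
      refine (hquad _ (by linarith)).trans ?_
      rw [norm_pow]
      gcongr
    have o2 : (fun ζ => N ((r : ℂ) • ψ ζ) - N (ζ • (r : ℂ) • x)) =O[𝓝[≠] 0]
        fun ζ : ℂ => ζ ^ (j + 2 + 1) := by
      refine IsBigO.of_bound (32 * C) ?_
      filter_upwards [hsm, self_mem_nhdsWithin] with ζ hζ hζ0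
      have hζ0' : 0 < ‖ζ‖ := norm_pos_iff.2 hζ0
      have hd0 := hden ζ (by linarith)
      have hden2 : 1 / 2 ≤ ‖1 + β * ζ ^ (j + 1)‖ := by
        have := norm_sub_le (1 + β * ζ ^ (j + 1)) (β * ζ ^ (j + 1))
        rw [add_sub_cancel_right, norm_one, norm_mul] at this
        nlinarith [norm_nonneg β, hξ ζ (by linarith), norm_nonneg (ζ ^ (j + 1))]
      have e : (r : ℂ) • ψ ζ - ζ • (r : ℂ) • x =
          ((r : ℂ) * ζ ^ (j + 2) / (1 + β * ζ ^ (j + 1))) • (d - β • x) := by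
        simp only [ψ]
        match_scalars <;> field_simp <;> ring
      have h6 : ‖(r : ℂ) • ψ ζ - ζ • (r : ℂ) • x‖ ≤ 4 * ‖ζ‖ ^ (j + 2) := by
        rw [e, norm_smul, norm_div, norm_mul, norm_pow, Complex.norm_real, Real.norm_eq_abs,
          abs_of_pos hr0]
        have h7 : ‖d - β • x‖ ≤ 2 := by
          refine (norm_sub_le _ _).trans ?_
          rw [norm_smul]
          nlinarith [norm_nonneg β, norm_nonneg x]
        have h8 : r * ‖ζ‖ ^ (j + 2) / ‖1 + β * ζ ^ (j + 1)‖ ≤ 2 * ‖ζ‖ ^ (j + 2) := by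
          rw [div_le_iff₀ (by linarith)]
          nlinarith [pow_pos hζ0' (j + 2)]
        calc _ ≤ 2 * ‖ζ‖ ^ (j + 2) * 2 := by gcongr
          _ = _ := by ring
      have h9 : ‖ζ • (r : ℂ) • x‖ ≤ ‖ζ‖ := by
        rw [norm_smul, norm_smul, Complex.norm_real, Real.norm_eq_abs, abs_of_pos hr0]
        have : r * ‖x‖ ≤ 1 := by nlinarith [norm_nonneg x]
        nlinarith
      have h10 : ‖(r : ℂ) • ψ ζ‖ ≤ ‖ζ‖ := by nlinarith [hw' ζ (by linarith)]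
      refine (hlip ‖ζ‖ _ _ hζ0' hζ h10 h9).trans ?_
      rw [norm_pow]
      calc _ ≤ 8 * C * ‖ζ‖ * (4 * ‖ζ‖ ^ (j + 2)) := by gcongr
        _ = _ := by ring
    have o3 : ∀ y : CE n, (fun ζ => ζ ^ (j + 1) * ip (N ((r : ℂ) • ψ ζ)) y) =O[𝓝[≠] 0]
        fun ζ : ℂ => ζ ^ (j + 2 + 1) := fun y =>
      ((isBigO_refl (fun ζ : ℂ => ζ ^ (j + 1)) _).mul
        (((ipL y).isBigO_comp _ _).trans o1)).congr (fun ζ => by rw [ipL_apply]) fun ζ => by ring
    have o4 : (fun ζ : ℂ => 1 + β * ζ ^ (j + 1)) =O[𝓝[≠] 0] fun _ => (1 : ℂ) := by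
      have : Continuous fun ζ : ℂ => 1 + β * ζ ^ (j + 1) := by fun_prop
      exact ((this.tendsto 0).mono_left nhdsWithin_le_nhds).isBigO_one ℂ
    have o5 := ((((pow_O (i := 2 * j + 3) (k := j + 2 + 1) (by omega)).const_mul_left
      (r * ip (A d) x)).add ((o4.mul (o3 x)).congr_right fun ζ => one_mul _)).add
        ((o3 d).const_mul_left β)).add (((ipL d).isBigO_comp _ _).trans o2)
    have c1 := ((co_mono (le_refl (j + 2)) (r * (ip (A x) x + ip (A d) d))).add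
      (co_slice (j + 2) one_pos hh.1 ((r : ℂ) • x) d)).add (co_small o5)
    have c2 := co_holo (j + 2) one_pos (hW.mono ball_subset_closedBall)
    have c3 := c2.uniq (c1.congr (hsm.mono fun ζ hζ => by
      have hd0 := hden ζ (by linarith)
      simp only [W, H, N, ipL_apply, ip_sub_left]
      generalize h ((r : ℂ) • ψ ζ) = g
      simp only [ψ, map_smul, map_add A, ip_smul_left, ip_add_left]
      field_simp
      ring))
    rw [c3, if_pos rfl, taylor_smul, ← hq, ip_smul_left, add_zero, ← Complex.ofReal_pow,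
      Complex.add_re, Complex.re_ofReal_mul, Complex.re_ofReal_mul, Complex.add_re, pow_succ'] at hpos
    by_contra hc
    push Not at hc
    nlinarith
  have h1 : Tendsto (fun r : ℝ => -(r ^ (j + 1) * (ip q d).re)) (𝓝[<] 1)
      (𝓝 (-(1 ^ (j + 1) * (ip q d).re))) := by
    have : Continuous fun r : ℝ => -(r ^ (j + 1) * (ip q d).re) := by fun_prop
    exact (this.tendsto 1).mono_left nhdsWithin_le_nhds
  rw [one_pow, one_mul] at h1
  refine le_of_tendsto h1 ?_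
  filter_upwards [Ioo_mem_nhdsLT (show (0 : ℝ) < 1 by norm_num)] with r hr
  exact main r hr.1 hr.2

theorem stretch_nonneg (x y : CE n) (s : ℝ) : 0 ≤ stretch x y s := Real.sqrt_nonneg _

theorem stretch_spec {x y : CE n} (hx : x ≠ 0) {s : ℝ} (hs : 0 < s) (hsy : s * ‖y‖ < 1) :
    0 < stretch x y s ∧ stretch x y s ^ 2 * (1 - s ^ 2 * ‖y‖ ^ 2) =
      ‖x‖ ^ 2 - s ^ 2 * ‖ip x y‖ ^ 2 := by
  have hP := den_pos hs hsy
  have hx0 : 0 < ‖x‖ := norm_pos_iff.2 hx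
  have hD : 0 < ‖x‖ ^ 2 - s ^ 2 * ‖ip x y‖ ^ 2 := lt_of_lt_of_le (by positivity) (num_ge x y s)
  refine ⟨Real.sqrt_pos.2 (by positivity), ?_⟩
  rw [stretch, Real.sq_sqrt (by positivity), div_mul_cancel₀ _ hP.ne']

theorem rel_of_stretch {x y : CE n} (hx : x ≠ 0) {s : ℝ} (hs : 0 < s) (hsy : s * ‖y‖ < 1) :
    ‖(((stretch x y s)⁻¹ : ℝ) : ℂ) • x‖ ^ 2 + ‖(s : ℂ) • y‖ ^ 2 =
      1 + ‖ip ((s : ℂ) • y) ((((stretch x y s)⁻¹ : ℝ) : ℂ) • x)‖ ^ 2 := by
  obtain ⟨h1, h2⟩ := stretch_spec hx hs hsy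
  rw [ip_smul_left, ip_smul_right, Complex.conj_ofReal, norm_mul, norm_mul, norm_ip_comm y x]
  simp only [norm_smul, Complex.norm_real, Real.norm_eq_abs, mul_pow, sq_abs]
  field_simp
  linarith

theorem costOrd_nonneg (m : ℕ) {A : CE n →L[ℂ] CE n}
    (hA : ∀ z : CE n, z ≠ 0 → 0 < (ip (A z) z).re) (x y : CE n) {s : ℝ} (hs : 0 < s) :
    0 ≤ costOrd m A x y s := by
  have := stretch_nonneg x y s
  have := form_nonneg hA x
  have := form_nonneg hA y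
  unfold costOrd
  positivity

theorem sigmaOrd_le_cost (m : ℕ) {A : CE n →L[ℂ] CE n}
    (hA : ∀ z : CE n, z ≠ 0 → 0 < (ip (A z) z).re) (x y : CE n) {s : ℝ} (hs : 0 < s)
    (hsy : s * ‖y‖ < 1) : sigmaOrd m A x y ≤ costOrd m A x y s :=
  csInf_le ⟨0, by rintro _ ⟨t, ht, rfl⟩; exact costOrd_nonneg m hA x y ht.1⟩ ⟨s, ⟨hs, hsy⟩, rfl⟩

theorem neg_re_le_costM (j : ℕ) {A : CE n →L[ℂ] CE n}
    (hA : ∀ z : CE n, z ≠ 0 → 0 < (ip (A z) z).re) {h : CE n → CE n} (hh : InN A h)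
    (x y : CE n) {s : ℝ} (hs : 0 < s) (hsy : s * ‖y‖ < 1) :
    -(ip (taylorTerm (j + 2) h x) y).re ≤ costOrd (j + 2) A x y s := by
  rcases eq_or_ne x 0 with rfl | hx
  · have h1 := taylor_smul (j + 2) h 0 0
    rw [zero_smul, zero_pow (by omega), zero_smul] at h1
    rw [h1, ip_zero_left, Complex.zero_re, neg_zero]
    exact costOrd_nonneg _ hA _ _ hs
  have hρ := (stretch_spec hx hs hsy).1
  have key := disc_boundM j hh (d := (s : ℂ) • y) (by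
    rwa [norm_smul, Complex.norm_real, Real.norm_eq_abs, abs_of_pos hs]) (rel_of_stretch hx hs hsy)
  rw [re_form_smul, re_form_smul, taylor_smul, ip_smul_left, ip_smul_right, Complex.conj_ofReal,
    ← Complex.ofReal_pow, Complex.re_ofReal_mul, Complex.re_ofReal_mul] at key
  rw [costOrd, Nat.add_sub_cancel]
  generalize stretch x y s = ρ at hρ key
  have h2 := mul_le_mul_of_nonneg_left key (show 0 ≤ ρ ^ (j + 2) / s by positivity)
  refine le_of_eq_of_le ?_ (h2.trans_eq ?_)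
  · rw [inv_pow]; field_simp
  · field_simp; ring

theorem norm_le_sigmaM (j : ℕ) {A : CE n →L[ℂ] CE n}
    (hA : ∀ z : CE n, z ≠ 0 → 0 < (ip (A z) z).re) {h : CE n → CE n} (hh : InN A h)
    (x y : CE n) : ‖ip (taylorTerm (j + 2) h x) y‖ ≤ sigmaOrd (j + 2) A x y := by
  refine le_csInf ((adm_nonempty y).image _) ?_
  rintro _ ⟨s, hs, rfl⟩
  set a := ip (taylorTerm (j + 2) h x) y with ha
  obtain ⟨c, hc1, hc⟩ : ∃ c : ℂ, ‖c‖ = 1 ∧ -((starRingEnd ℂ) c * a).re = ‖a‖ := by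
    obtain ⟨c, h1, h2⟩ := Complex.exists_norm_mul_eq_self a
    refine ⟨-c, by simpa using h1, ?_⟩
    have h3 : (starRingEnd ℂ) c * c = 1 := by
      rw [← Complex.normSq_eq_conj_mul_self, Complex.normSq_eq_norm_sq, h1]; simp
    have h4 : (starRingEnd ℂ) c * a = (‖a‖ : ℝ) := by
      linear_combination (‖a‖ : ℂ) * h3 - (starRingEnd ℂ) c * h2
    rw [map_neg, neg_mul, Complex.neg_re, neg_neg, h4, Complex.ofReal_re]
  have h1 : ‖c • y‖ = ‖y‖ := by rw [norm_smul, hc1, one_mul]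
  have h2 : ‖ip x (c • y)‖ = ‖ip x y‖ := by
    rw [ip_smul_right, norm_mul, Complex.norm_conj, hc1, one_mul]
  have h3 : ip (A (c • y)) (c • y) = ip (A y) y := by
    rw [map_smul, ip_smul_left, ip_smul_right, ← mul_assoc, Complex.mul_conj,
      Complex.normSq_eq_norm_sq, hc1]
    simp
  have key := neg_re_le_costM j hA hh x (c • y) hs.1 (by rw [h1]; exact hs.2)
  rw [ip_smul_right, ← ha, hc] at key
  simpa only [costOrd, stretch, h1, h2, h3] using key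

end Pool.Agent.Lib.MP_c027d2_an.H4
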