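import Pool.Agent.Lib.MP_c027d2_an.H4Disc

/-!
The extremal fields for homogeneous terms of every degree.
-/

open MeasureTheory Metric Set Filter Topology Asymptotics

namespace Pool.Agent.Lib.MP_c027d2_an.H4

variable {n : ℕ}

/-- The scalar factor of the extremal field. -/
noncomputable def gE (j : ℕ) (A : CE n →L[ℂ] CE n) (x d l z : CE n) : ℂ :=
  ip (herm A z) x / ((ip (A x) x).re + ip z l ^ (j + 1) * ip (herm A d) x)

/-- The extremal field. -/
noncomputable def hE (j : ℕ) (A : CE n →L[ℂ] CE n) (x d l e z : CE n) : CE n :=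
  A z - (2 * ip z l ^ (j + 1) * gE j A x d l z) • herm A d - (ip z l ^ j * gE j A x d l z ^ 2) • e

theorem inN_hE (j : ℕ) {A : CE n →L[ℂ] CE n} (hA : ∀ z : CE n, z ≠ 0 → 0 < (ip (A z) z).re)
    {x d l e : CE n} (hx : x ≠ 0)
    (hc : ∀ z : CE n, ‖z‖ < 1 →
      (ip (A d) d).re * (‖ip z l‖ ^ (j + 1)) ^ 2 + ‖ip z l‖ ^ j * ‖ip z e‖ < (ip (A x) x).re) :
    InN A (hE j A x d l e) := by
  have ha := hA x hx
  have hb := form_nonneg hA d
  set a := (ip (A x) x).re with hadef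
  set b := (ip (A d) d).re with hbdef
  have hden : ∀ z : CE n, ‖z‖ < 1 → (a : ℂ) + ip z l ^ (j + 1) * ip (herm A d) x ≠ 0 := by
    intro z hz h0
    have h1 : ip z l ^ (j + 1) * ip (herm A d) x = -a := by linear_combination h0
    have h2 : (‖ip z l‖ ^ (j + 1)) ^ 2 * ‖ip (herm A d) x‖ ^ 2 = a ^ 2 := by
      rw [← mul_pow, ← norm_pow, ← norm_mul, h1, norm_neg, Complex.norm_real, Real.norm_eq_abs,
        sq_abs]
    have h3 := form_cs hA d hx
    have h4 := hc z hz
    have h7 : 0 ≤ ‖ip z l‖ ^ j * ‖ip z e‖ := by positivity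
    have h5 : b * (‖ip z l‖ ^ (j + 1)) ^ 2 < a := by linarith
    have h6 : (‖ip z l‖ ^ (j + 1)) ^ 2 * ‖ip (herm A d) x‖ ^ 2 ≤
        (‖ip z l‖ ^ (j + 1)) ^ 2 * (b * a) := by gcongr
    nlinarith
  have hl : Differentiable ℂ (fun z : CE n => ip z l) := by
    simp only [← ipL_apply]; exact (ipL l).differentiable
  have hG : DifferentiableOn ℂ (gE j A x d l) (ball 0 1) := by
    have a1 : DifferentiableOn ℂ
        (fun z : CE n => ((a : ℂ) + ip z l ^ (j + 1) * ip (herm A d) x)⁻¹) (ball 0 1) :=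
      (((hl.differentiableOn.pow _).mul_const _).const_add _).inv
        fun z hz => hden z (mem_ball_zero_iff.1 hz)
    exact ((diffOn_ip (herm A).differentiable.differentiableOn x).mul a1).congr
      fun z _ => div_eq_mul_inv _ _
  have hG0 : gE j A x d l 0 = 0 := by simp [gE, ip_zero_left]
  have hd : DifferentiableOn ℂ (hE j A x d l e) (ball 0 1) := by
    refine (A.differentiable.differentiableOn.sub ?_).sub ?_
    · exact (((hl.differentiableOn.pow _).const_mul 2).mul hG).smul_const _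
    · exact ((hl.differentiableOn.pow _).mul (hG.pow 2)).smul_const _
  refine ⟨hd, by simp [hE, hG0], ?_, ?_⟩
  · have g1 := ((hG 0 (mem_ball_self one_pos)).differentiableAt
      (ball_mem_nhds _ one_pos)).hasFDerivAt
    have g2 := ((hl.pow (j + 1)) 0).hasFDerivAt
    have g2' := ((hl.pow j) 0).hasFDerivAt
    have g3 := ((g2.const_mul 2).mul g1).smul_const (herm A d)
    have g4 := (g2'.mul (g1.mul g1)).smul_const e
    have g5 := (A.hasFDerivAt.sub g3).sub g4
    refine HasFDerivAt.fderiv ((g5.congr_fderiv ?_).congr_of_eventuallyEq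
      (Eventually.of_forall fun z => ?_))
    · ext1 v
      simp [hG0, ip_zero_left]
    · simp [hE, pow_two]
  · intro z hz hz0
    rw [mem_ball_zero_iff] at hz
    have h8 := hc z hz
    set G := gE j A x d l z with hGdef
    rw [← norm_pow (ip z l), ← norm_pow (ip z l)] at h8
    set lam := ip z l ^ (j + 1) with hlam
    set mu := ip z l ^ j with hmu
    have h1 : (ip (hE j A x d l e z) z).re = (ip (A z) z).re -
        2 * (lam * G * ip (herm A d) z).re - (mu * G ^ 2 * ip e z).re := by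
      simp only [hE, ip_sub_left, ip_smul_left, Complex.sub_re, ← hGdef, ← hlam, ← hmu]
      have e1 : 2 * lam * G * ip (herm A d) z = ((2 : ℝ) : ℂ) * (lam * G * ip (herm A d) z) := by
        push_cast; ring
      rw [e1, Complex.re_ofReal_mul]
    have h2 := re_form_sub A z d (lam * G)
    have h3 := form_cs hA (z - (lam * G) • d) hx
    have h4 : ip (herm A (z - (lam * G) • d)) x = a * G := by
      have : G * ((a : ℂ) + lam * ip (herm A d) x) = ip (herm A z) x := by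
        rw [hGdef, gE, ← hadef, ← hlam, div_mul_cancel₀ _ (hden z hz)]
      simp only [map_sub, map_smul, ip_sub_left, ip_smul_left]
      linear_combination -this
    rw [h4, norm_mul, Complex.norm_real, Real.norm_eq_abs, abs_of_pos ha, ← hadef] at h3
    have h5 : a * ‖G‖ ^ 2 ≤ (ip (A (z - (lam * G) • d)) (z - (lam * G) • d)).re := by
      by_contra hcon
      push Not at hcon
      nlinarith
    have h6 : (mu * G ^ 2 * ip e z).re ≤ ‖G‖ ^ 2 * (‖mu‖ * ‖ip z e‖) := by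
      refine (Complex.re_le_norm _).trans_eq ?_
      rw [norm_mul, norm_mul, norm_pow G, norm_ip_comm e z]
      ring
    rcases eq_or_ne G 0 with hG' | hG'
    · rw [h1, hG']
      simpa using hA z hz0
    · have h7 : 0 < ‖G‖ ^ 2 := by positivity
      rw [norm_mul, mul_pow, ← hbdef] at h2
      rw [h1]
      nlinarith [mul_pos h7 (sub_pos.2 h8)]

theorem co_hE (j : ℕ) {A : CE n →L[ℂ] CE n} {x : CE n} (ha : 0 < (ip (A x) x).re)
    (d l e u w : CE n) {i : ℕ} (h2 : 2 ≤ i) (hi : i ≤ j + 2) :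
    Co i (fun ζ : ℂ => ip (hE j A x d l e (ζ • u)) w) (if i = j + 2 then
      -(2 * ip u l ^ (j + 1) * (ip (herm A u) x / (ip (A x) x).re) * ip (herm A d) w) -
        ip u l ^ j * (ip (herm A u) x / (ip (A x) x).re) ^ 2 * ip e w else 0) := by
  let G : ℂ → ℂ := fun ζ =>
    ip (herm A u) x / ((ip (A x) x).re + (ζ * ip u l) ^ (j + 1) * ip (herm A d) x)
  let Θ : ℂ → ℂ := fun ζ => -(2 * ip u l ^ (j + 1) * G ζ * ip (herm A d) w) -
    ip u l ^ j * G ζ ^ 2 * ip e w
  have hG : DifferentiableAt ℂ G 0 := by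
    refine DifferentiableAt.div (by fun_prop) (by fun_prop) ?_
    simpa using ha.ne'
  have hΘ : DifferentiableAt ℂ Θ 0 := by fun_prop
  have hG0 : G 0 = ip (herm A u) x / (ip (A x) x).re := by simp [G]
  have e1 : ∀ ζ : ℂ, ip (A u) w * ζ ^ 1 + ζ ^ (j + 2) * Θ ζ = ip (hE j A x d l e (ζ • u)) w := by
    intro ζ
    have h3 : gE j A x d l (ζ • u) = ζ * G ζ := by
      simp only [gE, G, map_smul, ip_smul_left]; ring
    simp only [hE, h3, Θ, map_smul, ip_sub_left, ip_smul_left]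
    ring
  have c1 := co_mono (show 1 ≤ i by omega) (ip (A u) w)
  rw [if_neg (by omega)] at c1
  rcases hi.lt_or_eq with hi | rfl
  · have o1 := (pow_O (i := j + 2) (k := i + 1) hi).mul
      ((hΘ.continuousAt.tendsto.mono_left (nhdsWithin_le_nhds (s := {0}ᶜ))).isBigO_one ℂ)
    have := (c1.add (co_small (o1.congr_right fun ζ => mul_one _))).congr
      (Eventually.of_forall e1)
    rwa [if_neg hi.ne, ← add_zero (0 : ℂ)]
  · have o1 := (isBigO_refl (fun ζ : ℂ => ζ ^ (j + 2)) (𝓝[≠] 0)).mul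
      (hΘ.isBigO_sub.mono nhdsWithin_le_nhds)
    have c2 := (co_mono (le_refl (j + 2)) (Θ 0)).add
      (co_small (o1.congr_right fun ζ => by rw [sub_zero, ← pow_succ]))
    have := (c1.add c2).congr (Eventually.of_forall fun ζ => Eq.trans (by ring) (e1 ζ))
    rw [if_pos rfl, zero_add, add_zero] at this
    rw [if_pos rfl, ← hG0]
    exact this

theorem low_hE (j : ℕ) {A : CE n →L[ℂ] CE n} {x d l e : CE n} (ha : 0 < (ip (A x) x).re)
    (hN : InN A (hE j A x d l e)) {i : ℕ} (h2 : 2 ≤ i) (hi : i < j + 2) (u : CE n) :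
    taylorTerm i (hE j A x d l e) u = 0 := by
  have h := (co_slice i one_pos hN.1 u (taylorTerm i (hE j A x d l e) u)).uniq
    (co_hE j ha d l e u _ h2 hi.le)
  rw [if_neg hi.ne, ip_self] at h
  simpa using h

theorem top_hE (j : ℕ) {A : CE n →L[ℂ] CE n} {x d l e : CE n} (ha : 0 < (ip (A x) x).re)
    (hN : InN A (hE j A x d l e)) (hl : ip x l = 1) :
    -(ip (taylorTerm (j + 2) (hE j A x d l e) x) d).re = 2 * (ip (A d) d).re + (ip e d).re := by
  have h := (co_slice (j + 2) one_pos hN.1 x d).uniq (co_hE j ha d l e x d (by omega) le_rfl)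
  have ha' : (((ip (A x) x).re : ℝ) : ℂ) ≠ 0 := by exact_mod_cast ha.ne'
  rw [h, if_pos rfl, hl, ip_herm_self, ip_herm_self, div_self ha']
  simp [add_comm]

theorem frame' {x d : CE n} (hd1 : ‖d‖ < 1) (hrel : ‖x‖ ^ 2 + ‖d‖ ^ 2 = 1 + ‖ip d x‖ ^ 2)
    {k : ℝ} (hk : k = (1 - ‖x‖ ^ 2) / (1 - ‖d‖ ^ 2)) :
    0 ≤ k ∧ ∀ z : CE n, ‖ip z (lVec x d)‖ ^ 2 ≤ (1 + k) * ‖z‖ ^ 2 ∧
      k * ‖ip z (lVec x d)‖ ^ 2 + ‖ip z (eVec x d)‖ ^ 2 ≤ k * (1 + k) * ‖z‖ ^ 2 := by
  have hP : 0 < 1 - ‖d‖ ^ 2 := by nlinarith [norm_nonneg d]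
  have hP' : (1 : ℂ) - (‖d‖ : ℂ) ^ 2 ≠ 0 := by exact_mod_cast hP.ne'
  have hx1 : 0 ≤ 1 - ‖x‖ ^ 2 := by
    by_contra hc
    push Not at hc
    have h1 : ‖ip d x‖ ^ 2 ≤ (‖d‖ * ‖x‖) ^ 2 := by gcongr; exact norm_ip_le d x
    nlinarith
  have hb : ip d x * ip x d = (‖x‖ : ℂ) ^ 2 + (‖d‖ : ℂ) ^ 2 - 1 := by
    rw [← ip_conj d x, Complex.mul_conj, Complex.normSq_eq_norm_sq]
    have : ‖ip d x‖ ^ 2 = ‖x‖ ^ 2 + ‖d‖ ^ 2 - 1 := by linarith
    rw [this]; push_cast; ring
  have hk0 : 0 ≤ k := by rw [hk]; positivity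
  have h3 : ‖lVec x d‖ ^ 2 = 1 + k := by
    have : ((‖lVec x d‖ ^ 2 : ℝ) : ℂ) = ((1 + k : ℝ) : ℂ) := by
      rw [← ip_self]
      simp only [lVec, ip_smul_right, ip_sub_right, ip_smul_left, ip_sub_left, ip_conj,
        Complex.conj_ofReal, hk]
      simp only [ip_self]
      push_cast; field_simp
      linear_combination ((‖d‖ : ℂ) ^ 2 - 2) * hb
    exact_mod_cast this
  have h4 : ‖eVec x d‖ ^ 2 = k * (1 + k) := by
    have : ((‖eVec x d‖ ^ 2 : ℝ) : ℂ) = ((k * (1 + k) : ℝ) : ℂ) := by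
      rw [← ip_self]
      simp only [eVec, ip_smul_right, ip_sub_right, ip_smul_left, ip_sub_left, ip_conj,
        Complex.conj_ofReal, hk]
      simp only [ip_self]
      push_cast; field_simp
      linear_combination ((‖x‖ : ℂ) ^ 2 - 2) * hb
    exact_mod_cast this
  have h5 : ip (lVec x d) (eVec x d) = 0 := by
    simp only [lVec, eVec, ip_smul_right, ip_sub_right, ip_smul_left, ip_sub_left, ip_self, ip_conj,
      Complex.conj_ofReal]
    push_cast; field_simp
    linear_combination (ip x d) * hb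
  refine ⟨hk0, fun z => ⟨?_, ?_⟩⟩
  · have : ‖ip z (lVec x d)‖ ^ 2 ≤ (‖z‖ * ‖lVec x d‖) ^ 2 := by gcongr; exact norm_ip_le _ _
    rwa [mul_pow, h3, mul_comm] at this
  rcases hk0.eq_or_lt with hk1 | hk1
  · have he : eVec x d = 0 := by
      rw [← hk1] at h4
      simpa using h4
    rw [he, ip_zero_right, ← hk1]
    simp
  · have hl : lVec x d ≠ 0 := by
      intro h0; rw [h0, norm_zero] at h3; nlinarith
    have he : eVec x d ≠ 0 := by
      intro h0; rw [h0, norm_zero] at h4; nlinarith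
    have h6 := mul_le_mul_of_nonneg_left (bessel2 (z := z) h5 hl he)
      (show 0 ≤ k * (1 + k) by positivity)
    rw [h3, h4] at h6
    refine le_of_eq_of_le ?_ h6
    field_simp

theorem bern (j : ℕ) {v : ℝ} (hv : 0 ≤ v) : (j + 1) * v ^ j - j * v ^ (j + 1) ≤ 1 := by
  induction j with
  | zero => simp
  | succ i ih =>
    have : 0 ≤ ((i : ℝ) + 1) * (v ^ i * (1 - v) ^ 2) := by positivity
    push_cast
    have e : ((i : ℝ) + 1 + 1) * v ^ (i + 1) - (i + 1) * v ^ (i + 1 + 1) =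
        ((i + 1) * v ^ i - i * v ^ (i + 1)) - (i + 1) * (v ^ i * (1 - v) ^ 2) := by ring
    linarith

theorem ellipse (j : ℕ) {k c L E N : ℝ} (hk : 0 ≤ k) (hc0 : 0 < c) (hc : c * (1 - j * k) = j + 1)
    (hN : N < 1) (h1 : L ^ 2 ≤ (1 + k) * N)
    (h2 : k * L ^ 2 + E ^ 2 ≤ k * (1 + k) * N) :
    (L ^ (j + 1)) ^ 2 + L ^ j * (2 * c * E) < 1 + 2 * c * k := by
  have hj : (0 : ℝ) ≤ j := j.cast_nonneg
  have hw : (L ^ j) ^ 2 = (L ^ 2) ^ j := by ring
  have hv : 0 ≤ L ^ 2 := by positivity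
  have h3 : 2 * (L ^ j * E) ≤ k + (L ^ 2) ^ j * ((1 + k) * N - L ^ 2) := by
    rcases hk.eq_or_lt with rfl | hk1
    · have : E = 0 := by nlinarith
      rw [this]
      have : 0 ≤ (L ^ 2) ^ j * ((1 + 0) * N - L ^ 2) := mul_nonneg (by positivity) (by linarith)
      linarith
    · refine le_of_mul_le_mul_left ?_ hk1
      have h4 : (L ^ 2) ^ j * E ^ 2 ≤ (L ^ 2) ^ j * (k * ((1 + k) * N - L ^ 2)) :=
        mul_le_mul_of_nonneg_left (by linarith) (by positivity)
      rw [← hw] at h4 ⊢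
      nlinarith [sq_nonneg (L ^ j * E - k)]
  have e1 : (L ^ (j + 1)) ^ 2 = (L ^ 2) ^ j * L ^ 2 := by ring
  rw [e1]
  have hb := bern j hv
  rw [pow_succ (L ^ 2) j] at hb
  have hw0 : 0 ≤ (L ^ 2) ^ j := by positivity
  have hc1 : 0 ≤ c - 1 := by nlinarith [mul_nonneg hc0.le (mul_nonneg hj hk)]
  have h5 : (L ^ 2) ^ j * (c * (1 + k) - (c - 1) * L ^ 2) ≤ 1 + c * k := by
    rcases Nat.eq_zero_or_pos j with rfl | hj0
    · simp only [Nat.cast_zero, zero_mul, sub_zero, mul_one, zero_add] at hc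
      simp [hc]
    · have hj1 : (0 : ℝ) < j := by exact_mod_cast hj0
      refine le_of_mul_le_mul_left ?_ hj1
      have hr : c * (1 + k) * j = (j + 1) * (c - 1) := by linarith
      have h6 := mul_le_mul_of_nonneg_left hb hc1
      generalize (L ^ 2) ^ j = w at *
      have e2 : j * (w * (c * (1 + k) - (c - 1) * L ^ 2)) =
          (c - 1) * ((j + 1) * w - j * (w * L ^ 2)) := by linear_combination w * hr
      have e3 : j * (1 + c * k) = (c - 1) * 1 := by linear_combination hr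
      rw [e2, e3]
      exact h6
  have h7 := mul_le_mul_of_nonneg_left h3 hc0.le
  generalize (L ^ 2) ^ j = w at *
  rcases hw0.eq_or_lt with rfl | hw1
  · nlinarith [mul_nonneg hc0.le hk]
  · have : 0 < w * (c * (1 + k)) * (1 - N) := mul_pos (by positivity) (by linarith)
    nlinarith

end Pool.Agent.Lib.MP_c027d2_an.H4
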