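import Pool.Agent.Lib.MP_c027d2_an.H4Ext

/-!
Measurable choice of the extremal fields.
-/

open MeasureTheory Metric Set Filter Topology Asymptotics

namespace Pool.Agent.Lib.MP_c027d2_an.H4

variable {n : ℕ}

theorem exists_root {Γ : ℝ → ℝ → ℝ} (hc : Continuous fun p : ℝ × ℝ => Γ p.1 p.2)
    (h0 : ∀ t, Γ t 0 < 0) (h1 : ∀ t, 0 ≤ Γ t 1) :
    ∃ u : ℝ → ℝ, Measurable u ∧ ∀ t, 0 < u t ∧ u t ≤ 1 ∧ Γ t (u t) = 0 := by
  let u : ℝ → ℝ := fun t => sInf {v : ℝ | v ∈ Icc (0 : ℝ) 1 ∧ 0 ≤ Γ t v}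
  have hct : ∀ t, Continuous (Γ t) := fun t => hc.comp (f := fun v : ℝ => (t, v)) (by fun_prop)
  have hm : ∀ t, u t ∈ Icc (0 : ℝ) 1 ∧ 0 ≤ Γ t (u t) := fun t =>
    IsClosed.csInf_mem (s := {v : ℝ | v ∈ Icc (0 : ℝ) 1 ∧ 0 ≤ Γ t v})
      (isClosed_Icc.inter (isClosed_le continuous_const (hct t))) ⟨1, ⟨zero_le_one, le_rfl⟩, h1 t⟩
      ⟨0, fun v hv => hv.1.1⟩
  have hle : ∀ t v, v ∈ Icc (0 : ℝ) 1 → 0 ≤ Γ t v → u t ≤ v := fun t v hv hv' =>
    csInf_le ⟨0, fun v hv => hv.1.1⟩ ⟨hv, hv'⟩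
  refine ⟨u, measurable_of_Iic fun a => IsClosed.measurableSet ?_, fun t => ?_⟩
  · have : u ⁻¹' Iic a = Prod.fst ''
        {p : ℝ × Icc (0 : ℝ) 1 | (p.2 : ℝ) ≤ a ∧ 0 ≤ Γ p.1 p.2} := by
      ext t
      constructor
      · intro ht
        exact ⟨(t, ⟨_, (hm t).1⟩), ⟨ht, (hm t).2⟩, rfl⟩
      · rintro ⟨⟨t', v⟩, ⟨h1, h2⟩, rfl⟩
        exact (hle t' v v.2 h2).trans h1
    rw [this]
    have c1 : Continuous fun p : ℝ × Icc (0 : ℝ) 1 => Γ p.1 p.2 :=
      hc.comp (f := fun p : ℝ × Icc (0 : ℝ) 1 => (p.1, (p.2 : ℝ))) (by fun_prop)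
    have c2 : Continuous fun p : ℝ × Icc (0 : ℝ) 1 => (p.2 : ℝ) := by fun_prop
    exact isClosedMap_fst_of_compactSpace _ (IsClosed.inter (isClosed_le c2 continuous_const)
      (isClosed_le continuous_const c1))
  · obtain ⟨h2, h3⟩ := hm t
    have h4 : 0 < u t := lt_of_le_of_ne h2.1 fun h => by
      rw [← h] at h3
      exact absurd (h0 t) (not_lt.2 h3)
    refine ⟨h4, h2.2, le_antisymm ?_ h3⟩
    refine le_of_tendsto (((hct t).tendsto _).mono_left (nhdsWithin_le_nhds (s := Iio (u t)))) ?_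
    filter_upwards [Ioo_mem_nhdsLT h4] with v hv
    by_contra hcon
    push Not at hcon
    exact absurd hv.2 (not_lt.2 (hle t v ⟨hv.1.le, hv.2.le.trans h2.2⟩ hcon.le))

/-- The stationarity polynomial. -/
noncomputable def gapM (j : ℕ) (A : CE n →L[ℂ] CE n) (x y : CE n) (u : ℝ) : ℝ :=
  u ^ 2 * (ip (A y) y).re * (‖x‖ ^ 2 * ‖y‖ ^ 2 - u ^ 2 * ‖ip x y‖ ^ 2) *
      ((‖x‖ ^ 2 * ‖y‖ ^ 2 - u ^ 2 * ‖ip x y‖ ^ 2) * (1 - u ^ 2) +
        (j + 2) * (u ^ 2 * (‖x‖ ^ 2 * ‖y‖ ^ 2 - ‖ip x y‖ ^ 2))) -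
    (ip (A x) x).re * (1 - u ^ 2) * ‖y‖ ^ 4 *
      ((‖x‖ ^ 2 * ‖y‖ ^ 2 - u ^ 2 * ‖ip x y‖ ^ 2) * (1 - u ^ 2) -
        j * (u ^ 2 * (‖x‖ ^ 2 * ‖y‖ ^ 2 - ‖ip x y‖ ^ 2)))

/-- The scaled first vector. -/
noncomputable def xM (x y : CE n) (u : ℝ) : CE n :=
  (((if u < 1 then stretch x y (u / ‖y‖) else ‖x‖)⁻¹ : ℝ) : ℂ) • x

/-- The first frame vector. -/
noncomputable def lM (x y : CE n) (u : ℝ) : CE n :=
  if u < 1 then lVec (xM x y u) (dF y u) else xM x y u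

/-- The second frame vector. -/
noncomputable def eM (j : ℕ) (A : CE n →L[ℂ] CE n) (x y : CE n) (u : ℝ) : CE n :=
  if u < 1 then ((2 * ((j + 1) / (1 - j * ((1 - ‖xM x y u‖ ^ 2) / (1 - ‖dF y u‖ ^ 2)))) *
    (ip (A (dF y u)) (dF y u)).re : ℝ) : ℂ) • eVec (xM x y u) (dF y u) else 0

theorem scale_val (m : ℕ) (h : CE n → CE n) (x y : CE n) (τ s : ℝ) :
    -(ip (taylorTerm m h ((τ : ℂ) • x)) ((s : ℂ) • y)).re =
      τ ^ m * s * -(ip (taylorTerm m h x) y).re := by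
  rw [taylor_smul, ip_smul_left, ip_smul_right, Complex.conj_ofReal, ← Complex.ofReal_pow,
    Complex.re_ofReal_mul, Complex.re_ofReal_mul]
  ring

theorem selM_spec (j : ℕ) {A : CE n →L[ℂ] CE n} (hA : ∀ z : CE n, z ≠ 0 → 0 < (ip (A z) z).re)
    {x y : CE n} (hx : x ≠ 0) (hy : y ≠ 0) {u : ℝ} (hu0 : 0 < u) (hu1 : u ≤ 1)
    (hg : gapM j A x y u = 0) :
    xM x y u ≠ 0 ∧ InN A (hE j A (xM x y u) (dF y u) (lM x y u) (eM j A x y u)) ∧
    sigmaOrd (j + 2) A x y ≤ -(ip (taylorTerm (j + 2)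
      (hE j A (xM x y u) (dF y u) (lM x y u) (eM j A x y u)) x) y).re := by
  have hx0 : 0 < ‖x‖ := norm_pos_iff.2 hx
  have hy0 : 0 < ‖y‖ := norm_pos_iff.2 hy
  have ha := hA x hx
  have hb := hA y hy
  have hs : 0 < u / ‖y‖ := by positivity
  have hj : (0 : ℝ) ≤ j := j.cast_nonneg
  have hd : ‖dF y u‖ = u := by
    rw [dF, norm_smul, Complex.norm_real, Real.norm_eq_abs, abs_of_pos hs]; field_simp
  rcases hu1.lt_or_eq with hu | hu
  · set s := u / ‖y‖ with hsdef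
    have hsy : s * ‖y‖ = u := by rw [hsdef]; field_simp
    have hP := den_pos hs (hsy.trans_lt hu)
    obtain ⟨hρ, hρ2⟩ := stretch_spec hx hs (hsy.trans_lt hu)
    have hrel := rel_of_stretch hx hs (hsy.trans_lt hu)
    have hP2 : 1 - s ^ 2 * ‖y‖ ^ 2 = 1 - u ^ 2 := by rw [← hsy]; ring
    rw [hP2] at hP hρ2
    have ex : xM x y u = (((stretch x y s)⁻¹ : ℝ) : ℂ) • x := by rw [xM, if_pos hu]
    have ed : dF y u = (s : ℂ) • y := rfl
    have hcost : costOrd (j + 2) A x y s = stretch x y s ^ j * (ip (A x) x).re / s +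
        s * stretch x y s ^ (j + 2) * (ip (A y) y).re := by rw [costOrd, Nat.add_sub_cancel]
    set ρ := stretch x y s with hρdef
    have hxn : ‖xM x y u‖ ^ 2 = ρ⁻¹ ^ 2 * ‖x‖ ^ 2 := by
      rw [ex, norm_smul, Complex.norm_real, Real.norm_eq_abs, mul_pow, sq_abs]
    have hx' : xM x y u ≠ 0 := by
      intro h0
      rw [h0, norm_zero] at hxn
      have : 0 < ρ⁻¹ ^ 2 * ‖x‖ ^ 2 := by positivity
      linarith
    rw [← ex, ← ed] at hrel
    obtain ⟨f1, f2, -⟩ := frame (hd.trans_lt hu) hrel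
    obtain ⟨hk0, f3⟩ := frame' (hd.trans_lt hu) hrel rfl
    have ea : (ip (A (xM x y u)) (xM x y u)).re = ρ⁻¹ ^ 2 * (ip (A x) x).re := by
      rw [ex, re_form_smul]
    have eb : (ip (A (dF y u)) (dF y u)).re = s ^ 2 * (ip (A y) y).re := by
      rw [ed, re_form_smul]
    simp only [lM, eM, if_pos hu]
    set k := (1 - ‖xM x y u‖ ^ 2) / (1 - ‖dF y u‖ ^ 2) with hk
    have hstat : ρ⁻¹ ^ 2 * (ip (A x) x).re * (1 - j * k) =
        s ^ 2 * (ip (A y) y).re * (1 + (j + 2) * k) := by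
      have h1 : ‖x‖ ^ 2 * ‖y‖ ^ 2 - u ^ 2 * ‖ip x y‖ ^ 2 = ‖y‖ ^ 2 * (ρ ^ 2 * (1 - u ^ 2)) := by
        rw [hρ2, ← hsy]; ring
      have h2 : u ^ 2 * (‖x‖ ^ 2 * ‖y‖ ^ 2 - ‖ip x y‖ ^ 2) =
          ‖y‖ ^ 2 * (k * ρ ^ 2 * (1 - u ^ 2) ^ 2) := by
        have h3 : k * ρ ^ 2 * (1 - u ^ 2) = ρ ^ 2 - ‖x‖ ^ 2 := by
          rw [hk, hxn, hd]; field_simp
        linear_combination h1 - ‖y‖ ^ 2 * (1 - u ^ 2) * h3
      rw [gapM, h1, h2] at hg
      have h4 : ‖y‖ ^ 6 * ρ ^ 4 * (1 - u ^ 2) ^ 3 * (s ^ 2 * (ip (A y) y).re * (1 + (j + 2) * k) -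
          ρ⁻¹ ^ 2 * (ip (A x) x).re * (1 - j * k)) = 0 := by
        rw [← hg]
        have h5 : u ^ 2 * (ip (A y) y).re = s ^ 2 * ‖y‖ ^ 2 * (ip (A y) y).re := by
          rw [← hsy]; ring
        rw [h5]
        field_simp
      have h6 := (mul_eq_zero.1 h4).resolve_left (by positivity)
      linarith
    have hjk : 0 < 1 - j * k := by
      have h1 : 0 < s ^ 2 * (ip (A y) y).re * (1 + (j + 2) * k) := by positivity
      rw [← hstat] at h1
      exact (mul_pos_iff_of_pos_left (by positivity)).1 h1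
    set c := (j + 1) / (1 - j * k) with hc
    have hc0 : 0 < c := by positivity
    have hc1 : c * (1 - j * k) = j + 1 := by rw [hc]; field_simp
    have hab : ρ⁻¹ ^ 2 * (ip (A x) x).re = s ^ 2 * (ip (A y) y).re * (1 + 2 * c * k) := by
      refine mul_right_cancel₀ hjk.ne' ?_
      linear_combination hstat - s ^ 2 * (ip (A y) y).re * 2 * k * hc1
    have hN : InN A (hE j A (xM x y u) (dF y u) (lVec (xM x y u) (dF y u))
        (((2 * c * (ip (A (dF y u)) (dF y u)).re : ℝ) : ℂ) • eVec (xM x y u) (dF y u))) := by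
      refine inN_hE j hA hx' fun z hz => ?_
      have h1 := ellipse j hk0 hc0 hc1 (show ‖z‖ ^ 2 < 1 by nlinarith [norm_nonneg z])
        (f3 z).1 (f3 z).2
      have h2 := mul_lt_mul_of_pos_left h1 (show 0 < s ^ 2 * (ip (A y) y).re by positivity)
      rw [ea, eb, hab, ip_smul_right, norm_mul, Complex.norm_conj, Complex.norm_real,
        Real.norm_eq_abs, abs_of_pos (by positivity)]
      linarith
    refine ⟨hx', hN, (sigmaOrd_le_cost _ hA x y hs (hsy.trans_lt hu)).trans_eq ?_⟩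
    have h1 := top_hE j (hA _ hx') hN f1
    rw [ip_smul_left, f2, ← Complex.ofReal_mul, Complex.ofReal_re] at h1
    generalize hE j A (xM x y u) (dF y u) (lVec (xM x y u) (dF y u)) _ = H at h1
    rw [eb, ex, ed, scale_val] at h1
    refine mul_left_cancel₀ (show ρ⁻¹ ^ (j + 2) * s ≠ 0 by positivity) ?_
    rw [h1, hcost]
    have e : ρ⁻¹ ^ (j + 2) * s * (ρ ^ j * (ip (A x) x).re / s + s * ρ ^ (j + 2) * (ip (A y) y).re) =
        ρ⁻¹ ^ 2 * (ip (A x) x).re + s ^ 2 * (ip (A y) y).re := by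
      rw [inv_pow, inv_pow]; field_simp; ring
    rw [e, hab]
    ring
  · subst hu
    have h1 : ‖ip x y‖ ^ 2 = (‖x‖ * ‖y‖) ^ 2 := by
      simp only [gapM] at hg
      have h2 : (ip (A y) y).re * (j + 2) * (‖x‖ ^ 2 * ‖y‖ ^ 2 - ‖ip x y‖ ^ 2) ^ 2 = 0 := by
        linarith
      have := pow_eq_zero_iff two_ne_zero |>.1 ((mul_eq_zero.1 h2).resolve_left (by positivity))
      linarith
    have h2 : ‖ip x y‖ = ‖x‖ * ‖y‖ := (sq_eq_sq₀ (by positivity) (by positivity)).1 h1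
    have hpar : (ip (A x) x).re * ‖y‖ ^ 2 = (ip (A y) y).re * ‖x‖ ^ 2 := by
      rw [ip_eq x y, mul_comm] at h2
      obtain ⟨r, -, hr⟩ := (norm_inner_eq_norm_iff hy hx).1 h2
      have h3 : ip (A x) x = ((‖r‖ ^ 2 : ℝ) : ℂ) * ip (A y) y := by
        rw [hr, map_smul, ip_smul_left, ip_smul_right, ← mul_assoc, Complex.mul_conj,
          Complex.normSq_eq_norm_sq]
      rw [h3, Complex.re_ofReal_mul, hr, norm_smul]
      ring
    have ex : xM x y 1 = ((‖x‖⁻¹ : ℝ) : ℂ) • x := by rw [xM, if_neg (lt_irrefl _)]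
    have ed : dF y 1 = ((1 / ‖y‖ : ℝ) : ℂ) • y := rfl
    have hxn : ‖xM x y 1‖ = 1 := by
      rw [ex, norm_smul, Complex.norm_real, Real.norm_eq_abs, abs_of_pos (by positivity),
        inv_mul_cancel₀ hx0.ne']
    have hx' : xM x y 1 ≠ 0 := by
      intro h0
      rw [h0, norm_zero] at hxn
      exact zero_ne_one hxn
    simp only [lM, eM, if_neg (lt_irrefl (1 : ℝ))]
    have hN : InN A (hE j A (xM x y 1) (dF y 1) (xM x y 1) 0) := by
      refine inN_hE j hA hx' fun z hz => ?_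
      have h3 : ‖ip z (xM x y 1)‖ < 1 := by
        have := norm_ip_le z (xM x y 1)
        rw [hxn, mul_one] at this
        linarith
      have h6 : (‖ip z (xM x y 1)‖ ^ (j + 1)) ^ 2 < 1 :=
        pow_lt_one₀ (by positivity) (pow_lt_one₀ (norm_nonneg _) h3 (by omega)) two_ne_zero
      have h4 : (ip (A (xM x y 1)) (xM x y 1)).re = (ip (A (dF y 1)) (dF y 1)).re := by
        rw [ex, ed, re_form_smul, re_form_smul]
        field_simp
        linarith
      have h5 : 0 < (ip (A (xM x y 1)) (xM x y 1)).re := hA _ hx'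
      rw [ip_zero_right, norm_zero, ← h4]
      nlinarith
    refine ⟨hx', hN, ?_⟩
    have h3 := top_hE j (hA _ hx') hN (by rw [ip_self, hxn]; simp)
    generalize hE j A (xM x y 1) (dF y 1) (xM x y 1) 0 = H at h3
    rw [ip_zero_left, Complex.zero_re, add_zero, ex, ed, scale_val, re_form_smul] at h3
    have h4 : ContinuousAt (fun s : ℝ => ‖x‖ ^ j * (ip (A x) x).re / s +
        s * ‖x‖ ^ (j + 2) * (ip (A y) y).re) (1 / ‖y‖) :=
      ContinuousAt.add (ContinuousAt.div (by fun_prop) (by fun_prop) hs.ne') (by fun_prop)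
    have h5 : ‖x‖ ^ j * (ip (A x) x).re / (1 / ‖y‖) + 1 / ‖y‖ * ‖x‖ ^ (j + 2) * (ip (A y) y).re =
        -(ip (taylorTerm (j + 2) H x) y).re := by
      refine mul_left_cancel₀ (show ‖x‖⁻¹ ^ (j + 2) * (1 / ‖y‖) ≠ 0 by positivity) ?_
      rw [h3, inv_pow]
      field_simp
      linear_combination ‖x‖ ^ j * hpar
    rw [← h5]
    refine ge_of_tendsto (h4.tendsto.mono_left (nhdsWithin_le_nhds (s := Iio (1 / ‖y‖)))) ?_
    filter_upwards [Ioo_mem_nhdsLT hs] with s hs'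
    have h6 : s * ‖y‖ < 1 := by
      have := hs'.2
      rwa [lt_div_iff₀ hy0] at this
    refine (sigmaOrd_le_cost _ hA x y hs'.1 h6).trans_eq ?_
    have h7 := den_pos hs'.1 h6
    have h8 : stretch x y s = ‖x‖ := by
      rw [stretch, h1, Real.sqrt_eq_iff_mul_self_eq (by
        refine div_nonneg ?_ h7.le
        nlinarith [mul_pos (pow_pos hx0 2) h7]) hx0.le]
      field_simp
    rw [costOrd, h8, Nat.add_sub_cancel]

theorem selectionM (j : ℕ) {A : CE n →L[ℂ] CE n} (hA : ∀ z : CE n, z ≠ 0 → 0 < (ip (A z) z).re)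
    {x y : ℝ → CE n} (hx : Continuous x) (hy : Continuous y) (hx0 : ∀ t, x t ≠ 0)
    (hy0 : ∀ t, y t ≠ 0) :
    ∃ h : CE n → ℝ → CE n, (∀ t, InN A (fun z => h z t)) ∧ (∀ z, Measurable (h z)) ∧
      (∀ t i, 2 ≤ i → i < j + 2 → ∀ z, taylorTerm i (fun z => h z t) z = 0) ∧
      ∀ t, sigmaOrd (j + 2) A (x t) (y t) ≤
        -(ip (taylorTerm (j + 2) (fun z => h z t) (x t)) (y t)).re := by
  obtain ⟨u, mu, hu⟩ := exists_root (Γ := fun t u => gapM j A (x t) (y t) u)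
    (by simp only [gapM, ip_eq]; fun_prop) (fun t => by
      have h1 := norm_pos_iff.2 (hx0 t)
      have h2 := norm_pos_iff.2 (hy0 t)
      have : 0 < (ip (A (x t)) (x t)).re * ‖y t‖ ^ 4 * (‖x t‖ ^ 2 * ‖y t‖ ^ 2) := by
        have := hA _ (hx0 t)
        positivity
      simp only [gapM]
      linarith) fun t => by
      have : 0 ≤ (ip (A (y t)) (y t)).re * (j + 2) *
          (‖x t‖ ^ 2 * ‖y t‖ ^ 2 - ‖ip (x t) (y t)‖ ^ 2) ^ 2 := by
        have := form_nonneg hA (y t)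
        positivity
      simp only [gapM]
      linarith
  have mx := hx.measurable
  have my := hy.measurable
  have ms : MeasurableSet {t | u t < 1} := measurableSet_lt mu measurable_const
  have mτ : Measurable fun t => if u t < 1 then stretch (x t) (y t) (u t / ‖y t‖) else ‖x t‖ := by
    refine Measurable.ite ms ?_ (by fun_prop)
    simp only [stretch, ip_eq]
    fun_prop
  have mX : Measurable fun t => xM (x t) (y t) (u t) := by
    simp only [xM]; fun_prop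
  have mD : Measurable fun t => dF (y t) (u t) := by
    simp only [dF]; fun_prop
  have mL : Measurable fun t => lM (x t) (y t) (u t) := by
    refine Measurable.ite ms ?_ mX
    simp only [lVec, ip_eq]
    fun_prop
  have mE : Measurable fun t => eM j A (x t) (y t) (u t) := by
    refine Measurable.ite ms ?_ measurable_const
    simp only [eVec, ip_eq]
    fun_prop
  have spec := fun t => selM_spec j hA (hx0 t) (hy0 t) (hu t).1 (hu t).2.1 (hu t).2.2
  refine ⟨fun z t => hE j A (xM (x t) (y t) (u t)) (dF (y t) (u t)) (lM (x t) (y t) (u t))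
    (eM j A (x t) (y t) (u t)) z, fun t => (spec t).2.1, fun z => ?_,
    fun t i h2 hi z => low_hE j (hA _ (spec t).1) (spec t).2.1 h2 hi z, fun t => (spec t).2.2⟩
  simp only [hE, gE, ip_eq]
  fun_prop

end Pool.Agent.Lib.MP_c027d2_an.H4
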