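import Pool.Agent.Lib.MP_c027d2_an.Main
import Pool.Agent.Lib.MP_c027d2_an.H4Sel

/-!
The homogeneous terms of a reachable map in the range where they are linear in the field.
-/

open MeasureTheory Metric Set Filter Topology Asymptotics

namespace Pool.Agent.Lib.MP_c027d2_an.H4

variable {n : ℕ}

theorem Co.neg {m : ℕ} {g : ℂ → ℂ} {c : ℂ} (h : Co m g c) : Co m (fun ζ => -g ζ) (-c) := by
  obtain ⟨a, rfl, h⟩ := h
  refine ⟨fun j => -a j, rfl, h.neg_left.congr_left fun ζ => ?_⟩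
  simp only [neg_mul, Finset.sum_neg_distrib]
  ring

theorem co_integral {α : Type*} [MeasurableSpace α] {μ : Measure α} [IsFiniteMeasure μ]
    {φ : α → ℂ → ℂ} {R B : ℝ} (hR : 0 < R)
    (hd : ∀ᵐ s ∂μ, DifferentiableOn ℂ (φ s) (ball 0 R) ∧ ∀ ζ ∈ ball (0 : ℂ) R, ‖φ s ζ‖ ≤ B)
    (hm : ∀ ζ : ℂ, ‖ζ‖ ≤ R / 4 → AEStronglyMeasurable (fun s => φ s ζ) μ) (m : ℕ) :
    Integrable (fun s => co m (φ s)) μ ∧
      Co m (fun ζ => ∫ s, φ s ζ ∂μ) (∫ s, co m (φ s) ∂μ) := by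
  have hmeas : ∀ i, AEStronglyMeasurable (fun s => co i (φ s)) μ := by
    intro i
    induction i using Nat.strong_induction_on with
    | _ i ih =>
      let ε : ℕ → ℝ := fun k => R / 4 * (1 / ((k : ℝ) + 1))
      have hε0 : ∀ k, 0 < ε k := fun k => by positivity
      have hε : ∀ k, ‖(ε k : ℂ)‖ = ε k := fun k => by
        rw [Complex.norm_real, Real.norm_eq_abs, abs_of_pos (hε0 k)]
      have hε1 : ∀ k, ‖(ε k : ℂ)‖ ≤ R / 4 := fun k => by
        rw [hε]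
        refine mul_le_of_le_one_right (by positivity) ?_
        rw [div_le_one (by positivity)]
        linarith [(k.cast_nonneg : (0 : ℝ) ≤ k)]
      refine aestronglyMeasurable_of_tendsto_ae atTop (f := fun k s => ((ε k : ℂ) ^ i)⁻¹ *
        (φ s (ε k) - ∑ l ∈ Finset.range i, (ε k : ℂ) ^ l * co l (φ s))) (fun k => ?_) ?_
      · refine ((hm _ (hε1 k)).sub ?_).const_mul _
        exact Finset.aestronglyMeasurable_fun_sum _ fun l hl =>
          (ih l (Finset.mem_range.1 hl)).const_mul _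
      · filter_upwards [hd] with s hs
        rw [tendsto_iff_norm_sub_tendsto_zero]
        have h1 := (tendsto_one_div_add_atTop_nhds_zero_nat (𝕜 := ℝ)).const_mul
          (2 * B * (2 / R) ^ (i + 1) * (R / 4))
        rw [mul_zero] at h1
        refine squeeze_zero (fun _ => norm_nonneg _) (fun k => ?_) h1
        have h2 := tay hR hs.1 hs.2 (i + 1) (hε1 k)
        have h3 : ((ε k : ℂ) ^ i) ≠ 0 := pow_ne_zero _ (by exact_mod_cast (hε0 k).ne')
        have e : ((ε k : ℂ) ^ i)⁻¹ * (φ s (ε k) - ∑ l ∈ Finset.range i,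
            (ε k : ℂ) ^ l * co l (φ s)) - co i (φ s) = ((ε k : ℂ) ^ i)⁻¹ *
            (φ s (ε k) - ∑ l ∈ Finset.range (i + 1), (ε k : ℂ) ^ l • co l (φ s)) := by
          simp only [Finset.sum_range_succ, smul_eq_mul]
          field_simp
          ring
        rw [e, norm_mul, norm_inv, norm_pow, hε, inv_mul_le_iff₀ (pow_pos (hε0 k) i)]
        rw [hε] at h2
        refine h2.trans_eq ?_
        rw [pow_succ (ε k) i]
        simp only [ε]
        ring
  have hint : ∀ i, Integrable (fun s => co i (φ s)) μ := fun i =>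
    Integrable.of_bound (hmeas i) (B / (R / 2) ^ i) (hd.mono fun s hs => co_le hR hs.1 hs.2 i)
  refine ⟨hint m, fun i => ∫ s, co i (φ s) ∂μ, rfl,
    IsBigO.of_bound (2 * B * (2 / R) ^ (m + 1) * μ.real univ) ?_⟩
  filter_upwards [mem_nhdsWithin_of_mem_nhds (closedBall_mem_nhds (0 : ℂ)
    (show 0 < R / 4 by positivity))] with ζ hζ
  rw [mem_closedBall_zero_iff] at hζ
  have h1 : Integrable (fun s => φ s ζ) μ := Integrable.of_bound (hm ζ hζ) B
    (hd.mono fun s hs => hs.2 ζ (mem_ball_zero_iff.2 (by linarith)))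
  have e : ∫ s, φ s ζ ∂μ - ∑ j ∈ Finset.range (m + 1), (∫ s, co j (φ s) ∂μ) * ζ ^ j =
      ∫ s, (φ s ζ - ∑ j ∈ Finset.range (m + 1), ζ ^ j • co j (φ s)) ∂μ := by
    simp only [smul_eq_mul]
    rw [integral_sub h1 (integrable_finsetSum _ fun j _ => (hint j).const_mul (ζ ^ j)),
      integral_finsetSum _ fun j _ => (hint j).const_mul (ζ ^ j)]
    simp only [integral_mul_const, mul_comm (ζ ^ _)]
  rw [e, norm_pow]
  exact (norm_integral_le_of_norm_le_const
    (hd.mono fun s hs => tay hR hs.1 hs.2 (m + 1) hζ)).trans_eq (by ring)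

theorem ordC (q : ℕ) (A : CE n →L[ℂ] CE n) : ∃ C, 0 ≤ C ∧ ∀ h, InN A h →
    (∀ i, 2 ≤ i → i < q + 2 → ∀ z, taylorTerm i h z = 0) →
    (∀ y : CE n, ‖y‖ ≤ 1 / 8 → ‖h y - A y‖ ≤ C * ‖y‖ ^ (q + 2)) ∧
    (∀ (ρ : ℝ) (a b : CE n), 0 < ρ → ρ ≤ 1 / 16 → ‖a‖ ≤ ρ → ‖b‖ ≤ ρ →
      ‖(h a - A a) - (h b - A b)‖ ≤ 2 ^ (q + 3) * C * ρ ^ (q + 1) * ‖a - b‖) := by
  obtain ⟨B, hB, hb⟩ := growth A (r := 1 / 2) (by norm_num)
  refine ⟨2 * B * 4 ^ (q + 2), by positivity, fun h hh hlow => ?_⟩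
  have hd : DifferentiableOn ℂ (fun y => h y - A y) (ball 0 1) :=
    hh.1.sub A.differentiable.differentiableOn
  have h1 : ∀ y : CE n, ‖y‖ ≤ 1 / 8 → ‖h y - A y‖ ≤ 2 * B * 4 ^ (q + 2) * ‖y‖ ^ (q + 2) := by
    intro y hy
    rcases eq_or_ne y 0 with rfl | h0
    · simp [hh.2.1]
    have hy0 : 0 < ‖y‖ := norm_pos_iff.2 h0
    set u : CE n := ((‖y‖⁻¹ : ℝ) : ℂ) • y with hu
    have hu1 : ‖u‖ = 1 := by
      rw [hu, norm_smul, Complex.norm_real, Real.norm_eq_abs, abs_of_pos (by positivity),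
        inv_mul_cancel₀ hy0.ne']
    have hyu : ((‖y‖ : ℝ) : ℂ) • u = y := by
      rw [hu, smul_smul, ← Complex.ofReal_mul, mul_inv_cancel₀ hy0.ne']; simp
    have key := tay (g := fun ζ : ℂ => h (ζ • u)) (R := 1 / 2) (B := B) (by norm_num)
      ((slice_diff hh.1 one_pos hu1.le).mono (ball_subset_ball (by norm_num)))
      (fun ζ hζ => hb h hh _ (by
        rw [norm_smul, hu1, mul_one]; exact (mem_ball_zero_iff.1 hζ).le)) (q + 2)
      (ζ := ((‖y‖ : ℝ) : ℂ)) (by rw [Complex.norm_real, norm_norm]; linarith)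
    have e : ∑ j ∈ Finset.range (q + 2), ((‖y‖ : ℝ) : ℂ) ^ j • co j (fun ζ : ℂ => h (ζ • u)) =
        A y := by
      simp only [← taylor_co _ one_pos hh.1]
      rw [Finset.sum_range_succ', Finset.sum_range_succ', Finset.sum_eq_zero fun j hj => by
        rw [hlow _ (by omega) (by simpa using Finset.mem_range.1 hj), smul_zero]]
      have t0 : taylorTerm 0 h u = 0 := by simp [taylorTerm, hh.2.1]
      have t1 : taylorTerm (0 + 1) h u = A u := by
        simp [show 0 + 1 = 1 from rfl, taylorTerm, hh.2.2.1]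
      rw [t0, t1, smul_zero, add_zero, zero_add, zero_add, pow_one, ← map_smul, hyu]
    rw [e, hyu, Complex.norm_real, norm_norm] at key
    exact key.trans_eq (by norm_num)
  refine ⟨h1, fun ρ a b hρ0 hρ ha hb' => ?_⟩
  refine Convex.norm_image_sub_le_of_norm_fderiv_le (𝕜 := ℂ) (f := fun y => h y - A y)
    (s := closedBall 0 ρ) ?_ ?_
    (convex_closedBall _ _) (mem_closedBall_zero_iff.2 hb') (mem_closedBall_zero_iff.2 ha)
  · intro y hy
    have : y ∈ ball (0 : CE n) 1 := closedBall_subset_ball (by linarith) hy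
    exact (hd y this).differentiableAt (isOpen_ball.mem_nhds this)
  · intro y hy
    have hsub : ∀ w ∈ ball y ρ, ‖w‖ ≤ 2 * ρ := by
      intro w hw
      rw [mem_closedBall_zero_iff] at hy
      rw [mem_ball, dist_eq_norm] at hw
      have := norm_add_le (w - y) y
      rw [sub_add_cancel] at this
      linarith
    refine (norm_fderiv_le_of_bound (B := 2 * B * 4 ^ (q + 2) * (2 * ρ) ^ (q + 2)) hρ0
      (hd.mono fun w hw => ?_) fun w hw => ?_).trans_eq ?_
    · rw [mem_ball_zero_iff]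
      linarith [hsub w hw]
    · refine (h1 w (by linarith [hsub w hw])).trans ?_
      gcongr
      exact hsub w hw
    · field_simp
      ring

theorem aesm_N {A : CE n →L[ℂ] CE n} {T : ℝ} {h : CE n → ℝ → CE n}
    (hN : ∀ t ∈ Icc (0 : ℝ) T, InN A (fun z => h z t))
    (hm : ∀ z ∈ ball (0 : CE n) 1, AEMeasurable (h z) (volume.restrict (Icc (0 : ℝ) T)))
    {γ y : ℝ → CE n} (hγ : ContinuousOn γ (Icc 0 T)) (hb : ∀ t ∈ Icc (0 : ℝ) T, ‖γ t‖ ≤ 1 / 2)
    (hy : Continuous y) : AEStronglyMeasurable (fun t => ip (h (γ t) t - A (γ t)) (y t))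
      (volume.restrict (Icc (0 : ℝ) T)) := by
  obtain ⟨L, hL⟩ := fld_trunc A (r := 1 / 2) (by norm_num) (by norm_num)
  have h1 := ((hL T h hN hm).aesm (hγ.aemeasurable measurableSet_Icc)).neg
  have h2 : AEStronglyMeasurable (fun t => h (γ t) t) (volume.restrict (Icc (0 : ℝ) T)) := by
    refine h1.congr ?_
    filter_upwards [ae_restrict_mem measurableSet_Icc] with t ht
    simp only [Pi.neg_apply, neg_neg, trunc_eq (show (0 : ℝ) < 1 / 2 by norm_num) (hb t ht)]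
  have h3 : AEStronglyMeasurable (fun t => A (γ t)) (volume.restrict (Icc (0 : ℝ) T)) :=
    (A.continuous.comp_continuousOn hγ).aestronglyMeasurable measurableSet_Icc
  simp only [ip_eq]
  exact hy.aestronglyMeasurable.inner (h2.sub h3)

theorem pair_eq {A : CE n →L[ℂ] CE n} {T : ℝ} (hT : 0 ≤ T) {h : CE n → ℝ → CE n} {γ : ℝ → CE n}
    {K : NNReal} (hγ : LipschitzOnWith K γ (Icc (0 : ℝ) T))
    (hd : ∀ᵐ t ∂(volume.restrict (Icc (0 : ℝ) T)), HasDerivAt γ (-h (γ t) t) t) (w : CE n)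
    (hi : Integrable (fun s => ip (h (γ s) s - A (γ s))
      (NormedSpace.exp (s • ContinuousLinearMap.adjoint A) w)) (volume.restrict (Icc (0 : ℝ) T))) :
    ip (NormedSpace.exp (T • A) (γ T) - γ 0) w = -∫ s in Icc (0 : ℝ) T, ip (h (γ s) s - A (γ s))
      (NormedSpace.exp (s • ContinuousLinearMap.adjoint A) w) := by
  set G := fun s => ip (h (γ s) s - A (γ s))
    (NormedSpace.exp (s • ContinuousLinearMap.adjoint A) w) with hG
  have key : ∀ c : ℂ, ((starRingEnd ℂ) c * ip (NormedSpace.exp (T • A) (γ T) - γ 0) w).re ≤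
      -((starRingEnd ℂ) c * ∫ s in Icc (0 : ℝ) T, G s).re := by
    intro c
    have h1 := hi.const_mul ((starRingEnd ℂ) c)
    have h2 := pair_le (A := A) hγ hd (c • w) ⟨hT, le_rfl⟩
      (g := fun s => -((starRingEnd ℂ) c * G s).re)
      ((intervalIntegrable_iff_integrableOn_Icc_of_le hT).2 h1.re.neg) fun s _ => by
        rw [map_smul, ip_smul_right]
    rw [ip_smul_right, intervalIntegral.integral_of_le hT, ← integral_Icc_eq_integral_Ioc,
      integral_neg] at h2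
    rw [← integral_const_mul]
    exact h2.trans_eq (congrArg Neg.neg (integral_re h1))
  have a1 := key 1
  have a2 := key (-1)
  have a3 := key Complex.I
  have a4 := key (-Complex.I)
  simp only [map_one, one_mul, map_neg, neg_mul, Complex.neg_re, Complex.conj_I, neg_neg,
    Complex.I_mul_re] at a1 a2 a3 a4
  refine Complex.ext ?_ ?_
  · rw [Complex.neg_re]; linarith
  · rw [Complex.neg_im]; linarith

theorem co_N (j : ℕ) {A : CE n →L[ℂ] CE n} {h : CE n → CE n} (hh : InN A h) (x y : CE n) :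
    co (j + 2) (fun ζ : ℂ => ip (h (ζ • x) - A (ζ • x)) y) = ip (taylorTerm (j + 2) h x) y := by
  have hd : DifferentiableOn ℂ (fun y => h y - A y) (ball 0 1) :=
    hh.1.sub A.differentiable.differentiableOn
  have c1 := co_slice (j + 2) one_pos hd x y
  rw [taylor_ip _ one_pos hd] at c1
  have c2 := (co_slice (j + 2) one_pos hh.1 x y).add
    (co_mono (show 1 ≤ j + 2 by omega) (-ip (A x) y))
  rw [if_neg (by omega), add_zero] at c2
  exact c1.uniq (c2.congr (Eventually.of_forall fun ζ => by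
    simp only [map_smul, ip_sub_left, ip_smul_left]; ring))

theorem formula (q j : ℕ) (hm2 : j ≤ 2 * q) {A : CE n →L[ℂ] CE n} {T : ℝ} (hT : 0 ≤ T)
    {h v : CE n → ℝ → CE n} (hN : ∀ t ∈ Icc (0 : ℝ) T, InN A (fun z => h z t))
    (hlow : ∀ t ∈ Icc (0 : ℝ) T, ∀ i, 2 ≤ i → i < q + 2 → ∀ z, taylorTerm i (fun y => h y t) z = 0)
    (hm : ∀ z ∈ ball (0 : CE n) 1, AEMeasurable (h z) (volume.restrict (Icc (0 : ℝ) T)))
    (hv : ∀ z ∈ ball (0 : CE n) 1,
      (∃ K, LipschitzOnWith K (v z) (Icc (0 : ℝ) T)) ∧ v z 0 = z ∧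
      (∀ t ∈ Icc (0 : ℝ) T, v z t ∈ ball (0 : CE n) 1) ∧
      ∀ᵐ t ∂(volume.restrict (Icc (0 : ℝ) T)), HasDerivAt (v z) (-h (v z t) t) t)
    {f : CE n → CE n} (hf : ∀ z ∈ ball (0 : CE n) 1, f z = NormedSpace.exp (T • A) (v z T))
    (z w : CE n) :
    Integrable (fun s : ℝ => ip (taylorTerm (j + 2) (fun y => h y s) (NormedSpace.exp ((-s) • A) z))
      (NormedSpace.exp (s • ContinuousLinearMap.adjoint A) w)) (volume.restrict (Icc (0 : ℝ) T)) ∧
    ip (taylorTerm (j + 2) f z) w = -∫ s in Icc (0 : ℝ) T,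
      ip (taylorTerm (j + 2) (fun y => h y s) (NormedSpace.exp ((-s) • A) z))
        (NormedSpace.exp (s • ContinuousLinearMap.adjoint A) w) := by
  obtain ⟨C, hC, hCq⟩ := ordC q A
  obtain ⟨K, hK, hKb⟩ := exp_bound A T
  have hy : ∀ (w : CE n), ∀ s ∈ Icc (0 : ℝ) T,
      ‖NormedSpace.exp (s • ContinuousLinearMap.adjoint A) w‖ ≤ K * ‖w‖ := fun w s hs =>
    (ContinuousLinearMap.le_opNorm _ _).trans (by gcongr; exact (hKb s hs).1)
  have hx : ∀ (w : CE n), ∀ s ∈ Icc (0 : ℝ) T,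
      ‖NormedSpace.exp ((-s) • A) w‖ ≤ K * ‖w‖ := fun w s hs =>
    (ContinuousLinearMap.le_opNorm _ _).trans (by gcongr; exact (hKb s hs).2)
  have hnorm : ∀ z₀ : CE n, ‖z₀‖ < 1 → ∀ t ∈ Icc (0 : ℝ) T, ‖v z₀ t‖ ≤ ‖z₀‖ := by
    intro z₀ hz₀
    obtain ⟨⟨K', hK'⟩, h0, hb, hd⟩ := hv z₀ (mem_ball_zero_iff.2 hz₀)
    have := flow_norm_le hN hK' hb hd
    rwa [h0] at this
  have est1 : ∀ z₀ : CE n, ‖z₀‖ ≤ 1 / 8 → ∀ t ∈ Icc (0 : ℝ) T,
      ‖NormedSpace.exp (t • A) (v z₀ t) - z₀‖ ≤ T * K * C * ‖z₀‖ ^ (q + 2) := by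
    intro z₀ hz₀ t ht
    obtain ⟨⟨K', hK'⟩, h0, -, hd⟩ := hv z₀ (mem_ball_zero_iff.2 (by linarith))
    refine norm_le_of_ip (by positivity) fun y hy1 => ?_
    obtain ⟨c, hc1, hc⟩ := exists_phase (NormedSpace.exp (t • A) (v z₀ t) - z₀) y
    have key := pair_le (A := A) hK' hd (c • y) ht (g := fun _ => C * ‖z₀‖ ^ (q + 2) * K)
      intervalIntegrable_const fun s hs => by
        refine (neg_re_ip_le _ _).trans ?_
        have h1 := (hCq _ (hN s hs) (hlow s hs)).1 (v z₀ s)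
          ((hnorm z₀ (by linarith) s hs).trans hz₀)
        have h2 := hy (c • y) s hs
        rw [norm_smul, hc1, one_mul] at h2
        have h3 : ‖v z₀ s‖ ^ (q + 2) ≤ ‖z₀‖ ^ (q + 2) := by
          gcongr; exact hnorm z₀ (by linarith) s hs
        have h4 : K * ‖y‖ ≤ K := by nlinarith
        exact mul_le_mul (h1.trans (by gcongr)) (h2.trans h4) (norm_nonneg _) (by positivity)
    rw [h0, hc, intervalIntegral.integral_const, sub_zero, smul_eq_mul] at key
    refine key.trans ?_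
    calc t * (C * ‖z₀‖ ^ (q + 2) * K) ≤ T * (C * ‖z₀‖ ^ (q + 2) * K) := by gcongr; exact ht.2
      _ = _ := by ring
  have est2 : ∀ z₀ : CE n, ‖z₀‖ ≤ 1 / 8 → ∀ t ∈ Icc (0 : ℝ) T,
      ‖v z₀ t - NormedSpace.exp ((-t) • A) z₀‖ ≤ K * (T * K * C * ‖z₀‖ ^ (q + 2)) := by
    intro z₀ hz₀ t ht
    have e : v z₀ t - NormedSpace.exp ((-t) • A) z₀ =
        NormedSpace.exp ((-t) • A) (NormedSpace.exp (t • A) (v z₀ t) - z₀) := by
      rw [map_sub, exp_neg_apply]
    rw [e]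
    exact (hx _ t ht).trans (by gcongr; exact est1 z₀ hz₀ t ht)
  obtain ⟨δ, hδ0, hδ1, hδ⟩ := flow_diffOn hT hN hm hv
  have hfd : DifferentiableOn ℂ f (ball 0 δ) :=
    ((NormedSpace.exp (T • A)).differentiable.comp_differentiableOn hδ).congr
      fun y hy => hf y (ball_subset_ball hδ1 hy)
  set x := fun s : ℝ => NormedSpace.exp ((-s) • A) z with hxdef
  set y := fun s : ℝ => NormedSpace.exp (s • ContinuousLinearMap.adjoint A) w with hydef
  have cx : Continuous x := (continuous_exp_apply A z).comp continuous_neg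
  have cy : Continuous y := continuous_exp_apply _ w
  set X := K * ‖z‖ + 1 with hX
  have hX0 : 0 < X := by positivity
  have hzX : ‖z‖ ≤ X := by rw [hX]; nlinarith [norm_nonneg z]
  have hxX : ∀ s ∈ Icc (0 : ℝ) T, ‖x s‖ ≤ X := fun s hs =>
    (hx z s hs).trans (by rw [hX]; linarith)
  have hae : ∀ᵐ s ∂(volume.restrict (Icc (0 : ℝ) T)), s ∈ Icc (0 : ℝ) T :=
    ae_restrict_mem measurableSet_Icc
  have bnd : ∀ s ∈ Icc (0 : ℝ) T, ∀ a : CE n, ‖a‖ ≤ 1 / 8 →
      ‖ip (h a s - A a) (y s)‖ ≤ C * (K * ‖w‖) := fun s hs a ha => by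
    have h1 := (hCq _ (hN s hs) (hlow s hs)).1 a ha
    have h2 : ‖a‖ ^ (q + 2) ≤ 1 := pow_le_one₀ (norm_nonneg _) (by linarith)
    exact (norm_ip_le _ _).trans (mul_le_mul (h1.trans (mul_le_of_le_one_right hC h2)) (hy w s hs)
      (norm_nonneg _) hC)
  have hsx : ∀ ζ : ℂ, ∀ s ∈ Icc (0 : ℝ) T, ‖ζ • x s‖ ≤ ‖ζ‖ * X := fun ζ s hs => by
    rw [norm_smul]; gcongr; exact hxX s hs
  have mφ : ∀ ζ : ℂ, ‖ζ‖ * X ≤ 1 / 8 → AEStronglyMeasurable
      (fun s => ip (h (ζ • x s) s - A (ζ • x s)) (y s)) (volume.restrict (Icc (0 : ℝ) T)) :=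
    fun ζ hζ => aesm_N hN hm (γ := fun s => ζ • x s) (cx.const_smul ζ).continuousOn
      (fun s hs => by linarith [hsx ζ s hs]) cy
  obtain ⟨i1, c1⟩ := co_integral (μ := volume.restrict (Icc (0 : ℝ) T))
    (φ := fun s ζ => ip (h (ζ • x s) s - A (ζ • x s)) (y s)) (R := 1 / 8 / X)
    (B := C * (K * ‖w‖)) (by positivity) (hae.mono fun s hs => ⟨diffOn_ip (slice_diff
      (f := fun a => h a s - A a) (((hN s hs).1.sub A.differentiable.differentiableOn).mono
        (ball_subset_ball (by norm_num))) hX0 (hxX s hs)) _, fun ζ hζ =>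
      bnd s hs _ (mem_ball_zero_iff.1 (slice_mem hX0 (hxX s hs) hζ)).le⟩)
    (fun ζ hζ => mφ ζ (by
      rw [div_right_comm, le_div_iff₀ hX0] at hζ; linarith)) (j + 2)
  have hco := hae.mono fun s hs => co_N j (hN s hs) (x s) (y s)
  refine ⟨i1.congr hco, ?_⟩
  rw [← integral_congr_ae hco]
  have hsm : ∀ᶠ ζ : ℂ in 𝓝[≠] 0, ‖ζ‖ * X ≤ 1 / 16 := by
    filter_upwards [mem_nhdsWithin_of_mem_nhds (closedBall_mem_nhds (0 : ℂ)
      (show 0 < 1 / 16 / X by positivity))] with ζ hζ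
    rwa [mem_closedBall_zero_iff, le_div_iff₀ hX0] at hζ
  have hz1 : ∀ ζ : ℂ, ‖ζ • z‖ ≤ ‖ζ‖ * X := fun ζ => by rw [norm_smul]; gcongr
  have o1 : (fun ζ : ℂ => ∫ s in Icc (0 : ℝ) T, (ip (h (ζ • x s) s - A (ζ • x s)) (y s) -
      ip (h (v (ζ • z) s) s - A (v (ζ • z) s)) (y s))) =O[𝓝[≠] 0] fun ζ : ℂ => ζ ^ (2 * q + 3) := by
    refine IsBigO.of_bound (2 ^ (q + 3) * C * X ^ (q + 1) * (K * (T * K * C * X ^ (q + 2))) *
      (K * ‖w‖) * (volume.restrict (Icc (0 : ℝ) T)).real univ) ?_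
    filter_upwards [hsm, self_mem_nhdsWithin] with ζ hζ hζ0
    have hζ1 : 0 < ‖ζ‖ := norm_pos_iff.2 hζ0
    refine (norm_integral_le_of_norm_le_const (C := 2 ^ (q + 3) * C * (‖ζ‖ * X) ^ (q + 1) *
      (K * (T * K * C * (‖ζ‖ * X) ^ (q + 2))) * (K * ‖w‖)) (hae.mono fun s hs => ?_)).trans_eq
      (by rw [norm_pow]; ring_nf)
    have a2 := (hCq _ (hN s hs) (hlow s hs)).2 (‖ζ‖ * X) (ζ • x s) (v (ζ • z) s) (by positivity) hζ
      (hsx ζ s hs) ((hnorm _ (by linarith [hz1 ζ]) s hs).trans (hz1 ζ))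
    have a3 := est2 (ζ • z) (by linarith [hz1 ζ]) s hs
    rw [map_smul, norm_sub_rev] at a3
    have a4 : ‖ζ • z‖ ^ (q + 2) ≤ (‖ζ‖ * X) ^ (q + 2) := by gcongr; exact hz1 ζ
    rw [← ip_sub_left]
    refine (norm_ip_le _ _).trans (mul_le_mul (a2.trans ?_) (hy w s hs) (norm_nonneg _)
      (by positivity))
    exact mul_le_mul_of_nonneg_left (a3.trans (by gcongr)) (by positivity)
  have c2 := ((co_mono (show 1 ≤ j + 2 by omega) (ip z w)).add c1.neg).add
    (co_small (o1.trans (pow_O (show j + 2 + 1 ≤ 2 * q + 3 by omega))))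
  rw [if_neg (by omega), zero_add, add_zero] at c2
  refine (co_slice (j + 2) hδ0 hfd z w).uniq (c2.congr (hsm.mono fun ζ hζ => ?_))
  have hb1 : ζ • z ∈ ball (0 : CE n) 1 := mem_ball_zero_iff.2 (by linarith [hz1 ζ])
  obtain ⟨⟨K', hK'⟩, h0, -, hd⟩ := hv _ hb1
  have hvn : ∀ s ∈ Icc (0 : ℝ) T, ‖v (ζ • z) s‖ ≤ 1 / 8 := fun s hs => by
    linarith [hnorm _ (mem_ball_zero_iff.1 hb1) s hs, hz1 ζ]
  have i2 : Integrable (fun s => ip (h (v (ζ • z) s) s - A (v (ζ • z) s)) (y s))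
      (volume.restrict (Icc (0 : ℝ) T)) := Integrable.of_bound
    (aesm_N hN hm hK'.continuousOn (fun s hs => by linarith [hvn s hs]) cy) _
    (hae.mono fun s hs => bnd s hs _ (hvn s hs))
  have i3 : Integrable (fun s => ip (h (ζ • x s) s - A (ζ • x s)) (y s))
      (volume.restrict (Icc (0 : ℝ) T)) := Integrable.of_bound (mφ ζ (by linarith)) _
    (hae.mono fun s hs => bnd s hs _ (by linarith [hsx ζ s hs]))
  have key := pair_eq hT hK' hd w i2
  rw [h0, ← hf _ hb1, ip_sub_left, ip_smul_left] at key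
  simp only []
  rw [integral_sub i3 i2]
  linear_combination -key

end Pool.Agent.Lib.MP_c027d2_an.H4
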