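import Pool.Agent.Lib.MP_c027d2_an.H4Flow

/-!
The sharp bound for the homogeneous terms of degree `p, ..., 2p - 2`.
-/

open MeasureTheory Metric Set Filter Topology Asymptotics

namespace Pool.Agent.Lib.MP_c027d2_an.H4

variable {n : ℕ}

theorem taylor_lin (A : CE n →L[ℂ] CE n) {i : ℕ} (hi : 2 ≤ i) (u : CE n) :
    taylorTerm i (fun z => A z) u = 0 := by
  have c1 := co_slice i one_pos (f := fun z => A z) A.differentiable.differentiableOn u
    (taylorTerm i (fun z => A z) u)
  have c2 := co_mono (show 1 ≤ i by omega) (ip (A u) (taylorTerm i (fun z => A z) u))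
  rw [if_neg (by omega)] at c2
  have h := c1.uniq (c2.congr (Eventually.of_forall fun ζ => by
    simp only [map_smul, ip_smul_left, pow_one, mul_comm]))
  rw [ip_self] at h
  simpa using h

theorem selectionM' (j : ℕ) {A : CE n →L[ℂ] CE n}
    (hA : ∀ z : CE n, z ≠ 0 → 0 < (ip (A z) z).re) (z w : CE n) :
    ∃ h : CE n → ℝ → CE n, (∀ t, InN A (fun z => h z t)) ∧ (∀ z, Measurable (h z)) ∧
      (∀ t i, 2 ≤ i → i < j + 2 → ∀ z, taylorTerm i (fun z => h z t) z = 0) ∧
      ∀ t : ℝ, sigmaOrd (j + 2) A (NormedSpace.exp ((-t) • A) z)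
          (NormedSpace.exp (t • ContinuousLinearMap.adjoint A) w) ≤
        -(ip (taylorTerm (j + 2) (fun z => h z t) (NormedSpace.exp ((-t) • A) z))
          (NormedSpace.exp (t • ContinuousLinearMap.adjoint A) w)).re := by
  by_cases h0 : z = 0 ∨ w = 0
  · refine ⟨fun z _ => A z, fun _ => inN_self hA, fun _ => measurable_const,
      fun _ i hi _ u => taylor_lin A hi u, fun t => ?_⟩
    rw [taylor_lin A (by omega), ip_zero_left, Complex.zero_re, neg_zero]
    rcases h0 with rfl | rfl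
    · obtain ⟨s, h1, h2⟩ := adm_nonempty (NormedSpace.exp (t • ContinuousLinearMap.adjoint A) w)
      refine (sigmaOrd_le_cost _ hA _ _ h1 h2).trans_eq ?_
      simp [costOrd, stretch, ip_zero_left]
    · rw [map_zero]
      generalize NormedSpace.exp ((-t) • A) z = x
      have h1 : Tendsto (fun s : ℝ => ‖x‖ ^ j * (ip (A x) x).re / s) atTop (𝓝 0) :=
        tendsto_const_nhds.div_atTop tendsto_id
      refine ge_of_tendsto h1 ?_
      filter_upwards [eventually_gt_atTop (0 : ℝ)] with s hs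
      simpa [costOrd, stretch, ip_zero_right] using sigmaOrd_le_cost (j + 2) hA x 0 hs (by simp)
  · push Not at h0
    exact selectionM j hA ((continuous_exp_apply A z).comp continuous_neg)
      (continuous_exp_apply _ w) (fun t => exp_apply_ne_zero A _ h0.1)
      (fun t => exp_apply_ne_zero _ _ h0.2)

theorem isGreatest_ord (q j : ℕ) (h1 : q ≤ j) (h2 : j ≤ 2 * q) {A : CE n →L[ℂ] CE n}
    (hA : ∀ z : CE n, z ≠ 0 → 0 < (ip (A z) z).re) {T : ℝ} (hT : 0 ≤ T) (z w : CE n) :
    IsGreatest ((fun f => ‖ip (taylorTerm (j + 2) f z) w‖) '' ReachOrd (q + 2) A T)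
      (∫ t in (0 : ℝ)..T, sigmaOrd (j + 2) A (NormedSpace.exp ((-t) • A) z)
        (NormedSpace.exp (t • ContinuousLinearMap.adjoint A) w)) := by
  obtain ⟨h, hN, hmeas, hlow, hq⟩ := selectionM' j hA z w
  have hflow := fun (y : CE n) (hy : y ∈ ball (0 : CE n) 1) =>
    exists_flow hT (fun t _ => hN t) (fun z _ => (hmeas z).aemeasurable) hy
  choose! v hv using hflow
  have hlow' : ∀ t ∈ Icc (0 : ℝ) T, ∀ i, 2 ≤ i → i < q + 2 → ∀ z,
      taylorTerm i (fun y => h y t) z = 0 := fun t _ i a b => hlow t i a (by omega)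
  have hmem : (fun y => NormedSpace.exp (T • A) (v y T)) ∈ ReachOrd (q + 2) A T :=
    ⟨h, v, fun t _ => hN t, hlow', fun z _ => (hmeas z).aemeasurable, hv, fun _ _ => rfl⟩
  obtain ⟨i1, e1⟩ := formula q j h2 hT (fun t _ => hN t) hlow' (fun z _ => (hmeas z).aemeasurable)
    hv (f := fun y => NormedSpace.exp (T • A) (v y T)) (fun _ _ => rfl) z w
  have heq := fun t : ℝ => le_antisymm (hq t) ((neg_le_abs _).trans
    ((Complex.abs_re_le_norm _).trans (norm_le_sigmaM j hA (hN t) _ _)))
  have hint : Integrable (fun t : ℝ => sigmaOrd (j + 2) A (NormedSpace.exp ((-t) • A) z)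
      (NormedSpace.exp (t • ContinuousLinearMap.adjoint A) w))
      (volume.restrict (Icc (0 : ℝ) T)) := by
    simp only [heq]
    exact i1.re.neg
  rw [intervalIntegral.integral_of_le hT, ← integral_Icc_eq_integral_Ioc]
  have upper : ∀ f ∈ ReachOrd (q + 2) A T, ‖ip (taylorTerm (j + 2) f z) w‖ ≤
      ∫ t in Icc (0 : ℝ) T, sigmaOrd (j + 2) A (NormedSpace.exp ((-t) • A) z)
        (NormedSpace.exp (t • ContinuousLinearMap.adjoint A) w) := by
    rintro f ⟨h', v, hN', hl', hm', hv, hf⟩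
    rw [(formula q j h2 hT hN' hl' hm' hv hf z w).2, norm_neg]
    refine norm_integral_le_of_norm_le hint ?_
    filter_upwards [ae_restrict_mem measurableSet_Icc] with t ht
    exact norm_le_sigmaM j hA (hN' t ht) _ _
  refine ⟨⟨_, hmem, le_antisymm (upper _ hmem) ?_⟩, ?_⟩
  · refine le_trans (le_of_eq ?_) (Complex.re_le_norm _)
    simp only [heq]
    rw [e1, integral_neg, Complex.neg_re]
    exact congrArg Neg.neg (integral_re i1)
  · rintro _ ⟨f, hf, rfl⟩
    exact upper f hf

end Pool.Agent.Lib.MP_c027d2_an.H4
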