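import Pool.Agent.Lib.MP_c027d2_an.Ident

/-! Two explicit flows whose composition has a large third coefficient. -/

open MeasureTheory Metric Set Filter Topology

namespace Pool.Agent.Lib.MP_c027d2_an.H86

variable {n : ℕ}

theorem stay {γ : ℝ → CE n} {g : CE n → CE n} {T : ℝ}
    (hd : ∀ t ∈ Icc (0 : ℝ) T, HasDerivAt γ (-g (γ t)) t)
    (hg : ∀ z ∈ ball (0 : CE n) 1, z ≠ 0 → 0 < (ip (g z) z).re) (h0 : γ 0 ∈ ball (0 : CE n) 1) :
    ∀ t ∈ Icc (0 : ℝ) T, γ t ∈ ball (0 : CE n) 1 := by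
  have e : ∀ t, (ip (γ t) (γ t)).re = ‖γ t‖ ^ 2 := fun t => by rw [ip_self, Complex.ofReal_re]
  have h1 : ‖γ 0‖ < 1 := mem_ball_zero_iff.1 h0
  have h2 : ‖γ 0‖ ^ 2 < 1 := by nlinarith [norm_nonneg (γ 0)]
  intro t ht
  have key := image_le_of_deriv_right_lt_deriv_boundary (f := fun t => (ip (γ t) (γ t)).re)
    (f' := fun t => (ip (-g (γ t)) (γ t)).re + (ip (γ t) (-g (γ t))).re) (a := 0) (b := T)
    (fun s hs => (deriv_ip (hd s hs) (hd s hs)).continuousAt.continuousWithinAt)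
    (fun s hs => (deriv_ip (hd s (Ico_subset_Icc_self hs))
      (hd s (Ico_subset_Icc_self hs))).hasDerivWithinAt)
    (B := fun _ => (1 + ‖γ 0‖ ^ 2) / 2) (B' := fun _ => 0) (by simp only [e]; linarith)
    (fun s => hasDerivAt_const s _) (fun s _ hs => by
      simp only [e] at hs
      have h3 : ‖γ s‖ < 1 := by nlinarith [norm_nonneg (γ s)]
      have h4 : γ s ≠ 0 := fun h => by
        rw [h, norm_zero] at hs
        nlinarith [sq_nonneg ‖γ 0‖]
      have h5 := hg _ (mem_ball_zero_iff.2 h3) h4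
      rw [← ip_conj (-g (γ s)) (γ s), Complex.conj_re, ip_neg_left, Complex.neg_re]
      linarith) ht
  simp only [e] at key
  exact mem_ball_zero_iff.2 (by nlinarith [norm_nonneg (γ t)])

theorem lip_of {γ : ℝ → CE n} {g : CE n → CE n} {T : ℝ} (hg : ContinuousOn g (ball 0 1))
    (hd : ∀ t ∈ Icc (0 : ℝ) T, HasDerivAt γ (-g (γ t)) t)
    (hb : ∀ t ∈ Icc (0 : ℝ) T, γ t ∈ ball (0 : CE n) 1) :
    ∃ K, LipschitzOnWith K γ (Icc 0 T) := by
  obtain ⟨C, hC⟩ := isCompact_Icc.exists_bound_of_continuousOn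
    (hg.comp (fun s hs => (hd s hs).continuousAt.continuousWithinAt) hb)
  refine ⟨C.toNNReal, (convex_Icc 0 T).lipschitzOnWith_of_nnnorm_hasDerivWithin_le
    (fun s hs => (hd s hs).hasDerivWithinAt) fun s hs => ?_⟩
  rw [← NNReal.coe_le_coe, coe_nnnorm, norm_neg]
  exact (hC s hs).trans (Real.le_coe_toNNReal C)

theorem reach_two {A : Op n} {h₁ h₂ : CE n → CE n} (H₁ : InN A h₁) (H₂ : InN A h₂) {S T : ℝ}
    (hS : 0 ≤ S) (hT : S ≤ T) {v₁ v₂ : CE n → ℝ → CE n} (z₁ : ∀ z, v₁ z 0 = z)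
    (z₂ : ∀ z, v₂ z 0 = z)
    (d₁ : ∀ z ∈ ball (0 : CE n) 1, ∀ t, 0 ≤ t → HasDerivAt (v₁ z) (-h₁ (v₁ z t)) t)
    (d₂ : ∀ z ∈ ball (0 : CE n) 1, ∀ t, 0 ≤ t → HasDerivAt (v₂ z) (-h₂ (v₂ z t)) t) :
    (fun z => expm T A (v₂ (v₁ z S) (T - S))) ∈ Reach A T := by
  refine ⟨fun z t => if t ≤ S then h₁ z else h₂ z,
    fun z t => v₁ z (min t S) + (v₂ (v₁ z S) (max t S - S) - v₁ z S), fun t _ => ?_,
    fun z _ => ?_, fun z hz => ?_, fun z _ => by simp [min_eq_right hT, max_eq_left hT]⟩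
  · by_cases h : t ≤ S
    · simpa [h] using H₁
    · simpa [h] using H₂
  · exact (Measurable.ite measurableSet_Iic measurable_const measurable_const).aemeasurable
  have b₁ := stay (T := S) (fun t ht => d₁ z hz t ht.1) H₁.2.2.2 ((z₁ z).symm ▸ hz)
  have hy := b₁ S ⟨hS, le_rfl⟩
  have b₂ := stay (T := T - S) (fun t ht => d₂ _ hy t ht.1) H₂.2.2.2 ((z₂ _).symm ▸ hy)
  obtain ⟨K₁, l₁⟩ := lip_of H₁.1.continuousOn (fun t ht => d₁ z hz t ht.1) b₁
  obtain ⟨K₂, l₂⟩ := lip_of H₂.1.continuousOn (fun t ht => d₂ _ hy t ht.1) b₂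
  have e₁ : ∀ t, t ≤ S → v₁ z (min t S) + (v₂ (v₁ z S) (max t S - S) - v₁ z S) = v₁ z t :=
    fun t h => by simp [min_eq_left h, max_eq_right h, z₂]
  have e₂ : ∀ t, S ≤ t →
      v₁ z (min t S) + (v₂ (v₁ z S) (max t S - S) - v₁ z S) = v₂ (v₁ z S) (t - S) :=
    fun t h => by simp [min_eq_right h, max_eq_left h]
  refine ⟨⟨K₁ + K₂, LipschitzOnWith.of_dist_le_mul fun a ha b hb => ?_⟩, (e₁ 0 hS).trans (z₁ z),
    fun t ht => ?_, ?_⟩
  · have p₁ := l₁.dist_le_mul (min a S) ⟨le_min ha.1 hS, min_le_right _ _⟩ (min b S)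
      ⟨le_min hb.1 hS, min_le_right _ _⟩
    have p₂ := l₂.dist_le_mul (max a S - S)
      ⟨sub_nonneg.2 (le_max_right _ _), sub_le_sub_right (max_le ha.2 hT) _⟩ (max b S - S)
      ⟨sub_nonneg.2 (le_max_right _ _), sub_le_sub_right (max_le hb.2 hT) _⟩
    have q₁ : dist (min a S) (min b S) ≤ dist a b := by
      simpa [Real.dist_eq] using abs_min_sub_min_le_max a S b S
    have q₂ : dist (max a S - S) (max b S - S) ≤ dist a b := by
      simpa [Real.dist_eq] using abs_max_sub_max_le_abs a b S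
    refine (dist_add_add_le _ _ _ _).trans ?_
    rw [dist_sub_right, NNReal.coe_add, add_mul]
    exact add_le_add (p₁.trans (by gcongr)) (p₂.trans (by gcongr))
  · rcases le_total t S with h | h
    · exact mem_of_eq_of_mem (e₁ t h) (b₁ t ⟨ht.1, h⟩)
    · exact mem_of_eq_of_mem (e₂ t h) (b₂ _ ⟨sub_nonneg.2 h, sub_le_sub_right ht.2 _⟩)
  have hne : ∀ᵐ t ∂(volume.restrict (Icc (0 : ℝ) T)), t ≠ S :=
    ae_restrict_of_ae (by simp [ae_iff])
  filter_upwards [hne, ae_restrict_mem measurableSet_Icc] with t h1 h2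
  rcases lt_or_gt_of_ne h1 with h | h
  · simp only [if_pos h.le, e₁ t h.le]
    exact (d₁ z hz t h2.1).congr_of_eventuallyEq
      ((eventually_lt_nhds h).mono fun s hs => e₁ s hs.le)
  · simp only [if_neg h.not_ge, e₂ t h.le]
    exact ((d₂ _ hy (t - S) (sub_nonneg.2 h.le)).comp_sub_const t S).congr_of_eventuallyEq
      ((eventually_gt_nhds h).mono fun s hs => e₂ s hs.le)

/-- A basis vector. -/
noncomputable def ev (i : Fin n) : CE n := EuclideanSpace.single i 1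

theorem ip_ev (z : CE n) (i : Fin n) : ip z (ev i) = z i := by
  simp [ip_eq, ev, EuclideanSpace.inner_single_left]

theorem ip_ev' (z : CE n) (i : Fin n) : ip (ev i) z = (starRingEnd ℂ) (z i) := by
  rw [← ip_conj, ip_ev]

theorem ev_self (i : Fin n) : ev i i = 1 := by simp [ev]

theorem ev_ne {i j : Fin n} (h : i ≠ j) : ev j i = 0 := by simp [ev, h]

theorem two_le {i j : Fin n} (h : i ≠ j) (z : CE n) : ‖z i‖ ^ 2 + ‖z j‖ ^ 2 ≤ ‖z‖ ^ 2 := by
  rw [EuclideanSpace.norm_sq_eq, ← Finset.sum_pair (f := fun k => ‖z k‖ ^ 2) h]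
  exact Finset.sum_le_sum_of_subset_of_nonneg (Finset.subset_univ _) fun _ _ _ => by positivity

theorem one_add_ne {z : CE n} (hz : z ∈ ball (0 : CE n) 1) (j : Fin n) {c : ℝ} (h0 : 0 ≤ c)
    (h1 : c ≤ 1) : 1 + z j * (c : ℂ) ≠ 0 := fun h => by
  have h2 : ‖z j‖ < 1 := (PiLp.norm_apply_le z j).trans_lt (mem_ball_zero_iff.1 hz)
  have h3 : ‖z j * (c : ℂ)‖ = 1 := by rw [eq_neg_of_add_eq_zero_right h]; simp
  rw [norm_mul, Complex.norm_real, Real.norm_of_nonneg h0] at h3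
  nlinarith [norm_nonneg (z j)]

/-- The shearing field. -/
noncomputable def hA (b : ℝ) (i j : Fin n) (z : CE n) : CE n := z + ((b : ℂ) * z i ^ 2) • ev j

/-- The field with the largest mixed coefficient. -/
noncomputable def hB (B : ℝ) (i j : Fin n) (z : CE n) : CE n :=
  z + (z i * (z j - (B : ℂ) * (z j / (1 + z j)))) • ev i + (z j ^ 2) • ev j

theorem crd (i : Fin n) (z : CE n) :
    HasFDerivAt (fun y : CE n => y i) (EuclideanSpace.proj (𝕜 := ℂ) i) z :=
  (EuclideanSpace.proj (𝕜 := ℂ) i).hasFDerivAt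

theorem inN_hA {i j : Fin n} (h : i ≠ j) : InN (idOp n) (hA (3 * √3 / 2) i j) := by
  refine ⟨by unfold hA; fun_prop, by simp [hA], HasFDerivAt.fderiv ?_, fun z hz h0 => ?_⟩
  · have := (hasFDerivAt_id (0 : CE n)).add
      ((((crd i 0).pow 2).const_mul ((3 * √3 / 2 : ℝ) : ℂ)).smul_const (ev j))
    exact this.congr_fderiv (by ext; simp [idOp])
  have h1 : ‖z‖ < 1 := mem_ball_zero_iff.1 hz
  have h2 : 0 < ‖z‖ := norm_pos_iff.2 h0
  have h3 := two_le h z
  have h4 := Complex.re_le_norm (-(((3 * √3 / 2 : ℝ) : ℂ) * z i ^ 2 * (starRingEnd ℂ) (z j)))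
  rw [norm_neg, norm_mul, norm_mul, Complex.norm_real, Real.norm_of_nonneg (by positivity),
    norm_pow, Complex.norm_conj, Complex.neg_re] at h4
  rw [hA, ip_add_left, ip_smul_left, ip_ev', ip_self, Complex.add_re, Complex.ofReal_re]
  have h5 : (√3 : ℝ) ^ 2 = 3 := Real.sq_sqrt (by norm_num)
  have h6 : 0 < (√3 : ℝ) := by positivity
  generalize (√3 : ℝ) = r at *
  generalize ‖z i‖ ^ 2 = x at *
  have ht := norm_nonneg (z j)
  generalize ‖z j‖ = t at *
  have hN : ‖z‖ ^ 2 < 1 := by nlinarith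
  have hN0 : 0 < ‖z‖ ^ 2 := by positivity
  generalize ‖z‖ ^ 2 = N at *
  rcases ht.eq_or_lt with rfl | ht
  · linarith
  have h7 : 3 * r / 2 * t * (1 - t ^ 2) ≤ 1 := by
    have := mul_nonneg (sq_nonneg (r * t - 1)) (show 0 ≤ r * t + 2 by positivity)
    have e : (r * t - 1) ^ 2 * (r * t + 2) = 2 - 2 * (3 * r / 2 * t * (1 - t ^ 2)) := by
      linear_combination r * t ^ 3 * h5
    linarith
  have h8 : x < N * (1 - t ^ 2) := by nlinarith [mul_pos (sub_pos.2 hN) (pow_pos ht 2)]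
  have h9 := mul_lt_mul_of_pos_left h8 (show 0 < 3 * r / 2 * t by positivity)
  nlinarith [mul_le_mul_of_nonneg_left h7 hN0.le]

theorem key_hB {X y s : ℝ} (hs : s ^ 2 = 2) (hs0 : 0 ≤ s) (hD : 0 < 1 + 2 * X + y) :
    0 ≤ (1 - y) * (1 + X - (3 + 2 * s) * ((X + y) / (1 + 2 * X + y))) + y * (1 + X) := by
  have : (1 - y) * (1 + X - (3 + 2 * s) * ((X + y) / (1 + 2 * X + y))) + y * (1 + X) =
      2 * (3 + 2 * s) * (X + y + (s / 2 - 1) * (1 + 2 * X + y)) ^ 2 / (1 + 2 * X + y) := by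
    field_simp
    grind
  rw [this]
  positivity

theorem inN_hB {i j : Fin n} (h : i ≠ j) : InN (idOp n) (hB (3 + 2 * √2) i j) := by
  have hne : ∀ z ∈ ball (0 : CE n) 1, 1 + z j ≠ 0 := fun z hz => by
    simpa using one_add_ne hz j zero_le_one le_rfl
  refine ⟨by unfold hB; fun_prop (disch := exact hne), by simp [hB], HasFDerivAt.fderiv ?_,
    fun z hz h0 => ?_⟩
  · have h1 : DifferentiableAt ℂ
        (fun z : CE n => z j - ((3 + 2 * √2 : ℝ) : ℂ) * (z j / (1 + z j))) 0 := by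
      fun_prop (disch := simp)
    have := ((hasFDerivAt_id (0 : CE n)).add (((crd i 0).mul h1.hasFDerivAt).smul_const
      (ev i))).add (((crd j 0).pow 2).smul_const (ev j))
    exact this.congr_fderiv (by ext; simp [idOp])
  have h1 : ‖z‖ < 1 := mem_ball_zero_iff.1 hz
  have h2 : 0 < ‖z‖ := norm_pos_iff.2 h0
  by_cases hj : z j = 0
  · simp [hB, hj, ip_self, -Complex.ofReal_pow, h2]
  have h3 := two_le h z
  have hD : ‖1 + z j‖ ^ 2 = 1 + 2 * (z j).re + ‖z j‖ ^ 2 := norm_sq_one_add _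
  have hD0 : 0 < ‖1 + z j‖ ^ 2 := pow_pos (norm_pos_iff.2 (hne z hz)) 2
  have h4 : (z j / (1 + z j)).re = ((z j).re + ‖z j‖ ^ 2) / (1 + 2 * (z j).re + ‖z j‖ ^ 2) := by
    rw [← hD, Complex.div_re, Complex.sq_norm, Complex.sq_norm, ← add_div,
      Complex.normSq_apply (z j)]
    simp
    ring
  have h5 : ∀ w u : ℂ, (w * u * (starRingEnd ℂ) w).re = ‖w‖ ^ 2 * u.re := fun w u => by
    rw [mul_right_comm, Complex.mul_conj, Complex.re_ofReal_mul, Complex.sq_norm]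
  have h6 := key_hB (Real.sq_sqrt zero_le_two) (Real.sqrt_nonneg 2) (hD ▸ hD0)
  have h7 := (abs_le.1 (Complex.abs_re_le_norm (z j))).1
  rw [hB, ip_add_left, ip_add_left, ip_smul_left, ip_smul_left, ip_ev', ip_ev', ip_self,
    Complex.add_re, Complex.add_re, Complex.ofReal_re, h5, sq (z j), h5, Complex.sub_re,
    Complex.re_ofReal_mul, h4]
  generalize (3 + 2 * √2) * (((z j).re + ‖z j‖ ^ 2) / (1 + 2 * (z j).re + ‖z j‖ ^ 2)) = Q at *
  have hx : 0 ≤ ‖z i‖ ^ 2 := by positivity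
  generalize ‖z i‖ ^ 2 = x at *
  have hN : ‖z‖ ^ 2 < 1 := by nlinarith
  have hN0 : 0 < ‖z‖ ^ 2 := by positivity
  generalize ‖z‖ ^ 2 = N at *
  have ht := norm_nonneg (z j)
  have hX : 0 < 1 + (z j).re := by nlinarith
  generalize (z j).re = X at *
  have hy : 0 < ‖z j‖ ^ 2 := by positivity
  generalize ‖z j‖ ^ 2 = y at *
  rcases le_or_gt 0 (1 + X - Q) with hG | hG
  · nlinarith [mul_nonneg hx hG, mul_pos hy hX]
  · nlinarith [mul_pos (show 0 < 1 - y - x by linarith) (neg_pos.2 hG)]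

/-- The flow of the shearing field. -/
noncomputable def vA (b : ℝ) (i j : Fin n) (z : CE n) (t : ℝ) : CE n :=
  (Real.exp (-t) : ℂ) • z -
    ((b : ℂ) * z i ^ 2 * (Real.exp (-t) - (Real.exp (-t) : ℂ) ^ 2)) • ev j

/-- The flow of the second field, as a function of `E = exp (-t)`. -/
noncomputable def wB (B : ℝ) (i j : Fin n) (z : CE n) (E : ℂ) : CE n :=
  E • z + (z i * (E / (1 + z j * (1 - E))) * Complex.exp (B * (z j * (1 - E) / (1 + z j))) -
    E * z i) • ev i + (z j * (E / (1 + z j * (1 - E))) - E * z j) • ev j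

theorem hasE (t : ℝ) :
    HasDerivAt (fun t : ℝ => (Real.exp (-t) : ℂ)) (-(Real.exp (-t) : ℂ)) t := by
  simpa using ((hasDerivAt_neg t).exp).ofReal_comp

theorem deriv_vA {i j : Fin n} (h : i ≠ j) (b : ℝ) (z : CE n) (t : ℝ) :
    HasDerivAt (vA b i j z) (-hA b i j (vA b i j z t)) t := by
  have := ((hasE t).smul_const z).sub
    ((((hasE t).sub ((hasE t).pow 2)).const_mul ((b : ℂ) * z i ^ 2)).smul_const (ev j))
  refine this.congr_deriv ?_
  simp only [hA, vA, PiLp.sub_apply, PiLp.smul_apply, ev_ne h, smul_eq_mul]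
  generalize (Real.exp (-t) : ℂ) = E
  module

theorem deriv_wB {i j : Fin n} (h : i ≠ j) (B : ℝ) {z : CE n} (hz : z ∈ ball (0 : CE n) 1) {t : ℝ}
    (ht : 0 ≤ t) : HasDerivAt (fun t : ℝ => wB B i j z (Real.exp (-t)))
      (-hB B i j (wB B i j z (Real.exp (-t)))) t := by
  have h1 : 1 + z j ≠ 0 := by simpa using one_add_ne hz j zero_le_one le_rfl
  have h2 : 1 + z j * (1 - (Real.exp (-t) : ℂ)) ≠ 0 := by
    simpa using one_add_ne hz j (sub_nonneg.2 (Real.exp_le_one_iff.2 (neg_nonpos.2 ht)))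
      (sub_le_self _ (Real.exp_pos _).le)
  have d1 := ((hasE t).const_sub 1).const_mul (z j)
  have d2 := (hasE t).div (d1.const_add 1) h2
  have := (((hasE t).smul_const z).add ((((d2.const_mul (z i)).mul
    (((d1.div_const (1 + z j)).const_mul (B : ℂ)).cexp)).sub ((hasE t).mul_const (z i))).smul_const
    (ev i))).add (((d2.const_mul (z j)).sub ((hasE t).mul_const (z j))).smul_const (ev j))
  refine this.congr_deriv ?_
  simp only [hB, wB, PiLp.add_apply, PiLp.smul_apply, ev_ne h, ev_ne h.symm, ev_self, smul_eq_mul,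
    Pi.div_apply]
  generalize (Real.exp (-t) : ℂ) = E at *
  generalize Complex.exp (B * (z j * (1 - E) / (1 + z j))) = X
  have h3 : E * z j + (z i * (E / (1 + z j * (1 - E))) * X - E * z i) * 0 +
      (z j * (E / (1 + z j * (1 - E))) - E * z j) * 1 = z j * E / (1 + z j * (1 - E)) := by ring
  have h4 : z j * E / (1 + z j * (1 - E)) / (1 + z j * E / (1 + z j * (1 - E))) =
      z j * E / (1 + z j) := by
    rw [one_add_div h2, div_div_div_cancel_right₀ h2]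
    ring_nf
  rw [h3, h4]
  match_scalars <;> field_simp <;> ring

theorem taylor_line {F : CE n → CE n} {k : ℕ} (hF : ContDiffAt ℂ k F 0) (u w : CE n) :
    ip (iteratedFDeriv ℂ k F 0 fun _ => u) w =
      iteratedDeriv k (fun ζ : ℂ => ip (F (ζ • u)) w) 0 := by
  obtain ⟨s, hs, h1⟩ := hF.contDiffOn le_rfl (by simp)
  have h2 : ContDiffOn ℂ k (ipL w ∘ F) (interior s) :=
    (ipL w).contDiff.comp_contDiffOn (h1.mono interior_subset)
  let L := ContinuousLinearMap.toSpanSingleton ℂ u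
  have h0 : L 0 ∈ interior s := by simpa using mem_interior_iff_mem_nhds.2 hs
  have ho : IsOpen (L ⁻¹' interior s) := isOpen_interior.preimage L.continuous
  have h3 := L.iteratedFDerivWithin_comp_right h2 isOpen_interior.uniqueDiffOn ho.uniqueDiffOn h0
    (i := k) le_rfl
  rw [iteratedFDerivWithin_of_isOpen _ ho h0, iteratedFDerivWithin_of_isOpen _ isOpen_interior h0,
    map_zero, (ipL w).iteratedFDeriv_comp_left hF le_rfl] at h3
  have h4 : (fun ζ : ℂ => ip (F (ζ • u)) w) = (ipL w ∘ F) ∘ L := by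
    ext ζ
    simp [L, ipL_apply]
  rw [h4, iteratedDeriv_eq_iteratedFDeriv, h3]
  simp [L, ipL_apply]

theorem third {ψ : ℂ → ℂ} (h : AnalyticAt ℂ ψ 0) :
    iteratedDeriv 3 (fun ζ : ℂ => ζ * ψ (ζ ^ 2)) 0 = 6 * deriv ψ 0 := by
  obtain ⟨p, hp⟩ := h
  have h1 : ContDiffAt ℂ 3 (fun ζ : ℂ => dslope ψ 0 (ζ ^ 2)) 0 :=
    (hp.has_fpower_series_dslope_fslope.analyticAt.comp_of_eq (f := fun ζ : ℂ => ζ ^ 2)
      (by fun_prop) (by simp)).contDiffAt
  have h2 : (fun ζ : ℂ => ζ * ψ (ζ ^ 2)) =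
      fun ζ => ζ ^ 1 * ψ 0 + ζ ^ 3 * dslope ψ 0 (ζ ^ 2) := by
    ext ζ
    have := sub_smul_dslope ψ 0 (ζ ^ 2)
    rw [smul_eq_mul, sub_zero] at this
    linear_combination -ζ * this
  rw [h2, iteratedDeriv_fun_add (by fun_prop)
    ((by fun_prop : ContDiffAt ℂ 3 (fun ζ : ℂ => ζ ^ 3) 0).mul h1), iteratedDeriv_mul_const_field,
    iteratedDeriv_fun_mul (by fun_prop) h1, iteratedDeriv_pow]
  simp [Finset.sum_range_succ, iteratedDeriv_pow, Nat.descFactorial]

theorem coeff {i j : Fin n} (h : i ≠ j) (b B S : ℝ) (c E : ℂ) :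
    ip (taylorTerm 3 (fun z => c • wB B i j (vA b i j z S) E) (ev i)) (ev i) =
      -(c * Real.exp (-S) * E * (b * (Real.exp (-S) - (Real.exp (-S) : ℂ) ^ 2)) * (1 - E) *
        (B - 1)) := by
  have h1 : ContDiffAt ℂ (3 : ℕ) (fun z => c • wB B i j (vA b i j z S) E) 0 := by
    unfold wB vA
    fun_prop (disch := simp)
  rw [taylorTerm, ip_smul_left, taylor_line h1]
  generalize hτ : (Real.exp (-S) : ℂ) = τ
  set k : ℂ := b * (τ - τ ^ 2) with hk
  let ψ : ℂ → ℂ := fun u => c * τ * (E / (1 + -k * u * (1 - E))) *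
    Complex.exp (B * (-k * u * (1 - E) / (1 + -k * u)))
  have h2 : (fun ζ : ℂ => ip (c • wB B i j (vA b i j (ζ • ev i) S) E) (ev i)) =
      fun ζ => ζ * ψ (ζ ^ 2) := by
    ext ζ
    have e1 : vA b i j (ζ • ev i) S i = τ * ζ := by simp [vA, ev_self, ev_ne h, hτ]
    have e2 : vA b i j (ζ • ev i) S j = -k * ζ ^ 2 := by
      simp only [vA, PiLp.sub_apply, PiLp.smul_apply, ev_self, ev_ne h.symm, hτ, smul_eq_mul, hk]
      ring
    simp only [ip_ev, wB, PiLp.add_apply, PiLp.smul_apply, ev_self, ev_ne h, e1, e2, smul_eq_mul, ψ]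
    ring
  have d0 : HasDerivAt (fun u : ℂ => -k * u) (-k) 0 := by
    simpa using (hasDerivAt_id (0 : ℂ)).const_mul (-k)
  have d1 := d0.mul_const (1 - E)
  have d2 := (((hasDerivAt_const (0 : ℂ) E).div (d1.const_add 1) (by simp)).const_mul (c * τ)).mul
    ((d1.div (d0.const_add 1) (by simp)).const_mul (B : ℂ)).cexp
  have h3 : deriv ψ 0 = _ := d2.deriv
  rw [h2, third (by fun_prop (disch := simp)), h3]
  simp [Nat.factorial]
  ring

theorem main (hn : 2 ≤ n) {M : ℝ} (hM : 1 < M) : ∃ f ∈ Reach (idOp n) (Real.log M), ∃ z : CE n,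
    ‖z‖ = 1 ∧ ‖ip (taylorTerm 3 f z) z‖ = 3 * √3 * (1 + √2) / 4 * (1 - 1 / M) ^ 2 := by
  have h : (⟨0, by omega⟩ : Fin n) ≠ ⟨1, by omega⟩ := by simp
  generalize (⟨0, by omega⟩ : Fin n) = i at h
  generalize (⟨1, by omega⟩ : Fin n) = j at h
  have hM0 : 0 < M := by linarith
  have h1 : 0 < 1 / M := by positivity
  have h2 : 1 / M < 1 := (div_lt_one hM0).2 hM
  have hτ : 0 < (1 + 1 / M) / 2 := by positivity
  have hS : Real.exp (-(-Real.log ((1 + 1 / M) / 2))) = (1 + 1 / M) / 2 := by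
    rw [neg_neg, Real.exp_log hτ]
  have hS0 : 0 ≤ -Real.log ((1 + 1 / M) / 2) := neg_nonneg.2 (Real.log_nonpos hτ.le (by linarith))
  have hS1 : -Real.log ((1 + 1 / M) / 2) ≤ Real.log M := by
    have := Real.log_le_log h1 (show 1 / M ≤ (1 + 1 / M) / 2 by linarith)
    rw [one_div, Real.log_inv] at this
    rw [one_div]
    linarith
  generalize -Real.log ((1 + 1 / M) / 2) = S at *
  have hE : Real.exp (-(Real.log M - S)) = 2 / (M + 1) := by
    have h3 : Real.exp S = ((1 + 1 / M) / 2)⁻¹ := by rw [← hS, Real.exp_neg, inv_inv]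
    rw [neg_sub, Real.exp_sub, Real.exp_log hM0, h3]
    field_simp
  refine ⟨_, reach_two (inN_hA h) (inN_hB h) hS0 hS1 (v₁ := vA (3 * √3 / 2) i j)
    (v₂ := fun z t => wB (3 + 2 * √2) i j z (Real.exp (-t))) (fun z => by simp [vA])
    (fun z => by simp [wB]) (fun z _ t _ => deriv_vA h _ z t) fun z hz t ht => deriv_wB h _ hz ht,
    ev i, by simp [ev], ?_⟩
  simp only [expm, idOp, exp_id_apply]
  rw [coeff h, hS, hE, Real.exp_log hM0, norm_neg]
  norm_cast
  rw [← abs_of_nonneg (show 0 ≤ 3 * √3 * (1 + √2) / 4 * (1 - 1 / M) ^ 2 by positivity),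
    Real.norm_eq_abs]
  congr 1
  field_simp
  ring

end Pool.Agent.Lib.MP_c027d2_an.H86
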