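import Pool.Agent.Lib.MP_c027d2_an.H92Flow

/-! A composition of four flows whose derivative is exponentially small at one point. -/

open MeasureTheory Metric Set Filter Topology

namespace Pool.Agent.Lib.MP_c027d2_an.H92

variable {n : ℕ}

theorem fderiv_red_perp {e τ : CE n} (he : ‖e‖ = 1) (ho : ip τ e = 0) {φ ψ : ℂ → ℂ} {a : ℂ}
    (hd : DifferentiableAt ℂ (red e φ ψ) (a • e)) :
    fderiv ℂ (red e φ ψ) (a • e) τ = ψ a • τ := by
  have h1 := hasDerivAt_line (η := τ) hd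
  simp only [red_comb he ho] at h1
  have h2 := ((((hasDerivAt_id (0 : ℂ)).const_mul (ψ a)).smul_const τ).const_add (φ a • e))
  simpa using h1.unique h2

theorem fderiv_red_axis {e : CE n} (he : ‖e‖ = 1) {φ ψ : ℂ → ℂ} {a : ℂ}
    (hd : DifferentiableAt ℂ (red e φ ψ) (a • e)) (hφ : DifferentiableAt ℂ φ a) :
    fderiv ℂ (red e φ ψ) (a • e) e = deriv φ a • e := by
  have h1 := hasDerivAt_line (η := e) hd
  have e1 : (fun s : ℂ => red e φ ψ (a • e + s • e)) = fun s : ℂ => φ (a + s) • e := by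
    ext1 s
    have := red_comb he (ip_zero_left e) φ ψ (a + s) 0
    simpa [add_smul] using this
  rw [e1] at h1
  have h3 : HasDerivAt φ (deriv φ a) (a + 0) := by simpa using hφ.hasDerivAt
  exact h1.unique ((h3.comp_const_add a 0).smul_const e)

theorem cψ_inv {m l : ℝ} (hm : m ≠ 0) (hl : l ≠ 0) (E : ℝ) (x : ℂ) :
    cψ m⁻¹ l⁻¹ E x = E * ((m - x) * (l - E * x)) / ((l - x) * (m - E * x)) := by
  have m0 : (m : ℂ) ≠ 0 := by exact_mod_cast hm
  have l0 : (l : ℂ) ≠ 0 := by exact_mod_cast hl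
  rw [← mul_div_mul_left _ _ (mul_ne_zero (inv_ne_zero m0) (inv_ne_zero l0)), cψ]
  push_cast
  congr 1 <;> field_simp

/-- The modulus of the point at which the rotation is performed. -/
noncomputable def ρf (τ : ℝ) : ℝ := (1 - τ) * √(1 + 864 * τ / (745 - 2190 * τ))

theorem phaseB {e e' : CE n} (he : ‖e‖ = 1) (he' : ‖e'‖ = 1) (ho : ip e' e = 0) {τ : ℝ}
    (h0 : 0 < τ) (h1 : τ ≤ 1 / 100) (hρ : ρf τ < 1) :
    ∃ (T : ℝ) (V : CE n → CE n) (w : CE n), T ≤ 60 * τ ∧ IsFlow (idOp n) T V ∧ ‖w‖ = ρf τ ∧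
      ip (fderiv ℂ V w w) (V w) = 0 ∧ 1 - 30 * τ ≤ ‖V w‖ := by
  have p1 : 0 < 1 - τ := by linarith
  have p2 : 0 < 1 - 2 * τ := by linarith
  have p3 : 0 < 1 - 30 * τ := by linarith
  have p4 : 0 < 745 - 2190 * τ := by linarith
  have t1 : 0 ≤ Real.log ((1 - τ) / (1 - 2 * τ)) :=
    Real.log_nonneg (by rw [le_div_iff₀ p2]; linarith)
  have t2 : 0 ≤ Real.log ((1 - 2 * τ) / (1 - 30 * τ)) :=
    Real.log_nonneg (by rw [le_div_iff₀ p3]; linarith)
  have F₁ := isFlow_chi he zero_le_one le_rfl le_rfl zero_le_one hab_one t1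
  have F₂ := isFlow_chi he (a := (1 + 9 * (2 * τ))⁻¹) (b := (1 + 2 * τ)⁻¹) (by positivity)
    (inv_le_one_of_one_le₀ (by linarith)) (by positivity) (inv_le_one_of_one_le₀ (by linarith))
    (hab_two (by positivity)) t2
  rw [Real.exp_neg, Real.exp_log (by positivity), inv_div] at F₁ F₂
  have F := F₁.comp F₂
  set β := √(864 * τ / (745 - 2190 * τ)) with hβ
  have β2 : β ^ 2 = 864 * τ / (745 - 2190 * τ) := Real.sq_sqrt (by positivity)
  set w : CE n := ((1 - τ : ℝ) : ℂ) • e + (((1 - τ) * β : ℝ) : ℂ) • e' with hw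
  have nw : ‖w‖ = ρf τ := by
    rw [← sq_eq_sq₀ (norm_nonneg _) (by unfold ρf; positivity), hw, norm_sq_orth he ho, he', ρf,
      mul_pow, Real.sq_sqrt (by positivity), ← β2, Complex.norm_real, Complex.norm_real,
      Real.norm_eq_abs, Real.norm_eq_abs, sq_abs, sq_abs]
    ring
  have c0 : (τ : ℂ) ≠ 0 := by exact_mod_cast h0.ne'
  have c1 : (1 - τ : ℂ) ≠ 0 := by exact_mod_cast p1.ne'
  have c2 : (1 - 2 * τ : ℂ) ≠ 0 := by exact_mod_cast p2.ne'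
  have c2' : (1 - τ * 2 : ℂ) ≠ 0 := by rwa [mul_comm]
  have line : ∀ s : ℂ, (red e (fun ζ => (((1 - 30 * τ) / (1 - 2 * τ) : ℝ) : ℂ) * ζ)
      (cψ (1 + 9 * (2 * τ))⁻¹ (1 + 2 * τ)⁻¹ ((1 - 30 * τ) / (1 - 2 * τ))) ∘
      red e (fun ζ => (((1 - 2 * τ) / (1 - τ) : ℝ) : ℂ) * ζ) (cψ 1 0 ((1 - 2 * τ) / (1 - τ))))
      (w + s • w) = ((1 - 30 * τ : ℂ) * (1 + s)) • e +
      ((1 - 30 * τ : ℂ) * β * (((20 * τ - s * (1 - 2 * τ)) * (32 * τ - s * (1 - 30 * τ))) /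
        ((4 * τ - s * (1 - 2 * τ)) * (48 * τ - s * (1 - 30 * τ))) *
        ((τ - s * (1 - τ)) / (2 * τ - s * (1 - 2 * τ)) * (1 + s)))) • e' := by
    intro s
    have e1 : w + s • w = ((1 - τ : ℂ) * (1 + s)) • e + ((1 - τ : ℂ) * β * (1 + s)) • e' := by
      rw [hw]; push_cast; module
    have x1 : (((1 - 2 * τ) / (1 - τ) : ℝ) : ℂ) * ((1 - τ : ℂ) * (1 + s)) =
        (1 - 2 * τ : ℂ) * (1 + s) := by push_cast; field_simp
    have x2 : (((1 - 30 * τ) / (1 - 2 * τ) : ℝ) : ℂ) * ((1 - 2 * τ : ℂ) * (1 + s)) =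
        (1 - 30 * τ : ℂ) * (1 + s) := by push_cast; field_simp
    rw [Function.comp_apply, e1, red_comb he ho, red_comb he ho,
      cψ_inv (by positivity) (by positivity), cψ, x1, x2]
    congr 2
    have y1 : ((1 + 9 * (2 * τ) : ℝ) : ℂ) - (1 - 2 * τ : ℂ) * (1 + s) =
      20 * τ - s * (1 - 2 * τ) := by push_cast; ring
    have y2 : ((1 + 2 * τ : ℝ) : ℂ) - (1 - 30 * τ : ℂ) * (1 + s) =
      32 * τ - s * (1 - 30 * τ) := by push_cast; ring
    have y3 : ((1 + 2 * τ : ℝ) : ℂ) - (1 - 2 * τ : ℂ) * (1 + s) =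
      4 * τ - s * (1 - 2 * τ) := by push_cast; ring
    have y4 : ((1 + 9 * (2 * τ) : ℝ) : ℂ) - (1 - 30 * τ : ℂ) * (1 + s) =
      48 * τ - s * (1 - 30 * τ) := by push_cast; ring
    have y5 : 1 - ((1 : ℝ) : ℂ) * ((1 - τ : ℂ) * (1 + s)) = τ - s * (1 - τ) := by push_cast; ring
    have y6 : 1 - ((1 : ℝ) : ℂ) * ((1 - 2 * τ : ℂ) * (1 + s)) = 2 * τ - s * (1 - 2 * τ) := by
      push_cast; ring
    rw [y1, y2, y3, y4, y5, y6]
    simp only [Complex.ofReal_zero, zero_mul, sub_zero, mul_one, one_mul, mul_div_assoc]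
    generalize (τ - s * (1 - τ) : ℂ) / (2 * τ - s * (1 - 2 * τ)) = P
    generalize (32 * τ - s * (1 - 30 * τ) : ℂ) /
      ((4 * τ - s * (1 - 2 * τ)) * (48 * τ - s * (1 - 30 * τ))) = Q
    push_cast
    field_simp
  have lin : ∀ a b : ℂ, HasDerivAt (fun s : ℂ => a - s * b) (-b) 0 := fun a b => by
    simpa using ((hasDerivAt_id (0 : ℂ)).mul_const b).const_sub a
  have one : HasDerivAt (fun s : ℂ => 1 + s) 1 0 := (hasDerivAt_id (0 : ℂ)).const_add 1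
  have hD := hasDerivAt_line (η := w) (F.diffAt (mem_ball_zero_iff.2 (nw.trans_lt hρ)))
  simp only [line] at hD
  have hD2 := ((one.const_mul (1 - 30 * τ : ℂ)).smul_const e).add
    ((((((lin (20 * τ) (1 - 2 * τ)).mul (lin (32 * τ) (1 - 30 * τ))).div
      ((lin (4 * τ) (1 - 2 * τ)).mul (lin (48 * τ) (1 - 30 * τ))) (by simp [c0])).mul
      (((lin τ (1 - τ)).div (lin (2 * τ) (1 - 2 * τ)) (by simp [c0])).mul one)).const_mul
      ((1 - 30 * τ : ℂ) * β)).smul_const e')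
  have hv := line 0
  rw [zero_smul, add_zero] at hv
  have ho' : ip e e' = 0 := by rw [← ip_conj, ho, map_zero]
  refine ⟨_, _, w, ?_, F, nw, ?_, ?_⟩
  · have a1 := Real.log_le_sub_one_of_pos (show 0 < (1 - τ) / (1 - 2 * τ) by positivity)
    have a2 := Real.log_le_sub_one_of_pos (show 0 < (1 - 2 * τ) / (1 - 30 * τ) by positivity)
    have a3 : (1 - τ) / (1 - 2 * τ) ≤ 1 + 2 * τ := by rw [div_le_iff₀ p2]; nlinarith
    have a4 : (1 - 2 * τ) / (1 - 30 * τ) ≤ 1 + 40 * τ := by rw [div_le_iff₀ p3]; nlinarith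
    linarith
  · have β3 : (β : ℂ) ^ 2 * (745 - 2190 * τ) = 864 * τ := by
      have : β ^ 2 * (745 - 2190 * τ) = 864 * τ := by rw [β2, div_mul_cancel₀ _ p4.ne']
      exact_mod_cast this
    rw [hD.unique hD2, hv]
    simp only [ip_add_left, ip_add_right, ip_smul_left, ip_smul_right, ip_self, he, he', ho, ho',
      Pi.mul_apply, Pi.div_apply, zero_mul, sub_zero, add_zero, mul_zero, zero_add, map_mul,
      map_sub, map_div₀, map_one, map_ofNat, Complex.conj_ofReal]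
    push_cast
    field_simp
    linear_combination (-65536 * (1 - 30 * τ : ℂ) ^ 2) * β3
  · have := norm_ip_le ((red e (fun ζ => (((1 - 30 * τ) / (1 - 2 * τ) : ℝ) : ℂ) * ζ)
      (cψ (1 + 9 * (2 * τ))⁻¹ (1 + 2 * τ)⁻¹ ((1 - 30 * τ) / (1 - 2 * τ))) ∘
      red e (fun ζ => (((1 - 2 * τ) / (1 - τ) : ℝ) : ℂ) * ζ) (cψ 1 0 ((1 - 2 * τ) / (1 - τ)))) w) e
    rw [he, mul_one] at this
    refine le_trans ?_ this
    rw [hv, ip_comb he ho, add_zero, mul_one,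
      show (1 - 30 * τ : ℂ) = ((1 - 30 * τ : ℝ) : ℂ) by push_cast; ring, Complex.norm_real,
      Real.norm_eq_abs, abs_of_pos p3]

theorem norm_kψ {E x : ℝ} (h0 : 0 < E) (h1 : E ≤ 1) :
    ‖kψ E x‖ ≤ Real.exp (-((1 - E) * x / (1 - x))) := by
  have e : -(((1 - E : ℝ) : ℂ) * x / (1 - x)) = ((-((1 - E) * x / (1 - x)) : ℝ) : ℂ) := by
    push_cast; ring
  rw [kψ, norm_mul, e, Complex.norm_exp_ofReal, Complex.norm_real, Real.norm_eq_abs, abs_of_pos h0]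
  exact mul_le_of_le_one_left (Real.exp_pos _).le h1

theorem unit_dir {w : CE n} (hw : 0 < ‖w‖) : ∃ u : CE n, ‖u‖ = 1 ∧ w = ((‖w‖ : ℝ) : ℂ) • u := by
  refine ⟨((‖w‖⁻¹ : ℝ) : ℂ) • w, ?_, ?_⟩
  · rw [norm_smul, Complex.norm_real, Real.norm_eq_abs, abs_of_pos (by positivity),
      inv_mul_cancel₀ hw.ne']
  · rw [smul_smul, ← Complex.ofReal_mul, mul_inv_cancel₀ hw.ne']; simp

theorem assemble {T S U r : ℝ} {V : CE n → CE n} {w : CE n} (F : IsFlow (idOp n) T V)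
    (hS : 0 ≤ S) (hU : 0 ≤ U) (w0 : 0 < ‖w‖) (wr : ‖w‖ ≤ r) (r1 : r < 1) (v0 : 0 < ‖V w‖)
    (ho : ip (fderiv ℂ V w w) (V w) = 0) (hr : kφ (Real.exp (-S)) r = (‖w‖ : ℝ)) :
    ∃ (W : CE n → CE n) (z : CE n), IsFlow (idOp n) (S + T + U) W ∧ ‖z‖ = r ∧
      ‖fderiv ℂ W z‖ ≤ 4 / (1 - r) ^ 2 * ‖kψ (Real.exp (-U)) (‖V w‖ : ℝ)‖ +
        4 / (1 - r) * ‖kψ (Real.exp (-S)) r‖ := by
  obtain ⟨u, hu, eu⟩ := unit_dir w0
  obtain ⟨u', hu', eu'⟩ := unit_dir v0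
  have FA := isFlow_kill hu hS
  have FC := isFlow_kill hu' hU
  set P := red u (kφ (Real.exp (-S))) (kψ (Real.exp (-S))) with hP
  set Q := red u' (kφ (Real.exp (-U))) (kψ (Real.exp (-U))) with hQ
  have r0 : 0 < r := w0.trans_le wr
  have hδ : 0 < 1 - r := by linarith
  have er : ‖(r : ℂ)‖ = r := by rw [Complex.norm_real, Real.norm_eq_abs, abs_of_pos r0]
  have nz : ‖(r : ℂ) • u‖ = r := by rw [norm_smul, hu, er, mul_one]
  have mz : (r : ℂ) • u ∈ ball (0 : CE n) 1 := mem_ball_zero_iff.2 (by rwa [nz])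
  have mw : w ∈ ball (0 : CE n) 1 := mem_ball_zero_iff.2 (by linarith)
  have Pz : P ((r : ℂ) • u) = w := by
    have := red_comb hu (ip_zero_left u) (kφ (Real.exp (-S))) (kψ (Real.exp (-S))) r 0
    simp only [smul_zero, add_zero] at this
    rw [hP, this, hr, ← eu]
  have dP := FA.diffAt mz
  have dV := F.diffAt mw
  have dQ := FC.diffAt (F.mem mw)
  refine ⟨(Q ∘ V) ∘ P, (r : ℂ) • u, ?_, nz, ?_⟩
  · rw [add_assoc]; exact FA.comp (F.comp FC)
  have b1 := FA.fderiv_le mz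
  have b2 := F.fderiv_le mw
  have b3 := (F.comp FC).fderiv_le mw
  rw [nz] at b1
  have b4 : 2 / (1 - ‖w‖) ≤ 2 / (1 - r) := by gcongr
  have dφ : DifferentiableAt ℂ (kφ (Real.exp (-S))) r :=
    DifferentiableAt.div (by fun_prop) (by fun_prop)
      (one_sub_ne (by linarith [(exp_neg_mem hS).2]) (by linarith [(exp_neg_mem hS).1])
        (by rwa [er]))
  have a1 := fderiv_red_axis hu dP dφ
  have a2 : ‖deriv (kφ (Real.exp (-S))) r‖ ≤ 2 / (1 - r) := by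
    have := (fderiv ℂ P ((r : ℂ) • u)).le_opNorm u
    rw [a1, norm_smul, hu, mul_one, mul_one] at this
    linarith
  have a3 : ip (fderiv ℂ V w u) u' = 0 := by
    have e1 : fderiv ℂ V w w = ((‖w‖ : ℝ) : ℂ) • fderiv ℂ V w u := by rw [← map_smul, ← eu]
    rw [e1, ip_smul_left] at ho
    conv_lhs at ho => rw [eu', ip_smul_right, Complex.conj_ofReal]
    simpa [w0.ne', v0.ne', norm_pos_iff.1 w0, norm_pos_iff.1 v0] using ho
  have a4 : fderiv ℂ (Q ∘ V) w u = kψ (Real.exp (-U)) (‖V w‖ : ℝ) • fderiv ℂ V w u := by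
    rw [fderiv_comp w dQ dV, ContinuousLinearMap.comp_apply]
    conv_lhs => rw [eu']
    exact fderiv_red_perp hu' a3 (eu' ▸ dQ)
  have a5 : ‖fderiv ℂ V w u‖ ≤ 2 / (1 - r) := by
    have := (fderiv ℂ V w).le_opNorm u
    rw [hu, mul_one] at this
    linarith
  refine ContinuousLinearMap.opNorm_le_bound _ (by positivity) fun ξ => ?_
  have dQV : DifferentiableAt ℂ (Q ∘ V) (P ((r : ℂ) • u)) := by rw [Pz]; exact dQ.comp w dV
  have a6 : fderiv ℂ P ((r : ℂ) • u) ξ = (ip ξ u * deriv (kφ (Real.exp (-S))) r) • u +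
      kψ (Real.exp (-S)) r • (ξ - ip ξ u • u) := by
    rw [← fderiv_red_perp hu (ip_perp hu ξ) dP, mul_smul, ← a1, ← map_smul, ← map_add,
      add_sub_cancel]
  have n1 : ‖ip ξ u‖ ≤ ‖ξ‖ := by simpa [hu] using norm_ip_le ξ u
  have n2 : ‖ξ - ip ξ u • u‖ ≤ 2 * ‖ξ‖ := by
    refine (norm_sub_le _ _).trans ?_
    rw [norm_smul, hu]
    linarith
  have n3 : ‖fderiv ℂ (Q ∘ V) w (ξ - ip ξ u • u)‖ ≤ 2 / (1 - r) * (2 * ‖ξ‖) :=
    ((fderiv ℂ (Q ∘ V) w).le_opNorm _).trans (by gcongr; linarith)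
  rw [fderiv_comp _ dQV dP, ContinuousLinearMap.comp_apply, Pz, a6, map_add, map_smul, map_smul, a4]
  refine (norm_add_le _ _).trans ?_
  rw [norm_smul, norm_smul, norm_smul, norm_mul]
  calc _ ≤ ‖ξ‖ * (2 / (1 - r)) * (‖kψ (Real.exp (-U)) (‖V w‖ : ℝ)‖ * (2 / (1 - r))) +
        ‖kψ (Real.exp (-S)) r‖ * (2 / (1 - r) * (2 * ‖ξ‖)) := by gcongr
    _ = _ := by field_simp; ring

theorem ρf_bounds {τ : ℝ} (h0 : 0 ≤ τ) (h1 : τ ≤ 1 / 100) : 1 - τ ≤ ρf τ ∧ ρf τ ≤ 1 - τ / 3 := by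
  have p4 : 0 < 745 - 2190 * τ := by linarith
  have q0 : 0 ≤ 864 * τ / (745 - 2190 * τ) := by positivity
  have q1 : 864 * τ / (745 - 2190 * τ) ≤ 6 / 5 * τ := by rw [div_le_iff₀ p4]; nlinarith
  have s1 : 1 ≤ √(1 + 864 * τ / (745 - 2190 * τ)) := Real.one_le_sqrt.2 (by linarith)
  have s2 : √(1 + 864 * τ / (745 - 2190 * τ)) ≤ 1 + 3 / 5 * τ :=
    Real.sqrt_le_iff.2 ⟨by linarith, by nlinarith⟩
  unfold ρf
  constructor <;> nlinarith

theorem ρf_cont {a : ℝ} (h1 : a ≤ 1 / 100) : ContinuousOn ρf (Icc 0 a) := by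
  unfold ρf
  refine ContinuousOn.mul (by fun_prop) (ContinuousOn.sqrt (ContinuousOn.add (by fun_prop)
    (ContinuousOn.div (by fun_prop) (by fun_prop) fun x hx => ?_)))
  linarith [hx.2]

/-- A flow with exponentially small derivative at a point of modulus `r`. -/
theorem small_flow (hn : 2 ≤ n) {T : ℝ} (hT : 0 < T) : ∃ c r₀ : ℝ, 0 < c ∧ r₀ < 1 ∧
    ∀ r, r₀ ≤ r → r < 1 → ∃ (W : CE n → CE n) (z : CE n), IsFlow (idOp n) T W ∧ ‖z‖ = r ∧
      ‖fderiv ℂ W z‖ ≤ 8 / (1 - r) ^ 2 * Real.exp (-(c / (1 - r))) := by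
  set E := Real.exp (-(T / 3)) with hE
  have E0 : 0 < E := Real.exp_pos _
  have E1 : E < 1 := Real.exp_lt_one_iff.2 (by linarith)
  set a := min (1 / 100) (T / 180) with ha
  have a0 : 0 < a := by positivity
  have a1 : a ≤ 1 / 100 := min_le_left _ _
  have a2 : a ≤ T / 180 := min_le_right _ _
  refine ⟨(1 - E) * E / 360, 1 - E * a / 6, by nlinarith [mul_pos (sub_pos.2 E1) E0],
    by nlinarith [mul_pos E0 a0], fun r hr r1 => ?_⟩
  have Ea : E * a ≤ 1 / 100 := by nlinarith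
  have r2 : 1 / 2 ≤ r := by linarith
  have hδ : 0 < 1 - r := by linarith
  have D0 : E ≤ 1 - (1 - E) * r := by nlinarith
  have D1 : 0 < 1 - (1 - E) * r := E0.trans_le D0
  set ρ := E * r / (1 - (1 - E) * r) with hρ
  have e1 : (1 - ρ) * (1 - (1 - E) * r) = 1 - r := by
    rw [hρ, sub_mul, div_mul_cancel₀ _ D1.ne']; ring
  have ρ1 : ρ < 1 := by
    by_contra hc
    nlinarith [mul_nonneg (sub_nonneg.2 (not_lt.1 hc)) D1.le]
  have ρ2 : E * (1 - ρ) ≤ 1 - r := by nlinarith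
  have ρ3 : ρ ≤ r := by nlinarith [mul_nonneg (sub_pos.2 ρ1).le (mul_nonneg (sub_pos.2 E1).le
    (show 0 ≤ r by linarith))]
  obtain ⟨τ, hτ, eτ⟩ : ρ ∈ ρf '' Icc 0 a := by
    refine intermediate_value_Icc' a0.le (ρf_cont a1) ⟨?_, by simpa [ρf] using ρ1.le⟩
    have := (ρf_bounds a0.le a1).2
    have : E * (1 - ρ) ≤ E * (a / 6) := by linarith
    have := le_of_mul_le_mul_left this E0
    linarith
  have τ1 : τ ≤ 1 / 100 := hτ.2.trans a1
  have τ0 : 0 < τ := hτ.1.lt_of_ne fun h => by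
    rw [← h] at eτ
    simp [ρf] at eτ
    linarith
  obtain ⟨b1, b2⟩ := ρf_bounds hτ.1 τ1
  let i : Fin n := ⟨0, by omega⟩
  let j : Fin n := ⟨1, by omega⟩
  have hij : i ≠ j := by simp [i, j]
  obtain ⟨TB, V, w, hTB, F, nw, ho, nv⟩ := phaseB (e := H86.ev i) (e' := H86.ev j)
    (by simp [H86.ev]) (by simp [H86.ev]) (by rw [H86.ip_ev, H86.ev_ne hij]) τ0 τ1 (by linarith)
  have hU : T / 3 ≤ T - T / 3 - TB := by linarith [hτ.2]
  obtain ⟨W, z, FW, nz, hb⟩ := assemble (S := T / 3) (U := T - T / 3 - TB) (r := r) F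
    (by linarith) (by linarith) (by linarith) (by linarith) r1 (by linarith) ho (by
      rw [nw, eτ, hρ, kφ, ← hE]; push_cast; ring)
  rw [show T / 3 + TB + (T - T / 3 - TB) = T by ring] at FW
  refine ⟨W, z, FW, nz, hb.trans ?_⟩
  have v1 : ‖V w‖ < 1 := mem_ball_zero_iff.1 (F.mem (mem_ball_zero_iff.2 (by linarith)))
  have k1 : ‖kψ (Real.exp (-(T - T / 3 - TB))) (‖V w‖ : ℝ)‖ ≤
      Real.exp (-((1 - E) * E / 360 / (1 - r))) := by
    have m := exp_neg_mem (show 0 ≤ T - T / 3 - TB by linarith)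
    refine (norm_kψ m.1 m.2).trans (Real.exp_le_exp.2 (neg_le_neg ?_))
    have m2 : Real.exp (-(T - T / 3 - TB)) ≤ E := Real.exp_le_exp.2 (by linarith)
    rw [div_le_div_iff₀ hδ (by linarith)]
    have m3 : E * (1 - ‖V w‖) ≤ 90 * (1 - r) := by nlinarith
    have m4 : (1 - E) * (1 / 2) ≤ (1 - Real.exp (-(T - T / 3 - TB))) * ‖V w‖ := by
      gcongr
      · linarith
      · linarith
    nlinarith [mul_le_mul_of_nonneg_left m3 (sub_pos.2 E1).le,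
      mul_le_mul_of_nonneg_right m4 hδ.le, mul_pos (sub_pos.2 E1) hδ]
  have k2 : ‖kψ E r‖ ≤ Real.exp (-((1 - E) * E / 360 / (1 - r))) := by
    refine (norm_kψ E0 E1.le).trans (Real.exp_le_exp.2 (neg_le_neg ?_))
    gcongr ?_ / _
    nlinarith [mul_pos (sub_pos.2 E1) E0, mul_nonneg (sub_pos.2 E1).le (sub_pos.2 E1).le]
  have k3 : 4 / (1 - r) ≤ 4 / (1 - r) ^ 2 := by
    gcongr
    nlinarith
  calc _ ≤ 4 / (1 - r) ^ 2 * Real.exp (-((1 - E) * E / 360 / (1 - r))) +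
        4 / (1 - r) ^ 2 * Real.exp (-((1 - E) * E / 360 / (1 - r))) := by gcongr
    _ = _ := by ring

theorem det_bounds (L : CE n →L[ℂ] CE n) {a b : ℝ} (ha : 0 ≤ a)
    (h1 : ∀ ξ, a * ‖ξ‖ ≤ ‖L ξ‖) (h2 : ‖L‖ ≤ b) : a ^ n ≤ ‖L.det‖ ∧ ‖L.det‖ ≤ b ^ n := by
  have hs := IsAlgClosed.splits (L : CE n →ₗ[ℂ] CE n).charpoly
  have e := Module.End.det_eq_prod_roots_charpoly_of_splits hs
  have hc : (L : CE n →ₗ[ℂ] CE n).charpoly.roots.card = n := by
    rw [← hs.natDegree_eq_card_roots, LinearMap.charpoly_natDegree]; simp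
  have hr : ∀ μ ∈ (L : CE n →ₗ[ℂ] CE n).charpoly.roots, a ≤ ‖μ‖ ∧ ‖μ‖ ≤ b := fun μ hμ => by
    obtain ⟨ξ, hξ⟩ := ((Module.End.hasEigenvalue_iff_isRoot_charpoly _ μ).2
      (Polynomial.isRoot_of_mem_roots hμ)).exists_hasEigenvector
    have e1 : L ξ = μ • ξ := hξ.apply_eq_smul
    have p : 0 < ‖ξ‖ := norm_pos_iff.2 hξ.2
    have q1 := h1 ξ
    have q2 := L.le_of_opNorm_le h2 ξ
    rw [e1, norm_smul] at q1 q2
    exact ⟨le_of_mul_le_mul_right q1 p, le_of_mul_le_mul_right q2 p⟩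
  have key : ∀ s : Multiset ℂ, (∀ μ ∈ s, a ≤ ‖μ‖ ∧ ‖μ‖ ≤ b) →
      a ^ s.card ≤ ‖s.prod‖ ∧ ‖s.prod‖ ≤ b ^ s.card := fun s => by
    induction s using Multiset.induction_on with
    | empty => simp
    | cons μ s ih =>
      intro h
      obtain ⟨i1, i2⟩ := ih fun x hx => h x (Multiset.mem_cons_of_mem hx)
      obtain ⟨j1, j2⟩ := h μ (Multiset.mem_cons_self _ _)
      have hb : 0 ≤ b := (norm_nonneg _).trans j2
      rw [Multiset.card_cons, Multiset.prod_cons, norm_mul, pow_succ', pow_succ']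
      exact ⟨by gcongr, by gcongr⟩
  have := key _ hr
  rwa [hc, ← e] at this

theorem fderiv_expm {V : CE n → CE n} {z : CE n} (hd : DifferentiableAt ℂ V z) {M : ℝ}
    (hM : 1 < M) : fderiv ℂ (fun z => expm (Real.log M) (idOp n) (V z)) z =
      (M : ℂ) • fderiv ℂ V z := by
  have e : (fun z => expm (Real.log M) (idOp n) (V z)) = fun z => (M : ℂ) • V z := by
    ext1 y
    rw [expm, idOp, exp_id_apply, Real.exp_log (by linarith)]
  rw [e]
  exact (hd.hasFDerivAt.const_smul (M : ℂ)).fderiv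

theorem lower (hn : 2 ≤ n) {M : ℝ} (hM : 1 < M) : ∃ C : ℝ, 0 < C ∧
    ∀ f ∈ Reach (idOp n) (Real.log M), ∀ z : CE n, ‖z‖ < 1 →
      Real.exp (-(C / (1 - ‖z‖))) ≤ ‖fderiv ℂ f z‖ ∧
      Real.exp (-(C / (1 - ‖z‖))) ≤ ‖(fderiv ℂ f z).det‖ := by
  obtain ⟨C, hC, hl⟩ := flow_lower (idOp n)
  have hT : 0 < Real.log M := Real.log_pos hM
  refine ⟨n * (8 * C + 6 * C * Real.log M), by positivity, ?_⟩
  rintro f ⟨h, v, hN, hm, hv, e⟩ z hz
  have hv' : ∀ z ∈ ball (0 : CE n) 1, Traj h (Real.log M) (v z) ∧ v z 0 = z := fun z hz =>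
    ⟨⟨(hv z hz).1, (hv z hz).2.2.1, (hv z hz).2.2.2⟩, (hv z hz).2.1⟩
  have mz := mem_ball_zero_iff.2 hz
  have e1 : fderiv ℂ f z = (M : ℂ) • fderiv ℂ (fun z => v z (Real.log M)) z := by
    rw [← fderiv_expm (flow_diffAt hT.le hN hm hv' mz) hM]
    refine Filter.EventuallyEq.fderiv_eq ?_
    filter_upwards [isOpen_ball.mem_nhds mz] with y hy using e y hy
  have k : ∀ ξ, Real.exp (-((8 * C + 6 * C * Real.log M) / (1 - ‖z‖))) * ‖ξ‖ ≤
      ‖fderiv ℂ f z ξ‖ := fun ξ => by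
    refine (hl _ hT.le h v hN hm hv' z mz ξ).trans ?_
    rw [e1, smul_apply, norm_smul, Complex.norm_real, Real.norm_eq_abs,
      abs_of_pos (by linarith)]
    exact le_mul_of_one_le_left (norm_nonneg _) hM.le
  have hδ : 0 < 1 - ‖z‖ := by linarith
  have e2 : Real.exp (-(n * (8 * C + 6 * C * Real.log M) / (1 - ‖z‖))) =
      Real.exp (-((8 * C + 6 * C * Real.log M) / (1 - ‖z‖))) ^ n := by
    rw [← Real.exp_nat_mul]; congr 1; ring
  rw [e2]
  refine ⟨?_, (det_bounds _ (Real.exp_pos _).le k le_rfl).1⟩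
  have k1 := (k (H86.ev ⟨0, by omega⟩)).trans ((fderiv ℂ f z).le_opNorm _)
  have k2 : ‖(H86.ev ⟨0, by omega⟩ : CE n)‖ = 1 := by simp [H86.ev]
  rw [k2, mul_one, mul_one] at k1
  refine le_trans (pow_le_of_le_one (Real.exp_pos _).le ?_ (by omega)) k1
  exact Real.exp_le_one_iff.2 (neg_nonpos.2 (by positivity))

theorem upper (hn : 2 ≤ n) {M : ℝ} (hM : 1 < M) : ∃ c r₀ : ℝ, 0 < c ∧ r₀ < 1 ∧
    ∀ r, r₀ ≤ r → r < 1 → ∃ f ∈ Reach (idOp n) (Real.log M), ∃ z : CE n, ‖z‖ = r ∧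
      ‖fderiv ℂ f z‖ ≤ Real.exp (-(c / (1 - r))) ∧
      ‖(fderiv ℂ f z).det‖ ≤ Real.exp (-(c / (1 - r))) := by
  obtain ⟨c, r₀, hc, hr₀, H⟩ := small_flow hn (Real.log_pos hM)
  refine ⟨c / 2, max r₀ (1 - c ^ 3 / (384 * M)), by positivity,
    max_lt hr₀ (by simp only [sub_lt_self_iff]; positivity), fun r hr r1 => ?_⟩
  obtain ⟨W, z, F, nz, hb⟩ := H r ((le_max_left _ _).trans hr) r1
  have hδ : 0 < 1 - r := by linarith
  have k : ‖fderiv ℂ (fun z => expm (Real.log M) (idOp n) (W z)) z‖ ≤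
      Real.exp (-(c / 2 / (1 - r))) := by
    rw [fderiv_expm (F.diffAt (mem_ball_zero_iff.2 (by linarith))) hM, norm_smul,
      Complex.norm_real, Real.norm_eq_abs, abs_of_pos (by linarith)]
    have a1 : 1 - r ≤ c ^ 3 / (384 * M) := by linarith [(le_max_right _ _).trans hr]
    have a2 := Real.pow_div_factorial_le_exp (c / 2 / (1 - r)) (by positivity) 3
    have a3 : M * (8 / (1 - r) ^ 2) ≤ (c / 2 / (1 - r)) ^ 3 / (Nat.factorial 3 : ℕ) := by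
      rw [le_div_iff₀ (by positivity)] at a1
      have : (c / 2 / (1 - r)) ^ 3 / (Nat.factorial 3 : ℕ) = c ^ 3 / (48 * (1 - r)) / (1 - r) ^ 2 := by
        simp only [Nat.factorial]; push_cast; field_simp; ring
      rw [this, ← mul_div_assoc]
      gcongr
      rw [le_div_iff₀ (by positivity)]
      linarith
    have a4 : Real.exp (-(c / 2 / (1 - r))) =
        Real.exp (c / 2 / (1 - r)) * Real.exp (-(c / (1 - r))) := by
      rw [← Real.exp_add]; congr 1; ring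
    rw [a4]
    calc _ ≤ M * (8 / (1 - r) ^ 2 * Real.exp (-(c / (1 - r)))) := by gcongr
      _ = M * (8 / (1 - r) ^ 2) * Real.exp (-(c / (1 - r))) := by ring
      _ ≤ _ := by gcongr; exact a3.trans a2
  refine ⟨_, F.reach, z, nz, k, ((det_bounds _ le_rfl (by simp) k).2).trans ?_⟩
  exact pow_le_of_le_one (Real.exp_pos _).le
    (Real.exp_le_one_iff.2 (neg_nonpos.2 (by positivity))) (by omega)

end Pool.Agent.Lib.MP_c027d2_an.H92
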