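import Pool.Agent.Lib.MP_c027d2_an.H92Lower
import Pool.Agent.Lib.MP_c027d2_an.H86Third

/-! Concatenation of Loewner flows and flows with an axis of symmetry. -/

open MeasureTheory Metric Set Filter Topology

namespace Pool.Agent.Lib.MP_c027d2_an.H92

variable {n : ℕ} {A : CE n →L[ℂ] CE n}

/-- `V` is the time `T` map of a Loewner equation. -/
def IsFlow (A : CE n →L[ℂ] CE n) (T : ℝ) (V : CE n → CE n) : Prop :=
  0 ≤ T ∧ ∃ h v : CE n → ℝ → CE n, (∀ t, InN A (fun z => h z t)) ∧ (∀ z, Measurable (h z)) ∧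
    (∀ z ∈ ball (0 : CE n) 1, Traj h T (v z) ∧ v z 0 = z) ∧ ∀ z ∈ ball (0 : CE n) 1, V z = v z T

theorem IsFlow.reach {T : ℝ} {V : CE n → CE n} (H : IsFlow A T V) :
    (fun z => expm T A (V z)) ∈ Reach A T := by
  obtain ⟨-, h, v, hN, hm, hv, e⟩ := H
  exact ⟨h, v, fun t _ => hN t, fun z _ => (hm z).aemeasurable,
    fun z hz => ⟨(hv z hz).1.1, (hv z hz).2, (hv z hz).1.2.1, (hv z hz).1.2.2⟩,
    fun z hz => congrArg _ (e z hz)⟩

theorem IsFlow.mem {T : ℝ} {V : CE n → CE n} (H : IsFlow A T V) {z : CE n}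
    (hz : z ∈ ball (0 : CE n) 1) : V z ∈ ball (0 : CE n) 1 := by
  obtain ⟨hT, h, v, -, -, hv, e⟩ := H
  rw [e z hz]
  exact (hv z hz).1.2.1 T ⟨hT, le_rfl⟩

theorem IsFlow.diffAt {T : ℝ} {V : CE n → CE n} (H : IsFlow A T V) {z : CE n}
    (hz : z ∈ ball (0 : CE n) 1) : DifferentiableAt ℂ V z := by
  obtain ⟨hT, h, v, hN, hm, hv, e⟩ := H
  refine (flow_diffAt hT (fun t _ => hN t) (fun z _ => (hm z).aemeasurable) hv hz
    ).congr_of_eventuallyEq ?_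
  filter_upwards [isOpen_ball.mem_nhds hz] with y hy using e y hy

theorem IsFlow.fderiv_le {T : ℝ} {V : CE n → CE n} (H : IsFlow A T V) {z : CE n}
    (hz : z ∈ ball (0 : CE n) 1) : ‖fderiv ℂ V z‖ ≤ 2 / (1 - ‖z‖) := by
  have hz' := mem_ball_zero_iff.1 hz
  have sub : ∀ y ∈ ball z (1 - ‖z‖), y ∈ ball (0 : CE n) 1 := fun y hy => by
    rw [mem_ball, dist_eq_norm] at hy
    rw [mem_ball_zero_iff]
    linarith [norm_sub_norm_le y z]
  have := norm_fderiv_le_of_bound (f := V) (c := z) (R := 1 - ‖z‖) (B := 1) (by linarith)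
    (fun y hy => (H.diffAt (sub y hy)).differentiableWithinAt)
    fun y hy => (mem_ball_zero_iff.1 (H.mem (sub y hy))).le
  simpa using this

theorem IsFlow.comp {S T : ℝ} {V W : CE n → CE n} (H₁ : IsFlow A S V) (H₂ : IsFlow A T W) :
    IsFlow A (S + T) (W ∘ V) := by
  obtain ⟨hS, h₁, v₁, N₁, m₁, t₁, e₁'⟩ := H₁
  obtain ⟨hT, h₂, v₂, N₂, m₂, t₂, e₂'⟩ := H₂
  have hST : S ≤ S + T := by linarith
  refine ⟨by linarith, fun z t => if t ≤ S then h₁ z t else h₂ z (t - S),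
    fun z t => v₁ z (min t S) + (v₂ (v₁ z S) (max t S - S) - v₁ z S), fun t => ?_,
    fun z => Measurable.ite measurableSet_Iic (m₁ z) ((m₂ z).comp (measurable_sub_const S)),
    fun z hz => ?_, fun z hz => ?_⟩
  · by_cases h : t ≤ S
    · simpa [h] using N₁ t
    · simpa [h] using N₂ (t - S)
  rotate_left
  · have hy := (t₁ z hz).1.2.1 S ⟨hS, le_rfl⟩
    simp [min_eq_right hST, max_eq_left hST, e₁' z hz, e₂' _ hy]
  obtain ⟨⟨⟨K₁, l₁⟩, b₁, d₁⟩, z₁⟩ := t₁ z hz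
  have hy := b₁ S ⟨hS, le_rfl⟩
  obtain ⟨⟨⟨K₂, l₂⟩, b₂, d₂⟩, z₂⟩ := t₂ _ hy
  have e₁ : ∀ t, t ≤ S → v₁ z (min t S) + (v₂ (v₁ z S) (max t S - S) - v₁ z S) = v₁ z t :=
    fun t h => by simp [min_eq_left h, max_eq_right h, z₂]
  have e₂ : ∀ t, S ≤ t →
      v₁ z (min t S) + (v₂ (v₁ z S) (max t S - S) - v₁ z S) = v₂ (v₁ z S) (t - S) :=
    fun t h => by simp [min_eq_right h, max_eq_left h]
  refine ⟨⟨⟨K₁ + K₂, LipschitzOnWith.of_dist_le_mul fun a ha b hb => ?_⟩, fun t ht => ?_, ?_⟩,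
    (e₁ 0 hS).trans z₁⟩
  · have p₁ := l₁.dist_le_mul (min a S) ⟨le_min ha.1 hS, min_le_right _ _⟩ (min b S)
      ⟨le_min hb.1 hS, min_le_right _ _⟩
    have p₂ := l₂.dist_le_mul (max a S - S)
      ⟨sub_nonneg.2 (le_max_right _ _), by linarith [max_le ha.2 hST]⟩ (max b S - S)
      ⟨sub_nonneg.2 (le_max_right _ _), by linarith [max_le hb.2 hST]⟩
    have q₁ : dist (min a S) (min b S) ≤ dist a b := by
      simpa [Real.dist_eq] using abs_min_sub_min_le_max a S b S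
    have q₂ : dist (max a S - S) (max b S - S) ≤ dist a b := by
      simpa [Real.dist_eq] using abs_max_sub_max_le_abs a b S
    refine (dist_add_add_le _ _ _ _).trans ?_
    rw [dist_sub_right, NNReal.coe_add, add_mul]
    exact add_le_add (p₁.trans (by gcongr)) (p₂.trans (by gcongr))
  · rcases le_total t S with h | h
    · exact mem_of_eq_of_mem (e₁ t h) (b₁ t ⟨ht.1, h⟩)
    · exact mem_of_eq_of_mem (e₂ t h) (b₂ _ ⟨sub_nonneg.2 h, by linarith [ht.2]⟩)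
  have hne : ∀ᵐ t : ℝ, t ≠ S := by simp [ae_iff]
  rw [ae_restrict_iff' measurableSet_Icc] at d₁ d₂ ⊢
  have d₃ := (measurePreserving_sub_right volume S).quasiMeasurePreserving.ae d₂
  filter_upwards [hne, d₁, d₃] with t h1 h2 h3 h4
  rcases lt_or_gt_of_ne h1 with h | h
  · simp only [if_pos h.le, e₁ t h.le]
    exact (h2 ⟨h4.1, h.le⟩).congr_of_eventuallyEq
      ((eventually_lt_nhds h).mono fun s hs => e₁ s hs.le)
  · simp only [if_neg h.not_ge, e₂ t h.le]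
    exact ((h3 ⟨sub_nonneg.2 h.le, by linarith [h4.2]⟩).comp_sub_const t S).congr_of_eventuallyEq
      ((eventually_gt_nhds h).mono fun s hs => e₂ s hs.le)

theorem isFlow_of_auto {h : CE n → CE n} (H : InN A h) {T : ℝ} (hT : 0 ≤ T)
    {v : CE n → ℝ → CE n} (z₀ : ∀ z ∈ ball (0 : CE n) 1, v z 0 = z)
    (d : ∀ z ∈ ball (0 : CE n) 1, ∀ t, 0 ≤ t → HasDerivAt (v z) (-h (v z t)) t) :
    IsFlow A T (fun z => v z T) := by
  refine ⟨hT, fun z _ => h z, v, fun _ => H, fun _ => measurable_const, fun z hz => ?_,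
    fun _ _ => rfl⟩
  have b := H86.stay (T := T) (fun t ht => d z hz t ht.1) H.2.2.2 ((z₀ z hz).symm ▸ hz)
  refine ⟨⟨H86.lip_of H.1.continuousOn (fun t ht => d z hz t ht.1) b, b, ?_⟩, z₀ z hz⟩
  filter_upwards [ae_restrict_mem measurableSet_Icc] with t ht using d z hz t ht.1

/-- A map that commutes with the unitary maps fixing `e`. -/
noncomputable def red (e : CE n) (φ ψ : ℂ → ℂ) (z : CE n) : CE n :=
  φ (ip z e) • e + ψ (ip z e) • (z - ip z e • e)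

theorem ip_perp {e : CE n} (he : ‖e‖ = 1) (z : CE n) : ip (z - ip z e • e) e = 0 := by
  rw [ip_sub_left, ip_smul_left, ip_self, he]; simp

theorem ip_comb {e τ : CE n} (he : ‖e‖ = 1) (ho : ip τ e = 0) (a b : ℂ) :
    ip (a • e + b • τ) e = a := by
  rw [ip_add_left, ip_smul_left, ip_smul_left, ip_self, he, ho]; simp

theorem red_comb {e τ : CE n} (he : ‖e‖ = 1) (ho : ip τ e = 0) (φ ψ : ℂ → ℂ) (a b : ℂ) :
    red e φ ψ (a • e + b • τ) = φ a • e + (ψ a * b) • τ := by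
  rw [red, ip_comb he ho, add_sub_cancel_left, mul_smul]

theorem norm_ip_lt {e z : CE n} (he : ‖e‖ = 1) (hz : z ∈ ball (0 : CE n) 1) : ‖ip z e‖ < 1 := by
  have := norm_ip_le z e
  rw [he, mul_one] at this
  exact this.trans_lt (mem_ball_zero_iff.1 hz)

theorem inN_red {e : CE n} (he : ‖e‖ = 1) {p g : ℂ → ℂ} (dp : DifferentiableOn ℂ p (ball 0 1))
    (dg : DifferentiableOn ℂ g (ball 0 1)) (p0 : p 0 = 1) (g0 : g 0 = 1)
    (pp : ∀ ζ : ℂ, ‖ζ‖ < 1 → 0 < (p ζ).re)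
    (pg : ∀ ζ : ℂ, ‖ζ‖ < 1 → 0 ≤ ‖ζ‖ ^ 2 * (p ζ).re + (1 - ‖ζ‖ ^ 2) * (g ζ).re) :
    InN (idOp n) (red e (fun ζ => p ζ * ζ) g) := by
  have di : Differentiable ℂ fun z : CE n => ip z e := by
    simp only [← ipL_apply]; exact (ipL e).differentiable
  have mi : MapsTo (fun z : CE n => ip z e) (ball 0 1) (ball 0 1) := fun z hz =>
    mem_ball_zero_iff.2 (norm_ip_lt he hz)
  have dd : DifferentiableOn ℂ (red e (fun ζ => p ζ * ζ) g) (ball 0 1) :=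
    (((dp.comp di.differentiableOn mi).mul di.differentiableOn).smul_const e).add
      ((dg.comp di.differentiableOn mi).smul
        (differentiableOn_id.sub (di.differentiableOn.smul_const e)))
  refine ⟨dd, by simp [red, ip_zero_left], ?_, fun z hz z0 => ?_⟩
  · ext1 ξ
    have h1 := hasDerivAt_line (η := ξ)
      ((dd 0 (mem_ball_self one_pos)).differentiableAt (ball_mem_nhds _ one_pos))
    have hl : HasDerivAt (fun s : ℂ => s * ip ξ e) (ip ξ e) 0 := by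
      simpa using (hasDerivAt_id (0 : ℂ)).mul_const (ip ξ e)
    have hp : HasDerivAt p (deriv p 0) ((0 : ℂ) * ip ξ e) := by
      simpa using ((dp 0 (mem_ball_self one_pos)).differentiableAt
        (ball_mem_nhds _ one_pos)).hasDerivAt
    have hg : HasDerivAt g (deriv g 0) ((0 : ℂ) * ip ξ e) := by
      simpa using ((dg 0 (mem_ball_self one_pos)).differentiableAt
        (ball_mem_nhds _ one_pos)).hasDerivAt
    have h2 := (((hp.comp 0 hl).mul hl).smul_const e).add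
      (((hg.comp 0 hl).mul (hasDerivAt_id (0 : ℂ))).smul_const (ξ - ip ξ e • e))
    have e1 : (fun s : ℂ => red e (fun ζ => p ζ * ζ) g (0 + s • ξ)) = fun s : ℂ =>
        (p (s * ip ξ e) * (s * ip ξ e)) • e + (g (s * ip ξ e) * s) • (ξ - ip ξ e • e) := by
      ext1 s
      rw [← red_comb he (ip_perp he ξ) (fun ζ => p ζ * ζ) g, zero_add, smul_sub, mul_smul,
        add_sub_cancel]
    rw [e1] at h1
    have := h1.unique h2
    rw [this]
    simp [p0, g0, idOp]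
  · have o := ip_perp he z
    have hn := norm_sq_orth he o (ip z e) 1
    rw [one_smul, add_sub_cancel, norm_one, one_pow, one_mul] at hn
    have o' : ip e (z - ip z e • e) = 0 := by rw [← ip_conj, o, map_zero]
    have e1 : ip (red e (fun ζ => p ζ * ζ) g z) z = ((‖ip z e‖ ^ 2 : ℝ) : ℂ) * p (ip z e) +
        ((‖z - ip z e • e‖ ^ 2 : ℝ) : ℂ) * g (ip z e) := by
      have e2 : ip (z - ip z e • e) z = ((‖z - ip z e • e‖ ^ 2 : ℝ) : ℂ) := by
        rw [← ip_self]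
        conv_rhs => rw [ip_sub_right, ip_smul_right, o, mul_zero, sub_zero]
      rw [red, ip_add_left, ip_smul_left, ip_smul_left, e2, ← ip_conj z e,
        ← Complex.normSq_eq_norm_sq, Complex.normSq_eq_conj_mul_self]
      ring
    rw [e1, Complex.add_re, Complex.re_ofReal_mul, Complex.re_ofReal_mul]
    have z1 := norm_ip_lt he hz
    have a1 := pp _ z1
    have a2 := pg _ z1
    have z2 : ‖z‖ ^ 2 < 1 := by
      have := mem_ball_zero_iff.1 hz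
      nlinarith [norm_nonneg z]
    have z3 : 0 < ‖z‖ ^ 2 := by positivity
    have y0 : 0 ≤ ‖z - ip z e • e‖ ^ 2 := by positivity
    rcases eq_or_ne (ip z e) 0 with h0 | h0
    · rw [h0] at hn ⊢
      rw [g0]
      simp only [norm_zero, Complex.one_re] at hn ⊢
      nlinarith
    · have x0 : 0 < ‖ip z e‖ ^ 2 := by positivity
      have hq : 0 < 1 - ‖ip z e‖ ^ 2 := by linarith
      refine (mul_pos_iff_of_pos_left hq).1 ?_
      have b1 := mul_nonneg y0 a2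
      have b2 := mul_pos (show 0 < 1 - ‖ip z e‖ ^ 2 - ‖z - ip z e • e‖ ^ 2 by linarith)
        (mul_pos x0 a1)
      nlinarith

theorem isFlow_red {e : CE n} (he : ‖e‖ = 1) {p g : ℂ → ℂ}
    (H : InN (idOp n) (red e (fun ζ => p ζ * ζ) g)) {φ ψ : ℝ → ℂ → ℂ}
    (φ0 : ∀ ζ, ‖ζ‖ < 1 → φ 0 ζ = ζ) (ψ0 : ∀ ζ, ‖ζ‖ < 1 → ψ 0 ζ = 1)
    (dφ : ∀ ζ, ‖ζ‖ < 1 → ∀ t, 0 ≤ t → HasDerivAt (fun t => φ t ζ) (-(p (φ t ζ) * φ t ζ)) t)
    (dψ : ∀ ζ, ‖ζ‖ < 1 → ∀ t, 0 ≤ t → HasDerivAt (fun t => ψ t ζ) (-(g (φ t ζ) * ψ t ζ)) t)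
    {T : ℝ} (hT : 0 ≤ T) : IsFlow (idOp n) T (red e (φ T) (ψ T)) := by
  refine isFlow_of_auto H hT (v := fun z t => red e (φ t) (ψ t) z) (fun z hz => ?_)
    fun z hz t ht => ?_
  · simp [red, φ0 _ (norm_ip_lt he hz), ψ0 _ (norm_ip_lt he hz)]
  · have h1 := ((dφ _ (norm_ip_lt he hz) t ht).smul_const e).add
      ((dψ _ (norm_ip_lt he hz) t ht).smul_const (z - ip z e • e))
    have e1 : -red e (fun ζ => p ζ * ζ) g (red e (φ t) (ψ t) z) =
        -(p (φ t (ip z e)) * φ t (ip z e)) • e +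
          -(g (φ t (ip z e)) * ψ t (ip z e)) • (z - ip z e • e) := by
      rw [red.eq_1 e (φ t), red_comb he (ip_perp he z)]
      simp only [neg_smul, neg_add]
    rw [e1]
    exact h1

theorem one_sub_ne {a : ℝ} (h0 : 0 ≤ a) (h1 : a ≤ 1) {ζ : ℂ} (hζ : ‖ζ‖ < 1) :
    1 - (a : ℂ) * ζ ≠ 0 := by
  intro h
  have : ‖(a : ℂ) * ζ‖ = 1 := by rw [← sub_eq_zero.1 h, norm_one]
  rw [norm_mul, Complex.norm_real, Real.norm_eq_abs, abs_of_nonneg h0] at this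
  nlinarith [norm_nonneg ζ]

theorem exp_neg_mem {t : ℝ} (ht : 0 ≤ t) : 0 < Real.exp (-t) ∧ Real.exp (-t) ≤ 1 :=
  ⟨Real.exp_pos _, Real.exp_le_one_iff.2 (by linarith)⟩

/-- The axial part of the flow that contracts the complex tangential directions. -/
noncomputable def kφ (E : ℝ) (ζ : ℂ) : ℂ := E * ζ / (1 - ((1 - E : ℝ) : ℂ) * ζ)

/-- The tangential factor of that flow. -/
noncomputable def kψ (E : ℝ) (ζ : ℂ) : ℂ :=
  E * Complex.exp (-(((1 - E : ℝ) : ℂ) * ζ / (1 - ζ)))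

theorem re_inv_pos {ζ : ℂ} (hζ : ‖ζ‖ < 1) : 0 < (1 - ζ).re ∧ 0 < (1 / (1 - ζ)).re := by
  have h1 : 0 < (1 - ζ).re := by
    have := Complex.re_le_norm ζ
    simp only [Complex.sub_re, Complex.one_re]; linarith
  refine ⟨h1, ?_⟩
  rw [one_div, Complex.inv_re]
  exact div_pos h1 (Complex.normSq_pos.2 fun h => by simp [h] at h1)

theorem isFlow_kill {e : CE n} (he : ‖e‖ = 1) {T : ℝ} (hT : 0 ≤ T) :
    IsFlow (idOp n) T (red e (kφ (Real.exp (-T))) (kψ (Real.exp (-T)))) := by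
  have ne1 : ∀ ζ : ℂ, ‖ζ‖ < 1 → 1 - ζ ≠ 0 := fun ζ hζ => by
    simpa using one_sub_ne zero_le_one le_rfl hζ
  refine isFlow_red he (p := fun ζ => 1 - ζ) (g := fun ζ => 1 / (1 - ζ))
    (inN_red he (by fun_prop) (DifferentiableOn.div (by fun_prop) (by fun_prop)
      fun ζ hζ => ne1 ζ (mem_ball_zero_iff.1 hζ)) (by simp) (by simp)
      (fun ζ hζ => (re_inv_pos hζ).1) fun ζ hζ => ?_)
    (φ := fun t => kφ (Real.exp (-t))) (ψ := fun t => kψ (Real.exp (-t)))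
    (fun ζ _ => by simp [kφ]) (fun ζ _ => by simp [kψ]) (fun ζ hζ t ht => ?_)
    (fun ζ hζ t ht => ?_) hT
  · have := re_inv_pos hζ
    have h2 : 0 ≤ 1 - ‖ζ‖ ^ 2 := by nlinarith [norm_nonneg ζ]
    have := mul_nonneg h2 this.2.le
    have := mul_nonneg (sq_nonneg ‖ζ‖) (re_inv_pos hζ).1.le
    linarith
  · have n1 := one_sub_ne (a := 1 - Real.exp (-t)) (by linarith [(exp_neg_mem ht).2])
      (by linarith [(exp_neg_mem ht).1]) hζ
    simp only [kφ, Complex.ofReal_sub, Complex.ofReal_one] at n1 ⊢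
    have := ((H86.hasE t).mul_const ζ).div
      ((((H86.hasE t).const_sub 1).mul_const ζ).const_sub 1) n1
    refine HasDerivAt.congr_deriv this ?_
    rw [mul_comm] at n1
    field_simp
    ring
  · have n1 := one_sub_ne (a := 1 - Real.exp (-t)) (by linarith [(exp_neg_mem ht).2])
      (by linarith [(exp_neg_mem ht).1]) hζ
    have n2 := ne1 ζ hζ
    simp only [kφ, kψ, Complex.ofReal_sub, Complex.ofReal_one] at n1 ⊢
    have := (H86.hasE t).mul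
      (((((H86.hasE t).const_sub 1).mul_const ζ).div_const (1 - ζ)).neg.cexp)
    refine HasDerivAt.congr_deriv this ?_
    have e1 : 1 - (Real.exp (-t) : ℂ) * ζ / (1 - (1 - (Real.exp (-t) : ℂ)) * ζ) =
        (1 - ζ) / (1 - (1 - (Real.exp (-t) : ℂ)) * ζ) := by
      rw [eq_div_iff n1, sub_mul, div_mul_cancel₀ _ n1]; ring
    rw [e1]
    simp only [Pi.neg_apply]
    field_simp
    ring

/-- The tangential factor of the flow of the starlike map `(z₁, z' (1 - a z₁) / (1 - b z₁))`. -/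
noncomputable def cψ (a b E : ℝ) (ζ : ℂ) : ℂ :=
  E * ((1 - a * ζ) * (1 - b * (E * ζ))) / ((1 - b * ζ) * (1 - a * (E * ζ)))

theorem alg_chi (E P : ℂ) {x y Q : ℂ} (hQ : Q ≠ 0) (hx : 1 - x ≠ 0) (hy : 1 - y ≠ 0) :
    ((-E * (P * (1 - y)) + E * (P * y)) * (Q * (1 - x)) - E * (P * (1 - y)) * (Q * x)) /
      (Q * (1 - x)) ^ 2 =
      -((1 - (y / (1 - y) - x / (1 - x))) * (E * (P * (1 - y)) / (Q * (1 - x)))) := by
  field_simp
  ring

theorem isFlow_chi {e : CE n} (he : ‖e‖ = 1) {a b : ℝ} (a0 : 0 ≤ a) (a1 : a ≤ 1) (b0 : 0 ≤ b)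
    (b1 : b ≤ 1) (hab : ∀ ζ : ℂ, ‖ζ‖ < 1 →
      (1 - ‖ζ‖ ^ 2) * (b * ζ / (1 - b * ζ) - a * ζ / (1 - a * ζ)).re ≤ 1) {T : ℝ} (hT : 0 ≤ T) :
    IsFlow (idOp n) T (red e (fun ζ => (Real.exp (-T) : ℝ) * ζ) (cψ a b (Real.exp (-T)))) := by
  refine isFlow_red he (p := fun _ => 1)
    (g := fun ζ => 1 - (b * ζ / (1 - b * ζ) - a * ζ / (1 - a * ζ)))
    (inN_red he (by fun_prop) (DifferentiableOn.const_sub (DifferentiableOn.sub
      (DifferentiableOn.div (by fun_prop) (by fun_prop)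
        fun ζ hζ => one_sub_ne b0 b1 (mem_ball_zero_iff.1 hζ))
      (DifferentiableOn.div (by fun_prop) (by fun_prop)
        fun ζ hζ => one_sub_ne a0 a1 (mem_ball_zero_iff.1 hζ))) 1) rfl (by simp)
      (fun ζ _ => by simp) fun ζ hζ => ?_)
    (φ := fun t ζ => (Real.exp (-t) : ℝ) * ζ) (ψ := fun t => cψ a b (Real.exp (-t)))
    (fun ζ _ => by simp) (fun ζ hζ => ?_) (fun ζ hζ t ht => ?_)
    (fun ζ hζ t ht => ?_) hT
  · have := hab ζ hζ
    rw [Complex.sub_re 1, Complex.one_re]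
    linarith
  · have n1 := one_sub_ne a0 a1 hζ
    have n2 := one_sub_ne b0 b1 hζ
    simp only [cψ, neg_zero, Real.exp_zero, Complex.ofReal_one, one_mul]
    rw [mul_comm (1 - a * ζ), div_self (mul_ne_zero n2 n1)]
  · refine HasDerivAt.congr_deriv ((H86.hasE t).mul_const ζ) ?_
    ring
  · have m : ‖(Real.exp (-t) : ℂ) * ζ‖ < 1 := by
      rw [norm_mul, Complex.norm_real, Real.norm_eq_abs, abs_of_pos (exp_neg_mem ht).1]
      nlinarith [(exp_neg_mem ht).2, norm_nonneg ζ]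
    have n2 := one_sub_ne b0 b1 hζ
    have n3 := one_sub_ne a0 a1 m
    have n4 := one_sub_ne b0 b1 m
    have := ((H86.hasE t).mul ((((((H86.hasE t).mul_const ζ).const_mul (b : ℂ)).const_sub 1
      ).const_mul (1 - a * ζ)))).div
      (((((H86.hasE t).mul_const ζ).const_mul (a : ℂ)).const_sub 1).const_mul (1 - b * ζ))
      (mul_ne_zero n2 n3)
    refine HasDerivAt.congr_deriv this ?_
    simp only [cψ, Pi.mul_apply]
    rw [← alg_chi _ _ n2 n3 n4]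
    ring

theorem hab_one (ζ : ℂ) (hζ : ‖ζ‖ < 1) : (1 - ‖ζ‖ ^ 2) *
    (((0 : ℝ) : ℂ) * ζ / (1 - ((0 : ℝ) : ℂ) * ζ) - ((1 : ℝ) : ℂ) * ζ / (1 - ((1 : ℝ) : ℂ) * ζ)).re
      ≤ 1 := by
  have n1 : 1 - ζ ≠ 0 := by simpa using one_sub_ne zero_le_one le_rfl hζ
  have e : ((0 : ℝ) : ℂ) * ζ / (1 - ((0 : ℝ) : ℂ) * ζ) - ((1 : ℝ) : ℂ) * ζ / (1 - ((1 : ℝ) : ℂ) * ζ)
      = 1 - 1 / (1 - ζ) := by push_cast; field_simp; ring
  rw [e, Complex.sub_re, Complex.one_re]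
  have h2 : 0 ≤ 1 - ‖ζ‖ ^ 2 := by nlinarith [norm_nonneg ζ]
  nlinarith [mul_nonneg h2 (re_inv_pos hζ).2.le, sq_nonneg ‖ζ‖]

theorem hab_two {l : ℝ} (hl : 0 < l) (ζ : ℂ) (hζ : ‖ζ‖ < 1) : (1 - ‖ζ‖ ^ 2) *
    ((((1 + l)⁻¹ : ℝ) : ℂ) * ζ / (1 - (((1 + l)⁻¹ : ℝ) : ℂ) * ζ) -
      (((1 + 9 * l)⁻¹ : ℝ) : ℂ) * ζ / (1 - (((1 + 9 * l)⁻¹ : ℝ) : ℂ) * ζ)).re ≤ 1 := by
  have low : ∀ m : ℝ, 0 < m → 1 + m - ‖ζ‖ ≤ ‖((1 + m : ℝ) : ℂ) - ζ‖ := fun m hm => by
    have := norm_sub_norm_le ((1 + m : ℝ) : ℂ) ζ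
    rwa [Complex.norm_real, Real.norm_eq_abs, abs_of_pos (by linarith)] at this
  have l1 := low l hl
  have l2 := low (9 * l) (by linarith)
  have n1 : ((1 + l : ℝ) : ℂ) - ζ ≠ 0 := norm_pos_iff.1 (by linarith)
  have n2 : ((1 + 9 * l : ℝ) : ℂ) - ζ ≠ 0 := norm_pos_iff.1 (by linarith)
  have n3 : ((1 + l : ℝ) : ℂ) ≠ 0 := by exact_mod_cast (by linarith : 1 + l ≠ 0)
  have n4 : ((1 + 9 * l : ℝ) : ℂ) ≠ 0 := by exact_mod_cast (by linarith : 1 + 9 * l ≠ 0)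
  have e : (((1 + l)⁻¹ : ℝ) : ℂ) * ζ / (1 - (((1 + l)⁻¹ : ℝ) : ℂ) * ζ) -
      (((1 + 9 * l)⁻¹ : ℝ) : ℂ) * ζ / (1 - (((1 + 9 * l)⁻¹ : ℝ) : ℂ) * ζ) =
      ((8 * l : ℝ) : ℂ) * ζ / ((((1 + l : ℝ) : ℂ) - ζ) * (((1 + 9 * l : ℝ) : ℂ) - ζ)) := by
    have e8 : ((8 * l : ℝ) : ℂ) = ((1 + 9 * l : ℝ) : ℂ) - ((1 + l : ℝ) : ℂ) := by push_cast; ring
    rw [Complex.ofReal_inv, Complex.ofReal_inv, e8]
    generalize ((1 + l : ℝ) : ℂ) = x at *
    generalize ((1 + 9 * l : ℝ) : ℂ) = y at *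
    field_simp
    ring
  have h2 : 0 ≤ 1 - ‖ζ‖ ^ 2 := by nlinarith [norm_nonneg ζ]
  rw [e]
  refine (mul_le_mul_of_nonneg_left (Complex.re_le_norm _) h2).trans ?_
  rw [norm_div, norm_mul, norm_mul, Complex.norm_real, Real.norm_eq_abs,
    abs_of_pos (by linarith), ← mul_div_assoc, div_le_one (mul_pos (by linarith) (by linarith))]
  refine le_trans ?_ (mul_le_mul l1 l2 (by linarith) (norm_nonneg _))
  have x0 := norm_nonneg ζ
  have q : (1 - ‖ζ‖ ^ 2) * ‖ζ‖ ≤ 2 * (1 - ‖ζ‖) := by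
    nlinarith [mul_nonneg (sub_nonneg.2 hζ.le) (show 0 ≤ 2 - ‖ζ‖ - ‖ζ‖ ^ 2 by nlinarith)]
  nlinarith [sq_nonneg (1 - ‖ζ‖ - 3 * l), mul_le_mul_of_nonneg_left q hl.le]

end Pool.Agent.Lib.MP_c027d2_an.H92
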