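import Pool.Agent.Lib.MP_c027d2_an.Flow

/-! Harnack type inequalities on discs, from the Poisson formula. -/

open MeasureTheory Metric Set Filter Topology

namespace Pool.Agent.Lib.MP_c027d2_an.H92

theorem pk_cont {c w : ℂ} {R : ℝ} (hw : w ∈ ball c R) :
    ContinuousOn (poissonKernel c w) (sphere c R) := by
  have hR : 0 < R := pos_of_mem_ball hw
  have := continuousOn_herglotzRieszKernel_sphere hw
  rw [abs_of_pos hR] at this
  rw [poissonKernel_eq_re_herglotzRieszKernel]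
  exact Complex.continuous_re.comp_continuousOn this

theorem pk_nonneg {c w ζ : ℂ} {R : ℝ} (hw : w ∈ ball c R) (hζ : ζ ∈ sphere c R) :
    0 ≤ poissonKernel c w ζ := by
  rw [mem_ball, dist_eq_norm] at hw
  rw [mem_sphere, dist_eq_norm] at hζ
  rw [poissonKernel_def, hζ]
  refine div_nonneg ?_ (by positivity)
  nlinarith [norm_nonneg (w - c)]

theorem pk_le {c w ζ : ℂ} {R : ℝ} (hw : w ∈ ball c R) (hζ : ζ ∈ sphere c R) :
    poissonKernel c w ζ ≤ (R + ‖w - c‖) / (R - ‖w - c‖) := by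
  rw [poissonKernel_eq_re_herglotzRieszKernel]
  exact re_herglotzRieszKernel_le hζ hw

theorem sph_cont {f : ℂ → ℂ} {c : ℂ} {R : ℝ} (hR : 0 < R) (hf : DiffContOnCl ℂ f (ball c R)) :
    ContinuousOn f (sphere c R) :=
  hf.continuousOn.mono (by rw [closure_ball _ hR.ne']; exact sphere_subset_closedBall)

theorem avg_pk {f : ℂ → ℂ} {c w : ℂ} {R : ℝ} (hf : DiffContOnCl ℂ f (ball c R))
    (hw : w ∈ ball c R) :
    Real.circleAverage (fun ζ => poissonKernel c w ζ * (f ζ).re) c R = (f w).re := by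
  have hR : 0 < R := pos_of_mem_ball hw
  have h1 := hf.circleAverage_poissonKernel_smul hw
  have h2 : CircleIntegrable (poissonKernel c w • f) c R :=
    ((pk_cont hw).smul (sph_cont hR hf)).circleIntegrable hR.le
  have h3 := Complex.reCLM.circleAverage_comp_comm h2
  rw [h1] at h3
  rw [← show _ = (f w).re from h3]
  congr 1
  ext ζ
  simp

theorem avg_re {f : ℂ → ℂ} {c : ℂ} {R : ℝ} (hR : 0 < R) (hf : DiffContOnCl ℂ f (ball c R)) :
    Real.circleAverage (fun ζ => (f ζ).re) c R = (f c).re := by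
  have h1 : Real.circleAverage f c R = f c :=
    DiffContOnCl.circleAverage (by rwa [abs_of_pos hR])
  have h3 := Complex.reCLM.circleAverage_comp_comm ((sph_cont hR hf).circleIntegrable hR.le)
  rw [h1] at h3
  exact h3

/-- Minimum principle for the real part. -/
theorem re_nonneg_of_sphere {f : ℂ → ℂ} {c w : ℂ} {R : ℝ} (hf : DiffContOnCl ℂ f (ball c R))
    (hw : w ∈ ball c R) (h0 : ∀ ζ ∈ sphere c R, 0 ≤ (f ζ).re) : 0 ≤ (f w).re := by
  have hR : 0 < R := pos_of_mem_ball hw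
  rw [← avg_pk hf hw]
  refine Real.circleAverage_nonneg_of_nonneg fun ζ hζ => ?_
  rw [abs_of_pos hR] at hζ
  exact mul_nonneg (pk_nonneg hw hζ) (h0 ζ hζ)

/-- A Harnack inequality with a lower obstacle. -/
theorem harnack2 {f g : ℂ → ℂ} {c w : ℂ} {R H β : ℝ} (hf : DiffContOnCl ℂ f (ball c R))
    (hg : DiffContOnCl ℂ g (ball c R)) (hw : w ∈ ball c R) (hβ : 0 ≤ β)
    (hK : ∀ ζ ∈ sphere c R, poissonKernel c w ζ ≤ H) (hg0 : ∀ ζ ∈ sphere c R, 0 ≤ (g ζ).re)
    (hfg : ∀ ζ ∈ sphere c R, 0 ≤ (f ζ).re + β * poissonKernel c w ζ * (g ζ).re) :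
    (f w).re ≤ H * (f c).re + H * β * (g w).re := by
  have hR : 0 < R := pos_of_mem_ball hw
  have d1 : DiffContOnCl ℂ (fun ζ => ((H * β : ℝ) : ℂ) * g ζ - f ζ) (ball c R) :=
    (hg.const_smul ((H * β : ℝ) : ℂ)).sub hf
  have d2 : DiffContOnCl ℂ (fun ζ => (H : ℂ) * f ζ) (ball c R) := hf.const_smul (H : ℂ)
  have e1 := avg_pk d1 hw
  have e2 := avg_re hR d2
  have i1 : CircleIntegrable (fun ζ => poissonKernel c w ζ *
      (((H * β : ℝ) : ℂ) * g ζ - f ζ).re) c R :=
    ((pk_cont hw).mul (Complex.continuous_re.comp_continuousOn (sph_cont hR d1))).circleIntegrable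
      hR.le
  have i2 : CircleIntegrable (fun ζ => ((H : ℂ) * f ζ).re) c R :=
    (Complex.continuous_re.comp_continuousOn (sph_cont hR d2)).circleIntegrable hR.le
  have e3 := Real.circleAverage_fun_add i1 i2
  rw [e1, e2] at e3
  have e4 : 0 ≤ Real.circleAverage (fun ζ => poissonKernel c w ζ *
      (((H * β : ℝ) : ℂ) * g ζ - f ζ).re + ((H : ℂ) * f ζ).re) c R := by
    refine Real.circleAverage_nonneg_of_nonneg fun ζ hζ => ?_
    rw [abs_of_pos hR] at hζ
    have a1 := mul_nonneg (sub_nonneg.2 (hK ζ hζ)) (hfg ζ hζ)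
    have a2 := mul_nonneg (mul_nonneg hβ (sq_nonneg (poissonKernel c w ζ))) (hg0 ζ hζ)
    simp only [Complex.sub_re, Complex.re_ofReal_mul]
    nlinarith
  rw [e3] at e4
  simp only [Complex.sub_re, Complex.re_ofReal_mul] at e4
  linarith

/-- The usual Harnack inequality in the half radius disc. -/
theorem harnack3 {f : ℂ → ℂ} {c w : ℂ} {R : ℝ} (hR : 0 < R) (hf : DiffContOnCl ℂ f (ball c R))
    (hw : ‖w - c‖ ≤ R / 2) (h0 : ∀ ζ ∈ sphere c R, 0 ≤ (f ζ).re) : (f w).re ≤ 3 * (f c).re := by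
  have hw' : w ∈ ball c R := by rw [mem_ball, dist_eq_norm]; linarith
  have := harnack2 (g := fun _ => 0) (H := 3) (β := 0) hf diffContOnCl_const hw' le_rfl
    (fun ζ hζ => (pk_le hw' hζ).trans (by rw [div_le_iff₀ (by linarith)]; linarith))
    (fun _ _ => by simp) (fun ζ hζ => by simpa using h0 ζ hζ)
  simpa using this

end Pool.Agent.Lib.MP_c027d2_an.H92
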