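import Pool.Agent.Lib.MP_c027d2_an.H92Range

/-! Holomorphy of the flow on the whole ball and a lower bound for its derivative. -/

open MeasureTheory Metric Set Filter Topology

namespace Pool.Agent.Lib.MP_c027d2_an.H92

variable {n : ℕ} {A : CE n →L[ℂ] CE n}

/-- A trajectory of the Loewner equation in the ball. -/
def Traj (h : CE n → ℝ → CE n) (T : ℝ) (γ : ℝ → CE n) : Prop :=
  (∃ K, LipschitzOnWith K γ (Icc (0 : ℝ) T)) ∧ (∀ t ∈ Icc (0 : ℝ) T, γ t ∈ ball (0 : CE n) 1) ∧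
    ∀ᵐ t ∂(volume.restrict (Icc (0 : ℝ) T)), HasDerivAt γ (-h (γ t) t) t

theorem Traj.norm_le {h : CE n → ℝ → CE n} {T : ℝ} {γ : ℝ → CE n} (H : Traj h T γ)
    (hN : ∀ t ∈ Icc (0 : ℝ) T, InN A (fun z => h z t)) : ∀ t ∈ Icc (0 : ℝ) T, ‖γ t‖ ≤ ‖γ 0‖ := by
  obtain ⟨⟨K, hK⟩, hb, hd⟩ := H
  exact flow_norm_le hN hK hb hd

theorem flow_diffAt {T : ℝ} (hT : 0 ≤ T) {h v : CE n → ℝ → CE n}
    (hN : ∀ t ∈ Icc (0 : ℝ) T, InN A (fun z => h z t))
    (hm : ∀ z ∈ ball (0 : CE n) 1, AEMeasurable (h z) (volume.restrict (Icc (0 : ℝ) T)))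
    (hv : ∀ z ∈ ball (0 : CE n) 1, Traj h T (v z) ∧ v z 0 = z) {z₀ : CE n}
    (hz₀ : z₀ ∈ ball (0 : CE n) 1) : DifferentiableAt ℂ (fun z => v z T) z₀ := by
  have hz' := mem_ball_zero_iff.1 hz₀
  set r := (1 + ‖z₀‖) / 2 with hr
  have hr0 : 0 < r := by positivity
  have hr1 : r < 1 := by rw [hr]; linarith
  obtain ⟨L, hL⟩ := fld_trunc A hr0 hr1
  have hF := hL T h hN hm
  obtain ⟨T₀, e₀⟩ := hv z₀ hz₀
  have n₀ := T₀.norm_le hN
  rw [e₀] at n₀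
  obtain ⟨⟨K₀, l₀⟩, -, d₀⟩ := T₀
  have m₀ : AEMeasurable (v z₀) (volume.restrict (Icc (0 : ℝ) T)) :=
    l₀.continuousOn.aemeasurable measurableSet_Icc
  let G : CE n → ℝ → CE n := fun y t => -h (trunc r (v z₀ t + y)) t - -h (trunc r (v z₀ t)) t
  have hG : Fld G T L := ⟨hF.1, fun t ht a b => by
      simpa [G] using hF.2.1 t ht (v z₀ t + a) (v z₀ t + b), fun t _ => by simp [G],
    fun y => ((hF.aesm (m₀.add_const y)).sub (hF.aesm m₀)).aemeasurable⟩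
  set ρ := (1 - ‖z₀‖) / 2 with hρ
  have hρ0 : 0 < ρ := by rw [hρ]; linarith
  set δ := ρ / (2 * Real.exp (2 * L * T)) with hδ
  have he : 1 ≤ Real.exp (2 * L * T) := one_le_exp' hF.1 ⟨hT, le_rfl⟩
  have hδ0 : 0 < δ := by positivity
  have hδ1 : δ ≤ ρ := by
    rw [hδ]; exact div_le_self hρ0.le (by linarith)
  have hδ2 : 2 * δ * Real.exp (2 * L * T) ≤ ρ := by
    rw [hδ]; field_simp; norm_num
  have hpd := hG.pic_diffOn hT (r := ρ) (δ := δ) (fun t ht => by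
    have b : ∀ y ∈ ball (0 : CE n) ρ, ‖v z₀ t + y‖ ≤ r := fun y hy => by
      rw [mem_ball_zero_iff] at hy
      linarith [norm_add_le (v z₀ t) y, n₀ t ht]
    have := ((hN t ht).1.comp (f := fun y => v z₀ t + y) (s := ball 0 ρ) (by fun_prop)
      fun y hy => mem_ball_zero_iff.2 ((b y hy).trans_lt hr1)).neg.sub_const
      (-h (trunc r (v z₀ t)) t)
    refine this.congr fun y hy => ?_
    simp only [G, trunc_eq hr0 (b y hy)]
    rfl) hδ2
  have key : DifferentiableOn ℂ (fun y => v (z₀ + y) T - v z₀ T) (ball 0 δ) := by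
    refine diffOn_of_geometric (u := fun k y => pic G y k T) (C := 3 * Real.exp (2 * L * T))
      isOpen_ball (fun k => hpd k T ⟨hT, le_rfl⟩) fun k y hy => ?_
    rw [mem_ball_zero_iff] at hy
    have hzr : ‖z₀ + y‖ ≤ r := by linarith [norm_add_le z₀ y]
    obtain ⟨T₁, e₁⟩ := hv (z₀ + y) (mem_ball_zero_iff.2 (hzr.trans_lt hr1))
    have n₁ := T₁.norm_le hN
    rw [e₁] at n₁
    obtain ⟨⟨K₁, l₁⟩, -, d₁⟩ := T₁
    have l : LipschitzOnWith (K₁ + K₀) (fun t => v (z₀ + y) t - v z₀ t) (Icc 0 T) := l₁.sub l₀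
    have m : AEMeasurable (fun t => v (z₀ + y) t - v z₀ t) (volume.restrict (Icc (0 : ℝ) T)) :=
      l.continuousOn.aemeasurable measurableSet_Icc
    have b : ∀ s ∈ Icc (0 : ℝ) T, ‖v (z₀ + y) s - v z₀ s‖ ≤ 2 := fun s hs => by
      linarith [norm_sub_le (v (z₀ + y) s) (v z₀ s), n₀ s hs, n₁ s hs]
    have hsol := ftc_vec l (hG.aesm m) (hG.bound b) (by
      filter_upwards [d₀, d₁, ae_restrict_mem measurableSet_Icc] with t h0 h1 h2
      simp only [G, add_sub_cancel]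
      rw [trunc_eq hr0 ((n₁ t h2).trans hzr), trunc_eq hr0 (by linarith [n₀ t h2])]
      exact h1.sub h0)
    simp only [e₀, e₁, add_sub_cancel_left] at hsol
    refine (hG.pic_close hT m b hsol k T ⟨hT, le_rfl⟩).trans ?_
    have : ‖y‖ + 2 ≤ 3 := by linarith [norm_nonneg z₀]
    calc _ ≤ 3 * (1 / 2) ^ k * Real.exp (2 * L * T) := by gcongr
      _ = _ := by ring
  have k1 : DifferentiableAt ℂ (fun y => v (z₀ + y) T - v z₀ T) (-z₀ + z₀) := by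
    simpa using (key 0 (mem_ball_self hδ0)).differentiableAt (ball_mem_nhds _ hδ0)
  have k2 := (k1.comp z₀ (f := fun y : CE n => -z₀ + y) (by fun_prop)).add_const (v z₀ T)
  simpa [Function.comp_def] using k2

theorem lip_comp {D g : ℝ → ℝ} {T m : ℝ} {K : NNReal} (hD : LipschitzOnWith K D (Icc 0 T))
    (hm : 0 < m) (hb : ∀ t ∈ Icc (0 : ℝ) T, m ≤ D t) (hg : ContDiffOn ℝ 1 g (Ioi 0)) :
    ∃ K', LipschitzOnWith K' (fun t => g (D t)) (Icc 0 T) := by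
  obtain ⟨B, hB⟩ := isCompact_Icc.exists_bound_of_continuousOn hD.continuousOn
  obtain ⟨K₁, h₁⟩ := (hg.mono (show Icc m B ⊆ Ioi 0 from fun x hx => hm.trans_le hx.1)
    ).exists_lipschitzOnWith one_ne_zero (convex_Icc _ _) isCompact_Icc
  exact ⟨_, h₁.comp hD fun t ht => ⟨hb t ht, (le_abs_self _).trans (hB t ht)⟩⟩

theorem lip_add_const {D : ℝ → ℝ} {s : Set ℝ} {K : NNReal} (hD : LipschitzOnWith K D s) (κ : ℝ) :
    LipschitzOnWith K (fun t => D t + κ) s :=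
  LipschitzOnWith.of_dist_le_mul fun a ha b hb => by
    simpa using hD.dist_le_mul a ha b hb

theorem re_ip_comm (a b : CE n) : (ip a b).re = (ip b a).re := by
  rw [← ip_conj, Complex.conj_re]

theorem re_self (a : CE n) : (ip a a).re = ‖a‖ ^ 2 := by rw [ip_self, Complex.ofReal_re]

theorem cd_log : ContDiffOn ℝ 1 Real.log (Ioi 0) :=
  Real.contDiffOn_log.mono fun _ hx => (ne_of_gt hx)

theorem cd_inv : ContDiffOn ℝ 1 (fun x : ℝ => x⁻¹) (Ioi 0) :=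
  (contDiffOn_inv ℝ).mono fun _ hx => (ne_of_gt hx)

theorem sq_deriv {a : ℝ → CE n} {a' : CE n} {t : ℝ} (ha : HasDerivAt a a' t) :
    HasDerivAt (fun t => ‖a t‖ ^ 2) (2 * (ip a' (a t)).re) t := by
  have := deriv_ip ha ha
  simp only [re_self] at this
  rwa [re_ip_comm (a t), ← two_mul] at this

theorem sq_lip {a : ℝ → CE n} {T : ℝ} {K : NNReal} (ha : LipschitzOnWith K a (Icc 0 T)) :
    ∃ K', LipschitzOnWith K' (fun t => ‖a t‖ ^ 2) (Icc 0 T) := by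
  simpa only [re_self] using lip_ip ha ha

/-- Two trajectories separate at most exponentially. -/
theorem sep_upper {T r L κ : ℝ} {h : CE n → ℝ → CE n} {a b : ℝ → CE n} (hL : 0 ≤ L) (hκ : 0 < κ)
    (hN : ∀ t ∈ Icc (0 : ℝ) T, InN A (fun z => h z t))
    (hl : ∀ h, InN A h → ∀ a b : CE n, ‖a‖ ≤ r → ‖b‖ ≤ r → ‖h a - h b‖ ≤ L * ‖a - b‖)
    (Ha : Traj h T a) (Hb : Traj h T b) (ha : ‖a 0‖ ≤ r) (hb : ‖b 0‖ ≤ r) :
    ∀ t ∈ Icc (0 : ℝ) T, ‖a t - b t‖ ^ 2 ≤ (‖a 0 - b 0‖ ^ 2 + κ) * Real.exp (2 * L * T) := by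
  intro t ht
  have na := Ha.norm_le hN
  have nb := Hb.norm_le hN
  obtain ⟨⟨Ka, la⟩, -, da⟩ := Ha
  obtain ⟨⟨Kb, lb⟩, -, db⟩ := Hb
  obtain ⟨K₁, l₁⟩ := sq_lip (la.sub lb)
  obtain ⟨K₂, l₂⟩ := lip_comp (lip_add_const l₁ κ) hκ
    (fun t _ => by linarith [sq_nonneg ‖a t - b t‖]) cd_log
  have key := ac_le (g := fun _ => 2 * L) ht.1 (l₂.mono (Icc_subset_Icc_right ht.2))
    intervalIntegrable_const (ae_restrict_sub ht.2 (by
      filter_upwards [da, db, ae_restrict_mem measurableSet_Icc] with s h0 h1 h2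
      have p : 0 < ‖(a - b) s‖ ^ 2 + κ := by positivity
      refine ⟨_, ((sq_deriv (h0.sub h1)).add_const κ).log p.ne', ?_⟩
      rw [div_le_iff₀ p]
      have q1 := hl _ (hN s h2) _ _ ((na s h2).trans ha) ((nb s h2).trans hb)
      have q2 := (Complex.re_le_norm _).trans
        (norm_ip_le (-h (a s) s - -h (b s) s) ((a - b) s))
      rw [neg_sub_neg, norm_sub_rev (h (b s) s)] at q2
      rw [neg_sub_neg]
      simp only [Pi.sub_apply] at *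
      nlinarith [norm_nonneg (a s - b s), mul_le_mul_of_nonneg_right q1 (norm_nonneg (a s - b s))]))
  simp only [intervalIntegral.integral_const, smul_eq_mul, sub_zero] at key
  have p0 : 0 < ‖a 0 - b 0‖ ^ 2 + κ := by positivity
  have p1 : 0 < ‖a t - b t‖ ^ 2 + κ := by positivity
  rw [← Real.log_div p1.ne' p0.ne', Real.log_le_iff_le_exp (by positivity), div_le_iff₀ p0] at key
  have : Real.exp (t * (2 * L)) ≤ Real.exp (2 * L * T) :=
    Real.exp_le_exp.2 (by nlinarith [ht.2])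
  nlinarith

theorem Nq_scale {h : CE n → CE n} {y : CE n} {X : ℝ} (hX : ∀ η : CE n, ‖η‖ ≤ 1 → Nq h y η ≤ X)
    (η : CE n) : Nq h y η ≤ X * ‖η‖ ^ 2 := by
  rcases eq_or_ne η 0 with rfl | h0
  · simp [Nq, ip_zero_right]
  have hp : 0 < ‖η‖ := norm_pos_iff.2 h0
  have h1 := hX (((‖η‖⁻¹ : ℝ) : ℂ) • η) (by
    rw [norm_smul, Complex.norm_real, Real.norm_eq_abs, abs_of_pos (by positivity),
      inv_mul_cancel₀ hp.ne'])
  rw [Nq, map_smul, ip_smul_left, ip_smul_right, Complex.conj_ofReal, Complex.re_ofReal_mul,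
    Complex.re_ofReal_mul] at h1
  have e : Nq h y η = ‖η‖⁻¹ * (‖η‖⁻¹ * (ip (fderiv ℂ h y η) η).re) * ‖η‖ ^ 2 := by
    rw [Nq]; field_simp
  rw [e]
  gcongr

theorem pair_mvt {h : CE n → CE n} (hd : DifferentiableOn ℂ h (ball 0 1)) {a b : CE n}
    (ha : a ∈ ball (0 : CE n) 1) (hb : b ∈ ball (0 : CE n) 1) :
    ∃ y ∈ ball (0 : CE n) 1, ‖y - a‖ ≤ ‖a - b‖ ∧
      (ip (h a - h b) (a - b)).re = Nq h y (a - b) := by
  have hin : ∀ s ∈ Icc (0 : ℝ) 1, b + (s : ℂ) • (a - b) ∈ ball (0 : CE n) 1 := fun s hs => by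
    have := (convex_ball (0 : CE n) 1).add_smul_sub_mem hb ha hs
    simpa using this
  have hder : ∀ s ∈ Icc (0 : ℝ) 1, HasDerivAt
      (fun s : ℝ => (ip (h (b + (s : ℂ) • (a - b))) (a - b)).re)
      (Nq h (b + (s : ℂ) • (a - b)) (a - b)) s := fun s hs => by
    have h2 : HasDerivAt (fun s : ℂ => b + s • (a - b)) (a - b) s := by
      simpa using ((hasDerivAt_id (s : ℂ)).smul_const (a - b)).const_add b
    have h1 := ((hd _ (hin s hs)).differentiableAt (isOpen_ball.mem_nhds (hin s hs))).hasFDerivAt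
    have h3 := HasFDerivAt.comp_hasDerivAt (f := fun s : ℂ => b + s • (a - b)) (s : ℂ) h1 h2
    have h4 := (ipL (a - b)).hasFDerivAt.comp_hasDerivAt (s : ℂ) h3
    exact h4.real_of_complex
  obtain ⟨s, hs, e⟩ := exists_hasDerivAt_eq_slope _ _ zero_lt_one
    (fun s hs => (hder s hs).continuousAt.continuousWithinAt)
    (fun s hs => hder s (Ioo_subset_Icc_self hs))
  refine ⟨_, hin s (Ioo_subset_Icc_self hs), ?_, ?_⟩
  · have : b + (s : ℂ) • (a - b) - a = ((s - 1 : ℝ) : ℂ) • (a - b) := by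
      push_cast; rw [sub_smul, one_smul]; abel
    rw [this, norm_smul, Complex.norm_real, Real.norm_eq_abs, abs_of_neg (by linarith [hs.2])]
    nlinarith [norm_nonneg (a - b), hs.1]
  · rw [e]
    simp [ip_sub_left]

theorem pair_bound {h : CE n → CE n} (hh : InN A h) {C L B r : ℝ} (hC : 0 < C) (hL : 0 ≤ L)
    (hr : r < 1)
    (hc : ∀ w ∈ ball (0 : CE n) 1, ∀ η : CE n, ‖η‖ ≤ 1 →
      Nq h w η ≤ C * (1 / (1 - ‖w‖) + Fq h w / (1 - ‖w‖) ^ 2))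
    (hl : ∀ a b : CE n, ‖a‖ ≤ (1 + r) / 2 → ‖b‖ ≤ (1 + r) / 2 → ‖h a - h b‖ ≤ L * ‖a - b‖)
    (hB : ∀ a : CE n, ‖a‖ ≤ (1 + r) / 2 → ‖h a‖ ≤ B) {a b : CE n} (ha : ‖a‖ ≤ r)
    (h1 : ‖a - b‖ ≤ (1 - r) / 2) (h2 : (L + B) * ‖a - b‖ ≤ 1 - r) :
    (ip (h a - h b) (a - b)).re ≤
      C * (6 / (1 - r) + 16 * Fq h a / (1 - ‖a‖ ^ 2) ^ 2) * ‖a - b‖ ^ 2 := by
  have hab : ‖b‖ ≤ (1 + r) / 2 := by
    have := norm_sub_norm_le b a
    rw [norm_sub_rev] at this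
    linarith
  have ma : a ∈ ball (0 : CE n) 1 := mem_ball_zero_iff.2 (by linarith)
  obtain ⟨y, hy, y1, e⟩ := pair_mvt hh.1 ma (mem_ball_zero_iff.2 (by linarith) : b ∈ ball 0 1)
  rw [e]
  refine (Nq_scale (hc y hy) _).trans ?_
  have y2 : ‖y‖ ≤ ‖a‖ + (1 - r) / 2 := by linarith [norm_sub_norm_le y a]
  have hB0 : 0 ≤ B := (norm_nonneg _).trans (hB a (by linarith))
  have f1 : Fq h y ≤ Fq h a + (1 - r) := by
    have e1 : ip (h y) y = ip (h a) a + (ip (h y - h a) y + ip (h a) (y - a)) := by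
      rw [ip_sub_left, ip_sub_right]; ring
    have q1 := (Complex.re_le_norm _).trans (norm_ip_le (h y - h a) y)
    have q2 := (Complex.re_le_norm _).trans (norm_ip_le (h a) (y - a))
    have q3 := hl y a (by linarith) (by linarith)
    have q4 : ‖h y - h a‖ * ‖y‖ ≤ L * ‖a - b‖ * 1 := by
      gcongr
      · exact q3.trans (by gcongr)
      · linarith
    have q5 : ‖h a‖ * ‖y - a‖ ≤ B * ‖a - b‖ := by
      gcongr
      exact hB a (by linarith)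
    rw [Fq, Fq, e1, Complex.add_re, Complex.add_re]
    linarith
  have f0 := Fq_nonneg hh ma
  have hr' : 0 < 1 - r := by linarith
  have ha' : 0 < 1 - ‖a‖ := by linarith
  have hq : 0 < 1 - ‖a‖ ^ 2 := by nlinarith [norm_nonneg a]
  have g1 : 1 / (1 - ‖y‖) ≤ 2 / (1 - r) := by
    rw [div_le_div_iff₀ (by linarith) hr']; linarith
  have g2 : Fq h y / (1 - ‖y‖) ^ 2 ≤ (Fq h a + (1 - r)) / (1 - ‖y‖) ^ 2 := by gcongr
  have g3 : Fq h a / (1 - ‖y‖) ^ 2 ≤ Fq h a / ((1 - ‖a‖ ^ 2) / 4) ^ 2 := by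
    gcongr
    nlinarith [norm_nonneg a]
  have g4 : (1 - r) / (1 - ‖y‖) ^ 2 ≤ (1 - r) / ((1 - r) / 2) ^ 2 := by
    gcongr
    linarith
  have g5 : (1 - r) / ((1 - r) / 2) ^ 2 = 4 / (1 - r) := by field_simp; ring
  have g6 : Fq h a / ((1 - ‖a‖ ^ 2) / 4) ^ 2 = 16 * Fq h a / (1 - ‖a‖ ^ 2) ^ 2 := by
    field_simp; ring
  have g7 : 6 / (1 - r) = 2 / (1 - r) + 4 / (1 - r) := by ring
  rw [add_div] at g2
  gcongr ?_ * ?_ * _
  linarith

theorem sep_lower {T r C σ : ℝ} {h : CE n → ℝ → CE n} {a b : ℝ → CE n} (hT : 0 ≤ T) (hC : 0 < C)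
    (hr : r < 1) (hN : ∀ t ∈ Icc (0 : ℝ) T, InN A (fun z => h z t))
    (hp : ∀ h, InN A h → ∀ a b : CE n, ‖a‖ ≤ r → ‖a - b‖ ≤ σ → (ip (h a - h b) (a - b)).re ≤
      C * (6 / (1 - r) + 16 * Fq h a / (1 - ‖a‖ ^ 2) ^ 2) * ‖a - b‖ ^ 2)
    (Ha : Traj h T a) (Hb : Traj h T b) (ha : ‖a 0‖ ≤ r)
    (hσ : ∀ t ∈ Icc (0 : ℝ) T, ‖a t - b t‖ ≤ σ) :
    Real.exp (-((8 * C + 6 * C * T) / (1 - r))) * ‖a 0 - b 0‖ ≤ ‖a T - b T‖ := by
  have na := fun t ht => (Ha.norm_le hN t ht).trans ha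
  have hr0 : 0 ≤ r := (norm_nonneg _).trans ha
  have hr' : 0 < 1 - r := by linarith
  have hq : ∀ t ∈ Icc (0 : ℝ) T, 1 - r ≤ -‖a t‖ ^ 2 + 1 := fun t ht => by
    nlinarith [na t ht, norm_nonneg (a t)]
  obtain ⟨⟨Ka, la⟩, ba, da⟩ := Ha
  obtain ⟨⟨Kb, lb⟩, -, db⟩ := Hb
  obtain ⟨K₁, l₁⟩ := sq_lip (la.sub lb)
  obtain ⟨K₃, l₃⟩ := sq_lip la
  obtain ⟨K₄, l₄⟩ := lip_comp (g := fun x => 16 * C * x⁻¹) (lip_add_const l₃.neg 1) hr' hq
    (contDiffOn_const.mul cd_inv)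
  rw [← sq_le_sq₀ (by positivity) (norm_nonneg _), mul_pow, ← Real.exp_nat_mul]
  refine le_of_forall_pos_le_add fun κ hκ => ?_
  obtain ⟨K₂, l₂⟩ := lip_comp (lip_add_const l₁ κ) hκ
    (fun t _ => by linarith [sq_nonneg ‖a t - b t‖]) cd_log
  have key := ac_le (g := fun _ => 12 * C / (1 - r)) hT (l₄.sub l₂)
    intervalIntegrable_const (by
      filter_upwards [da, db, ae_restrict_mem measurableSet_Icc] with s h0 h1 h2
      have p : 0 < ‖(a - b) s‖ ^ 2 + κ := by positivity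
      have p' : 0 < -‖a s‖ ^ 2 + 1 := hr'.trans_le (hq s h2)
      refine ⟨_, ((((sq_deriv h0).neg.add_const 1).inv p'.ne').const_mul (16 * C)).sub
        (((sq_deriv (h0.sub h1)).add_const κ).log p.ne'), ?_⟩
      have q1 := hp _ (hN s h2) _ _ (na s h2) (hσ s h2)
      have f0 := Fq_nonneg (hN s h2) (ba s h2)
      rw [neg_sub_neg, ← neg_sub (h (a s) s), ip_neg_left, ip_neg_left, Complex.neg_re,
        Complex.neg_re]
      simp only [Pi.sub_apply, Pi.neg_apply, Fq] at *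
      set X := C * (6 / (1 - r) + 16 * (ip (h (a s) s) (a s)).re / (1 - ‖a s‖ ^ 2) ^ 2) with hX
      have X0 : 0 ≤ X := by positivity
      have q2 : -(2 * X) ≤
          2 * -(ip (h (a s) s - h (b s) s) (a s - b s)).re / (‖a s - b s‖ ^ 2 + κ) := by
        rw [le_div_iff₀ p]
        nlinarith [mul_nonneg X0 hκ.le]
      have q3 : 16 * C * (- -(2 * -(ip (h (a s) s) (a s)).re) / (-‖a s‖ ^ 2 + 1) ^ 2) + 2 * X =
          12 * C / (1 - r) := by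
        rw [hX, show -‖a s‖ ^ 2 + 1 = 1 - ‖a s‖ ^ 2 by ring]; ring
      linarith)
  simp only [Pi.neg_apply, intervalIntegral.integral_const, smul_eq_mul, sub_zero] at key
  have p0 : 0 < ‖a 0 - b 0‖ ^ 2 + κ := by positivity
  have p1 : 0 < ‖a T - b T‖ ^ 2 + κ := by positivity
  have r1 : 0 ≤ 16 * C * (-‖a T‖ ^ 2 + 1)⁻¹ := by
    have := hr'.trans_le (hq T ⟨hT, le_rfl⟩)
    positivity
  have r2 : 16 * C * (-‖a 0‖ ^ 2 + 1)⁻¹ ≤ 16 * C * (1 - r)⁻¹ := by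
    gcongr
    exact hq 0 ⟨le_rfl, hT⟩
  have r3 : ((2 : ℕ) : ℝ) * -((8 * C + 6 * C * T) / (1 - r)) =
      -(16 * C * (1 - r)⁻¹ + T * (12 * C / (1 - r))) := by push_cast; ring
  have r4 : ((2 : ℕ) : ℝ) * -((8 * C + 6 * C * T) / (1 - r)) + Real.log (‖a 0 - b 0‖ ^ 2 + κ) ≤
      Real.log (‖a T - b T‖ ^ 2 + κ) := by rw [r3]; linarith
  have r5 := Real.exp_le_exp.2 r4
  rw [Real.exp_add, Real.exp_log p0, Real.exp_log p1] at r5
  refine le_trans ?_ r5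
  gcongr
  linarith

/-- The derivative of the flow is bounded below by `exp (-C / (1 - r))`. -/
theorem flow_lower (A : CE n →L[ℂ] CE n) : ∃ C, 0 < C ∧ ∀ T : ℝ, 0 ≤ T →
    ∀ h v : CE n → ℝ → CE n, (∀ t ∈ Icc (0 : ℝ) T, InN A (fun z => h z t)) →
    (∀ z ∈ ball (0 : CE n) 1, AEMeasurable (h z) (volume.restrict (Icc (0 : ℝ) T))) →
    (∀ z ∈ ball (0 : CE n) 1, Traj h T (v z) ∧ v z 0 = z) → ∀ z ∈ ball (0 : CE n) 1, ∀ ξ : CE n,
    Real.exp (-((8 * C + 6 * C * T) / (1 - ‖z‖))) * ‖ξ‖ ≤ ‖fderiv ℂ (fun z => v z T) z ξ‖ := by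
  obtain ⟨C, hC, hc⟩ := range_bound A
  refine ⟨C, hC, fun T hT h v hN hm hv z hz ξ => ?_⟩
  have hd := (flow_diffAt hT hN hm hv hz).hasFDerivAt
  have hz' := mem_ball_zero_iff.1 hz
  obtain ⟨L, hL, hl⟩ := lip A (r := (1 + ‖z‖) / 2) (by linarith)
  obtain ⟨B, hB, hb⟩ := growth A (r := (1 + ‖z‖) / 2) (by linarith)
  set σ := (1 - ‖z‖) / (L + B + 2) with hσ
  have hσ0 : 0 < σ := div_pos (by linarith) (by positivity)
  have hσ1 : (L + B + 2) * σ = 1 - ‖z‖ := by rw [hσ]; field_simp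
  set E := Real.exp (2 * L * T) with hE
  have hE1 : 1 ≤ E := Real.one_le_exp (by positivity)
  have near : ∀ y, ‖z - y‖ ≤ σ / (2 * E) →
      Real.exp (-((8 * C + 6 * C * T) / (1 - ‖z‖))) * ‖z - y‖ ≤ ‖v z T - v y T‖ := by
    intro y hy
    have s1 : σ / (2 * E) ≤ σ := div_le_self hσ0.le (by linarith)
    have s2 : 2 * σ ≤ 1 - ‖z‖ := by nlinarith
    have y1 : ‖y‖ ≤ (1 + ‖z‖) / 2 := by
      have := norm_sub_norm_le y z
      rw [norm_sub_rev] at this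
      linarith
    obtain ⟨Ta, ea⟩ := hv z hz
    obtain ⟨Tb, eb⟩ := hv y (mem_ball_zero_iff.2 (by linarith))
    have := sep_lower (σ := σ) (r := ‖z‖) hT hC hz' hN
      (fun h hh a b ha hab => pair_bound hh hC hL hz' (hc h hh) (hl h hh) (hb h hh) ha
        (by linarith) (by nlinarith)) Ta Tb (by rw [ea]) fun t ht => by
        have u := sep_upper (κ := (σ / (2 * E)) ^ 2) hL (by positivity) hN hl Ta Tb
          (by rw [ea]; linarith) (by rw [eb]; exact y1) t ht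
        rw [ea, eb, ← hE] at u
        have u2 : ‖z - y‖ ^ 2 ≤ (σ / (2 * E)) ^ 2 := by gcongr
        have u3 : (σ / (2 * E)) ^ 2 * E = σ ^ 2 / (4 * E) := by field_simp; ring
        have u4 : σ ^ 2 / (4 * E) ≤ σ ^ 2 / 2 := by gcongr; linarith
        rw [← sq_le_sq₀ (norm_nonneg _) hσ0.le]
        nlinarith
    rwa [ea, eb] at this
  have hc1 : Tendsto (fun k : ℕ => ‖((k + 1 : ℝ) : ℂ)‖) atTop atTop := by
    refine (tendsto_atTop_add_const_right _ 1 tendsto_natCast_atTop_atTop).congr fun k => ?_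
    rw [Complex.norm_real, Real.norm_eq_abs, abs_of_pos (by positivity)]
  refine ge_of_tendsto (hd.lim ξ hc1).norm ?_
  have hc2 : Tendsto (fun k : ℕ => ‖ξ‖ / (k + 1 : ℝ)) atTop (𝓝 0) :=
    tendsto_const_nhds.div_atTop (tendsto_atTop_add_const_right _ 1 tendsto_natCast_atTop_atTop)
  filter_upwards [hc2.eventually (ge_mem_nhds (show 0 < σ / (2 * E) by positivity))] with k hk
  have e : ‖z - (z + ((k + 1 : ℝ) : ℂ)⁻¹ • ξ)‖ = ‖ξ‖ / (k + 1 : ℝ) := by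
    rw [sub_add_cancel_left, norm_neg, norm_smul, norm_inv, Complex.norm_real, Real.norm_eq_abs,
      abs_of_pos (by positivity), div_eq_inv_mul]
  have := near _ (e.trans_le hk)
  rw [e, norm_sub_rev, ← mul_div_assoc, div_le_iff₀ (by positivity)] at this
  rw [norm_smul, Complex.norm_real, Real.norm_eq_abs, abs_of_pos (by positivity)]
  linarith

end Pool.Agent.Lib.MP_c027d2_an.H92
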