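import Pool.Agent.Lib.MP_c027d2_an.H92Harm

/-! An upper bound for the numerical range of the derivative of a Caratheodory field. -/

open MeasureTheory Metric Set Filter Topology

namespace Pool.Agent.Lib.MP_c027d2_an.H92

variable {n : ℕ}

/-- The real part of the pairing of `h z` with `z`. -/
noncomputable def Fq (h : CE n → CE n) (z : CE n) : ℝ := (ip (h z) z).re

/-- The quadratic form of the derivative of `h` at `z`. -/
noncomputable def Nq (h : CE n → CE n) (z η : CE n) : ℝ := (ip (fderiv ℂ h z η) η).re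

theorem hasDerivAt_line {h : CE n → CE n} {z η : CE n} (hd : DifferentiableAt ℂ h z) :
    HasDerivAt (fun s : ℂ => h (z + s • η)) (fderiv ℂ h z η) 0 := by
  have h2 : HasDerivAt (fun s : ℂ => z + s • η) η 0 := by
    simpa using ((hasDerivAt_id (0 : ℂ)).smul_const η).const_add z
  have h1 : HasFDerivAt h (fderiv ℂ h z) (z + (0 : ℂ) • η) := by simpa using hd.hasFDerivAt
  exact HasFDerivAt.comp_hasDerivAt (f := fun s : ℂ => z + s • η) (0 : ℂ) h1 h2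

theorem line {h : CE n → CE n} (hd : DifferentiableOn ℂ h (ball 0 1)) {z η : CE n} {R : ℝ}
    (hR : 0 < R) (hin : ∀ s ∈ closedBall (0 : ℂ) R, z + s • η ∈ ball (0 : CE n) 1) :
    ∃ f₁ f₂ : ℂ → ℂ, DifferentiableOn ℂ f₁ (closedBall 0 R) ∧
      DifferentiableOn ℂ f₂ (closedBall 0 R) ∧ (f₁ 0).re = Fq h z ∧ (f₂ 0).re = Nq h z η ∧
      ∀ s, Fq h (z + s • η) = (f₁ s).re + ‖s‖ ^ 2 * (f₂ s).re := by
  have hg : DifferentiableOn ℂ (fun s : ℂ => h (z + s • η)) (closedBall 0 R) :=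
    hd.comp (by fun_prop) hin
  have hz : z ∈ ball (0 : CE n) 1 := by simpa using hin 0 (mem_closedBall_self hR.le)
  let b : ℂ → ℂ := fun s => ip (h (z + s • η)) η
  refine ⟨fun s => ip (h (z + s • η)) z + s * (starRingEnd ℂ) (b 0), dslope b 0,
    (diffOn_ip hg z).add (by fun_prop),
    (Complex.differentiableOn_dslope (closedBall_mem_nhds _ hR)).2 (diffOn_ip hg η),
    by simp [Fq], ?_, fun s => ?_⟩
  · have h3 := hasDerivAt_line (η := η) ((hd z hz).differentiableAt (isOpen_ball.mem_nhds hz))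
    have h4 := (ipL η).hasFDerivAt.comp_hasDerivAt (0 : ℂ) h3
    rw [dslope_same, Nq, ← ipL_apply, ← h4.deriv]
    congr 2
  · have e : b s = b 0 + s * dslope b 0 s := by
      have := sub_smul_dslope b 0 s
      simp only [sub_zero, smul_eq_mul] at this
      rw [this]; ring
    have e2 : (starRingEnd ℂ) s * s = ((‖s‖ ^ 2 : ℝ) : ℂ) := by
      rw [← Complex.normSq_eq_norm_sq, Complex.normSq_eq_conj_mul_self]
    have e3 : ((starRingEnd ℂ) s * b 0).re = (s * (starRingEnd ℂ) (b 0)).re := by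
      simp
    rw [Fq, ip_add_right, ip_smul_right]
    change (_ + (starRingEnd ℂ) s * b s).re = _
    rw [e, mul_add, ← mul_assoc, e2, Complex.add_re, Complex.add_re, Complex.add_re, e3,
      Complex.re_ofReal_mul]
    ring

theorem dcc {f : ℂ → ℂ} {c : ℂ} {R S : ℝ} (hf : DifferentiableOn ℂ f (closedBall c S))
    (hR : R ≤ S) : DiffContOnCl ℂ f (ball c R) :=
  (hf.mono (closure_ball_subset_closedBall.trans (closedBall_subset_closedBall hR))).diffContOnCl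

variable {A : CE n →L[ℂ] CE n} {h : CE n → CE n}

theorem Fq_nonneg (hh : InN A h) {z : CE n} (hz : z ∈ ball (0 : CE n) 1) : 0 ≤ Fq h z :=
  hh.re_nonneg (mem_ball_zero_iff.1 hz)

theorem avg_lower (hh : InN A h) {z η : CE n} {R : ℝ} (hR : 0 < R)
    (hin : ∀ s ∈ closedBall (0 : ℂ) R, z + s • η ∈ ball (0 : CE n) 1) :
    0 ≤ Fq h z + R ^ 2 * Nq h z η := by
  obtain ⟨f₁, f₂, d₁, d₂, e₁, e₂, e⟩ := line hh.1 hR hin
  have := re_nonneg_of_sphere (f := fun s => f₁ s + ((R ^ 2 : ℝ) : ℂ) * f₂ s)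
    (dcc (d₁.add (d₂.const_mul _)) le_rfl) (mem_ball_self hR) fun s hs => by
      have h1 := Fq_nonneg hh (hin s (sphere_subset_closedBall hs))
      rw [e, mem_sphere_zero_iff_norm.1 hs] at h1
      simpa only [Complex.add_re, Complex.re_ofReal_mul] using h1
  simpa only [Complex.add_re, Complex.re_ofReal_mul, e₁, e₂] using this

theorem avg_upper (hh : InN A h) {z η : CE n} {R Λ : ℝ} (hR : 0 < R)
    (hin : ∀ s ∈ closedBall (0 : ℂ) R, z + s • η ∈ ball (0 : CE n) 1)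
    (hb : ∀ s : ℂ, ‖s‖ = R → Fq h (z + s • η) ≤ Λ) : Fq h z + R ^ 2 * Nq h z η ≤ Λ := by
  obtain ⟨f₁, f₂, d₁, d₂, e₁, e₂, e⟩ := line hh.1 hR hin
  have := re_nonneg_of_sphere (f := fun s => (Λ : ℂ) - (f₁ s + ((R ^ 2 : ℝ) : ℂ) * f₂ s))
    (dcc ((d₁.add (d₂.const_mul _)).const_sub _) le_rfl) (mem_ball_self hR) fun s hs => by
      have h1 := hb s (mem_sphere_zero_iff_norm.1 hs)
      rw [e, mem_sphere_zero_iff_norm.1 hs] at h1
      simp only [Complex.sub_re, Complex.add_re, Complex.re_ofReal_mul, Complex.ofReal_re]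
      linarith
  simp only [Complex.sub_re, Complex.add_re, Complex.re_ofReal_mul, Complex.ofReal_re, e₁,
    e₂] at this
  linarith

theorem point_upper (hh : InN A h) {z η : CE n} {R : ℝ} (hR : 0 < R)
    (hin : ∀ s ∈ closedBall (0 : ℂ) (2 * R), z + s • η ∈ ball (0 : CE n) 1) {s : ℂ}
    (hs : ‖s‖ ≤ R / 2) : Fq h (z + s • η) ≤ 4 * (Fq h z + R ^ 2 * Nq h z η) := by
  obtain ⟨f₁, f₂, d₁, d₂, e₁, e₂, e⟩ := line hh.1 (by positivity) hin
  have pos : ∀ S : ℝ, S ≤ 2 * R → ∀ t ∈ sphere (0 : ℂ) S,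
      0 ≤ (f₁ t + ((S ^ 2 : ℝ) : ℂ) * f₂ t).re := fun S hS t ht => by
    have h1 := Fq_nonneg hh (hin t (closedBall_subset_closedBall hS (sphere_subset_closedBall ht)))
    rw [e, mem_sphere_zero_iff_norm.1 ht] at h1
    simpa only [Complex.add_re, Complex.re_ofReal_mul] using h1
  have a1 := re_nonneg_of_sphere (f := fun s => f₁ s + (((2 * R) ^ 2 : ℝ) : ℂ) * f₂ s) (w := s)
    (dcc (d₁.add (d₂.const_mul _)) le_rfl) (mem_ball_zero_iff.2 (by linarith)) (pos _ le_rfl)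
  have a2 := re_nonneg_of_sphere (f := fun s => f₁ s + ((R ^ 2 : ℝ) : ℂ) * f₂ s) (w := s)
    (dcc (d₁.add (d₂.const_mul _)) (by linarith)) (mem_ball_zero_iff.2 (by linarith))
    (pos R (by linarith))
  have a3 := harnack3 (f := fun s => f₁ s + ((R ^ 2 : ℝ) : ℂ) * f₂ s) (w := s) hR
    (dcc (d₁.add (d₂.const_mul _)) (by linarith)) (by simpa using hs) (pos R (by linarith))
  simp only [Complex.add_re, Complex.re_ofReal_mul, e₁, e₂] at a1 a2 a3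
  rw [e]
  have hs2 : ‖s‖ ^ 2 ≤ R ^ 2 := by nlinarith [norm_nonneg s]
  have hs0 : 0 ≤ ‖s‖ ^ 2 := by positivity
  have hR2 : 0 < R ^ 2 := by positivity
  set x := (f₁ s).re
  set y := (f₂ s).re
  set σ := ‖s‖ ^ 2
  set Q := R ^ 2 with hQ
  have hq : (2 * R) ^ 2 = 4 * Q := by rw [hQ]; ring
  rw [hq] at a1
  have k : 3 * Q * (x + σ * y) ≤ 4 * Q * (x + Q * y) := by
    nlinarith [mul_nonneg (sub_nonneg.2 hs2) a1, mul_nonneg hs0 a2]
  have k2 : 3 * (x + σ * y) ≤ 4 * (x + Q * y) := by nlinarith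
  linarith

theorem ip_smul_smul (ζ : ℂ) (hζ : ζ ≠ 0) (a u : CE n) :
    (ip a (ζ • u)).re = ‖ζ‖ ^ 2 * (ip a u / ζ).re := by
  rw [← Complex.re_ofReal_mul, ip_smul_right, ← Complex.normSq_eq_norm_sq,
    Complex.normSq_eq_conj_mul_self]
  congr 1
  field_simp

theorem norm_sq_orth {u τ : CE n} (hu : ‖u‖ = 1) (ho : ip τ u = 0) (ζ s : ℂ) :
    ‖ζ • u + s • τ‖ ^ 2 = ‖ζ‖ ^ 2 + ‖s‖ ^ 2 * ‖τ‖ ^ 2 := by
  have : inner ℂ (ζ • u) (s • τ) = 0 := by
    rw [inner_smul_left, inner_smul_right, ← ip_eq, ho]; simp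
  have h1 := norm_add_sq_eq_norm_sq_add_norm_sq_of_inner_eq_zero _ _ this
  rw [sq, h1, norm_smul, norm_smul, hu]
  ring

theorem diffAt_fderiv (hd : DifferentiableOn ℂ h (ball 0 1)) {z : CE n}
    (hz : z ∈ ball (0 : CE n) 1) : DifferentiableAt ℂ (fderiv ℂ h) z := by
  have hz' := mem_ball_zero_iff.1 hz
  have h1 : DifferentiableOn ℂ (fun x => h (z + x)) (ball 0 (1 - ‖z‖)) :=
    hd.comp (by fun_prop) fun x hx => by
      rw [mem_ball_zero_iff] at *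
      linarith [norm_add_le z x]
  have h2 := differentiableAt_fderiv (by linarith) h1
  have h3 : fderiv ℂ (fun x => h (z + x)) = fun x => fderiv ℂ h (z + x) :=
    funext fun x => fderiv_comp_add_left z
  rw [h3] at h2
  have h4 : DifferentiableAt ℂ (fun x => fderiv ℂ h (z + x)) (-z + z) := by simpa using h2
  have h5 := h4.comp z (f := fun y : CE n => -z + y) (by fun_prop)
  simpa [Function.comp_def] using h5

theorem fderiv_bound (A : CE n →L[ℂ] CE n) {r : ℝ} (hr : r < 1) :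
    ∃ L, 0 ≤ L ∧ ∀ h, InN A h → ∀ z η : CE n, ‖z‖ ≤ r → ‖η‖ ≤ 1 → Nq h z η ≤ L := by
  set ρ : ℝ := (1 - r) / 2 with hρ
  have hρ0 : 0 < ρ := by rw [hρ]; linarith
  obtain ⟨C, hC, hb⟩ := growth A (r := r + ρ) (by linarith)
  refine ⟨2 * C / ρ, by positivity, fun h hh y η hy hη => ?_⟩
  have hsub : ∀ w ∈ ball y ρ, ‖w‖ ≤ r + ρ := by
    intro w hw
    rw [mem_ball, dist_eq_norm] at hw
    have := norm_add_le (w - y) y
    rw [sub_add_cancel] at this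
    linarith
  have h1 : ‖fderiv ℂ h y‖ ≤ 2 * C / ρ :=
    norm_fderiv_le_of_bound hρ0 (hh.1.mono fun w hw => by
      rw [mem_ball_zero_iff]; linarith [hsub w hw]) fun w hw => hb h hh w (hsub w hw)
  have h2 := (fderiv ℂ h y).le_opNorm η
  have h3 := norm_ip_le (fderiv ℂ h y η) η
  have h4 := Complex.re_le_norm (ip (fderiv ℂ h y η) η)
  have h5 : ‖fderiv ℂ h y η‖ * ‖η‖ ≤ ‖fderiv ℂ h y‖ * 1 * 1 := by
    gcongr
    exact h2.trans (by gcongr)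
  rw [Nq]
  linarith

theorem diff_p (hd : DifferentiableOn ℂ h (ball 0 1)) {u : CE n} (hu : ‖u‖ = 1) {U : Set ℂ}
    (hU : ∀ ζ ∈ U, ‖ζ‖ < 1 ∧ ζ ≠ 0) :
    DifferentiableOn ℂ (fun ζ : ℂ => ip (h (ζ • u)) u / ζ) U :=
  (diffOn_ip (hd.comp (by fun_prop) fun ζ hζ => by
    rw [mem_ball_zero_iff, norm_smul, hu, mul_one]; exact (hU ζ hζ).1) u).div
    differentiableOn_id fun ζ hζ => (hU ζ hζ).2

theorem p_nonneg (hh : InN A h) {u : CE n} (hu : ‖u‖ = 1) {ζ : ℂ} (h1 : ‖ζ‖ < 1) (h0 : ζ ≠ 0) :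
    0 ≤ (ip (h (ζ • u)) u / ζ).re := by
  have := hh.re_nonneg (z := ζ • u) (by rwa [norm_smul, hu, mul_one])
  rw [ip_smul_smul ζ h0] at this
  exact (mul_nonneg_iff_of_pos_left (by positivity)).1 this

/-- The complex tangential bound. -/
theorem tangential (hh : InN A h) {L : ℝ}
    (hL : ∀ z η : CE n, ‖z‖ ≤ 5 / 6 → ‖η‖ ≤ 1 → Nq h z η ≤ L) {u τ : CE n} (hu : ‖u‖ = 1)
    (hτ : ‖τ‖ ≤ 1) (ho : ip τ u = 0) {ρ : ℝ} (h1 : 2 / 3 ≤ ρ) (h2 : ρ < 1) :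
    Nq h ((ρ : ℂ) • u) τ ≤ 2 * L / (1 - ρ) + 36 * Fq h ((ρ : ℂ) • u) / (1 - ρ) ^ 2 := by
  have hU : ∀ ζ ∈ closedBall (1 / 2 : ℂ) (ρ / 2), ‖ζ‖ < 1 ∧ ζ ≠ 0 := by
    intro ζ hζ
    rw [mem_closedBall, dist_eq_norm] at hζ
    constructor
    · have := norm_add_le (ζ - 1 / 2) (1 / 2)
      rw [sub_add_cancel] at this
      have e : ‖(1 / 2 : ℂ)‖ = 1 / 2 := by simp
      linarith
    · rintro rfl
      have e : ‖(0 - 1 / 2 : ℂ)‖ = 1 / 2 := by simp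
      linarith
  have hb : ∀ ζ ∈ closedBall (1 / 2 : ℂ) (ρ / 2), ζ • u ∈ ball (0 : CE n) 1 := fun ζ hζ => by
    rw [mem_ball_zero_iff, norm_smul, hu, mul_one]; exact (hU ζ hζ).1
  have dg : DifferentiableOn ℂ (fun ζ : ℂ => ip (fderiv ℂ h (ζ • u) τ) τ)
      (closedBall (1 / 2 : ℂ) (ρ / 2)) := by
    refine diffOn_ip (fun ζ hζ => DifferentiableAt.differentiableWithinAt ?_) τ
    have a := (diffAt_fderiv hh.1 (hb ζ hζ)).comp ζ (f := fun ζ : ℂ => ζ • u) (by fun_prop)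
    exact a.clm_apply (differentiableAt_const τ)
  have dp := diff_p hh.1 hu hU
  have e0 : ‖(ρ : ℂ) - 1 / 2‖ = ρ - 1 / 2 := by
    rw [show (ρ : ℂ) - 1 / 2 = ((ρ - 1 / 2 : ℝ) : ℂ) by push_cast; ring, Complex.norm_real,
      Real.norm_eq_abs, abs_of_pos (by linarith)]
  have hw : (ρ : ℂ) ∈ ball (1 / 2 : ℂ) (ρ / 2) := by
    rw [mem_ball, dist_eq_norm, e0]; linarith
  have hδ : 0 < 1 - ρ := by linarith
  have key := harnack2 (H := 2 / (1 - ρ)) (β := 8 / (1 - ρ)) (dcc dg le_rfl) (dcc dp le_rfl) hw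
    (by positivity)
    (fun ζ hζ => (pk_le hw hζ).trans (by
      rw [e0, div_le_div_iff₀ (by linarith) hδ]; nlinarith))
    (fun ζ hζ => p_nonneg hh hu (hU ζ (sphere_subset_closedBall hζ)).1
      (hU ζ (sphere_subset_closedBall hζ)).2) (fun ζ hζ => ?_)
  · have a1 := hL ((1 / 2 : ℂ) • u) τ (by rw [norm_smul, hu]; norm_num) hτ
    have a2 : Fq h ((ρ : ℂ) • u) = ρ ^ 2 * (ip (h ((ρ : ℂ) • u)) u / ρ).re := by
      rw [Fq, ip_smul_smul _ (by exact_mod_cast (by linarith : ρ ≠ 0)), Complex.norm_real,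
        Real.norm_eq_abs, sq_abs]
    have a3 := p_nonneg hh hu (ζ := (ρ : ℂ))
      (by rw [Complex.norm_real, Real.norm_eq_abs, abs_of_pos (by linarith)]; exact h2)
      (by exact_mod_cast (by linarith : ρ ≠ 0))
    refine key.trans ?_
    rw [a2]
    set P := (ip (h ((ρ : ℂ) • u)) u / ρ).re
    have a4 : 2 / (1 - ρ) * (ip (fderiv ℂ h ((1 / 2 : ℂ) • u) τ) τ).re ≤ 2 / (1 - ρ) * L := by
      gcongr; exact a1
    have a5 : 2 / (1 - ρ) * (8 / (1 - ρ)) * P = 16 * P / (1 - ρ) ^ 2 := by field_simp; ring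
    have a6 : 16 * P / (1 - ρ) ^ 2 ≤ 36 * (ρ ^ 2 * P) / (1 - ρ) ^ 2 := by
      gcongr ?_ / _
      nlinarith [mul_nonneg (show 0 ≤ ρ ^ 2 - 4 / 9 by nlinarith) a3]
    have a7 : 2 / (1 - ρ) * L = 2 * L / (1 - ρ) := by ring
    linarith
  · obtain ⟨z1, z0⟩ := hU ζ (sphere_subset_closedBall hζ)
    have hP := p_nonneg hh hu z1 z0
    have hq : 0 < 1 - ‖ζ‖ ^ 2 := by nlinarith [norm_nonneg ζ]
    have b1 := avg_lower hh (z := ζ • u) (η := τ) (R := √((1 - ‖ζ‖ ^ 2) / 2)) (by positivity)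
      fun s hs => by
        rw [mem_closedBall_zero_iff] at hs
        rw [mem_ball_zero_iff, ← sq_lt_one_iff₀ (norm_nonneg _), norm_sq_orth hu ho]
        have c1 : ‖s‖ ^ 2 ≤ (1 - ‖ζ‖ ^ 2) / 2 := by
          rw [← Real.sq_sqrt (show 0 ≤ (1 - ‖ζ‖ ^ 2) / 2 by positivity)]; gcongr
        have c2 : ‖τ‖ ^ 2 ≤ 1 := by nlinarith [norm_nonneg τ]
        nlinarith [sq_nonneg ‖s‖]
    rw [Real.sq_sqrt (by positivity), Fq, ip_smul_smul _ z0] at b1
    rw [mem_sphere, dist_eq_norm] at hζ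
    have n1 : ‖ζ - 1 / 2‖ ^ 2 = (ζ.re - 1 / 2) ^ 2 + ζ.im ^ 2 := by
      rw [Complex.sq_norm, Complex.normSq_apply]; simp; ring
    have n2 : ‖ζ‖ ^ 2 = ζ.re ^ 2 + ζ.im ^ 2 := by
      rw [Complex.sq_norm, Complex.normSq_apply]; ring
    have n3 : ‖ζ - 1 / 2 - (ρ - 1 / 2)‖ ^ 2 = (ζ.re - ρ) ^ 2 + ζ.im ^ 2 := by
      rw [Complex.sq_norm, Complex.normSq_apply]; simp; ring
    have n4 : ζ.re - 1 / 2 ≤ ρ / 2 := by
      have := Complex.re_le_norm (ζ - 1 / 2)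
      simp only [Complex.sub_re] at this
      rw [hζ] at this
      simpa using this
    have n5 : ‖ζ - 1 / 2 - (ρ - 1 / 2)‖ ^ 2 ≤ 1 - ‖ζ‖ ^ 2 := by
      rw [hζ] at n1
      rw [n3, n2]
      nlinarith
    have n6 : 0 < ‖ζ - 1 / 2 - (ρ - 1 / 2)‖ ^ 2 := by
      have : (1 - ρ) / 2 ≤ ‖ζ - 1 / 2 - (ρ - 1 / 2)‖ := by
        have := norm_sub_norm_le (ζ - 1 / 2) ((ρ : ℂ) - 1 / 2)
        rw [hζ, e0] at this
        linarith
      have : 0 < ‖ζ - 1 / 2 - (ρ - 1 / 2)‖ := by linarith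
      positivity
    have k1 : 2 / (1 - ‖ζ‖ ^ 2) ≤ 8 / (1 - ρ) * poissonKernel (1 / 2) ρ ζ := by
      rw [poissonKernel_def, hζ, e0, div_mul_div_comm, div_le_div_iff₀ hq (by positivity)]
      have : 2 * (1 - ρ) ≤ 8 * ((ρ / 2) ^ 2 - (ρ - 1 / 2) ^ 2) := by nlinarith
      nlinarith [mul_le_mul this n5 n6.le (by linarith)]
    set P := (ip (h (ζ • u)) u / ζ).re
    change 0 ≤ Nq h (ζ • u) τ + _
    have k2 : 0 ≤ Nq h (ζ • u) τ + 2 / (1 - ‖ζ‖ ^ 2) * P := by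
      have : Nq h (ζ • u) τ + 2 / (1 - ‖ζ‖ ^ 2) * P =
          2 / (1 - ‖ζ‖ ^ 2) * (P + (1 - ‖ζ‖ ^ 2) / 2 * Nq h (ζ • u) τ) := by field_simp; ring
      rw [this]
      refine mul_nonneg (by positivity) ?_
      nlinarith [mul_nonneg hq.le hP]
    nlinarith [mul_le_mul_of_nonneg_right k1 hP]

theorem near_bound (hh : InN A h) {L : ℝ} (hL0 : 0 ≤ L)
    (hL : ∀ z η : CE n, ‖z‖ ≤ 5 / 6 → ‖η‖ ≤ 1 → Nq h z η ≤ L) {u τ : CE n} (hu : ‖u‖ = 1)
    (hτ : ‖τ‖ ≤ 1) (ho : ip τ u = 0) {ρ : ℝ} (h1 : 5 / 6 ≤ ρ) (h2 : ρ < 1) {ζ s : ℂ}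
    (hζ : ‖ζ - ρ‖ ≤ (1 - ρ) / 8) (hs : ‖s‖ ≤ (1 - ρ) / 8) :
    Fq h (ζ • u + s • τ) ≤ 200 * Fq h ((ρ : ℂ) • u) + L * (1 - ρ) := by
  have eρ : ‖(ρ : ℂ)‖ = ρ := by
    rw [Complex.norm_real, Real.norm_eq_abs, abs_of_pos (by linarith)]
  have z1 : ‖ζ‖ ≤ ρ + (1 - ρ) / 8 := by
    have := norm_add_le (ζ - ρ) ρ
    rw [sub_add_cancel, eρ] at this
    linarith
  have z2 : ρ - (1 - ρ) / 8 ≤ ‖ζ‖ := by
    have := norm_sub_norm_le (ρ : ℂ) ζ
    rw [norm_sub_rev, eρ] at this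
    linarith
  have z0 : ζ ≠ 0 := by
    rintro rfl
    rw [norm_zero] at z2
    linarith
  have zp : 0 < ‖ζ‖ := norm_pos_iff.2 z0
  have a1 := point_upper hh (z := ζ • u) (η := τ) (R := (1 - ρ) / 4) (by linarith)
    (fun t ht => by
      rw [mem_closedBall_zero_iff] at ht
      rw [mem_ball_zero_iff]
      refine (norm_add_le _ _).trans_lt ?_
      rw [norm_smul, norm_smul, hu]
      have : ‖t‖ * ‖τ‖ ≤ ‖t‖ * 1 := by gcongr
      linarith) (s := s) (by linarith)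
  have eu : ζ • u = ((‖ζ‖ : ℝ) : ℂ) • ((ζ / ‖ζ‖) • u) := by
    rw [smul_smul, mul_div_cancel₀ _ (by exact_mod_cast zp.ne')]
  have a2 := tangential hh hL (u := (ζ / ‖ζ‖) • u) (τ := τ)
    (by rw [norm_smul, hu, norm_div, Complex.norm_real, norm_norm, div_self zp.ne', mul_one]) hτ
    (by rw [ip_smul_right, ho, mul_zero]) (ρ := ‖ζ‖) (by linarith) (by linarith)
  rw [← eu] at a2
  have hU : ∀ x ∈ closedBall (ρ : ℂ) ((1 - ρ) / 2), ‖x‖ < 1 ∧ x ≠ 0 := by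
    intro x hx
    rw [mem_closedBall, dist_eq_norm] at hx
    constructor
    · have := norm_add_le (x - ρ) ρ
      rw [sub_add_cancel, eρ] at this
      linarith
    · rintro rfl
      rw [zero_sub, norm_neg, eρ] at hx
      linarith
  have a3 := harnack3 (w := ζ) (by linarith) (dcc (diff_p hh.1 hu hU) le_rfl) (by linarith)
    fun x hx => p_nonneg hh hu (hU x (sphere_subset_closedBall hx)).1
      (hU x (sphere_subset_closedBall hx)).2
  have a4 : Fq h (ζ • u) ≤ 5 * Fq h ((ρ : ℂ) • u) := by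
    have p0 := p_nonneg hh hu (ζ := ζ) (by linarith) z0
    rw [Fq, Fq, ip_smul_smul _ z0,
      ip_smul_smul _ (by exact_mod_cast (by linarith : ρ ≠ 0)), eρ]
    have q1 : ‖ζ‖ ^ 2 ≤ 1 := by nlinarith
    have q2 : 3 ≤ 5 * ρ ^ 2 := by nlinarith
    nlinarith [mul_le_mul_of_nonneg_right q1 p0]
  have f0 : 0 ≤ Fq h (ζ • u) := Fq_nonneg hh (by
    rw [mem_ball_zero_iff, norm_smul, hu]; linarith)
  have hδ : 0 < 1 - ρ := by linarith
  have a5 : 2 * L / (1 - ‖ζ‖) ≤ 2 * L / ((1 - ρ) / 2) := by gcongr; linarith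
  have a6 : 36 * Fq h (ζ • u) / (1 - ‖ζ‖) ^ 2 ≤ 36 * Fq h (ζ • u) / ((1 - ρ) / 2) ^ 2 := by
    gcongr; linarith
  have a7 : ((1 - ρ) / 4) ^ 2 * Nq h (ζ • u) τ ≤ ((1 - ρ) / 4) ^ 2 *
      (2 * L / ((1 - ρ) / 2) + 36 * Fq h (ζ • u) / ((1 - ρ) / 2) ^ 2) := by
    gcongr; linarith
  have a8 : ((1 - ρ) / 4) ^ 2 *
      (2 * L / ((1 - ρ) / 2) + 36 * Fq h (ζ • u) / ((1 - ρ) / 2) ^ 2) =
      L * (1 - ρ) / 4 + 9 * Fq h (ζ • u) := by field_simp; ring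
  linarith

/-- The numerical range of `Dh w` is controlled by the radial speed at `w`. -/
theorem range_bound (A : CE n →L[ℂ] CE n) : ∃ C, 0 < C ∧ ∀ h, InN A h →
    ∀ w ∈ ball (0 : CE n) 1, ∀ η : CE n, ‖η‖ ≤ 1 →
      Nq h w η ≤ C * (1 / (1 - ‖w‖) + Fq h w / (1 - ‖w‖) ^ 2) := by
  obtain ⟨L, hL0, hL⟩ := fderiv_bound A (r := 5 / 6) (by norm_num)
  refine ⟨64 * (200 + L), by positivity, fun h hh w hw η hη => ?_⟩
  have f0 := Fq_nonneg hh hw
  rw [mem_ball_zero_iff] at hw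
  have hδ : 0 < 1 - ‖w‖ := by linarith
  rcases le_total ‖w‖ (5 / 6) with h1 | h1
  · have a1 := hL h hh w η h1 hη
    have a2 : 1 ≤ 1 / (1 - ‖w‖) := by rw [le_div_iff₀ hδ]; linarith [norm_nonneg w]
    have a3 : 0 ≤ Fq h w / (1 - ‖w‖) ^ 2 := by positivity
    nlinarith
  set ρ := ‖w‖ with hρ
  have hρ0 : 0 < ρ := by linarith
  set u : CE n := ((ρ⁻¹ : ℝ) : ℂ) • w with hu
  have hu1 : ‖u‖ = 1 := by
    rw [hu, norm_smul, Complex.norm_real, Real.norm_eq_abs, abs_of_pos (by positivity),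
      inv_mul_cancel₀ hρ0.ne']
  have hwu : w = ((ρ : ℝ) : ℂ) • u := by
    rw [hu, smul_smul, ← Complex.ofReal_mul, mul_inv_cancel₀ hρ0.ne']; simp
  have ho : ip (η - ip η u • u) u = 0 := by
    rw [ip_sub_left, ip_smul_left, ip_self, hu1]; simp
  have hn := norm_sq_orth hu1 ho (ip η u) 1
  rw [one_smul, add_sub_cancel, norm_one] at hn
  have hη2 : ‖η‖ ^ 2 ≤ 1 := by nlinarith [norm_nonneg η]
  have hτ : ‖η - ip η u • u‖ ≤ 1 := by
    rw [← sq_le_one_iff₀ (norm_nonneg _)]; nlinarith [sq_nonneg ‖ip η u‖]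
  have ha : ‖ip η u‖ ≤ 1 := by
    rw [← sq_le_one_iff₀ (norm_nonneg _)]; nlinarith [sq_nonneg ‖η - ip η u • u‖]
  have key := avg_upper hh (z := w) (η := η) (R := (1 - ρ) / 8)
    (Λ := 200 * Fq h w + L * (1 - ρ)) (by linarith)
    (fun t ht => by
      rw [mem_closedBall_zero_iff] at ht
      rw [mem_ball_zero_iff]
      refine (norm_add_le _ _).trans_lt ?_
      rw [norm_smul]
      have : ‖t‖ * ‖η‖ ≤ ‖t‖ * 1 := by gcongr
      linarith) fun s hs => by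
      have e : w + s • η = ((ρ : ℂ) + s * ip η u) • u + s • (η - ip η u • u) := by
        rw [add_smul, ← hwu, smul_sub, mul_smul]; abel
      have := near_bound hh hL0 (hL h hh) hu1 hτ ho h1 hw (ζ := (ρ : ℂ) + s * ip η u) (s := s)
        (by
          rw [add_sub_cancel_left, norm_mul]
          have : ‖s‖ * ‖ip η u‖ ≤ ‖s‖ * 1 := by gcongr
          linarith) hs.le
      rwa [← e, ← hwu] at this
  have e : 64 * (200 + L) * (1 / (1 - ρ) + Fq h w / (1 - ρ) ^ 2) =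
      (200 + L) * (1 - ρ + Fq h w) / ((1 - ρ) / 8) ^ 2 := by field_simp; ring
  rw [e, le_div_iff₀ (by positivity)]
  nlinarith [mul_nonneg hL0 f0]

end Pool.Agent.Lib.MP_c027d2_an.H92
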