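import Pool.Agent.Lib.MP_c027d2_an.Main

/-!
The case of the identity operator.
-/

open MeasureTheory Metric Set Filter Topology

namespace Pool.Agent.Lib.MP_c027d2_an

variable {n : ℕ}

theorem id_pos : ∀ z : CE n, z ≠ 0 → 0 < (ip (ContinuousLinearMap.id ℂ (CE n) z) z).re := by
  intro z hz
  rw [ContinuousLinearMap.id_apply, ip_self, Complex.ofReal_re]
  exact pow_pos (norm_pos_iff.2 hz) 2

theorem exp_id_apply (t : ℝ) (u : CE n) :
    NormedSpace.exp (t • ContinuousLinearMap.id ℂ (CE n)) u = ((Real.exp t : ℝ) : ℂ) • u := by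
  have h1 : t • ContinuousLinearMap.id ℂ (CE n) = algebraMap ℂ (CE n →L[ℂ] CE n) (t : ℂ) := by
    ext1 v
    exact (Complex.coe_smul t v).symm
  rw [h1, ← NormedSpace.algebraMap_exp_comm, ← Complex.exp_eq_exp_ℂ, Complex.ofReal_exp]
  rfl

theorem sigma_id_le (x y : CE n) :
    sigma (ContinuousLinearMap.id ℂ (CE n)) x y ≤ 3 * Real.sqrt 3 / 2 * (‖x‖ ^ 2 * ‖y‖) := by
  rcases eq_or_ne y 0 with rfl | hy
  · rw [sigma_zero_right id_pos]; simp
  have hy0 : 0 < ‖y‖ := norm_pos_iff.2 hy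
  have h3 : 0 < Real.sqrt 3 := by positivity
  have h33 : Real.sqrt 3 ^ 2 = 3 := Real.sq_sqrt (by norm_num)
  have h31 : 1 < Real.sqrt 3 := by nlinarith
  have hs : 0 < 1 / (Real.sqrt 3 * ‖y‖) := by positivity
  refine (sigma_le_cost id_pos x y hs (by
    rw [div_mul_eq_mul_div, div_lt_one (by positivity)]; nlinarith)).trans ?_
  have hden : 1 - (1 / (Real.sqrt 3 * ‖y‖)) ^ 2 * ‖y‖ ^ 2 = 2 / 3 := by
    field_simp; nlinarith
  simp only [cost, ContinuousLinearMap.id_apply, ip_self, Complex.ofReal_re, hden]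
  have h4 : 1 / (Real.sqrt 3 * ‖y‖) * ‖y‖ ^ 2 *
      (‖x‖ ^ 2 - (1 / (Real.sqrt 3 * ‖y‖)) ^ 2 * ‖ip x y‖ ^ 2) / (2 / 3) ≤
      1 / (Real.sqrt 3 * ‖y‖) * ‖y‖ ^ 2 * ‖x‖ ^ 2 / (2 / 3) := by
    gcongr
    have : 0 ≤ (1 / (Real.sqrt 3 * ‖y‖)) ^ 2 * ‖ip x y‖ ^ 2 := by positivity
    linarith
  refine (add_le_add le_rfl h4).trans_eq ?_
  field_simp
  rw [h33]
  ring

theorem sigma_id_ge {x y : CE n} (hxy : ip x y = 0) :
    3 * Real.sqrt 3 / 2 * (‖x‖ ^ 2 * ‖y‖) ≤ sigma (ContinuousLinearMap.id ℂ (CE n)) x y := by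
  refine le_csInf ((adm_nonempty y).image _) ?_
  rintro _ ⟨s, ⟨hs, hsy⟩, rfl⟩
  have hP := den_pos hs hsy
  have h33 : Real.sqrt 3 ^ 2 = 3 := Real.sq_sqrt (by norm_num)
  have h3 : 0 < Real.sqrt 3 := by positivity
  have e : cost (ContinuousLinearMap.id ℂ (CE n)) x y s =
      ‖x‖ ^ 2 / (s * (1 - s ^ 2 * ‖y‖ ^ 2)) := by
    simp only [cost, ContinuousLinearMap.id_apply, ip_self, Complex.ofReal_re, hxy, norm_zero]
    field_simp
    ring
  rw [e, le_div_iff₀ (by positivity)]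
  set u := s * ‖y‖ with hu
  have hu0 : 0 ≤ u := by positivity
  have key : 3 * Real.sqrt 3 / 2 * (u * (1 - u ^ 2)) ≤ 1 := by
    have h1 : 0 ≤ (Real.sqrt 3 * u - 1) ^ 2 * (Real.sqrt 3 * u + 2) := by positivity
    have h2 : (Real.sqrt 3 * u - 1) ^ 2 * (Real.sqrt 3 * u + 2) =
        Real.sqrt 3 ^ 2 * Real.sqrt 3 * u ^ 3 - 3 * Real.sqrt 3 * u + 2 := by ring
    rw [h2, h33] at h1
    nlinarith
  have e2 : 3 * Real.sqrt 3 / 2 * (‖x‖ ^ 2 * ‖y‖) * (s * (1 - s ^ 2 * ‖y‖ ^ 2)) =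
      ‖x‖ ^ 2 * (3 * Real.sqrt 3 / 2 * (u * (1 - u ^ 2))) := by rw [hu]; ring
  rw [e2]
  nlinarith [sq_nonneg ‖x‖]

theorem integral_exp_neg_log {M : ℝ} (hM : 1 < M) (c : ℝ) :
    ∫ t in (0 : ℝ)..Real.log M, c * Real.exp (-t) = c * (1 - 1 / M) := by
  rw [intervalIntegral.integral_const_mul, intervalIntegral.integral_comp_neg, integral_exp,
    neg_zero, Real.exp_zero, Real.exp_neg, Real.exp_log (by linarith), one_div]

theorem norm_flow_id (t : ℝ) (z w : CE n) :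
    ‖NormedSpace.exp ((-t) • ContinuousLinearMap.id ℂ (CE n)) z‖ ^ 2 *
      ‖NormedSpace.exp (t • ContinuousLinearMap.adjoint (ContinuousLinearMap.id ℂ (CE n))) w‖ =
      ‖z‖ ^ 2 * ‖w‖ * Real.exp (-t) := by
  rw [ContinuousLinearMap.adjoint_id, exp_id_apply, exp_id_apply, norm_smul, norm_smul,
    Complex.norm_real, Complex.norm_real, Real.norm_eq_abs, Real.norm_eq_abs,
    abs_of_pos (Real.exp_pos _), abs_of_pos (Real.exp_pos _), Real.exp_neg]
  field_simp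

theorem isGreatest_id (hn : 2 ≤ n) {M : ℝ} (hM : 1 < M) :
    IsGreatest ((fun f => sphereNorm (taylorTerm 2 f)) ''
      Reach (ContinuousLinearMap.id ℂ (CE n)) (Real.log M)) (3 * Real.sqrt 3 / 2 * (1 - 1 / M)) := by
  have hT := Real.log_nonneg hM.le
  have hc : 0 ≤ 3 * Real.sqrt 3 / 2 * (1 - 1 / M) := by
    have : 1 / M ≤ 1 := (div_le_one (by linarith)).2 hM.le
    have : 0 ≤ 1 - 1 / M := by linarith
    positivity
  have upper : ∀ f ∈ Reach (ContinuousLinearMap.id ℂ (CE n)) (Real.log M), ∀ z ∈ sphere (0 : CE n) 1,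
      ‖taylorTerm 2 f z‖ ≤ 3 * Real.sqrt 3 / 2 * (1 - 1 / M) := by
    intro f hf z hz
    rw [mem_sphere_zero_iff_norm] at hz
    refine norm_le_of_ip hc fun y hy => ?_
    refine ((isGreatest_second id_pos hT z y).2 ⟨f, hf, rfl⟩).trans ?_
    rw [← integral_exp_neg_log hM]
    refine intervalIntegral.integral_mono_on hT (intInt_sigma id_pos hT
      ((continuous_exp_apply _ z).comp continuous_neg) (continuous_exp_apply _ y)
      (selection' id_pos z y).1) (Continuous.intervalIntegrable (by fun_prop) _ _) fun t _ => ?_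
    refine (sigma_id_le _ _).trans ?_
    rw [norm_flow_id, hz]
    gcongr
    nlinarith [Real.exp_pos (-t)]
  let i₀ : Fin n := ⟨0, by omega⟩
  let i₁ : Fin n := ⟨1, by omega⟩
  let e₀ : CE n := EuclideanSpace.single i₀ 1
  let e₁ : CE n := EuclideanSpace.single i₁ 1
  have n₀ : ‖e₀‖ = 1 := by simp [e₀]
  have n₁ : ‖e₁‖ = 1 := by simp [e₁]
  have h01 : ip e₀ e₁ = 0 := by
    have : i₁ ≠ i₀ := by simp [i₀, i₁]
    simp [ip_eq, e₀, e₁, EuclideanSpace.inner_single_left, this]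
  have hsup : ∀ f ∈ Reach (ContinuousLinearMap.id ℂ (CE n)) (Real.log M),
      sphereNorm (taylorTerm 2 f) ≤ 3 * Real.sqrt 3 / 2 * (1 - 1 / M) := by
    intro f hf
    refine csSup_le ⟨_, e₀, mem_sphere_zero_iff_norm.2 n₀, rfl⟩ ?_
    rintro _ ⟨z, hz, rfl⟩
    exact upper f hf z hz
  obtain ⟨f, hf, hval⟩ := (isGreatest_second id_pos hT e₀ e₁).1
  refine ⟨⟨f, hf, le_antisymm (hsup f hf) ?_⟩, ?_⟩
  · refine le_trans ?_ (le_csSup ⟨_, by rintro _ ⟨z, hz, rfl⟩; exact upper f hf z hz⟩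
      ⟨e₀, mem_sphere_zero_iff_norm.2 n₀, rfl⟩)
    have h1 := norm_ip_le (taylorTerm 2 f e₀) e₁
    rw [n₁, mul_one] at h1
    refine le_trans ?_ h1
    simp only at hval
    rw [hval, ← integral_exp_neg_log hM]
    refine intervalIntegral.integral_mono_on hT (Continuous.intervalIntegrable (by fun_prop) _ _)
      (intInt_sigma id_pos hT ((continuous_exp_apply _ e₀).comp continuous_neg)
      (continuous_exp_apply _ e₁) (selection' id_pos e₀ e₁).1) fun t _ => ?_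
    refine le_trans (le_of_eq ?_) (sigma_id_ge ?_)
    · rw [norm_flow_id, n₀, n₁]; ring
    · rw [ip_exp, exp_id_apply, exp_id_apply, ip_smul_left, ip_smul_left, h01, mul_zero, mul_zero]
  · rintro _ ⟨f, hf, rfl⟩
    exact hsup f hf

end Pool.Agent.Lib.MP_c027d2_an
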