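import Pool.Agent.Lib.MP_c027d2_an.Extremal

/-!
Measurable selection of extremal fields.
-/

open MeasureTheory Metric Set Filter Topology

namespace Pool.Agent.Lib.MP_c027d2_an

variable {n : ℕ}

theorem cost_nonneg {A : CE n →L[ℂ] CE n} (hA : ∀ z : CE n, z ≠ 0 → 0 < (ip (A z) z).re)
    (x y : CE n) {s : ℝ} (hs : 0 < s) (hsy : s * ‖y‖ < 1) : 0 ≤ cost A x y s := by
  have h1 := form_nonneg hA x
  have h2 := form_nonneg hA y
  have h3 := den_pos hs hsy
  have h4 : 0 ≤ ‖x‖ ^ 2 - s ^ 2 * ‖ip x y‖ ^ 2 := le_trans (by positivity) (num_ge x y s)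
  unfold cost
  positivity

theorem sigma_le_cost {A : CE n →L[ℂ] CE n} (hA : ∀ z : CE n, z ≠ 0 → 0 < (ip (A z) z).re)
    (x y : CE n) {s : ℝ} (hs : 0 < s) (hsy : s * ‖y‖ < 1) : sigma A x y ≤ cost A x y s := by
  refine csInf_le ⟨0, ?_⟩ ⟨s, ⟨hs, hsy⟩, rfl⟩
  rintro _ ⟨s', hs', rfl⟩
  exact cost_nonneg hA x y hs'.1 hs'.2

theorem sigma_nonneg {A : CE n →L[ℂ] CE n} (hA : ∀ z : CE n, z ≠ 0 → 0 < (ip (A z) z).re)
    (x y : CE n) : 0 ≤ sigma A x y := by
  refine le_csInf ((adm_nonempty y).image _) ?_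
  rintro _ ⟨s', hs', rfl⟩
  exact cost_nonneg hA x y hs'.1 hs'.2

theorem sigma_zero_left (A : CE n →L[ℂ] CE n) (y : CE n) : sigma A 0 y = 0 := by
  have : cost A 0 y '' {s : ℝ | 0 < s ∧ s * ‖y‖ < 1} = {0} := by
    refine (adm_nonempty y).image_const (0 : ℝ) ▸ ?_
    congr 1
    funext s
    simp [cost, ip_zero_left]
  rw [sigma, this, csInf_singleton]

theorem sigma_zero_right {A : CE n →L[ℂ] CE n} (hA : ∀ z : CE n, z ≠ 0 → 0 < (ip (A z) z).re)
    (x : CE n) : sigma A x 0 = 0 := by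
  refine le_antisymm ?_ (sigma_nonneg hA x 0)
  have h1 : Tendsto (fun s : ℝ => (ip (A x) x).re / s) atTop (𝓝 0) :=
    tendsto_const_nhds.div_atTop tendsto_id
  refine ge_of_tendsto h1 ?_
  filter_upwards [eventually_gt_atTop (0 : ℝ)] with s hs
  simpa [cost, ip_zero_right] using sigma_le_cost hA x 0 hs (by simp)

theorem sigma_smul_right (A : CE n →L[ℂ] CE n) (x y : CE n) {c : ℂ} (hc : ‖c‖ = 1) :
    sigma A x (c • y) = sigma A x y := by
  have h1 : ‖c • y‖ = ‖y‖ := by rw [norm_smul, hc, one_mul]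
  have h2 : ‖ip x (c • y)‖ = ‖ip x y‖ := by
    rw [ip_smul_right, norm_mul, Complex.norm_conj, hc, one_mul]
  have h3 : ip (A (c • y)) (c • y) = ip (A y) y := by
    rw [map_smul, ip_smul_left, ip_smul_right, ← mul_assoc, Complex.mul_conj,
      Complex.normSq_eq_norm_sq, hc]
    simp
  have : cost A x (c • y) = cost A x y := by
    funext s
    simp only [cost, h1, h2, h3]
  rw [sigma, sigma, this, h1]

/-- The scaling of the first vector. -/
noncomputable def tauF (x y : CE n) (u : ℝ) : ℝ :=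
  if u < 1 then Real.sqrt ((1 - u ^ 2) / (‖x‖ ^ 2 - (u / ‖y‖) ^ 2 * ‖ip x y‖ ^ 2)) else ‖x‖⁻¹

/-- The scaled first vector. -/
noncomputable def xF (x y : CE n) (u : ℝ) : CE n := ((tauF x y u : ℝ) : ℂ) • x

/-- The scaled second vector. -/
noncomputable def dF (y : CE n) (u : ℝ) : CE n := ((u / ‖y‖ : ℝ) : ℂ) • y

/-- The first frame vector. -/
noncomputable def lF (x y : CE n) (u : ℝ) : CE n :=
  if u < 1 then lVec (xF x y u) (dF y u) else xF x y u

/-- The second frame vector. -/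
noncomputable def eF (x y : CE n) (u : ℝ) : CE n :=
  if u < 1 then eVec (xF x y u) (dF y u) else 0

/-- The stationarity polynomial. -/
noncomputable def gapF (A : CE n →L[ℂ] CE n) (x y : CE n) (u : ℝ) : ℝ :=
  u ^ 2 * (ip (A y) y).re * ((‖x‖ ^ 2 * ‖y‖ ^ 2 - u ^ 2 * ‖ip x y‖ ^ 2) * (1 - u ^ 2) +
    2 * u ^ 2 * (‖x‖ ^ 2 * ‖y‖ ^ 2 - ‖ip x y‖ ^ 2)) - (1 - u ^ 2) ^ 2 * (ip (A x) x).re * ‖y‖ ^ 4

theorem re_form_smul (A : CE n →L[ℂ] CE n) (x : CE n) (t : ℝ) :
    (ip (A ((t : ℂ) • x)) ((t : ℂ) • x)).re = t ^ 2 * (ip (A x) x).re := by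
  simp only [map_smul, ip_smul_left, ip_smul_right, Complex.conj_ofReal, Complex.re_ofReal_mul]
  ring

theorem sel_spec {A : CE n →L[ℂ] CE n} (hA : ∀ z : CE n, z ≠ 0 → 0 < (ip (A z) z).re)
    {x y : CE n} (hx : x ≠ 0) (hy : y ≠ 0) {u : ℝ} (hu0 : 0 < u) (hu1 : u ≤ 1)
    (hg : gapF A x y u = 0) :
    xF x y u ≠ 0 ∧ InN A (hExt A (xF x y u) (dF y u) (lF x y u) (eF x y u)) ∧
    sigma A x y ≤ -(ip (qExt A (xF x y u) (dF y u) (lF x y u) (eF x y u) x) y).re := by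
  have hx0 : 0 < ‖x‖ := norm_pos_iff.2 hx
  have hy0 : 0 < ‖y‖ := norm_pos_iff.2 hy
  have ha := hA x hx
  have hb := hA y hy
  have hs : 0 < u / ‖y‖ := by positivity
  have hd : ‖dF y u‖ = u := by
    rw [dF, norm_smul, Complex.norm_real, Real.norm_eq_abs, abs_of_pos hs]; field_simp
  rcases hu1.lt_or_eq with hu | hu
  · set s := u / ‖y‖ with hsdef
    have hsy : s * ‖y‖ = u := by rw [hsdef]; field_simp
    have hP := den_pos hs (hsy.trans_lt hu)
    have hD : 0 < ‖x‖ ^ 2 - s ^ 2 * ‖ip x y‖ ^ 2 := lt_of_lt_of_le (by positivity) (num_ge x y s)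
    have hP2 : 1 - s ^ 2 * ‖y‖ ^ 2 = 1 - u ^ 2 := by rw [← hsy]; ring
    rw [hP2] at hP
    set D := ‖x‖ ^ 2 - s ^ 2 * ‖ip x y‖ ^ 2 with hDdef
    set τ := tauF x y u with hτdef
    have hτ : τ = Real.sqrt ((1 - u ^ 2) / D) := by rw [hτdef, tauF, if_pos hu]
    have hτ0 : 0 < τ := by rw [hτ]; exact Real.sqrt_pos.2 (by positivity)
    have hτ2 : τ ^ 2 = (1 - u ^ 2) / D := by rw [hτ]; exact Real.sq_sqrt (by positivity)
    have hτD : τ ^ 2 * D = 1 - u ^ 2 := by rw [hτ2]; field_simp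
    have hxn : ‖xF x y u‖ ^ 2 = τ ^ 2 * ‖x‖ ^ 2 := by
      rw [xF, norm_smul, Complex.norm_real, Real.norm_eq_abs, mul_pow, sq_abs]
    have hx' : xF x y u ≠ 0 := by
      intro h0
      rw [h0, norm_zero] at hxn
      have : 0 < τ ^ 2 * ‖x‖ ^ 2 := by positivity
      linarith
    have hrel : ‖xF x y u‖ ^ 2 + ‖dF y u‖ ^ 2 = 1 + ‖ip (dF y u) (xF x y u)‖ ^ 2 := by
      rw [hxn, hd, xF, dF, ip_smul_left, ip_smul_right, Complex.conj_ofReal,
        ← mul_assoc, norm_mul, norm_mul, Complex.norm_real, Complex.norm_real, Real.norm_eq_abs,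
        Real.norm_eq_abs, norm_ip_comm y x, mul_pow, mul_pow, sq_abs, sq_abs, ← hsdef, ← hτdef]
      rw [hDdef] at hτD
      linarith
    obtain ⟨f1, f2, f3⟩ := frame (hd.trans_lt hu) hrel
    rw [hxn, hd] at f2 f3
    set k := (1 - τ ^ 2 * ‖x‖ ^ 2) / (1 - u ^ 2) with hk
    have hstat : τ ^ 2 * (ip (A x) x).re = (1 + 2 * k) * (s ^ 2 * (ip (A y) y).re) := by
      have h1 : u = s * ‖y‖ := hsy.symm
      have h2 : ‖y‖ ^ 4 * (s ^ 2 * (ip (A y) y).re * (D * (1 - u ^ 2) + 2 * (D - (1 - u ^ 2) *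
          ‖x‖ ^ 2)) - (1 - u ^ 2) ^ 2 * (ip (A x) x).re) = 0 := by
        rw [← hg, gapF, hDdef]
        generalize s = s' at h1
        subst h1
        ring
      have h3 := (mul_eq_zero.1 h2).resolve_left (by positivity)
      rw [hk, hτ2]
      field_simp
      linear_combination -h3
    simp only [lF, eF, if_pos hu]
    refine ⟨hx', inN_hExt hA hx' fun z hz => ?_, ?_⟩
    · have h1 := f3 z hz
      rw [xF, dF, re_form_smul, re_form_smul, ← hτdef, ← hsdef, hstat, mul_comm (1 + 2 * k)]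
      rw [xF, dF, ← hτdef, ← hsdef] at h1
      gcongr
    · have h1 := value_qExt (A := A) ha hτ0 hs f1 f2
      rw [xF, dF, ← hτdef, ← hsdef] at *
      rw [h1]
      refine (sigma_le_cost hA x y hs (hsy.trans_lt hu)).trans_eq ?_
      rw [cost, hP2, ← hDdef, ← hτD]
      field_simp
      linear_combination hstat
  · subst hu
    have h1 : ‖ip x y‖ ^ 2 = (‖x‖ * ‖y‖) ^ 2 := by
      simp only [gapF] at hg
      have : (ip (A y) y).re * (‖x‖ ^ 2 * ‖y‖ ^ 2 - ‖ip x y‖ ^ 2) = 0 := by linarith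
      have := (mul_eq_zero.1 this).resolve_left hb.ne'
      linarith
    have h2 : ‖ip x y‖ = ‖x‖ * ‖y‖ := (sq_eq_sq₀ (by positivity) (by positivity)).1 h1
    have hpar : (ip (A x) x).re * ‖y‖ ^ 2 = (ip (A y) y).re * ‖x‖ ^ 2 := by
      rw [ip_eq x y, mul_comm] at h2
      obtain ⟨r, -, hr⟩ := (norm_inner_eq_norm_iff hy hx).1 h2
      have h3 : ip (A x) x = ((‖r‖ ^ 2 : ℝ) : ℂ) * ip (A y) y := by
        rw [hr, map_smul, ip_smul_left, ip_smul_right, ← mul_assoc, Complex.mul_conj,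
          Complex.normSq_eq_norm_sq]
      rw [h3, Complex.re_ofReal_mul, hr, norm_smul]
      ring
    have hτ : tauF x y 1 = ‖x‖⁻¹ := by rw [tauF, if_neg (lt_irrefl _)]
    have hxn : ‖xF x y 1‖ = 1 := by
      rw [xF, norm_smul, Complex.norm_real, Real.norm_eq_abs, hτ, abs_of_pos (by positivity),
        inv_mul_cancel₀ hx0.ne']
    have hx' : xF x y 1 ≠ 0 := by
      intro h0
      rw [h0, norm_zero] at hxn
      exact zero_ne_one hxn
    simp only [lF, eF, if_neg (lt_irrefl (1 : ℝ))]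
    refine ⟨hx', inN_hExt hA hx' fun z hz => ?_, ?_⟩
    · have h3 : ‖ip z (xF x y 1)‖ ^ 2 < 1 := by
        have := norm_ip_le z (xF x y 1)
        rw [hxn, mul_one] at this
        nlinarith [norm_nonneg (ip z (xF x y 1))]
      have h4 : (ip (A (xF x y 1)) (xF x y 1)).re = (ip (A (dF y 1)) (dF y 1)).re := by
        rw [xF, dF, re_form_smul, re_form_smul, hτ]
        field_simp
        linarith
      have h5 : 0 < (ip (A (xF x y 1)) (xF x y 1)).re := hA _ hx'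
      rw [ip_zero_right, norm_zero, ← h4]
      nlinarith
    · have h3 := value_qExt (A := A) (x₀ := x) (y := y) (l := xF x y 1) (e := 0) (k := 0)
        (τ := tauF x y 1) ha (by rw [hτ]; positivity) hs
        (by rw [← xF, ip_self, hxn]; simp) (by simp [ip_zero_left])
      rw [← xF, ← dF] at h3
      rw [h3, hτ]
      have h4 : ContinuousAt (fun s : ℝ => (ip (A x) x).re / s + s * (ip (A y) y).re * ‖x‖ ^ 2)
          (1 / ‖y‖) := by
        refine ContinuousAt.add (ContinuousAt.div (by fun_prop) (by fun_prop) hs.ne') (by fun_prop)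
      have h5 : (ip (A x) x).re / (1 / ‖y‖) + 1 / ‖y‖ * (ip (A y) y).re * ‖x‖ ^ 2 =
          2 * (1 + 0) * (1 / ‖y‖) * (ip (A y) y).re / ‖x‖⁻¹ ^ 2 := by
        field_simp
        linarith
      rw [← h5]
      refine ge_of_tendsto (h4.tendsto.mono_left (nhdsWithin_le_nhds (s := Iio (1 / ‖y‖)))) ?_
      filter_upwards [Ioo_mem_nhdsLT hs] with s hs'
      have h6 : s * ‖y‖ < 1 := by
        have := hs'.2
        rwa [lt_div_iff₀ hy0] at this
      refine (sigma_le_cost hA x y hs'.1 h6).trans_eq ?_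
      have h7 := den_pos hs'.1 h6
      rw [cost, h1]
      field_simp

/-- The first root of the stationarity polynomial in `[0, 1]`. -/
noncomputable def rootF (A : CE n →L[ℂ] CE n) (x y : CE n) : ℝ :=
  sInf {u : ℝ | u ∈ Icc (0 : ℝ) 1 ∧ 0 ≤ gapF A x y u}

theorem continuous_gapF (A : CE n →L[ℂ] CE n) :
    Continuous fun p : (CE n × CE n) × ℝ => gapF A p.1.1 p.1.2 p.2 := by
  simp only [gapF, ip_eq]; fun_prop

theorem rootF_mem {A : CE n →L[ℂ] CE n} (hA : ∀ z : CE n, z ≠ 0 → 0 < (ip (A z) z).re)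
    (x y : CE n) : rootF A x y ∈ Icc (0 : ℝ) 1 ∧ 0 ≤ gapF A x y (rootF A x y) := by
  have hc : Continuous (gapF A x y) :=
    (continuous_gapF A).comp (f := fun u : ℝ => ((x, y), u)) (by fun_prop)
  refine IsClosed.csInf_mem (s := {u : ℝ | u ∈ Icc (0 : ℝ) 1 ∧ 0 ≤ gapF A x y u})
    (isClosed_Icc.inter (isClosed_le continuous_const hc)) ⟨1, ⟨zero_le_one, le_rfl⟩, ?_⟩
    ⟨0, fun u hu => hu.1.1⟩
  have h1 : ‖ip x y‖ ^ 2 ≤ (‖x‖ * ‖y‖) ^ 2 := by gcongr; exact norm_ip_le x y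
  have h2 := form_nonneg hA y
  simp only [gapF]
  nlinarith [mul_nonneg h2 (sub_nonneg.2 h1)]

theorem rootF_spec {A : CE n →L[ℂ] CE n} (hA : ∀ z : CE n, z ≠ 0 → 0 < (ip (A z) z).re)
    {x y : CE n} (hx : x ≠ 0) (hy : y ≠ 0) :
    0 < rootF A x y ∧ rootF A x y ≤ 1 ∧ gapF A x y (rootF A x y) = 0 := by
  obtain ⟨h1, h2⟩ := rootF_mem hA x y
  have hc : Continuous (gapF A x y) :=
    (continuous_gapF A).comp (f := fun u : ℝ => ((x, y), u)) (by fun_prop)
  have h0 : 0 < rootF A x y := by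
    refine lt_of_le_of_ne h1.1 fun h => ?_
    rw [← h] at h2
    have hy0 : 0 < ‖y‖ := norm_pos_iff.2 hy
    have := mul_pos (hA x hx) (pow_pos hy0 4)
    simp only [gapF] at h2
    nlinarith
  refine ⟨h0, h1.2, le_antisymm ?_ h2⟩
  refine le_of_tendsto ((hc.tendsto _).mono_left (nhdsWithin_le_nhds (s := Iio (rootF A x y)))) ?_
  filter_upwards [Ioo_mem_nhdsLT h0] with u hu
  by_contra hcon
  push Not at hcon
  have : rootF A x y ≤ u :=
    csInf_le ⟨0, fun u hu => hu.1.1⟩ ⟨⟨hu.1.le, hu.2.le.trans h1.2⟩, hcon.le⟩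
  exact absurd hu.2 (not_lt.2 this)

theorem measurable_rootF {A : CE n →L[ℂ] CE n} (hA : ∀ z : CE n, z ≠ 0 → 0 < (ip (A z) z).re)
    {x y : ℝ → CE n} (hx : Continuous x) (hy : Continuous y) :
    Measurable fun t => rootF A (x t) (y t) := by
  refine measurable_of_Iic fun a => IsClosed.measurableSet ?_
  have : (fun t => rootF A (x t) (y t)) ⁻¹' Iic a = Prod.fst ''
      {p : ℝ × Icc (0 : ℝ) 1 | (p.2 : ℝ) ≤ a ∧ 0 ≤ gapF A (x p.1) (y p.1) p.2} := by
    ext t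
    constructor
    · intro ht
      obtain ⟨h1, h2⟩ := rootF_mem hA (x t) (y t)
      exact ⟨(t, ⟨_, h1⟩), ⟨ht, h2⟩, rfl⟩
    · rintro ⟨⟨t', u⟩, ⟨h1, h2⟩, rfl⟩
      have h3 : rootF A (x t') (y t') ≤ u := csInf_le ⟨0, fun u hu => hu.1.1⟩ ⟨u.2, h2⟩
      exact h3.trans h1
  rw [this]
  have c1 : Continuous fun p : ℝ × Icc (0 : ℝ) 1 => gapF A (x p.1) (y p.1) p.2 :=
    (continuous_gapF A).comp
      (f := fun p : ℝ × Icc (0 : ℝ) 1 => ((x p.1, y p.1), (p.2 : ℝ))) (by fun_prop)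
  have c2 : Continuous fun p : ℝ × Icc (0 : ℝ) 1 => (p.2 : ℝ) := by fun_prop
  exact isClosedMap_fst_of_compactSpace _ (IsClosed.inter (isClosed_le c2 continuous_const)
    (isClosed_le continuous_const c1))

theorem selection {A : CE n →L[ℂ] CE n} (hA : ∀ z : CE n, z ≠ 0 → 0 < (ip (A z) z).re)
    {x y : ℝ → CE n} (hx : Continuous x) (hy : Continuous y) (hx0 : ∀ t, x t ≠ 0)
    (hy0 : ∀ t, y t ≠ 0) :
    Measurable (fun t => sigma A (x t) (y t)) ∧
    ∃ h : CE n → ℝ → CE n, (∀ t, InN A (fun z => h z t)) ∧ (∀ z, Measurable (h z)) ∧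
      ∀ t, ∃ q, HasQuad (fun z => h z t - A z) (x t) q ∧ -(ip q (y t)).re = sigma A (x t) (y t) := by
  have mu := measurable_rootF hA hx hy
  set u : ℝ → ℝ := fun t => rootF A (x t) (y t) with hu
  have mx := hx.measurable
  have my := hy.measurable
  have ms : MeasurableSet {t | u t < 1} := measurableSet_lt mu measurable_const
  have mτ : Measurable fun t => tauF (x t) (y t) (u t) := by
    refine Measurable.ite ms ?_ (by fun_prop)
    simp only [ip_eq]
    fun_prop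
  have mX : Measurable fun t => xF (x t) (y t) (u t) := by
    simp only [xF]; fun_prop
  have mD : Measurable fun t => dF (y t) (u t) := by
    simp only [dF]; fun_prop
  have mL : Measurable fun t => lF (x t) (y t) (u t) := by
    refine Measurable.ite ms ?_ mX
    simp only [lVec, ip_eq]
    fun_prop
  have mE : Measurable fun t => eF (x t) (y t) (u t) := by
    refine Measurable.ite ms ?_ measurable_const
    simp only [eVec, ip_eq]
    fun_prop
  have spec := fun t => sel_spec hA (hx0 t) (hy0 t) (rootF_spec hA (hx0 t) (hy0 t)).1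
    (rootF_spec hA (hx0 t) (hy0 t)).2.1 (rootF_spec hA (hx0 t) (hy0 t)).2.2
  have hq := fun t => hasQuad_hExt (hA _ (spec t).1) (dF (y t) (u t)) (lF (x t) (y t) (u t))
    (eF (x t) (y t) (u t)) (x t)
  have heq : ∀ t, -(ip (qExt A (xF (x t) (y t) (u t)) (dF (y t) (u t)) (lF (x t) (y t) (u t))
      (eF (x t) (y t) (u t)) (x t)) (y t)).re = sigma A (x t) (y t) :=
    fun t => le_antisymm (neg_re_le_sigma (spec t).2.1 (hq t)) (spec t).2.2
  refine ⟨?_, fun z t => hExt A (xF (x t) (y t) (u t)) (dF (y t) (u t)) (lF (x t) (y t) (u t))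
    (eF (x t) (y t) (u t)) z, fun t => (spec t).2.1, fun z => ?_, fun t => ⟨_, hq t, heq t⟩⟩
  · simp only [← heq, qExt, ip_eq]
    fun_prop
  · simp only [hExt, gExt, ip_eq]
    fun_prop

end Pool.Agent.Lib.MP_c027d2_an
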