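import Pool.Agent.Lib.MP_c027d2_an.Flow
import Pool.Agent.Lib.MP_c027d2_an.Select

/-!
The second order term of a reachable map.
-/

open MeasureTheory Metric Set Filter Topology

namespace Pool.Agent.Lib.MP_c027d2_an

variable {n : ℕ}

theorem real_smul_eq (A : CE n →L[ℂ] CE n) (t : ℝ) : t • A = (t : ℂ) • A := by
  ext1 v
  exact (Complex.coe_smul t (A v)).symm

theorem exp_zero_smul (A : CE n →L[ℂ] CE n) (u : CE n) : NormedSpace.exp ((0 : ℝ) • A) u = u := by
  have : (0 : ℝ) • A = 0 := by ext1 v; simp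
  rw [this, NormedSpace.exp_zero]
  rfl

theorem exists_phase (a y : CE n) : ∃ c : ℂ, ‖c‖ = 1 ∧ (ip a (c • y)).re = ‖ip a y‖ := by
  obtain ⟨c, hc1, hc2⟩ := Complex.exists_norm_eq_mul_self (ip a y)
  refine ⟨(starRingEnd ℂ) c, by rwa [Complex.norm_conj], ?_⟩
  rw [ip_smul_right, Complex.conj_conj, ← hc2, Complex.ofReal_re]

theorem exp_neg_apply (A : CE n →L[ℂ] CE n) (t : ℝ) (u : CE n) :
    NormedSpace.exp ((-t) • A) (NormedSpace.exp (t • A) u) = u := by
  let _ : NormedAlgebra ℚ (CE n →L[ℂ] CE n) := NormedAlgebra.restrictScalars ℚ ℂ _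
  rw [real_smul_eq, real_smul_eq]
  have h : Commute (((-t : ℝ) : ℂ) • A) ((t : ℂ) • A) :=
    ((Commute.refl A).smul_left _).smul_right _
  have := NormedSpace.exp_add_of_commute h
  have h0 : ((-t : ℝ) : ℂ) • A + (t : ℂ) • A = 0 := by ext1 v; simp
  rw [h0, NormedSpace.exp_zero] at this
  have h2 := congrArg (fun L : CE n →L[ℂ] CE n => L u) this
  exact h2.symm

theorem exp_apply_ne_zero (A : CE n →L[ℂ] CE n) (t : ℝ) {u : CE n} (hu : u ≠ 0) :
    NormedSpace.exp (t • A) u ≠ 0 := by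
  intro h
  have := exp_neg_apply A t u
  rw [h, map_zero] at this
  exact hu this.symm

theorem continuous_exp_smul (A : CE n →L[ℂ] CE n) :
    Continuous fun t : ℝ => NormedSpace.exp (t • A) :=
  continuous_iff_continuousAt.2 fun t => (hasDerivAt_exp_smul_const A t).continuousAt

theorem hasDerivAt_exp_apply (B : CE n →L[ℂ] CE n) (w : CE n) (t : ℝ) :
    HasDerivAt (fun t : ℝ => NormedSpace.exp (t • B) w) (B (NormedSpace.exp (t • B) w)) t := by
  have := ((ContinuousLinearMap.apply ℂ (CE n) w).restrictScalars ℝ).hasFDerivAt.comp_hasDerivAt t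
    (hasDerivAt_exp_smul_const' B t)
  exact this

theorem continuous_exp_apply (B : CE n →L[ℂ] CE n) (w : CE n) :
    Continuous fun t : ℝ => NormedSpace.exp (t • B) w :=
  continuous_iff_continuousAt.2 fun t => (hasDerivAt_exp_apply B w t).continuousAt

theorem lip_exp_apply (B : CE n →L[ℂ] CE n) (w : CE n) (T : ℝ) :
    ∃ K, LipschitzOnWith K (fun t : ℝ => NormedSpace.exp (t • B) w) (Icc 0 T) := by
  obtain ⟨C, hC⟩ := (isCompact_Icc (a := (0 : ℝ)) (b := T)).exists_bound_of_continuousOn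
    (B.continuous.comp (continuous_exp_apply B w)).continuousOn
  refine ⟨C.toNNReal, (convex_Icc 0 T).lipschitzOnWith_of_nnnorm_hasDerivWithin_le
    (fun t _ => (hasDerivAt_exp_apply B w t).hasDerivWithinAt) fun t ht => ?_⟩
  rw [← NNReal.coe_le_coe, coe_nnnorm]
  exact (hC t ht).trans (Real.le_coe_toNNReal C)

theorem ip_exp (A : CE n →L[ℂ] CE n) (t : ℝ) (u w : CE n) :
    ip u (NormedSpace.exp (t • ContinuousLinearMap.adjoint A) w) =
      ip (NormedSpace.exp (t • A) u) w := by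
  have : ContinuousLinearMap.adjoint (NormedSpace.exp (t • A)) =
      NormedSpace.exp (t • ContinuousLinearMap.adjoint A) := by
    rw [← ContinuousLinearMap.star_eq_adjoint, ← ContinuousLinearMap.star_eq_adjoint,
      NormedSpace.star_exp, real_smul_eq, real_smul_eq, star_smul, Complex.star_def,
      Complex.conj_ofReal]
  rw [← this, ip_adjoint]

theorem exp_bound (A : CE n →L[ℂ] CE n) (T : ℝ) : ∃ K, 1 ≤ K ∧ ∀ t ∈ Icc (0 : ℝ) T,
    ‖NormedSpace.exp (t • ContinuousLinearMap.adjoint A)‖ ≤ K ∧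
    ‖NormedSpace.exp ((-t) • A)‖ ≤ K := by
  obtain ⟨C₁, h₁⟩ := (isCompact_Icc (a := (0 : ℝ)) (b := T)).exists_bound_of_continuousOn
    (continuous_exp_smul (ContinuousLinearMap.adjoint A)).continuousOn
  obtain ⟨C₂, h₂⟩ := (isCompact_Icc (a := (0 : ℝ)) (b := T)).exists_bound_of_continuousOn
    ((continuous_exp_smul A).comp continuous_neg).continuousOn
  refine ⟨max 1 (max C₁ C₂), le_max_left _ _, fun t ht => ⟨?_, ?_⟩⟩
  · exact (h₁ t ht).trans ((le_max_left _ _).trans (le_max_right _ _))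
  · exact (h₂ t ht).trans ((le_max_right _ _).trans (le_max_right _ _))

theorem pair_le {A : CE n →L[ℂ] CE n} {T : ℝ} {h : CE n → ℝ → CE n} {γ : ℝ → CE n} {K : NNReal}
    (hγ : LipschitzOnWith K γ (Icc (0 : ℝ) T))
    (hd : ∀ᵐ t ∂(volume.restrict (Icc (0 : ℝ) T)), HasDerivAt γ (-h (γ t) t) t)
    (w : CE n) {t : ℝ} (ht : t ∈ Icc (0 : ℝ) T) {g : ℝ → ℝ} (hg : IntervalIntegrable g volume 0 t)
    (hle : ∀ s ∈ Icc (0 : ℝ) T, -(ip (h (γ s) s - A (γ s))
      (NormedSpace.exp (s • ContinuousLinearMap.adjoint A) w)).re ≤ g s) :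
    (ip (NormedSpace.exp (t • A) (γ t) - γ 0) w).re ≤ ∫ s in (0 : ℝ)..t, g s := by
  obtain ⟨K₂, hK₂⟩ := lip_exp_apply (ContinuousLinearMap.adjoint A) w T
  obtain ⟨K₃, hK₃⟩ := lip_ip hγ hK₂
  have key := ac_le ht.1 (hK₃.mono (Icc_subset_Icc_right ht.2)) hg (ae_restrict_sub ht.2 (by
    filter_upwards [hd, ae_restrict_mem measurableSet_Icc] with s h1 h2
    refine ⟨_, deriv_ip h1 (hasDerivAt_exp_apply _ w s), le_trans (le_of_eq ?_) (hle s h2)⟩
    rw [ip_adjoint, ip_sub_left, ip_neg_left, Complex.sub_re, Complex.neg_re]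
    ring))
  simpa only [ip_exp, exp_zero_smul, ip_sub_left, Complex.sub_re] using key

theorem neg_re_ip_le (a b : CE n) : -(ip a b).re ≤ ‖a‖ * ‖b‖ :=
  (neg_le_abs _).trans ((Complex.abs_re_le_norm _).trans (norm_ip_le a b))

theorem main_upper {A : CE n →L[ℂ] CE n} {T : ℝ} (hT : 0 ≤ T) {h v : CE n → ℝ → CE n}
    (hN : ∀ t ∈ Icc (0 : ℝ) T, InN A (fun z => h z t))
    (hm : ∀ z ∈ ball (0 : CE n) 1, AEMeasurable (h z) (volume.restrict (Icc (0 : ℝ) T)))
    (hv : ∀ z ∈ ball (0 : CE n) 1,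
      (∃ K, LipschitzOnWith K (v z) (Icc (0 : ℝ) T)) ∧ v z 0 = z ∧
      (∀ t ∈ Icc (0 : ℝ) T, v z t ∈ ball (0 : CE n) 1) ∧
      ∀ᵐ t ∂(volume.restrict (Icc (0 : ℝ) T)), HasDerivAt (v z) (-h (v z t) t) t)
    {f : CE n → CE n} (hf : ∀ z ∈ ball (0 : CE n) 1, f z = NormedSpace.exp (T • A) (v z T))
    (z w : CE n) {g : ℝ → ℝ} (hg : IntervalIntegrable g volume 0 T)
    (hle : ∀ t ∈ Icc (0 : ℝ) T, ∃ q,
      HasQuad (fun y => h y t - A y) (NormedSpace.exp ((-t) • A) z) q ∧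
      -(ip q (NormedSpace.exp (t • ContinuousLinearMap.adjoint A) w)).re ≤ g t) :
    (ip (taylorTerm 2 f z) w).re ≤ ∫ s in (0 : ℝ)..T, g s := by
  obtain ⟨C, hC, hCq⟩ := quadC A
  obtain ⟨K, hK, hKb⟩ := exp_bound A T
  have hy : ∀ (w : CE n), ∀ s ∈ Icc (0 : ℝ) T,
      ‖NormedSpace.exp (s • ContinuousLinearMap.adjoint A) w‖ ≤ K * ‖w‖ := fun w s hs =>
    (ContinuousLinearMap.le_opNorm _ _).trans (by gcongr; exact (hKb s hs).1)
  have hx : ∀ (w : CE n), ∀ s ∈ Icc (0 : ℝ) T,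
      ‖NormedSpace.exp ((-s) • A) w‖ ≤ K * ‖w‖ := fun w s hs =>
    (ContinuousLinearMap.le_opNorm _ _).trans (by gcongr; exact (hKb s hs).2)
  have hnorm : ∀ z₀ : CE n, ‖z₀‖ < 1 → ∀ t ∈ Icc (0 : ℝ) T, ‖v z₀ t‖ ≤ ‖z₀‖ := by
    intro z₀ hz₀
    obtain ⟨⟨K', hK'⟩, h0, hb, hd⟩ := hv z₀ (mem_ball_zero_iff.2 hz₀)
    have := flow_norm_le hN hK' hb hd
    rwa [h0] at this
  have est1 : ∀ z₀ : CE n, ‖z₀‖ < 1 / 2 → ∀ t ∈ Icc (0 : ℝ) T,
      ‖NormedSpace.exp (t • A) (v z₀ t) - z₀‖ ≤ T * K * C * ‖z₀‖ ^ 2 := by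
    intro z₀ hz₀ t ht
    obtain ⟨⟨K', hK'⟩, h0, -, hd⟩ := hv z₀ (mem_ball_zero_iff.2 (by linarith))
    refine norm_le_of_ip (by positivity) fun y hy1 => ?_
    obtain ⟨c, hc1, hc⟩ := exists_phase (NormedSpace.exp (t • A) (v z₀ t) - z₀) y
    have key := pair_le (A := A) hK' hd (c • y) ht (g := fun _ => C * ‖z₀‖ ^ 2 * K)
      intervalIntegrable_const fun s hs => by
        refine (neg_re_ip_le _ _).trans ?_
        have h1 := (hCq _ (hN s hs)).1 (v z₀ s) ((hnorm z₀ (by linarith) s hs).trans_lt hz₀)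
        have h2 := hy (c • y) s hs
        rw [norm_smul, hc1, one_mul] at h2
        have h3 : ‖v z₀ s‖ ^ 2 ≤ ‖z₀‖ ^ 2 := by gcongr; exact hnorm z₀ (by linarith) s hs
        have h4 : K * ‖y‖ ≤ K := by nlinarith
        exact mul_le_mul (h1.trans (by gcongr)) (h2.trans h4) (norm_nonneg _) (by positivity)
    rw [h0, hc, intervalIntegral.integral_const, sub_zero, smul_eq_mul] at key
    refine key.trans ?_
    calc t * (C * ‖z₀‖ ^ 2 * K) ≤ T * (C * ‖z₀‖ ^ 2 * K) := by gcongr; exact ht.2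
      _ = _ := by ring
  have est2 : ∀ z₀ : CE n, ‖z₀‖ < 1 / 2 → ∀ t ∈ Icc (0 : ℝ) T,
      ‖v z₀ t - NormedSpace.exp ((-t) • A) z₀‖ ≤ K * (T * K * C * ‖z₀‖ ^ 2) := by
    intro z₀ hz₀ t ht
    have e : v z₀ t - NormedSpace.exp ((-t) • A) z₀ =
        NormedSpace.exp ((-t) • A) (NormedSpace.exp (t • A) (v z₀ t) - z₀) := by
      rw [map_sub, exp_neg_apply]
    rw [e]
    exact (hx _ t ht).trans (by gcongr; exact est1 z₀ hz₀ t ht)
  obtain ⟨δ, hδ0, hδ1, hδ⟩ := flow_diffOn hT hN hm hv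
  have hfd : DifferentiableOn ℂ f (ball 0 δ) :=
    ((NormedSpace.exp (T • A)).differentiable.comp_differentiableOn hδ).congr
      fun y hy => hf y (ball_subset_ball hδ1 hy)
  have hf1 : ∀ y : CE n, ‖y‖ < 1 / 2 → ‖f y - y‖ ≤ T * K * C * ‖y‖ ^ 2 := by
    intro y hy
    rw [hf y (mem_ball_zero_iff.2 (by linarith))]
    exact est1 y hy T ⟨hT, le_rfl⟩
  have hf0 : f 0 = 0 := by simpa using hf1 0 (by simp)
  have hfD : fderiv ℂ f 0 = ContinuousLinearMap.id ℂ (CE n) := by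
    refine HasFDerivAt.fderiv (HasFDerivAt.of_isLittleO ?_)
    refine Asymptotics.IsBigO.trans_isLittleO (g := fun y : CE n => ‖y‖ ^ 2) ?_ ?_
    · refine Asymptotics.IsBigO.of_bound (T * K * C) ?_
      filter_upwards [ball_mem_nhds (0 : CE n) (show (0 : ℝ) < 1 / 2 by norm_num)] with y hy
      simpa [hf0] using hf1 y (mem_ball_zero_iff.1 hy)
    · simpa using Asymptotics.isLittleO_norm_pow_id (E' := CE n) (n := 2) one_lt_two
  have hP := hasQuad_taylorTerm hδ0 hfd hf0 hfD z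
  have hre : Tendsto (fun ε : ℝ => (ε : ℂ)) (𝓝[>] 0) (𝓝[≠] 0) := by
    refine tendsto_nhdsWithin_iff.2 ⟨?_, ?_⟩
    · simpa using (Complex.continuous_ofReal.tendsto 0).mono_left nhdsWithin_le_nhds
    · filter_upwards [self_mem_nhdsWithin] with ε hε
      exact Complex.ofReal_ne_zero.2 (ne_of_gt hε)
  have hlim := (Complex.continuous_re.tendsto _).comp
    (((ipL w).continuous.tendsto _).comp (hP.comp hre))
  set X := K * ‖z‖ + 1 with hX
  have hX0 : 0 < X := by positivity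
  have hzX : ‖z‖ ≤ X := by rw [hX]; nlinarith [norm_nonneg z]
  set D := (8 * C * X * (K * (T * K * C * ‖z‖ ^ 2)) + 4 * C * X ^ 3) * (K * ‖w‖) with hD
  have hlim2 : Tendsto (fun ε : ℝ => (∫ s in (0 : ℝ)..T, g s) + T * (ε * D)) (𝓝[>] 0)
      (𝓝 (∫ s in (0 : ℝ)..T, g s)) := by
    have : Continuous fun ε : ℝ => (∫ s in (0 : ℝ)..T, g s) + T * (ε * D) := by fun_prop
    simpa using (this.tendsto 0).mono_left nhdsWithin_le_nhds
  rw [← ipL_apply]
  refine le_of_tendsto_of_tendsto hlim hlim2 ?_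
  filter_upwards [Ioo_mem_nhdsGT (show (0 : ℝ) < 1 / (8 * X) by positivity)] with ε hε
  have hε0 : 0 < ε := hε.1
  have hεX : ε * X ≤ 1 / 8 := by
    have := hε.2
    rw [lt_div_iff₀ (by positivity)] at this
    linarith
  have hz₀ : ‖(ε : ℂ) • z‖ = ε * ‖z‖ := by
    rw [norm_smul, Complex.norm_real, Real.norm_eq_abs, abs_of_pos hε0]
  have hz₁ : ‖(ε : ℂ) • z‖ ≤ ε * X := by rw [hz₀]; gcongr
  obtain ⟨⟨K', hK'⟩, h0, -, hd⟩ := hv ((ε : ℂ) • z) (mem_ball_zero_iff.2 (by linarith))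
  have key := pair_le (A := A) hK' hd w ⟨hT, le_rfl⟩ (g := fun s => ε ^ 2 * (g s + ε * D))
    ((hg.add intervalIntegrable_const).const_mul _) fun s hs => by
      obtain ⟨q, hq, hqle⟩ := hle s hs
      obtain ⟨-, c2, c3⟩ := hCq _ (hN s hs)
      set x := NormedSpace.exp ((-s) • A) z with hxdef
      set y := NormedSpace.exp (s • ContinuousLinearMap.adjoint A) w with hydef
      have hxX : ‖x‖ ≤ X := (hx z s hs).trans (by rw [hX]; linarith)
      have hεn : ‖(ε : ℂ)‖ = ε := by rw [Complex.norm_real, Real.norm_eq_abs, abs_of_pos hε0]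
      have a1 := c3 x q X hq hX0 hxX (ε : ℂ) (by rw [hεn]; linarith)
      have a2 := c2 (ε * X) (v ((ε : ℂ) • z) s) ((ε : ℂ) • x) (by positivity) hεX
        ((hnorm _ (by linarith) s hs).trans hz₁) (by rw [norm_smul, hεn]; gcongr)
      have a3 := est2 ((ε : ℂ) • z) (by linarith) s hs
      rw [map_smul, ← hxdef, hz₀] at a3
      rw [hεn] at a1
      have e : h (v ((ε : ℂ) • z) s) s - A (v ((ε : ℂ) • z) s) = (ε : ℂ) ^ 2 • q +
          ((h (v ((ε : ℂ) • z) s) s - A (v ((ε : ℂ) • z) s) -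
            (h ((ε : ℂ) • x) s - A ((ε : ℂ) • x))) +
          (h ((ε : ℂ) • x) s - A ((ε : ℂ) • x) - (ε : ℂ) ^ 2 • q)) := by abel
      rw [e, ip_add_left, ip_smul_left, Complex.add_re, ← Complex.ofReal_pow,
        Complex.re_ofReal_mul, neg_add]
      have a4 := (neg_re_ip_le ((h (v ((ε : ℂ) • z) s) s - A (v ((ε : ℂ) • z) s) -
            (h ((ε : ℂ) • x) s - A ((ε : ℂ) • x))) +
          (h ((ε : ℂ) • x) s - A ((ε : ℂ) • x) - ((ε ^ 2 : ℝ) : ℂ) • q)) y)
      have a5 : ‖(h (v ((ε : ℂ) • z) s) s - A (v ((ε : ℂ) • z) s) -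
            (h ((ε : ℂ) • x) s - A ((ε : ℂ) • x))) +
          (h ((ε : ℂ) • x) s - A ((ε : ℂ) • x) - ((ε ^ 2 : ℝ) : ℂ) • q)‖ ≤
          8 * C * (ε * X) * (K * (T * K * C * (ε * ‖z‖) ^ 2)) + 4 * C * (ε * X) ^ 3 := by
        refine (norm_add_le _ _).trans (add_le_add (a2.trans (by gcongr)) ?_)
        rw [Complex.ofReal_pow]; exact a1
      have a6 := mul_le_mul a5 (hy w s hs) (norm_nonneg _) (by positivity)
      have a7 : (8 * C * (ε * X) * (K * (T * K * C * (ε * ‖z‖) ^ 2)) + 4 * C * (ε * X) ^ 3) *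
          (K * ‖w‖) = ε ^ 2 * (ε * D) := by rw [hD]; ring
      have a8 := mul_le_mul_of_nonneg_left hqle (sq_nonneg ε)
      rw [← hydef] at a6
      nlinarith
  rw [h0, ← hf _ (mem_ball_zero_iff.2 (by linarith)), intervalIntegral.integral_const_mul,
    intervalIntegral.integral_add hg intervalIntegrable_const, intervalIntegral.integral_const,
    sub_zero, smul_eq_mul] at key
  simp only [Function.comp, ipL_apply, ip_smul_left, ContinuousLinearMap.id_apply]
  rw [← Complex.ofReal_pow, ← Complex.ofReal_inv, Complex.re_ofReal_mul,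
    inv_mul_le_iff₀ (by positivity)]
  exact key

theorem intInt_sigma {A : CE n →L[ℂ] CE n} (hA : ∀ z : CE n, z ≠ 0 → 0 < (ip (A z) z).re)
    {T : ℝ} (hT : 0 ≤ T) {x y : ℝ → CE n} (hx : Continuous x) (hy : Continuous y)
    (hm : Measurable fun t => sigma A (x t) (y t)) :
    IntervalIntegrable (fun t => sigma A (x t) (y t)) volume 0 T := by
  obtain ⟨Y, hY⟩ := (isCompact_Icc (a := (0 : ℝ)) (b := T)).exists_bound_of_continuousOn
    hy.continuousOn
  have hY0 : 0 ≤ Y := (norm_nonneg _).trans (hY 0 ⟨le_rfl, hT⟩)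
  have hs : (0 : ℝ) < 1 / (Y + 1) := by positivity
  have hadm : ∀ t ∈ Icc (0 : ℝ) T, 1 / (Y + 1) * ‖y t‖ < 1 := by
    intro t ht
    rw [div_mul_eq_mul_div, div_lt_one (by positivity)]
    linarith [hY t ht]
  have hc : ContinuousOn (fun t => cost A (x t) (y t) (1 / (Y + 1))) (Icc 0 T) := by
    simp only [cost, ip_eq]
    refine ContinuousOn.add (by fun_prop) (ContinuousOn.div (by fun_prop) (by fun_prop)
      fun t ht => (den_pos hs (hadm t ht)).ne')
  rw [intervalIntegrable_iff_integrableOn_Icc_of_le hT]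
  refine Integrable.mono' hc.integrableOn_Icc hm.aestronglyMeasurable ?_
  filter_upwards [ae_restrict_mem measurableSet_Icc] with t ht
  rw [Real.norm_eq_abs, abs_of_nonneg (sigma_nonneg hA _ _)]
  exact sigma_le_cost hA _ _ hs (hadm t ht)

theorem inN_self {A : CE n →L[ℂ] CE n} (hA : ∀ z : CE n, z ≠ 0 → 0 < (ip (A z) z).re) :
    InN A (fun z => A z) :=
  ⟨A.differentiable.differentiableOn, map_zero A, A.fderiv, fun z _ hz => hA z hz⟩

theorem selection' {A : CE n →L[ℂ] CE n} (hA : ∀ z : CE n, z ≠ 0 → 0 < (ip (A z) z).re)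
    (z w : CE n) :
    Measurable (fun t : ℝ => sigma A (NormedSpace.exp ((-t) • A) z)
      (NormedSpace.exp (t • ContinuousLinearMap.adjoint A) w)) ∧
    ∃ h : CE n → ℝ → CE n, (∀ t, InN A (fun z => h z t)) ∧ (∀ z, Measurable (h z)) ∧
      ∀ t : ℝ, ∃ q, HasQuad (fun z => h z t - A z) (NormedSpace.exp ((-t) • A) z) q ∧
        -(ip q (NormedSpace.exp (t • ContinuousLinearMap.adjoint A) w)).re =
          sigma A (NormedSpace.exp ((-t) • A) z)
            (NormedSpace.exp (t • ContinuousLinearMap.adjoint A) w) := by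
  by_cases h0 : z = 0 ∨ w = 0
  · have h1 : ∀ t : ℝ, sigma A (NormedSpace.exp ((-t) • A) z)
        (NormedSpace.exp (t • ContinuousLinearMap.adjoint A) w) = 0 := by
      intro t
      rcases h0 with rfl | rfl
      · rw [map_zero, sigma_zero_left]
      · rw [map_zero, sigma_zero_right hA]
    refine ⟨by simp only [h1]; exact measurable_const, fun z _ => A z, fun _ => inN_self hA,
      fun _ => measurable_const, fun t => ⟨0, ?_, by simp [h1, ip_zero_left]⟩⟩
    simp [HasQuad]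
  · push Not at h0
    exact selection hA ((continuous_exp_apply A z).comp continuous_neg)
      (continuous_exp_apply _ w) (fun t => exp_apply_ne_zero A _ h0.1)
      (fun t => exp_apply_ne_zero _ _ h0.2)

theorem isGreatest_second {A : CE n →L[ℂ] CE n} (hA : ∀ z : CE n, z ≠ 0 → 0 < (ip (A z) z).re)
    {T : ℝ} (hT : 0 ≤ T) (z w : CE n) :
    IsGreatest ((fun f => ‖ip (taylorTerm 2 f z) w‖) '' Reach A T)
      (∫ t in (0 : ℝ)..T, sigma A (NormedSpace.exp ((-t) • A) z)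
        (NormedSpace.exp (t • ContinuousLinearMap.adjoint A) w)) := by
  obtain ⟨hm, h, hN, hmeas, hq⟩ := selection' hA z w
  have hint := intInt_sigma hA hT ((continuous_exp_apply A z).comp continuous_neg)
    (continuous_exp_apply (ContinuousLinearMap.adjoint A) w) hm
  have upper : ∀ f ∈ Reach A T, ‖ip (taylorTerm 2 f z) w‖ ≤
      ∫ t in (0 : ℝ)..T, sigma A (NormedSpace.exp ((-t) • A) z)
        (NormedSpace.exp (t • ContinuousLinearMap.adjoint A) w) := by
    rintro f ⟨h', v, hN', hm', hv, hf⟩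
    obtain ⟨c, hc1, hc⟩ := exists_phase (taylorTerm 2 f z) w
    rw [← hc]
    refine main_upper hT hN' hm' hv hf z (c • w) hint fun t ht =>
      ⟨_, (hN' t ht).exists_hasQuad _, ?_⟩
    refine (neg_re_le_sigma (hN' t ht) ((hN' t ht).exists_hasQuad _)).trans_eq ?_
    rw [map_smul, sigma_smul_right _ _ _ hc1]
  have hflow := fun (y : CE n) (hy : y ∈ ball (0 : CE n) 1) =>
    exists_flow hT (fun t _ => hN t) (fun z _ => (hmeas z).aemeasurable) hy
  choose! v hv using hflow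
  have hmem : (fun y => NormedSpace.exp (T • A) (v y T)) ∈ Reach A T :=
    ⟨h, v, fun t _ => hN t, fun z _ => (hmeas z).aemeasurable, hv, fun _ _ => rfl⟩
  refine ⟨⟨_, hmem, le_antisymm (upper _ hmem) ?_⟩, ?_⟩
  · have key := main_upper hT (fun t _ => hN t) (fun z _ => (hmeas z).aemeasurable) hv
      (f := fun y => NormedSpace.exp (T • A) (v y T)) (fun _ _ => rfl) z (-w) hint.neg
      fun t _ => by
        obtain ⟨q, h1, h2⟩ := hq t
        refine ⟨q, h1, ?_⟩
        rw [map_neg, ip_neg_right, Complex.neg_re, h2]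
        rfl
    rw [ip_neg_right, Complex.neg_re] at key
    simp only [Pi.neg_apply, intervalIntegral.integral_neg, neg_le_neg_iff] at key
    exact key.trans (Complex.re_le_norm _)
  · rintro _ ⟨f, hf, rfl⟩
    exact upper f hf

end Pool.Agent.Lib.MP_c027d2_an
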