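import Pool.Agent.Lib.MP_c027d2_an.Cara

/-!
Picard iteration for fields that are measurable in time.
-/

open MeasureTheory Metric Set Filter Topology

namespace Pool.Agent.Lib.MP_c027d2_an

variable {n : ℕ}

theorem ac_le {φ g : ℝ → ℝ} {t : ℝ} (ht : 0 ≤ t) {K : NNReal} (hφ : LipschitzOnWith K φ (Icc 0 t))
    (hg : IntervalIntegrable g volume 0 t)
    (hd : ∀ᵐ s ∂(volume.restrict (Icc (0 : ℝ) t)), ∃ φ', HasDerivAt φ φ' s ∧ φ' ≤ g s) :
    φ t - φ 0 ≤ ∫ s in (0 : ℝ)..t, g s := by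
  have hac : AbsolutelyContinuousOnInterval φ 0 t :=
    LipschitzOnWith.absolutelyContinuousOnInterval (K := K) (by rwa [uIcc_of_le ht])
  rw [← hac.integral_deriv_eq_sub]
  refine intervalIntegral.integral_mono_ae_restrict ht hac.intervalIntegrable_deriv hg ?_
  filter_upwards [hd] with s ⟨φ', h1, h2⟩
  rwa [h1.deriv]

theorem aesm_comp {F : CE n → ℝ → CE n} {T : ℝ}
    (hc : ∀ t ∈ Icc (0 : ℝ) T, Continuous fun y => F y t)
    (hm : ∀ y, AEMeasurable (F y) (volume.restrict (Icc (0 : ℝ) T))) {γ : ℝ → CE n}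
    (hγ : AEMeasurable γ (volume.restrict (Icc (0 : ℝ) T))) :
    AEStronglyMeasurable (fun t => F (γ t) t) (volume.restrict (Icc (0 : ℝ) T)) := by
  classical
  set μ := volume.restrict (Icc (0 : ℝ) T) with hμ
  let F' : CE n → ℝ → CE n := fun y t => if t ∈ Icc (0 : ℝ) T then F y t else 0
  have hae : ∀ᵐ t ∂μ, t ∈ Icc (0 : ℝ) T := ae_restrict_mem measurableSet_Icc
  have hm' : ∀ y, NullMeasurable (F' y) μ := by
    intro y
    refine ((hm y).congr ?_).nullMeasurable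
    filter_upwards [hae] with t ht
    simp only [F', if_pos ht]
  have h1 : Measurable (Function.uncurry (fun (y : CE n) (t : NullMeasurableSpace ℝ μ) =>
      F' y t)) := by
    refine measurable_uncurry_of_continuous_of_measurable (fun t => ?_) (fun y => (hm' y).measurable')
    by_cases ht : (show ℝ from t) ∈ Icc (0 : ℝ) T
    · simpa only [F', if_pos ht] using hc _ ht
    · simpa only [F', if_neg ht] using continuous_const
  have h2 : Measurable (fun t : NullMeasurableSpace ℝ μ => ((γ t : CE n), t)) :=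
    hγ.nullMeasurable.measurable'.prodMk measurable_id
  have h3 : NullMeasurable (fun t => F' (γ t) t) μ := fun _ hs => (h1.comp h2) hs
  refine (h3.aemeasurable.congr ?_).aestronglyMeasurable
  filter_upwards [hae] with t ht
  simp only [F', if_pos ht]

theorem intInt_of_bound {g : ℝ → CE n} {T B : ℝ}
    (hm : AEStronglyMeasurable g (volume.restrict (Icc (0 : ℝ) T)))
    (hb : ∀ s ∈ Icc (0 : ℝ) T, ‖g s‖ ≤ B) {a b : ℝ} (ha : a ∈ Icc (0 : ℝ) T)
    (hb' : b ∈ Icc (0 : ℝ) T) : IntervalIntegrable g volume a b := by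
  have : IntegrableOn g (Icc 0 T) volume :=
    Integrable.of_bound hm B ((ae_restrict_mem measurableSet_Icc).mono hb)
  exact (this.mono_set (uIcc_subset_Icc ha hb')).intervalIntegrable

theorem lip_integral {g : ℝ → CE n} {T B : ℝ} (hT : 0 ≤ T)
    (hm : AEStronglyMeasurable g (volume.restrict (Icc (0 : ℝ) T)))
    (hb : ∀ s ∈ Icc (0 : ℝ) T, ‖g s‖ ≤ B) (z : CE n) :
    LipschitzOnWith B.toNNReal (fun t => z + ∫ s in (0 : ℝ)..t, g s) (Icc 0 T) := by
  refine LipschitzOnWith.of_dist_le_mul fun a ha b hb' => ?_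
  have h0 : (0 : ℝ) ∈ Icc (0 : ℝ) T := ⟨le_rfl, hT⟩
  rw [dist_add_left, dist_eq_norm, intervalIntegral.integral_interval_sub_left
    (intInt_of_bound hm hb h0 ha) (intInt_of_bound hm hb h0 hb'), Real.dist_eq]
  refine (intervalIntegral.norm_integral_le_of_norm_le_const (C := B) fun s hs =>
    hb s (uIcc_subset_Icc hb' ha (uIoc_subset_uIcc hs))).trans ?_
  gcongr
  exact Real.le_coe_toNNReal B

theorem ae_deriv_integral {g : ℝ → CE n} {T B : ℝ} (hT : 0 ≤ T)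
    (hm : AEStronglyMeasurable g (volume.restrict (Icc (0 : ℝ) T)))
    (hb : ∀ s ∈ Icc (0 : ℝ) T, ‖g s‖ ≤ B) (z : CE n) :
    ∀ᵐ t ∂(volume.restrict (Icc (0 : ℝ) T)),
      HasDerivAt (fun t => z + ∫ s in (0 : ℝ)..t, g s) (g t) t := by
  have h1 := (intInt_of_bound hm hb ⟨le_rfl, hT⟩ ⟨hT, le_rfl⟩).ae_hasDerivAt_integral
  rw [uIcc_of_le hT] at h1
  rw [ae_restrict_iff' measurableSet_Icc]
  filter_upwards [h1] with t ht ht'
  exact (ht ht' 0 ⟨le_rfl, hT⟩).const_add z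

theorem ftc_vec {v g : ℝ → CE n} {T B : ℝ} {K : NNReal} (hv : LipschitzOnWith K v (Icc 0 T))
    (hm : AEStronglyMeasurable g (volume.restrict (Icc (0 : ℝ) T)))
    (hb : ∀ s ∈ Icc (0 : ℝ) T, ‖g s‖ ≤ B)
    (hd : ∀ᵐ s ∂(volume.restrict (Icc (0 : ℝ) T)), HasDerivAt v (g s) s) :
    ∀ t ∈ Icc (0 : ℝ) T, v t = v 0 + ∫ s in (0 : ℝ)..t, g s := by
  intro t ht
  have hT : 0 ≤ T := ht.1.trans ht.2
  have a1 : AbsolutelyContinuousOnInterval v 0 T :=
    LipschitzOnWith.absolutelyContinuousOnInterval (K := K) (by rwa [uIcc_of_le hT])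
  have a2 : AbsolutelyContinuousOnInterval (fun t => v 0 + ∫ s in (0 : ℝ)..t, g s) 0 T :=
    LipschitzOnWith.absolutelyContinuousOnInterval (K := B.toNNReal)
      (by rw [uIcc_of_le hT]; exact lip_integral hT hm hb _)
  have h1 := hd.and (ae_deriv_integral hT hm hb (v 0))
  rw [ae_restrict_iff' measurableSet_Icc] at h1
  obtain ⟨C, hC⟩ := (a1.sub a2).const_of_ae_hasDerivAt_zero (by
    rw [uIcc_of_le hT]
    filter_upwards [h1] with s hs hs'
    simpa using (hs hs').1.sub (hs hs').2)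
  rw [uIcc_of_le hT] at hC
  have h2 := hC t ht
  have h3 := hC 0 ⟨le_rfl, hT⟩
  simp only [Pi.sub_apply, intervalIntegral.integral_same, add_zero, sub_self] at h2 h3
  rw [← h3, sub_eq_zero] at h2
  exact h2

/-- A field that is Lipschitz in space, measurable in time and vanishes at the origin. -/
def Fld (F : CE n → ℝ → CE n) (T L : ℝ) : Prop :=
  0 < L ∧ (∀ t ∈ Icc (0 : ℝ) T, ∀ a b, ‖F a t - F b t‖ ≤ L * ‖a - b‖) ∧
    (∀ t ∈ Icc (0 : ℝ) T, F 0 t = 0) ∧ ∀ y, AEMeasurable (F y) (volume.restrict (Icc (0 : ℝ) T))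

theorem Fld.aesm {F : CE n → ℝ → CE n} {T L : ℝ} (hF : Fld F T L) {γ : ℝ → CE n}
    (hγ : AEMeasurable γ (volume.restrict (Icc (0 : ℝ) T))) :
    AEStronglyMeasurable (fun t => F (γ t) t) (volume.restrict (Icc (0 : ℝ) T)) := by
  refine aesm_comp (fun t ht => ?_) hF.2.2.2 hγ
  refine (LipschitzWith.of_dist_le_mul (K := L.toNNReal) fun a b => ?_).continuous
  rw [dist_eq_norm, dist_eq_norm, Real.coe_toNNReal _ hF.1.le]
  exact hF.2.1 t ht a b

theorem Fld.norm_le {F : CE n → ℝ → CE n} {T L : ℝ} (hF : Fld F T L) {t : ℝ}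
    (ht : t ∈ Icc (0 : ℝ) T) (y : CE n) : ‖F y t‖ ≤ L * ‖y‖ := by
  simpa [hF.2.2.1 t ht] using hF.2.1 t ht y 0

theorem Fld.bound {F : CE n → ℝ → CE n} {T L : ℝ} (hF : Fld F T L) {γ : ℝ → CE n} {B : ℝ}
    (hb : ∀ s ∈ Icc (0 : ℝ) T, ‖γ s‖ ≤ B) : ∀ s ∈ Icc (0 : ℝ) T, ‖F (γ s) s‖ ≤ L * B :=
  fun s hs => (hF.norm_le hs _).trans (mul_le_mul_of_nonneg_left (hb s hs) hF.1.le)

theorem integral_exp_bound {g : ℝ → CE n} {L c t : ℝ} (ht : 0 ≤ t)
    (hb : ∀ s ∈ Icc (0 : ℝ) t, ‖g s‖ ≤ L * (c * Real.exp (2 * L * s))) :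
    ‖∫ s in (0 : ℝ)..t, g s‖ ≤ c / 2 * Real.exp (2 * L * t) - c / 2 := by
  have h1 : ∫ s in (0 : ℝ)..t, L * (c * Real.exp (2 * L * s)) =
      c / 2 * Real.exp (2 * L * t) - c / 2 * Real.exp (2 * L * 0) := by
    refine intervalIntegral.integral_eq_sub_of_hasDerivAt
      (f := fun s => c / 2 * Real.exp (2 * L * s)) (fun s _ => ?_)
      (Continuous.intervalIntegrable (by fun_prop) _ _)
    have := (((hasDerivAt_id s).const_mul (2 * L)).exp).const_mul (c / 2)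
    simp only [id, mul_one] at this
    exact this.congr_deriv (by ring)
  simp only [mul_zero, Real.exp_zero, mul_one] at h1
  rw [← h1]
  refine intervalIntegral.norm_integral_le_of_norm_le ht (Eventually.of_forall fun s hs => ?_)
    (Continuous.intervalIntegrable (by fun_prop) _ _)
  exact hb s (Ioc_subset_Icc_self hs)

theorem Fld.contract {F : CE n → ℝ → CE n} {T L : ℝ} (hF : Fld F T L) {γ₁ γ₂ : ℝ → CE n}
    {B₁ B₂ c : ℝ} (hc : 0 ≤ c) (m₁ : AEMeasurable γ₁ (volume.restrict (Icc (0 : ℝ) T)))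
    (m₂ : AEMeasurable γ₂ (volume.restrict (Icc (0 : ℝ) T)))
    (b₁ : ∀ s ∈ Icc (0 : ℝ) T, ‖γ₁ s‖ ≤ B₁) (b₂ : ∀ s ∈ Icc (0 : ℝ) T, ‖γ₂ s‖ ≤ B₂)
    (hd : ∀ s ∈ Icc (0 : ℝ) T, ‖γ₁ s - γ₂ s‖ ≤ c * Real.exp (2 * L * s)) {t : ℝ}
    (ht : t ∈ Icc (0 : ℝ) T) :
    ‖(∫ s in (0 : ℝ)..t, F (γ₁ s) s) - ∫ s in (0 : ℝ)..t, F (γ₂ s) s‖ ≤
      c / 2 * Real.exp (2 * L * t) := by
  have h0 : (0 : ℝ) ∈ Icc (0 : ℝ) T := ⟨le_rfl, ht.1.trans ht.2⟩
  rw [← intervalIntegral.integral_sub (intInt_of_bound (hF.aesm m₁) (hF.bound b₁) h0 ht)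
    (intInt_of_bound (hF.aesm m₂) (hF.bound b₂) h0 ht)]
  refine (integral_exp_bound (L := L) (c := c) ht.1 fun s hs => ?_).trans (by linarith)
  have hs' : s ∈ Icc (0 : ℝ) T := ⟨hs.1, hs.2.trans ht.2⟩
  exact (hF.2.1 s hs' _ _).trans (mul_le_mul_of_nonneg_left (hd s hs') hF.1.le)

/-- The Picard iterates. -/
noncomputable def pic (F : CE n → ℝ → CE n) (z : CE n) : ℕ → ℝ → CE n
  | 0 => fun _ => z
  | k + 1 => fun t => z + ∫ s in (0 : ℝ)..t, F (pic F z k s) s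

theorem exp_le_exp_T {L s T : ℝ} (hL : 0 < L) (hs : s ∈ Icc (0 : ℝ) T) :
    Real.exp (2 * L * s) ≤ Real.exp (2 * L * T) := by
  gcongr
  exact hs.2

theorem one_le_exp' {L s T : ℝ} (hL : 0 < L) (hs : s ∈ Icc (0 : ℝ) T) :
    1 ≤ Real.exp (2 * L * s) := Real.one_le_exp (by have := hs.1; positivity)

theorem Fld.pic_props {F : CE n → ℝ → CE n} {T L : ℝ} (hF : Fld F T L) (hT : 0 ≤ T) (z : CE n)
    (k : ℕ) : AEMeasurable (pic F z k) (volume.restrict (Icc (0 : ℝ) T)) ∧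
      ∀ t ∈ Icc (0 : ℝ) T, ‖pic F z k t‖ ≤ 2 * ‖z‖ * Real.exp (2 * L * t) := by
  induction k with
  | zero =>
    refine ⟨aemeasurable_const, fun t ht => ?_⟩
    have := one_le_exp' hF.1 ht
    simp only [pic]
    nlinarith [norm_nonneg z]
  | succ k ih =>
    have hb : ∀ s ∈ Icc (0 : ℝ) T, ‖pic F z k s‖ ≤ 2 * ‖z‖ * Real.exp (2 * L * T) :=
      fun s hs => (ih.2 s hs).trans
        (mul_le_mul_of_nonneg_left (exp_le_exp_T hF.1 hs) (by positivity))
    refine ⟨(lip_integral hT (hF.aesm ih.1) (hF.bound hb) z).continuousOn.aemeasurable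
      measurableSet_Icc, fun t ht => ?_⟩
    have h1 := integral_exp_bound (g := fun s => F (pic F z k s) s) (L := L) (c := 2 * ‖z‖) ht.1
      fun s hs => (hF.norm_le ⟨hs.1, hs.2.trans ht.2⟩ _).trans
        (mul_le_mul_of_nonneg_left (ih.2 s ⟨hs.1, hs.2.trans ht.2⟩) hF.1.le)
    simp only [pic]
    refine (norm_add_le _ _).trans ?_
    have := one_le_exp' hF.1 ht
    nlinarith [norm_nonneg z]

theorem Fld.pic_bound {F : CE n → ℝ → CE n} {T L : ℝ} (hF : Fld F T L) (hT : 0 ≤ T) (z : CE n)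
    (k : ℕ) : ∀ t ∈ Icc (0 : ℝ) T, ‖pic F z k t‖ ≤ 2 * ‖z‖ * Real.exp (2 * L * T) :=
  fun s hs => ((hF.pic_props hT z k).2 s hs).trans
    (mul_le_mul_of_nonneg_left (exp_le_exp_T hF.1 hs) (by positivity))

theorem Fld.pic_close {F : CE n → ℝ → CE n} {T L : ℝ} (hF : Fld F T L) (hT : 0 ≤ T) {z : CE n}
    {γ : ℝ → CE n} {B : ℝ} (m : AEMeasurable γ (volume.restrict (Icc (0 : ℝ) T)))
    (b : ∀ s ∈ Icc (0 : ℝ) T, ‖γ s‖ ≤ B)
    (hsol : ∀ t ∈ Icc (0 : ℝ) T, γ t = z + ∫ s in (0 : ℝ)..t, F (γ s) s) (k : ℕ) :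
    ∀ t ∈ Icc (0 : ℝ) T, ‖pic F z k t - γ t‖ ≤ (‖z‖ + B) * (1 / 2) ^ k * Real.exp (2 * L * t) := by
  have hB : 0 ≤ B := (norm_nonneg _).trans (b 0 ⟨le_rfl, hT⟩)
  induction k with
  | zero =>
    intro t ht
    have := one_le_exp' hF.1 ht
    simp only [pic, pow_zero, mul_one]
    refine (norm_sub_le _ _).trans ?_
    nlinarith [norm_nonneg z, b t ht]
  | succ k ih =>
    intro t ht
    have := hF.contract (by positivity) (hF.pic_props hT z k).1 m (hF.pic_bound hT z k) b ih ht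
    rw [hsol t ht]
    simp only [pic, add_sub_add_left_eq_sub]
    refine this.trans_eq ?_
    ring

theorem Fld.exists_sol {F : CE n → ℝ → CE n} {T L : ℝ} (hF : Fld F T L) (hT : 0 ≤ T) (z : CE n) :
    ∃ (γ : ℝ → CE n) (B : ℝ), AEMeasurable γ (volume.restrict (Icc (0 : ℝ) T)) ∧
      (∀ s ∈ Icc (0 : ℝ) T, ‖γ s‖ ≤ B) ∧
      ∀ t ∈ Icc (0 : ℝ) T, γ t = z + ∫ s in (0 : ℝ)..t, F (γ s) s := by
  have hstep : ∀ k, ∀ t ∈ Icc (0 : ℝ) T, ‖pic F z k t - pic F z (k + 1) t‖ ≤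
      3 * ‖z‖ * (1 / 2) ^ k * Real.exp (2 * L * t) := by
    intro k
    induction k with
    | zero =>
      intro t ht
      have h1 := one_le_exp' hF.1 ht
      have h2 := (hF.pic_props hT z 1).2 t ht
      refine (norm_sub_le _ _).trans ?_
      simp only [pic, pow_zero, mul_one] at h2 ⊢
      nlinarith [norm_nonneg z]
    | succ k ih =>
      intro t ht
      have := hF.contract (by positivity) (hF.pic_props hT z k).1 (hF.pic_props hT z (k + 1)).1
        (hF.pic_bound hT z k) (hF.pic_bound hT z (k + 1)) ih ht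
      rw [pic, pic]
      simp only [add_sub_add_left_eq_sub]
      refine this.trans_eq ?_
      ring
  have hgeo : ∀ t ∈ Icc (0 : ℝ) T, ∀ k, dist (pic F z k t) (pic F z (k + 1) t) ≤
      (3 * ‖z‖ * Real.exp (2 * L * t)) * (1 / 2) ^ k := by
    intro t ht k
    rw [dist_eq_norm]
    refine (hstep k t ht).trans_eq ?_
    ring
  have hex : ∀ t ∈ Icc (0 : ℝ) T, ∃ a, Tendsto (fun k => pic F z k t) atTop (𝓝 a) := fun t ht =>
    cauchySeq_tendsto_of_complete (cauchySeq_of_le_geometric (1 / 2) _ (by norm_num) (hgeo t ht))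
  choose! γ hγ using hex
  have m : AEMeasurable γ (volume.restrict (Icc (0 : ℝ) T)) :=
    aemeasurable_of_tendsto_metrizable_ae' (fun k => (hF.pic_props hT z k).1)
      ((ae_restrict_mem measurableSet_Icc).mono hγ)
  have b : ∀ s ∈ Icc (0 : ℝ) T, ‖γ s‖ ≤ 2 * ‖z‖ * Real.exp (2 * L * T) := fun s hs =>
    le_of_tendsto (hγ s hs).norm (Eventually.of_forall fun k => hF.pic_bound hT z k s hs)
  have hclose : ∀ k, ∀ s ∈ Icc (0 : ℝ) T, ‖pic F z k s - γ s‖ ≤
      6 * ‖z‖ * (1 / 2) ^ k * Real.exp (2 * L * s) := by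
    intro k s hs
    have := dist_le_of_le_geometric_of_tendsto (1 / 2) _ (by norm_num) (hgeo s hs) (hγ s hs) k
    rw [dist_eq_norm] at this
    refine this.trans_eq ?_
    ring
  refine ⟨γ, _, m, b, fun t ht => ?_⟩
  refine tendsto_nhds_unique ((hγ t ht).comp (tendsto_add_atTop_nat 1)) ?_
  rw [tendsto_iff_norm_sub_tendsto_zero]
  have h0 := tendsto_pow_atTop_nhds_zero_of_lt_one (r := (1 / 2 : ℝ)) (by norm_num) (by norm_num)
  have h1 := ((h0.const_mul (6 * ‖z‖)).div_const 2).mul_const (Real.exp (2 * L * t))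
  simp only [mul_zero, zero_div, zero_mul] at h1
  refine squeeze_zero (fun _ => norm_nonneg _) (fun k => ?_) h1
  have := hF.contract (by positivity) (hF.pic_props hT z k).1 m (hF.pic_bound hT z k) b
    (hclose k) ht
  simpa only [Function.comp, pic, add_sub_add_left_eq_sub] using this

theorem Fld.pic_diffOn {F : CE n → ℝ → CE n} {T L r δ : ℝ} (hF : Fld F T L) (hT : 0 ≤ T)
    (hd : ∀ t ∈ Icc (0 : ℝ) T, DifferentiableOn ℂ (fun y => F y t) (ball 0 r))
    (hδ : 2 * δ * Real.exp (2 * L * T) ≤ r) (k : ℕ) :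
    ∀ t ∈ Icc (0 : ℝ) T, DifferentiableOn ℂ (fun z => pic F z k t) (ball 0 δ) := by
  have hlt : ∀ k, ∀ z ∈ ball (0 : CE n) δ, ∀ s ∈ Icc (0 : ℝ) T, ‖pic F z k s‖ < r := by
    intro k z hz s hs
    refine (hF.pic_bound hT z k s hs).trans_lt (lt_of_lt_of_le ?_ hδ)
    rw [mem_ball_zero_iff] at hz
    gcongr
  induction k with
  | zero => intro t _; exact differentiableOn_id
  | succ k ih =>
    intro t ht
    have hsub : Ioc 0 t ⊆ Icc (0 : ℝ) T := fun s hs => ⟨hs.1.le, hs.2.trans ht.2⟩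
    have hae : ∀ᵐ s ∂(volume.restrict (Ioc (0 : ℝ) t)), s ∈ Icc (0 : ℝ) T :=
      (ae_restrict_mem measurableSet_Ioc).mono hsub
    have := diffOn_integral (μ := volume.restrict (Ioc (0 : ℝ) t))
      (F := fun z s => F (pic F z k s) s) (U := ball 0 δ) isOpen_ball (B := L * r)
      (hae.mono fun s hs => (hd s hs).comp (ih s hs)
        fun z hz => mem_ball_zero_iff.2 (hlt k z hz s hs))
      (fun z _ => (hF.aesm (hF.pic_props hT z k).1).mono_measure
        (Measure.restrict_mono hsub le_rfl))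
      (hae.mono fun s hs z hz => (hF.norm_le hs _).trans
        (mul_le_mul_of_nonneg_left (hlt k z hz s hs).le hF.1.le))
    simp only [pic, intervalIntegral.integral_of_le ht.1]
    exact differentiableOn_id.add this

end Pool.Agent.Lib.MP_c027d2_an
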