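import Pool.Agent.Lib.MP_c027d2_an.Defs

/-!
Several complex variables: parametric integrals, uniform limits, second order terms.
-/

open MeasureTheory Metric Set Filter Topology

namespace Pool.Agent.Lib.MP_c027d2_an

variable {n : ℕ}

theorem ip_eq (z w : CE n) : ip z w = inner ℂ w z := by
  simp [ip, PiLp.inner_apply]

theorem mapsTo_of_bound {G : Type*} [NormedAddCommGroup G] {X : Type*} [PseudoMetricSpace X]
    {f : X → G} {c : X} {R B : ℝ} (hR : 0 < R)
    (hb : ∀ z ∈ ball c R, ‖f z‖ ≤ B) : MapsTo f (ball c R) (closedBall (f c) (2 * B)) := by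
  intro z hz
  rw [mem_closedBall, dist_eq_norm]
  have h1 := hb z hz
  have h2 := hb c (mem_ball_self hR)
  have := norm_sub_le (f z) (f c)
  linarith

theorem norm_sub_le_of_bound {X G : Type*} [NormedAddCommGroup X] [NormedSpace ℂ X]
    [NormedAddCommGroup G] [NormedSpace ℂ G] {f : X → G} {c : X} {R B : ℝ}
    (hd : DifferentiableOn ℂ f (ball c R)) (hb : ∀ z ∈ ball c R, ‖f z‖ ≤ B)
    {z : X} (hz : z ∈ ball c R) : ‖f z - f c‖ ≤ 2 * B / R * ‖z - c‖ := by
  have hR : 0 < R := nonempty_ball.1 ⟨z, hz⟩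
  have := Complex.dist_le_div_mul_dist_of_mapsTo_ball hd (mapsTo_of_bound hR hb) hz
  simpa [dist_eq_norm] using this

theorem norm_fderiv_le_of_bound {X G : Type*} [NormedAddCommGroup X] [NormedSpace ℂ X]
    [NormedAddCommGroup G] [NormedSpace ℂ G] {f : X → G} {c : X} {R B : ℝ} (hR : 0 < R)
    (hd : DifferentiableOn ℂ f (ball c R)) (hb : ∀ z ∈ ball c R, ‖f z‖ ≤ B) :
    ‖fderiv ℂ f c‖ ≤ 2 * B / R :=
  Complex.norm_fderiv_le_div_of_mapsTo_ball hd (mapsTo_of_bound hR hb) hR

theorem clm_eq_sum (L : CE n →L[ℂ] CE n) :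
    L = ∑ i, ContinuousLinearMap.smulRightL ℂ (CE n) (CE n) (EuclideanSpace.proj i)
      (L (EuclideanSpace.single i 1)) := by
  ext1 v
  conv_lhs => rw [← (EuclideanSpace.basisFun (Fin n) ℂ).sum_repr v]
  simp [map_sum]

theorem aesm_clm {α : Type*} [MeasurableSpace α] {μ : Measure α} {L : α → CE n →L[ℂ] CE n}
    (h : ∀ v, AEStronglyMeasurable (fun a => L a v) μ) : AEStronglyMeasurable L μ := by
  have : L = fun a => ∑ i, ContinuousLinearMap.smulRightL ℂ (CE n) (CE n) (EuclideanSpace.proj i)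
      (L a (EuclideanSpace.single i 1)) := funext fun a => clm_eq_sum (L a)
  rw [this]
  refine Finset.aestronglyMeasurable_fun_sum _ fun i _ => ?_
  exact (ContinuousLinearMap.smulRightL ℂ (CE n) (CE n)
    (EuclideanSpace.proj i)).continuous.comp_aestronglyMeasurable (h _)

/-- A bounded parametric integral of holomorphic maps is holomorphic. -/
theorem diffOn_integral {α : Type*} [MeasurableSpace α] {μ : Measure α} [IsFiniteMeasure μ]
    {F : CE n → α → CE n} {U : Set (CE n)} (hU : IsOpen U) {B : ℝ}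
    (hd : ∀ᵐ a ∂μ, DifferentiableOn ℂ (fun x => F x a) U)
    (hm : ∀ x ∈ U, AEStronglyMeasurable (F x) μ)
    (hb : ∀ᵐ a ∂μ, ∀ x ∈ U, ‖F x a‖ ≤ B) :
    DifferentiableOn ℂ (fun x => ∫ a, F x a ∂μ) U := by
  intro x₀ hx₀
  obtain ⟨R, hR, hRU⟩ := Metric.isOpen_iff.1 hU x₀ hx₀
  have hF' : AEStronglyMeasurable (fun a => fderiv ℂ (fun x => F x a) x₀) μ := by
    refine aesm_clm fun v => ?_
    set ρ : ℝ := R / (2 * (‖v‖ + 1)) with hρ
    have hρ0 : 0 < ρ := by positivity
    let c : ℕ → ℂ := fun k => (((k + 1 : ℝ) / ρ : ℝ) : ℂ)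
    have hc : Tendsto (fun k => ‖c k‖) atTop atTop := by
      have : Tendsto (fun k : ℕ => ((k : ℝ) + 1) / ρ) atTop atTop :=
        (tendsto_atTop_add_const_right _ 1 tendsto_natCast_atTop_atTop).atTop_div_const hρ0
      refine this.congr fun k => ?_
      simp only [c, Complex.norm_real, Real.norm_eq_abs]
      rw [abs_of_pos (by positivity)]
    have hmem : ∀ k, x₀ + (c k)⁻¹ • v ∈ U := by
      intro k
      apply hRU
      rw [mem_ball, dist_eq_norm, add_sub_cancel_left, norm_smul, norm_inv]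
      simp only [c, Complex.norm_real, Real.norm_eq_abs]
      rw [abs_of_pos (by positivity), inv_div]
      have h1 : ρ / ((k : ℝ) + 1) ≤ ρ := div_le_self hρ0.le (by simp)
      have h2 : ρ * ‖v‖ < R := by
        rw [hρ, div_mul_eq_mul_div, div_lt_iff₀ (by positivity)]
        nlinarith [norm_nonneg v]
      nlinarith [norm_nonneg v]
    refine aestronglyMeasurable_of_tendsto_ae atTop
      (f := fun k a => c k • (F (x₀ + (c k)⁻¹ • v) a - F x₀ a)) (fun k => ?_) ?_
    · exact ((hm _ (hmem k)).sub (hm _ hx₀)).const_smul (c k)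
    · filter_upwards [hd] with a ha
      exact ((ha x₀ hx₀).differentiableAt (hU.mem_nhds hx₀)).hasFDerivAt.lim v hc
  have key := hasFDerivAt_integral_of_dominated_loc_of_lip' (𝕜 := ℂ) (μ := μ) (F := F) (x₀ := x₀)
    (s := ball x₀ R) (bound := fun _ => 2 * B / R)
    (F' := fun a => fderiv ℂ (fun x => F x a) x₀) (ball_mem_nhds _ hR)
    (fun x hx => hm x (hRU hx))
    (Integrable.of_bound (hm _ hx₀) B (hb.mono fun a ha => ha _ hx₀)) hF'
    (by
      filter_upwards [hd, hb] with a ha hb' x hx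
      exact norm_sub_le_of_bound (f := fun x => F x a) (ha.mono hRU)
        (fun z hz => hb' z (hRU hz)) hx)
    (integrable_const _)
    (by
      filter_upwards [hd] with a ha
      exact ((ha x₀ hx₀).differentiableAt (hU.mem_nhds hx₀)).hasFDerivAt)
  exact key.2.differentiableAt.differentiableWithinAt

/-- A geometrically fast uniform limit of holomorphic maps is holomorphic. -/
theorem diffOn_of_geometric {u : ℕ → CE n → CE n} {g : CE n → CE n} {U : Set (CE n)}
    (hU : IsOpen U) {C : ℝ} (hd : ∀ k, DifferentiableOn ℂ (u k) U)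
    (hb : ∀ k, ∀ x ∈ U, ‖u k x - g x‖ ≤ C * (1 / 2) ^ k) : DifferentiableOn ℂ g U := by
  intro x₀ hx₀
  obtain ⟨R, hR, hRU⟩ := Metric.isOpen_iff.1 hU x₀ hx₀
  have hC : 0 ≤ C := by simpa using (norm_nonneg _).trans (hb 0 x₀ hx₀)
  have hsub : ∀ y ∈ ball x₀ (R / 2), ball y (R / 2) ⊆ U := by
    intro y hy w hw
    apply hRU
    rw [mem_ball] at *
    linarith [dist_triangle w y x₀]
  have hyU : ∀ y ∈ ball x₀ (R / 2), y ∈ U := fun y hy => hsub y hy (mem_ball_self (by positivity))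
  have hder : ∀ N k l, N ≤ k → N ≤ l → ∀ y ∈ ball x₀ (R / 2),
      ‖fderiv ℂ (u k) y - fderiv ℂ (u l) y‖ ≤ 2 * (2 * C * (1 / 2) ^ N) / (R / 2) := by
    intro N k l hk hl y hy
    have hk' := ((hd k) y (hyU y hy)).differentiableAt (hU.mem_nhds (hyU y hy))
    have hl' := ((hd l) y (hyU y hy)).differentiableAt (hU.mem_nhds (hyU y hy))
    rw [← fderiv_fun_sub hk' hl']
    refine norm_fderiv_le_of_bound (by positivity) (((hd k).sub (hd l)).mono (hsub y hy)) ?_
    intro w hw
    have h1 := hb k w (hsub y hy hw)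
    have h2 := hb l w (hsub y hy hw)
    have h3 : ((1 : ℝ) / 2) ^ k ≤ (1 / 2) ^ N := pow_le_pow_of_le_one (by norm_num) (by norm_num) hk
    have h4 : ((1 : ℝ) / 2) ^ l ≤ (1 / 2) ^ N := pow_le_pow_of_le_one (by norm_num) (by norm_num) hl
    have h5 : u k w - u l w = (u k w - g w) - (u l w - g w) := by abel
    rw [h5]
    have := norm_sub_le (u k w - g w) (u l w - g w)
    nlinarith
  have hlim : Tendsto (fun N : ℕ => 2 * (2 * C * (1 / 2 : ℝ) ^ N) / (R / 2)) atTop (𝓝 0) := by
    have := tendsto_pow_atTop_nhds_zero_of_lt_one (r := (1 / 2 : ℝ)) (by norm_num) (by norm_num)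
    simpa using ((this.const_mul (2 * C)).const_mul 2).div_const (R / 2)
  have hcau : UniformCauchySeqOn (fun k => fderiv ℂ (u k)) atTop (ball x₀ (R / 2)) := by
    rw [Metric.uniformCauchySeqOn_iff]
    intro ε hε
    obtain ⟨N, hN⟩ := (hlim.eventually (gt_mem_nhds hε)).exists
    refine ⟨N, fun k hk l hl y hy => ?_⟩
    rw [dist_eq_norm]
    exact (hder N k l hk hl y hy).trans_lt hN
  have hex : ∀ y ∈ ball x₀ (R / 2), ∃ L, Tendsto (fun k => fderiv ℂ (u k) y) atTop (𝓝 L) :=
    fun y hy => cauchySeq_tendsto_of_complete (hcau.cauchySeq hy)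
  choose! L hL using hex
  have hunif := hcau.tendstoUniformlyOn_of_tendsto hL
  have key : HasFDerivAt g (L x₀) x₀ := by
    refine hasFDerivAt_of_tendstoUniformlyOn (f := u) isOpen_ball hunif ?_ ?_
      (mem_ball_self (by positivity))
    · intro k y hy
      exact (((hd k) y (hyU y hy)).differentiableAt (hU.mem_nhds (hyU y hy))).hasFDerivAt
    · intro y hy
      rw [tendsto_iff_norm_sub_tendsto_zero]
      have := tendsto_pow_atTop_nhds_zero_of_lt_one (r := (1 / 2 : ℝ)) (by norm_num) (by norm_num)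
      refine squeeze_zero (fun _ => norm_nonneg _) (fun k => hb k y (hyU y hy)) ?_
      simpa using this.const_mul C
  exact key.differentiableAt.differentiableWithinAt

/-- The derivative of a holomorphic map is differentiable. -/
theorem differentiableAt_fderiv {f : CE n → CE n} {R : ℝ} (hR : 0 < R)
    (hd : DifferentiableOn ℂ f (ball 0 R)) : DifferentiableAt ℂ (fderiv ℂ f) 0 := by
  obtain ⟨B, hB⟩ : ∃ B, ∀ x ∈ closedBall (0 : CE n) (3 * R / 4), ‖f x‖ ≤ B :=
    (isCompact_closedBall (0 : CE n) (3 * R / 4)).exists_bound_of_continuousOn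
      (hd.continuousOn.mono (closedBall_subset_ball (by linarith)))
  have hv : ∀ v : CE n, DifferentiableOn ℂ (fun x => fderiv ℂ f x v) (ball 0 (R / 2)) := by
    intro v
    set ρ : ℝ := R / (8 * (‖v‖ + 1)) with hρ
    have hρ0 : 0 < ρ := by positivity
    have hρv : 2 * ρ * ‖v‖ ≤ R / 4 := by
      have : ρ * (8 * (‖v‖ + 1)) = R := by rw [hρ]; field_simp
      nlinarith [norm_nonneg v]
    have hin : ∀ x ∈ ball (0 : CE n) (R / 2), ∀ ζ ∈ ball (0 : ℂ) (2 * ρ),
        x + ζ • v ∈ closedBall (0 : CE n) (3 * R / 4) := by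
      intro x hx ζ hζ
      rw [mem_ball_zero_iff] at hx hζ
      rw [mem_closedBall_zero_iff]
      have h1 := norm_add_le x (ζ • v)
      rw [norm_smul] at h1
      nlinarith [norm_nonneg v]
    have hin' : ∀ x ∈ ball (0 : CE n) (R / 2), ∀ ζ ∈ ball (0 : ℂ) (2 * ρ),
        x + ζ • v ∈ ball (0 : CE n) R := fun x hx ζ hζ =>
      closedBall_subset_ball (by linarith) (hin x hx ζ hζ)
    have hcm : ∀ θ : ℝ, circleMap 0 ρ θ ∈ ball (0 : ℂ) (2 * ρ) := by
      intro θ
      rw [mem_ball_zero_iff, norm_circleMap_zero, abs_of_pos hρ0]; linarith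
    let F : CE n → ℝ → CE n := fun x θ => deriv (circleMap 0 ρ) θ •
      (((circleMap 0 ρ θ - 0) ^ 2)⁻¹ • f (x + circleMap 0 ρ θ • v))
    have hF : DifferentiableOn ℂ (fun x => ∫ θ in Ioc 0 (2 * Real.pi), F x θ) (ball 0 (R / 2)) := by
      refine diffOn_integral (B := ρ * ((ρ ^ 2)⁻¹ * B)) isOpen_ball ?_ ?_ ?_
      · refine Eventually.of_forall fun θ => ?_
        have h1 : DifferentiableOn ℂ (fun x : CE n => f (x + circleMap 0 ρ θ • v))
            (ball 0 (R / 2)) := hd.comp (by fun_prop) (fun x hx => hin' x hx _ (hcm θ))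
        exact (h1.const_smul ((circleMap 0 ρ θ - 0) ^ 2)⁻¹).const_smul (deriv (circleMap 0 ρ) θ)
      · intro x hx
        refine Continuous.aestronglyMeasurable ?_
        have h1 : Continuous fun θ : ℝ => f (x + circleMap 0 ρ θ • v) :=
          hd.continuousOn.comp_continuous (by fun_prop) (fun θ => hin' x hx _ (hcm θ))
        have h2 : Continuous fun θ : ℝ => ((circleMap 0 ρ θ - 0) ^ 2)⁻¹ := by
          refine Continuous.inv₀ (by fun_prop) fun θ => ?_
          simpa using hρ0.ne'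
        have h3 : Continuous fun θ : ℝ => deriv (circleMap 0 ρ) θ := by
          simp only [deriv_circleMap]; fun_prop
        exact h3.smul (h2.smul h1)
      · refine Eventually.of_forall fun θ x hx => ?_
        simp only [F, norm_smul, deriv_circleMap, norm_mul, Complex.norm_I, mul_one, sub_zero,
          norm_inv, norm_pow, norm_circleMap_zero, abs_of_pos hρ0]
        gcongr
        exact hB _ (hin x hx _ (hcm θ))
    refine (hF.const_smul ((2 * Real.pi * Complex.I : ℂ)⁻¹)).congr fun x hx => ?_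
    have hg : DifferentiableOn ℂ (fun ζ : ℂ => f (x + ζ • v)) (ball 0 (2 * ρ)) :=
      hd.comp (by fun_prop) (fun ζ hζ => hin' x hx ζ hζ)
    have hc := Complex.two_pi_I_inv_smul_circleIntegral_sub_sq_inv_smul_of_differentiable
      isOpen_ball (closedBall_subset_ball (show ρ < 2 * ρ by linarith)) hg (mem_ball_self hρ0)
    have hx' : x ∈ ball (0 : CE n) R := ball_subset_ball (by linarith) hx
    have hder : HasDerivAt (fun ζ : ℂ => f (x + ζ • v)) (fderiv ℂ f x v) 0 := by
      have h1 : HasFDerivAt f (fderiv ℂ f x) (x + (0 : ℂ) • v) := by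
        simpa using ((hd x hx').differentiableAt (isOpen_ball.mem_nhds hx')).hasFDerivAt
      have h2 : HasDerivAt (fun ζ : ℂ => x + ζ • v) v 0 := by
        simpa using ((hasDerivAt_id (0 : ℂ)).smul_const v).const_add x
      exact h1.comp_hasDerivAt (0 : ℂ) h2
    rw [hder.deriv] at hc
    rw [← hc, circleIntegral, intervalIntegral.integral_of_le (by positivity)]
    rfl
  have : fderiv ℂ f = fun x => ∑ i, ContinuousLinearMap.smulRightL ℂ (CE n) (CE n)
      (EuclideanSpace.proj i) (fderiv ℂ f x (EuclideanSpace.single i 1)) :=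
    funext fun x => clm_eq_sum _
  rw [this]
  refine DifferentiableAt.fun_sum fun i _ => ?_
  exact (ContinuousLinearMap.smulRightL ℂ (CE n) (CE n)
    (EuclideanSpace.proj i)).differentiableAt.comp _
    ((hv _).differentiableAt (ball_mem_nhds _ (by positivity)))

/-- `q` is the second order coefficient of `N` along the complex line through `x`. -/
def HasQuad (N : CE n → CE n) (x q : CE n) : Prop :=
  Tendsto (fun ζ : ℂ => (ζ ^ 2)⁻¹ • N (ζ • x)) (𝓝[≠] 0) (𝓝 q)

theorem tendsto_half_deriv_deriv {G : Type*} [NormedAddCommGroup G] [NormedSpace ℂ G]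
    [CompleteSpace G] {g : ℂ → G} {r : ℝ} (hr : 0 < r) (hd : DifferentiableOn ℂ g (ball 0 r))
    (h0 : g 0 = 0) (h1 : deriv g 0 = 0) :
    Tendsto (fun ζ : ℂ => (ζ ^ 2)⁻¹ • g ζ) (𝓝[≠] 0) (𝓝 ((2 : ℂ)⁻¹ • deriv (deriv g) 0)) := by
  have hb : ball (0 : ℂ) r ∈ 𝓝 (0 : ℂ) := ball_mem_nhds _ hr
  set s1 := dslope g 0 with hs1
  have d1 : DifferentiableOn ℂ s1 (ball 0 r) := (Complex.differentiableOn_dslope hb).2 hd
  have d2 : DifferentiableOn ℂ (dslope s1 0) (ball 0 r) :=
    (Complex.differentiableOn_dslope hb).2 d1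
  have hg : g = fun ζ => ζ • s1 ζ := by
    funext ζ
    have := sub_smul_dslope g 0 ζ
    simpa [h0] using this.symm
  have hs0 : s1 0 = 0 := by simp [hs1, h1]
  have hdd : deriv (deriv g) 0 = (2 : ℂ) • deriv s1 0 := by
    have e : deriv g =ᶠ[𝓝 0] fun ζ => ζ • deriv s1 ζ + s1 ζ := by
      filter_upwards [hb] with ζ hζ
      have := (hasDerivAt_id ζ).smul ((d1 ζ hζ).differentiableAt
        (isOpen_ball.mem_nhds hζ)).hasDerivAt
      rw [hg]
      have h3 := this.deriv
      simp only [id, one_smul] at h3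
      exact h3
    rw [e.deriv_eq]
    have a1 := ((d1.deriv isOpen_ball) 0 (mem_ball_self hr)).differentiableAt hb
    have a2 := (d1 0 (mem_ball_self hr)).differentiableAt hb
    have := ((hasDerivAt_id (0 : ℂ)).smul a1.hasDerivAt).add a2.hasDerivAt
    have h3 := this.deriv
    simp only [id, zero_smul, one_smul, zero_add] at h3
    rw [two_smul]
    exact h3
  have hc : Tendsto (dslope s1 0) (𝓝[≠] 0) (𝓝 (dslope s1 0 0)) :=
    ((d2 0 (mem_ball_self hr)).differentiableAt hb).continuousAt.tendsto.mono_left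
      nhdsWithin_le_nhds
  rw [hdd, smul_smul, inv_mul_cancel₀ two_ne_zero, one_smul, ← dslope_same s1 0]
  refine hc.congr' ?_
  filter_upwards [self_mem_nhdsWithin] with ζ hζ
  have hζ' : ζ ≠ 0 := hζ
  rw [dslope_of_ne _ hζ', slope_def_module, hs0, hg]
  simp only [sub_zero, smul_smul]
  congr 1
  field_simp

theorem hasQuad_taylorTerm {f : CE n → CE n} {R : ℝ} (hR : 0 < R)
    (hd : DifferentiableOn ℂ f (ball 0 R)) (h0 : f 0 = 0) {L : CE n →L[ℂ] CE n}
    (hL : fderiv ℂ f 0 = L) (z : CE n) : HasQuad (fun y => f y - L y) z (taylorTerm 2 f z) := by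
  set r : ℝ := R / (‖z‖ + 1) with hr
  have hr0 : 0 < r := by positivity
  have hin : ∀ ζ ∈ ball (0 : ℂ) r, ζ • z ∈ ball (0 : CE n) R := by
    intro ζ hζ
    rw [mem_ball_zero_iff] at *
    rw [norm_smul]
    have : r * (‖z‖ + 1) = R := by rw [hr]; field_simp
    nlinarith [norm_nonneg z, norm_nonneg ζ]
  have hder : ∀ ζ ∈ ball (0 : ℂ) r, HasDerivAt (fun ζ : ℂ => f (ζ • z) - L (ζ • z))
      (fderiv ℂ f (ζ • z) z - L z) ζ := by
    intro ζ hζ
    have h2 : HasDerivAt (fun ζ : ℂ => ζ • z) z ζ := by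
      simpa using (hasDerivAt_id ζ).smul_const z
    have h1 : HasFDerivAt f (fderiv ℂ f (ζ • z)) (ζ • z) :=
      ((hd _ (hin ζ hζ)).differentiableAt (isOpen_ball.mem_nhds (hin ζ hζ))).hasFDerivAt
    exact (h1.comp_hasDerivAt ζ h2).sub (L.hasFDerivAt.comp_hasDerivAt ζ h2)
  have key := tendsto_half_deriv_deriv (g := fun ζ : ℂ => f (ζ • z) - L (ζ • z)) hr0
    (fun ζ hζ => (hder ζ hζ).differentiableAt.differentiableWithinAt) (by simp [h0])
    (by rw [(hder 0 (mem_ball_self hr0)).deriv]; simp [hL])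
  have e : deriv (fun ζ : ℂ => f (ζ • z) - L (ζ • z)) =ᶠ[𝓝 0]
      fun ζ => fderiv ℂ f (ζ • z) z - L z := by
    filter_upwards [ball_mem_nhds _ hr0] with ζ hζ using (hder ζ hζ).deriv
  have h3 : HasDerivAt (fun ζ : ℂ => fderiv ℂ f (ζ • z) z - L z)
      (fderiv ℂ (fderiv ℂ f) 0 z z) 0 := by
    have h2 : HasDerivAt (fun ζ : ℂ => ζ • z) z 0 := by
      simpa using (hasDerivAt_id (0 : ℂ)).smul_const z
    have h1 : HasFDerivAt (fderiv ℂ f) (fderiv ℂ (fderiv ℂ f) 0) ((0 : ℂ) • z) := by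
      simpa using (differentiableAt_fderiv hR hd).hasFDerivAt
    have h4 : HasDerivAt (fun ζ : ℂ => fderiv ℂ f (ζ • z)) (fderiv ℂ (fderiv ℂ f) 0 z) 0 :=
      HasFDerivAt.comp_hasDerivAt (f := fun ζ : ℂ => ζ • z) (0 : ℂ) h1 h2
    have h5 := (ContinuousLinearMap.apply ℂ (CE n) z).hasFDerivAt.comp_hasDerivAt (0 : ℂ) h4
    exact h5.sub_const (L z)
  rw [e.deriv_eq, h3.deriv] at key
  have : taylorTerm 2 f z = (2 : ℂ)⁻¹ • fderiv ℂ (fderiv ℂ f) 0 z z := by
    simp [taylorTerm, iteratedFDeriv_two_apply]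
  rw [this]
  exact key

end Pool.Agent.Lib.MP_c027d2_an
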