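import Pool.Agent.Lib.MP_c027d2_an.Ident

/-!
Two explicit generators and general lemmas for explicit flows.
-/

open MeasureTheory Metric Set Filter Topology

namespace Pool.Agent.Lib.MP_c027d2_an

variable {n : ℕ}

theorem ip_single (z : CE n) (j : Fin n) : ip z (EuclideanSpace.single j 1) = z j := by
  simp [ip_eq, EuclideanSpace.inner_single_left]

theorem ip_single_left (z : CE n) (j : Fin n) :
    ip (EuclideanSpace.single j 1) z = (starRingEnd ℂ) (z j) := by
  rw [← ip_conj, ip_single]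

theorem two_coord_le (z : CE n) {i j : Fin n} (hij : i ≠ j) :
    ‖z i‖ ^ 2 + ‖z j‖ ^ 2 ≤ ‖z‖ ^ 2 := by
  rw [EuclideanSpace.norm_sq_eq, ← Finset.sum_pair (f := fun k => ‖z k‖ ^ 2) hij]
  exact Finset.sum_le_sum_of_subset_of_nonneg (Finset.subset_univ _) fun _ _ _ => by positivity

theorem coord_le (z : CE n) (j : Fin n) : ‖z j‖ ≤ ‖z‖ := PiLp.norm_apply_le z j

/-- The shear generator. -/
noncomputable def genS (i j : Fin n) (d : ℝ) (z : CE n) : CE n :=
  z + ((d : ℂ) * z i ^ 2) • EuclideanSpace.single j 1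

/-- The horocycle generator. -/
noncomputable def genH (j : Fin n) (c : ℝ) (z : CE n) : CE n :=
  (1 - z j) • z + ((c : ℂ) * z j / (1 - z j)) • (z - z j • EuclideanSpace.single j 1)

theorem diff_coord (j : Fin n) : Differentiable ℂ fun z : CE n => z j :=
  (EuclideanSpace.proj (𝕜 := ℂ) j).differentiable

theorem hasFDerivAt_smul_zero {φ : CE n → ℂ} {ψ : CE n → CE n} (hφ : DifferentiableAt ℂ φ 0)
    (hψ : DifferentiableAt ℂ ψ 0) (h0 : φ 0 = 0) (h1 : ψ 0 = 0) :
    HasFDerivAt (fun z => φ z • ψ z) (0 : CE n →L[ℂ] CE n) 0 := by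
  have := hφ.hasFDerivAt.smul hψ.hasFDerivAt
  rw [h0, h1] at this
  refine HasFDerivAt.congr_fderiv this ?_
  ext1 v
  simp

theorem key_cubic {N y : ℝ} (hy : 0 ≤ y) (hN : 0 ≤ N) :
    3 * Real.sqrt 3 / 2 * ((N ^ 2 - y ^ 2) * y) ≤ N ^ 3 := by
  have h33 : Real.sqrt 3 ^ 2 = 3 := Real.sq_sqrt (by norm_num)
  have h3 : 0 < Real.sqrt 3 := by positivity
  have h1 : 0 ≤ (Real.sqrt 3 * y - N) ^ 2 * (Real.sqrt 3 * y + 2 * N) := by positivity
  have h2 : (Real.sqrt 3 * y - N) ^ 2 * (Real.sqrt 3 * y + 2 * N) =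
      Real.sqrt 3 ^ 2 * Real.sqrt 3 * y ^ 3 - 3 * Real.sqrt 3 * y * N ^ 2 + 2 * N ^ 3 := by ring
  rw [h2, h33] at h1
  nlinarith

theorem inN_genS {i j : Fin n} (hij : i ≠ j) :
    InN (idOp n) (genS i j (3 * Real.sqrt 3 / 2)) := by
  have hd : Differentiable ℂ (genS i j (3 * Real.sqrt 3 / 2)) :=
    differentiable_id.add (((diff_coord i).pow 2).const_mul _ |>.smul_const _)
  refine ⟨hd.differentiableOn, by simp [genS], ?_, fun z hz hz0 => ?_⟩
  · have h1 := hasFDerivAt_smul_zero (φ := fun z : CE n => ((3 * Real.sqrt 3 / 2 : ℝ) : ℂ) * z i)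
      (ψ := fun z : CE n => z i • EuclideanSpace.single j 1)
      ((diff_coord i).const_mul _ 0) ((diff_coord i).smul_const _ 0) (by simp) (by simp)
    have h2 := (hasFDerivAt_id (𝕜 := ℂ) (0 : CE n)).add h1
    rw [add_zero] at h2
    refine HasFDerivAt.fderiv (h2.congr_of_eventuallyEq (Eventually.of_forall fun z => ?_))
    simp only [genS, Pi.add_apply, id, smul_smul]
    congr 2
    ring
  · rw [mem_ball_zero_iff] at hz
    have hp : 0 < ‖z‖ := norm_pos_iff.2 hz0
    rw [genS, ip_add_left, ip_smul_left, ip_self, ip_single_left, Complex.add_re,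
      Complex.ofReal_re]
    have h1 : ‖((3 * Real.sqrt 3 / 2 : ℝ) : ℂ) * z i ^ 2 * (starRingEnd ℂ) (z j)‖ =
        3 * Real.sqrt 3 / 2 * (‖z i‖ ^ 2 * ‖z j‖) := by
      rw [norm_mul, norm_mul, norm_pow, Complex.norm_conj, Complex.norm_real, Real.norm_eq_abs,
        abs_of_nonneg (by positivity), mul_assoc]
    have h2 := (neg_le_abs _).trans ((Complex.abs_re_le_norm _).trans_eq h1)
    have h3 := key_cubic (norm_nonneg (z j)) hp.le
    have h4 : ‖z i‖ ^ 2 * ‖z j‖ ≤ (‖z‖ ^ 2 - ‖z j‖ ^ 2) * ‖z j‖ :=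
      mul_le_mul_of_nonneg_right (by linarith [two_coord_le z hij]) (norm_nonneg _)
    have h5 : 3 * Real.sqrt 3 / 2 * (‖z i‖ ^ 2 * ‖z j‖) ≤
        3 * Real.sqrt 3 / 2 * ((‖z‖ ^ 2 - ‖z j‖ ^ 2) * ‖z j‖) := by gcongr
    have h6 : ‖z‖ ^ 3 < ‖z‖ ^ 2 := by nlinarith [pow_pos hp 2]
    linarith

theorem one_sub_ne {w : ℂ} (hw : ‖w‖ < 1) : 1 - w ≠ 0 := by
  intro h
  rw [sub_eq_zero] at h
  rw [← h, norm_one] at hw
  exact lt_irrefl _ hw

theorem horo_ineq {c x t N : ℝ} (hc : c ^ 2 = 6 * c - 1) (hc0 : 0 < c) (hN : N < 1) (hN0 : 0 < N)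
    (ht : 0 ≤ t) (htN : t ≤ N) (hx : x ^ 2 ≤ t) :
    0 < N * (1 - x) + (N - t) * (c * ((x - t) / (1 - 2 * x + t))) := by
  have hx1 : x < 1 := by nlinarith
  have hD : 0 < 1 - 2 * x + t := by nlinarith
  rcases le_or_gt t x with h | h
  · have : 0 ≤ (N - t) * (c * ((x - t) / (1 - 2 * x + t))) :=
      mul_nonneg (by linarith) (mul_nonneg hc0.le (div_nonneg (by linarith) hD.le))
    nlinarith
  · have ht0 : 0 < t := by
      rcases ht.eq_or_lt with h0 | h0
      · subst h0; nlinarith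
      · exact h0
    have hsq : 0 ≤ (1 - x) * (1 - 2 * x + t) - c * (1 - t) * (t - x) := by
      have e : 4 * c * ((1 - x) * (1 - 2 * x + t) - c * (1 - t) * (t - x)) =
          (2 * c * t + 1 - x - c - c * x) ^ 2 - (c ^ 2 - 6 * c + 1) * (1 - x) ^ 2 := by ring
      have e2 : c ^ 2 - 6 * c + 1 = 0 := by linarith
      rw [e2, zero_mul, sub_zero] at e
      have : 0 ≤ 4 * c * ((1 - x) * (1 - 2 * x + t) - c * (1 - t) * (t - x)) := by
        rw [e]; positivity
      exact (mul_nonneg_iff_of_pos_left (by positivity)).1 this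
    have e : N * (1 - x) + (N - t) * (c * ((x - t) / (1 - 2 * x + t))) =
        (N * ((1 - x) * (1 - 2 * x + t) - c * (1 - t) * (t - x)) +
          c * (t - x) * (t * (1 - N))) / (1 - 2 * x + t) := by
      rw [eq_div_iff hD.ne', add_mul, mul_assoc (N - t), mul_assoc c, div_mul_cancel₀ _ hD.ne']
      ring
    rw [e]
    have h1 : 0 < c * (t - x) * (t * (1 - N)) :=
      mul_pos (mul_pos hc0 (by linarith)) (mul_pos ht0 (by linarith))
    have h2 := mul_nonneg hN0.le hsq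
    exact div_pos (by linarith) hD

theorem c_sq : (3 + 2 * Real.sqrt 2) ^ 2 = 6 * (3 + 2 * Real.sqrt 2) - 1 := by
  have h : Real.sqrt 2 ^ 2 = 2 := Real.sq_sqrt (by norm_num)
  nlinarith

theorem inN_genH (j : Fin n) : InN (idOp n) (genH j (3 + 2 * Real.sqrt 2)) := by
  set c : ℝ := 3 + 2 * Real.sqrt 2 with hc
  have hne : ∀ z ∈ ball (0 : CE n) 1, 1 - z j ≠ 0 := fun z hz =>
    one_sub_ne ((coord_le z j).trans_lt (mem_ball_zero_iff.1 hz))
  have hφ : ∀ z ∈ ball (0 : CE n) 1,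
      DifferentiableAt ℂ (fun z : CE n => (c : ℂ) * z j / (1 - z j)) z := fun z hz => by
    have h1 : DifferentiableAt ℂ (fun z : CE n => (1 - z j)⁻¹) z :=
      DifferentiableAt.inv (((diff_coord j).const_sub 1) z) (hne z hz)
    simp only [div_eq_mul_inv]
    exact ((diff_coord j).const_mul _ z).mul h1
  have hψ : Differentiable ℂ fun z : CE n => z - z j • EuclideanSpace.single j (1 : ℂ) :=
    differentiable_id.sub ((diff_coord j).smul_const _)
  refine ⟨fun z hz => DifferentiableAt.differentiableWithinAt ?_, by simp [genH], ?_,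
    fun z hz hz0 => ?_⟩
  · exact ((((diff_coord j).const_sub 1) z).smul differentiableAt_id).add ((hφ z hz).smul (hψ z))
  · have h1 := hasFDerivAt_smul_zero (hφ 0 (mem_ball_self one_pos)) (hψ 0) (by simp) (by simp)
    have h2 := hasFDerivAt_smul_zero (φ := fun z : CE n => z j) (ψ := fun z : CE n => z)
      (diff_coord j 0) differentiableAt_id (by simp) rfl
    have h3 := ((hasFDerivAt_id (𝕜 := ℂ) (0 : CE n)).sub h2).add h1
    rw [sub_zero, add_zero] at h3
    refine HasFDerivAt.fderiv (h3.congr_of_eventuallyEq (Eventually.of_forall fun z => ?_))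
    simp only [genH, Pi.add_apply, Pi.sub_apply, id, sub_smul, one_smul]
  · have hz1 := mem_ball_zero_iff.1 hz
    have hp : 0 < ‖z‖ := norm_pos_iff.2 hz0
    have key := horo_ineq (c := c) (x := (z j).re) (t := ‖z j‖ ^ 2) (N := ‖z‖ ^ 2) c_sq
      (by positivity) (by nlinarith) (by positivity) (by positivity)
      (pow_le_pow_left₀ (norm_nonneg _) (coord_le z j) 2)
      (by rw [← sq_abs]; exact pow_le_pow_left₀ (abs_nonneg _) (Complex.abs_re_le_norm _) 2)
    refine key.trans_eq ?_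
    rw [genH, ip_add_left, ip_smul_left, ip_smul_left, ip_sub_left, ip_smul_left, ip_self,
      ip_single_left, Complex.mul_conj, Complex.normSq_eq_norm_sq, ← Complex.ofReal_sub,
      Complex.add_re, Complex.re_mul_ofReal, Complex.re_mul_ofReal, mul_div_assoc,
      Complex.re_ofReal_mul, Complex.div_re, Complex.normSq_apply, Complex.sq_norm (z j),
      Complex.normSq_apply]
    simp only [Complex.sub_re, Complex.sub_im, Complex.one_re, Complex.one_im]
    have e : (1 - (z j).re) * (1 - (z j).re) + (0 - (z j).im) * (0 - (z j).im) =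
        1 - 2 * (z j).re + ((z j).re * (z j).re + (z j).im * (z j).im) := by ring
    rw [e]
    ring

theorem stay_in_ball {H : CE n → CE n} (hH : InN (idOp n) H) {γ : ℝ → CE n} {T : ℝ}
    (hd : ∀ t ∈ Icc (0 : ℝ) T, ∃ g, HasDerivAt γ g t ∧ (‖γ t‖ < 1 → g = -H (γ t)))
    (h0 : ‖γ 0‖ < 1) : ∀ t ∈ Icc (0 : ℝ) T, ‖γ t‖ < 1 := by
  intro t ht
  choose! g hg using hd
  have hT : 0 < T + 1 := by linarith [ht.1, ht.2]
  have h00 : ‖γ 0‖ ^ 2 < 1 := by nlinarith [norm_nonneg (γ 0)]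
  set ε := (1 - ‖γ 0‖ ^ 2) / (T + 1) with hε
  have hε0 : 0 < ε := div_pos (by linarith) hT
  have hB : ∀ s ∈ Icc (0 : ℝ) T, ‖γ 0‖ ^ 2 + ε * s < 1 := by
    intro s hs
    have : ε * (T + 1) = 1 - ‖γ 0‖ ^ 2 := by rw [hε]; field_simp
    nlinarith [hs.2]
  have key := image_le_of_deriv_right_lt_deriv_boundary
    (f := fun t => (ip (γ t) (γ t)).re)
    (f' := fun t => (ip (g t) (γ t)).re + (ip (γ t) (g t)).re) (a := 0) (b := T)
    (fun s hs => (deriv_ip (hg s hs).1 (hg s hs).1).continuousAt.continuousWithinAt)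
    (fun s hs => (deriv_ip (hg s (Ico_subset_Icc_self hs)).1
      (hg s (Ico_subset_Icc_self hs)).1).hasDerivWithinAt)
    (B := fun s => ‖γ 0‖ ^ 2 + ε * s) (B' := fun _ => ε) (by simp only [ip_self, Complex.ofReal_re]; simp)
    (fun s => by simpa using ((hasDerivAt_id s).const_mul ε).const_add (‖γ 0‖ ^ 2))
    (fun s hs h => by
      have hs' := Ico_subset_Icc_self hs
      simp only [ip_self, Complex.ofReal_re] at h
      have h1 : ‖γ s‖ < 1 := by
        have := hB s hs'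
        nlinarith [norm_nonneg (γ s)]
      have h2 : (ip (γ s) (g s)).re = (ip (g s) (γ s)).re := by rw [← ip_conj, Complex.conj_re]
      have h3 := hH.re_nonneg h1
      rw [h2, (hg s hs').2 h1, ip_neg_left, Complex.neg_re]
      linarith) ht
  simp only [ip_self, Complex.ofReal_re] at key
  have := hB t ht
  nlinarith [norm_nonneg (γ t)]

theorem lip_of_right_deriv {γ g : ℝ → CE n} {T C : ℝ} (hc : ContinuousOn γ (Icc 0 T))
    (hd : ∀ t ∈ Ico (0 : ℝ) T, HasDerivWithinAt γ (g t) (Ici t) t)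
    (hb : ∀ t ∈ Ico (0 : ℝ) T, ‖g t‖ ≤ C) : LipschitzOnWith C.toNNReal γ (Icc 0 T) := by
  have aux : ∀ a ∈ Icc (0 : ℝ) T, ∀ b ∈ Icc (0 : ℝ) T, a ≤ b →
      dist (γ b) (γ a) ≤ C.toNNReal * dist b a := by
    intro a ha b hb' hab
    have hsub : Ico a b ⊆ Ico 0 T := Ico_subset_Ico ha.1 hb'.2
    have := norm_image_sub_le_of_norm_deriv_right_le_segment (f := γ) (f' := g) (C := C)
      (a := a) (b := b) (hc.mono (Icc_subset_Icc ha.1 hb'.2)) (fun x hx => hd x (hsub hx))
      (fun x hx => hb x (hsub hx)) b ⟨hab, le_rfl⟩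
    rw [dist_eq_norm, Real.dist_eq, abs_of_nonneg (by linarith)]
    exact this.trans (mul_le_mul_of_nonneg_right (Real.le_coe_toNNReal C) (by linarith))
  refine LipschitzOnWith.of_dist_le_mul fun a ha b hb' => ?_
  rcases le_total a b with h | h
  · rw [dist_comm, dist_comm a]; exact aux a ha b hb' h
  · exact aux b hb' a ha h

end Pool.Agent.Lib.MP_c027d2_an
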