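import Pool.Agent.Lib.MP_c027d2_an.ThirdA

/-!
Explicit flows of the two generators and their concatenation.
-/

open MeasureTheory Metric Set Filter Topology

namespace Pool.Agent.Lib.MP_c027d2_an

variable {n : ℕ}

/-- The map reached along the shear generator, in terms of `E = e^{-t}`. -/
noncomputable def mapS (i j : Fin n) (d : ℝ) (E : ℂ) (z : CE n) : CE n :=
  E • z + (-((d : ℂ) * (E * (1 - E)) * z i ^ 2)) • EuclideanSpace.single j 1

/-- The map reached along the horocycle generator, in terms of `E = e^{-t}`. -/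
noncomputable def mapH (j : Fin n) (c : ℝ) (E : ℂ) (w : CE n) : CE n :=
  (E * Complex.exp (-((c : ℂ) * (1 - E) * (w j / (1 - w j)))) / (1 - (1 - E) * w j)) •
      (w - w j • EuclideanSpace.single j 1) +
    (E * w j / (1 - (1 - E) * w j)) • EuclideanSpace.single j 1

/-- The decaying exponential as a complex number. -/
noncomputable def ee (t : ℝ) : ℂ := ((Real.exp (-t) : ℝ) : ℂ)

theorem ee_zero : ee 0 = 1 := by simp [ee]

theorem hasDerivAt_ee (t : ℝ) : HasDerivAt ee (-ee t) t := by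
  have := ((hasDerivAt_neg t).exp).ofReal_comp
  refine HasDerivAt.congr_deriv this ?_
  simp [ee]

theorem mapS_one (i j : Fin n) (d : ℝ) (z : CE n) : mapS i j d 1 z = z := by simp [mapS]

theorem mapH_one (j : Fin n) (c : ℝ) (w : CE n) : mapH j c 1 w = w := by simp [mapH]

theorem hasDerivAt_mapS {i j : Fin n} (hij : i ≠ j) (d : ℝ) (z : CE n) (t : ℝ) :
    HasDerivAt (fun t => mapS i j d (ee t) z) (-genS i j d (mapS i j d (ee t) z)) t := by
  have h := hasDerivAt_ee t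
  have h1 := (h.smul_const z).add
    ((((h.mul (h.const_sub 1)).const_mul (d : ℂ)).mul_const (z i ^ 2)).neg.smul_const
      (EuclideanSpace.single j (1 : ℂ) : CE n))
  refine HasDerivAt.congr_deriv h1 ?_
  have e : mapS i j d (ee t) z i = ee t * z i := by simp [mapS, hij]
  rw [genS, e, mapS]
  module

theorem den_ne {t : ℝ} (ht : 0 ≤ t) {w : ℂ} (hw : ‖w‖ < 1) : 1 - (1 - ee t) * w ≠ 0 := by
  refine one_sub_ne ?_
  have h1 : Real.exp (-t) ≤ 1 := Real.exp_le_one_iff.2 (by linarith)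
  have h2 := Real.exp_pos (-t)
  have e : (1 : ℂ) - ee t = ((1 - Real.exp (-t) : ℝ) : ℂ) := by simp [ee]
  rw [norm_mul, e, Complex.norm_real, Real.norm_eq_abs, abs_of_nonneg (by linarith)]
  nlinarith [norm_nonneg w]

theorem genH_decomp (j : Fin n) (c : ℝ) {P : CE n} (hP : P j = 0) (a b : ℂ) :
    genH j c (a • P + b • EuclideanSpace.single j 1) =
      ((1 - b) * a + (c : ℂ) * b / (1 - b) * a) • P +
        ((1 - b) * b) • EuclideanSpace.single j 1 := by
  have e : (a • P + b • EuclideanSpace.single j 1 : CE n) j = b := by simp [hP]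
  rw [genH, e]
  module

theorem hasDerivAt_mapH (j : Fin n) (c : ℝ) {w : CE n} (hw : ‖w‖ < 1) {t : ℝ} (ht : 0 ≤ t) :
    HasDerivAt (fun t => mapH j c (ee t) w) (-genH j c (mapH j c (ee t) w)) t := by
  have h := hasDerivAt_ee t
  have hw1 : ‖w j‖ < 1 := (coord_le w j).trans_lt hw
  have d1 := den_ne ht hw1
  have d2 := one_sub_ne hw1
  have hD := ((h.const_sub 1).mul_const (w j)).const_sub 1
  have ha := (h.mul ((((h.const_sub 1).const_mul (c : ℂ)).mul_const
    (w j / (1 - w j))).neg.cexp)).div hD d1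
  have hb := (h.mul_const (w j)).div hD d1
  have h1 := (ha.smul_const (w - w j • EuclideanSpace.single j 1 : CE n)).add
    (hb.smul_const (EuclideanSpace.single j (1 : ℂ) : CE n))
  refine HasDerivAt.congr_deriv h1 ?_
  rw [mapH, genH_decomp j c (by simp), neg_add, ← neg_smul, ← neg_smul]
  have e : 1 - ee t * w j / (1 - (1 - ee t) * w j) = (1 - w j) / (1 - (1 - ee t) * w j) := by
    rw [eq_div_iff d1, sub_mul, div_mul_cancel₀ _ d1]
    ring
  rw [e]
  congr 2
  · simp only [Pi.mul_apply, Pi.neg_apply]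
    field_simp
    ring
  · field_simp
    ring

theorem mapS_mem {i j : Fin n} (hij : i ≠ j) {z : CE n} (hz : ‖z‖ < 1) {t : ℝ} (ht : 0 ≤ t) :
    ‖mapS i j (3 * Real.sqrt 3 / 2) (ee t) z‖ < 1 :=
  stay_in_ball (inN_genS hij) (γ := fun t => mapS i j (3 * Real.sqrt 3 / 2) (ee t) z) (T := t)
    (fun s _ => ⟨_, hasDerivAt_mapS hij _ z s, fun _ => rfl⟩)
    (by simpa only [ee_zero, mapS_one] using hz) t ⟨ht, le_rfl⟩

theorem mapH_mem (j : Fin n) {w : CE n} (hw : ‖w‖ < 1) {t : ℝ} (ht : 0 ≤ t) :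
    ‖mapH j (3 + 2 * Real.sqrt 2) (ee t) w‖ < 1 :=
  stay_in_ball (inN_genH j) (γ := fun t => mapH j (3 + 2 * Real.sqrt 2) (ee t) w) (T := t)
    (fun _ hs => ⟨_, hasDerivAt_mapH j _ hw hs.1, fun _ => rfl⟩)
    (by simpa only [ee_zero, mapH_one] using hw) t ⟨ht, le_rfl⟩

theorem bound_comp {H : CE n → CE n} (hH : InN (idOp n) H) {γ : ℝ → CE n} {a b : ℝ}
    (hc : ContinuousOn γ (Icc a b)) (hb : ∀ t ∈ Icc a b, ‖γ t‖ < 1) :
    ∃ C, ∀ t ∈ Icc a b, ‖H (γ t)‖ ≤ C :=
  isCompact_Icc.exists_bound_of_continuousOn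
    (hH.1.continuousOn.comp hc fun t ht => mem_ball_zero_iff.2 (hb t ht))

theorem reach_concat {H₁ H₂ : CE n → CE n} (h₁ : InN (idOp n) H₁) (h₂ : InN (idOp n) H₂)
    {Φ₁ Φ₂ : ℝ → CE n → CE n} (z₁ : ∀ z, Φ₁ 0 z = z) (z₂ : ∀ z, Φ₂ 0 z = z)
    (d₁ : ∀ z, ‖z‖ < 1 → ∀ t, 0 ≤ t → HasDerivAt (fun t => Φ₁ t z) (-H₁ (Φ₁ t z)) t)
    (d₂ : ∀ z, ‖z‖ < 1 → ∀ t, 0 ≤ t → HasDerivAt (fun t => Φ₂ t z) (-H₂ (Φ₂ t z)) t)
    (b₁ : ∀ z, ‖z‖ < 1 → ∀ t, 0 ≤ t → ‖Φ₁ t z‖ < 1)
    (b₂ : ∀ z, ‖z‖ < 1 → ∀ t, 0 ≤ t → ‖Φ₂ t z‖ < 1) {a T : ℝ} (ha : 0 ≤ a) (haT : a ≤ T) :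
    (fun z => ((Real.exp T : ℝ) : ℂ) • Φ₂ (T - a) (Φ₁ a z)) ∈ Reach (idOp n) T := by
  refine ⟨fun z t => if t < a then H₁ z else H₂ z,
    fun z t => if t < a then Φ₁ t z else Φ₂ (t - a) (Φ₁ a z), fun t _ => ?_, fun z _ => ?_,
    fun z hz => ?_, fun z _ => ?_⟩
  · by_cases h : t < a
    · simpa only [h, if_true] using h₁
    · simpa only [h, if_false] using h₂
  · exact (Measurable.ite measurableSet_Iio measurable_const measurable_const).aemeasurable
  · rw [mem_ball_zero_iff] at hz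
    have hw := b₁ z hz a ha
    set γ : ℝ → CE n := fun t => if t < a then Φ₁ t z else Φ₂ (t - a) (Φ₁ a z) with hγ
    have e₂ : ∀ t, a ≤ t → HasDerivAt (fun t => Φ₂ (t - a) (Φ₁ a z))
        (-H₂ (Φ₂ (t - a) (Φ₁ a z))) t := fun t ht =>
      HasDerivAt.comp_sub_const t a (d₂ _ hw (t - a) (by linarith))
    have g₁ : ∀ t, t ≤ a → γ t = Φ₁ t z := by
      intro t ht
      rcases ht.lt_or_eq with h | h
      · simp only [hγ, h, if_true]
      · simp only [hγ, h, lt_irrefl, if_false, sub_self, z₂]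
    have g₂ : ∀ t, a ≤ t → γ t = Φ₂ (t - a) (Φ₁ a z) := fun t ht => by
      simp only [hγ, not_lt.2 ht, if_false]
    have c₁ : ContinuousOn γ (Icc 0 a) :=
      ContinuousOn.congr (f := fun t => Φ₁ t z)
        (fun t ht => (d₁ z hz t ht.1).continuousAt.continuousWithinAt) fun t ht => g₁ t ht.2
    have c₂ : ContinuousOn γ (Icc a T) :=
      ContinuousOn.congr (f := fun t => Φ₂ (t - a) (Φ₁ a z))
        (fun t ht => (e₂ t ht.1).continuousAt.continuousWithinAt) fun t ht => g₂ t ht.1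
    have cc : ContinuousOn γ (Icc 0 T) := by
      rw [← Icc_union_Icc_eq_Icc ha haT]
      exact c₁.union_of_isClosed c₂ isClosed_Icc isClosed_Icc
    have hb : ∀ t ∈ Icc (0 : ℝ) T, ‖γ t‖ < 1 := by
      intro t ht
      rcases le_total t a with h | h
      · rw [g₁ t h]; exact b₁ z hz t ht.1
      · rw [g₂ t h]; exact b₂ _ hw _ (by linarith)
    have f₁ : ∀ t, 0 ≤ t → t < a → HasDerivAt γ (-H₁ (γ t)) t := by
      intro t ht h
      rw [g₁ t h.le]
      refine (d₁ z hz t ht).congr_of_eventuallyEq ?_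
      filter_upwards [Iio_mem_nhds h] with s hs using g₁ s (le_of_lt hs)
    have f₂ : ∀ t, a < t → HasDerivAt γ (-H₂ (γ t)) t := by
      intro t h
      rw [g₂ t h.le]
      refine (e₂ t h.le).congr_of_eventuallyEq ?_
      filter_upwards [Ioi_mem_nhds h] with s hs using g₂ s (le_of_lt hs)
    obtain ⟨C₁, hC₁⟩ := bound_comp h₁ cc hb
    obtain ⟨C₂, hC₂⟩ := bound_comp h₂ cc hb
    refine ⟨⟨_, lip_of_right_deriv (C := max C₁ C₂)
      (g := fun t => -(if t < a then H₁ (γ t) else H₂ (γ t))) cc (fun t ht => ?_)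
      (fun t ht => ?_)⟩, (g₁ 0 ha).trans (z₁ z),
      fun t ht => mem_ball_zero_iff.2 (hb t ht), ?_⟩
    · by_cases h : t < a
      · simpa only [h, if_true] using (f₁ t ht.1 h).hasDerivWithinAt
      · simp only [h, if_false]
        have h' := not_lt.1 h
        rw [g₂ t h']
        exact (e₂ t h').hasDerivWithinAt.congr (fun s hs => g₂ s (h'.trans hs)) (g₂ t h')
    · rw [norm_neg]
      split_ifs
      · exact (hC₁ t (Ico_subset_Icc_self ht)).trans (le_max_left _ _)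
      · exact (hC₂ t (Ico_subset_Icc_self ht)).trans (le_max_right _ _)
    · have hne : ∀ᵐ t ∂(volume.restrict (Icc (0 : ℝ) T)), t ≠ a :=
        ae_restrict_of_ae (by simp [ae_iff])
      filter_upwards [hne, ae_restrict_mem measurableSet_Icc] with t h1 h2
      rcases lt_or_gt_of_ne h1 with h | h
      · change HasDerivAt γ (-(if t < a then H₁ (γ t) else H₂ (γ t))) t
        rw [if_pos h]
        exact f₁ t h2.1 h
      · change HasDerivAt γ (-(if t < a then H₁ (γ t) else H₂ (γ t))) t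
        rw [if_neg (not_lt.2 h.le)]
        exact f₂ t h
  · simp only [not_lt.2 haT, if_false]
    exact (exp_id_apply T _).symm

end Pool.Agent.Lib.MP_c027d2_an
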