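import Pool.Agent.Lib.MP_c027d2_an.ThirdB

/-!
The third order term of the two phase map.
-/

open MeasureTheory Metric Set Filter Topology

namespace Pool.Agent.Lib.MP_c027d2_an

variable {n : ℕ}

theorem slice_coeff {f : CE n → CE n} (hf : ContDiffAt ℂ 3 f 0) (z : CE n) (i : Fin n) :
    ip (taylorTerm 3 f z) (EuclideanSpace.single i 1) =
      (6 : ℂ)⁻¹ * iteratedDeriv 3 (fun ζ : ℂ => f (ζ • z) i) 0 := by
  let p : CE n →L[ℂ] ℂ := EuclideanSpace.proj i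
  let L : ℂ →L[ℂ] CE n := ContinuousLinearMap.toSpanSingleton ℂ z
  have hF : ContDiffAt ℂ 3 (p ∘ f) 0 := p.contDiff.contDiffAt.comp 0 hf
  obtain ⟨u, hu, hFu⟩ := hF.contDiffOn le_rfl (by simp)
  have ho : IsOpen (interior u) := isOpen_interior
  have ho' : IsOpen (L ⁻¹' interior u) := ho.preimage L.continuous
  have h0 : L 0 ∈ interior u := by rw [map_zero]; exact mem_interior_iff_mem_nhds.2 hu
  have key := L.iteratedFDerivWithin_comp_right (hFu.mono interior_subset) ho.uniqueDiffOn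
    ho'.uniqueDiffOn h0 (i := 3) le_rfl
  rw [iteratedFDerivWithin_of_isOpen 3 ho' h0, iteratedFDerivWithin_of_isOpen 3 ho h0, map_zero,
    p.iteratedFDeriv_comp_left hf (i := 3) le_rfl] at key
  have e : (fun ζ : ℂ => f (ζ • z) i) = (p ∘ f) ∘ L := rfl
  rw [e, iteratedDeriv_eq_iteratedFDeriv, key, ip_single, taylorTerm]
  simp [L, p, Nat.factorial]

theorem third_deriv_odd {G : ℂ → ℂ} (hG : AnalyticAt ℂ G 0) :
    iteratedDeriv 3 (fun ζ : ℂ => ζ * G (ζ ^ 2)) 0 = 6 * deriv G 0 := by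
  have hsq : Tendsto (fun ζ : ℂ => ζ ^ 2) (𝓝 0) (𝓝 0) := by
    simpa using (continuous_pow 2).tendsto (0 : ℂ)
  have hev : ∀ᶠ ζ in 𝓝 (0 : ℂ), AnalyticAt ℂ G (ζ ^ 2) := hsq.eventually hG.eventually_analyticAt
  have cmp : ∀ {K : ℂ → ℂ} {ζ : ℂ}, AnalyticAt ℂ K (ζ ^ 2) →
      HasDerivAt (fun ζ : ℂ => K (ζ ^ 2)) (deriv K (ζ ^ 2) * (2 * ζ)) ζ := by
    intro K ζ hK
    have h2 : HasDerivAt (fun ζ : ℂ => ζ ^ 2) (2 * ζ) ζ := by simpa using hasDerivAt_pow 2 ζ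
    exact HasDerivAt.comp (h := fun ζ : ℂ => ζ ^ 2) ζ hK.differentiableAt.hasDerivAt h2
  have e1 : deriv (fun ζ : ℂ => ζ * G (ζ ^ 2)) =ᶠ[𝓝 0]
      fun ζ => G (ζ ^ 2) + 2 * ζ ^ 2 * deriv G (ζ ^ 2) := by
    filter_upwards [hev] with ζ hζ
    rw [HasDerivAt.deriv (f := fun ζ : ℂ => ζ * G (ζ ^ 2)) ((hasDerivAt_id ζ).mul (cmp hζ))]
    simp only [id]
    ring
  have e2 : deriv (fun ζ : ℂ => G (ζ ^ 2) + 2 * ζ ^ 2 * deriv G (ζ ^ 2)) =ᶠ[𝓝 0]
      fun ζ => ζ * (6 * deriv G (ζ ^ 2) + 4 * ζ ^ 2 * deriv (deriv G) (ζ ^ 2)) := by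
    filter_upwards [hev] with ζ hζ
    rw [HasDerivAt.deriv (f := fun ζ : ℂ => G (ζ ^ 2) + 2 * ζ ^ 2 * deriv G (ζ ^ 2))
      ((cmp hζ).add (((hasDerivAt_pow 2 ζ).const_mul 2).mul (cmp hζ.deriv)))]
    simp only [Nat.cast_ofNat, Nat.add_one_sub_one, pow_one]
    ring
  have hG' : AnalyticAt ℂ G ((0 : ℂ) ^ 2) := by simpa using hG
  have hd : DifferentiableAt ℂ
      (fun ζ : ℂ => 6 * deriv G (ζ ^ 2) + 4 * ζ ^ 2 * deriv (deriv G) (ζ ^ 2)) 0 :=
    ((cmp hG'.deriv).differentiableAt.const_mul 6).add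
      (((differentiableAt_pow 2).const_mul 4).mul (cmp hG'.deriv.deriv).differentiableAt)
  have e3 := HasDerivAt.deriv
    (f := fun ζ : ℂ => ζ * (6 * deriv G (ζ ^ 2) + 4 * ζ ^ 2 * deriv (deriv G) (ζ ^ 2)))
    ((hasDerivAt_id (0 : ℂ)).mul hd.hasDerivAt)
  rw [iteratedDeriv_eq_iterate]
  change deriv (deriv (deriv fun ζ : ℂ => ζ * G (ζ ^ 2))) 0 = _
  rw [(e1.deriv.trans e2).deriv_eq, e3]
  simp

theorem contDiff_coord (j : Fin n) : ContDiff ℂ 3 fun z : CE n => z j :=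
  (EuclideanSpace.proj (𝕜 := ℂ) j).contDiff

theorem contDiff_mapS (i j : Fin n) (d : ℝ) (E : ℂ) : ContDiff ℂ 3 (mapS i j d E) :=
  (contDiff_id.const_smul E).add
    ((contDiff_const.mul ((contDiff_coord i).pow 2)).neg.smul contDiff_const)

theorem contDiffAt_mapH (j : Fin n) (c : ℝ) (E : ℂ) : ContDiffAt ℂ 3 (mapH j c E) 0 := by
  have hc := (contDiff_coord j).contDiffAt (x := (0 : CE n))
  have i1 : ContDiffAt ℂ 3 (fun w : CE n => (1 - w j)⁻¹) 0 :=
    ContDiffAt.inv (contDiffAt_const.sub hc) (by simp)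
  have i2 : ContDiffAt ℂ 3 (fun w : CE n => (1 - (1 - E) * w j)⁻¹) 0 :=
    ContDiffAt.inv (contDiffAt_const.sub (contDiffAt_const.mul hc)) (by simp)
  unfold mapH
  simp only [div_eq_mul_inv]
  exact (((contDiffAt_const.mul (contDiffAt_const.mul (hc.mul i1)).neg.cexp).mul i2).smul
    (contDiffAt_id.sub (hc.smul contDiffAt_const))).add
    (((contDiffAt_const.mul hc).mul i2).smul contDiffAt_const)

theorem third_two_phase {i j : Fin n} (hij : i ≠ j) (c d : ℝ) (m E₁ E₂ : ℂ) :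
    ip (taylorTerm 3 (fun z => m • mapH j c E₂ (mapS i j d E₁ z)) (EuclideanSpace.single i 1))
      (EuclideanSpace.single i 1) =
      m * E₂ * E₁ * ((c - 1) * (1 - E₂) * (d * (E₁ * (1 - E₁)))) := by
  have h0 : mapS i j d E₁ 0 = 0 := by simp [mapS]
  have hf : ContDiffAt ℂ 3 (fun z => m • mapH j c E₂ (mapS i j d E₁ z)) 0 := by
    refine ContDiffAt.const_smul m ?_
    exact ContDiffAt.comp (g := mapH j c E₂) 0 (by rw [h0]; exact contDiffAt_mapH j c E₂)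
      (contDiff_mapS i j d E₁).contDiffAt
  set u : ℂ := d * (E₁ * (1 - E₁)) with hu
  let G : ℂ → ℂ := fun w => m * E₁ *
    (E₂ * Complex.exp (-((c : ℂ) * (1 - E₂) * (-(u * w) / (1 - -(u * w))))) /
      (1 - (1 - E₂) * -(u * w)))
  have e : (fun ζ : ℂ => (m • mapH j c E₂ (mapS i j d E₁ (ζ • EuclideanSpace.single i 1))) i) =
      fun ζ => ζ * G (ζ ^ 2) := by
    funext ζ
    have a1 : mapS i j d E₁ (ζ • EuclideanSpace.single i 1) i = E₁ * ζ := by simp [mapS, hij]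
    have a2 : mapS i j d E₁ (ζ • EuclideanSpace.single i 1) j = -(u * ζ ^ 2) := by
      simp [mapS, hij.symm, hu]
    simp only [mapH, PiLp.smul_apply, PiLp.add_apply, PiLp.sub_apply, a1, a2, smul_eq_mul, G]
    simp only [PiLp.single_apply, if_neg hij, mul_zero, sub_zero, add_zero]
    ring
  have hw : HasDerivAt (fun w : ℂ => -(u * w)) (-u) 0 :=
    HasDerivAt.congr_deriv ((hasDerivAt_id (0 : ℂ)).const_mul u).neg (by rw [mul_one])
  have hG : HasDerivAt G _ 0 :=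
    ((((hw.div (hw.const_sub 1) (by simp)).const_mul ((c : ℂ) * (1 - E₂))).neg.cexp.const_mul
      E₂).div ((hw.const_mul (1 - E₂)).const_sub 1) (by simp)).const_mul (m * E₁)
  have hA : AnalyticAt ℂ G 0 := by
    have a1 : AnalyticAt ℂ (fun w : ℂ => -(u * w)) 0 := by fun_prop
    exact analyticAt_const.mul ((analyticAt_const.mul
      (analyticAt_const.mul (a1.div (analyticAt_const.sub a1) (by simp))).neg.cexp).div
      (analyticAt_const.sub (analyticAt_const.mul a1)) (by simp))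
  rw [slice_coeff hf, e, third_deriv_odd hA, hG.deriv]
  simp
  ring

theorem exists_third (hn : 2 ≤ n) {M : ℝ} (hM : 1 < M) :
    ∃ f ∈ Reach (idOp n) (Real.log M), ∃ z : CE n, ‖z‖ = 1 ∧
      ip (taylorTerm 3 f z) z =
        ((3 * Real.sqrt 3 / 4 * (1 + Real.sqrt 2) * (1 - 1 / M) ^ 2 : ℝ) : ℂ) := by
  let i : Fin n := ⟨0, by omega⟩
  let j : Fin n := ⟨1, by omega⟩
  have hij : i ≠ j := by simp [i, j]
  have hM0 : 0 < M := by linarith
  have hi : 1 / M < 1 := (div_lt_one hM0).2 hM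
  have hi0 : 0 < 1 / M := by positivity
  set s : ℝ := (1 + 1 / M) / 2 with hs
  have hs0 : 0 < s := by positivity
  have ha : 0 ≤ -Real.log s := by
    rw [neg_nonneg]; exact Real.log_nonpos hs0.le (by rw [hs]; linarith)
  have haT : -Real.log s ≤ Real.log M := by
    rw [← Real.log_inv]
    refine Real.log_le_log (by positivity) ?_
    rw [inv_le_comm₀ hs0 hM0, ← one_div, hs]
    linarith
  refine ⟨_, reach_concat (inN_genS hij) (inN_genH j)
    (Φ₁ := fun t z => mapS i j (3 * Real.sqrt 3 / 2) (ee t) z)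
    (Φ₂ := fun t z => mapH j (3 + 2 * Real.sqrt 2) (ee t) z)
    (fun z => by simp only [ee_zero, mapS_one]) (fun z => by simp only [ee_zero, mapH_one])
    (fun z _ t _ => hasDerivAt_mapS hij _ z t) (fun z hz t ht => hasDerivAt_mapH j _ hz ht)
    (fun z hz t ht => mapS_mem hij hz ht) (fun z hz t ht => mapH_mem j hz ht) ha haT,
    EuclideanSpace.single i 1, by simp, ?_⟩
  rw [third_two_phase hij]
  have e1 : ee (-Real.log s) = (s : ℂ) := by rw [ee, neg_neg, Real.exp_log hs0]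
  have e2 : ee (Real.log M - -Real.log s) = ((1 / (M * s) : ℝ) : ℂ) := by
    rw [ee, sub_neg_eq_add, ← Real.log_mul hM0.ne' hs0.ne', Real.exp_neg,
      Real.exp_log (by positivity), one_div]
  rw [e1, e2, Real.exp_log hM0]
  norm_cast
  have h1 : M * s = (M + 1) / 2 := by rw [hs]; field_simp
  rw [h1, hs]
  field_simp
  ring

theorem three_lt {M : ℝ} (hM : 46 ≤ M) :
    3 < 3 * Real.sqrt 3 / 4 * (1 + Real.sqrt 2) * (1 - 1 / M) ^ 2 := by
  have h3 : 1.732 ≤ Real.sqrt 3 := Real.le_sqrt_of_sq_le (by norm_num)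
  have h2 : 1.4142 ≤ Real.sqrt 2 := Real.le_sqrt_of_sq_le (by norm_num)
  have h1 : 1 / M ≤ 1 / 46 := one_div_le_one_div_of_le (by norm_num) hM
  have h4 : (45 / 46 : ℝ) ≤ 1 - 1 / M := by linarith
  calc (3 : ℝ) < 3 * 1.732 / 4 * (1 + 1.4142) * (45 / 46) ^ 2 := by norm_num
    _ ≤ _ := by gcongr

end Pool.Agent.Lib.MP_c027d2_an
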